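import Pool.Agent.Helper89.EA.S.T1

/-!
# Project EA, piece S-T5: scheme extensions

`scheme_ext`.  For a finite set `F` of `K` let `θ F : F → N` be such that `(f', F)` and
`(f, θ F)` have the same type (`Leg`; extend `θ F` arbitrarily to `K`, `N` is nonempty if `K` is).  Let `u` be
a cone ultrafilter on `Finset K`, `K' = UP u (fun _ => N')`, `β k = UP.mk u (fun F => X.i (θ F k))`
(an embedding by `up_emb`), `g' d` the diagonal image of `g d`.  For a finite tuple `y` of `K` and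
`m` with `ST (f', y) (f, m)`: for almost all `F` (those containing the entries of `y` and `f'`),
`(f, θ F ∘ y)` has the type of `(f', y)`, hence of `(f, m)`, and `θ F ∘ f' = f` (equality pattern),
so by `NSb` `(g, f, θ F ∘ y)` and `(g, f, m)` have the same type; `up_st_iff` for finite subtuples
(`st_finite`).

The other statements are short consequences; e.g. `scheme_pat`: a pattern of `g'` with the
parameters `y : Fin n → K` is a pattern of `g` with parameters `m` given by `Leg`.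
-/

namespace Pool.Agent.Helper89.EA

variable {σ : Sig} {M N N' : Type} {M0 : RS σ M} {A : RS σ N}

/-- `h` is, over `K`, the family given by the scheme of `g` at `f'` -/
def IsSch (X : Ext M0 A N') {D : Type} (g : D → N') {p : ℕ} (f : Fin p → N) {K K' : Type}
    {C : RS σ K} (f' : Fin p → K) (Y : Ext M0 C K') (h : D → K') : Prop :=
  ∀ (κ : Type) [Finite κ] (y : κ → K) (m : κ → N), ST C A (Sum.elim f' y) (Sum.elim f m) →
    ST Y.B X.B (Sum.elim h (Y.i ∘ Sum.elim f' y)) (Sum.elim g (X.i ∘ Sum.elim f m))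

/-- `Leg` for arbitrary finite index types -/
theorem leg_fin {p : ℕ} {f : Fin p → N} {K : Type} {C : RS σ K} {f' : Fin p → K}
    (h : Leg A f C f') {κ : Type} [Finite κ] (y : κ → K) :
    ∃ m : κ → N, ST C A (Sum.elim f' y) (Sum.elim f m) := by
  obtain ⟨n, ⟨e⟩⟩ := Finite.exists_equiv_fin κ
  obtain ⟨m, hm⟩ := h n (y ∘ e.symm)
  refine ⟨m ∘ e, ?_⟩
  have h1 := st_comp hm (Sum.map id e)
  have h2 : Sum.elim f' (y ∘ e.symm) ∘ Sum.map id e = Sum.elim f' y := by
    funext t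
    rcases t with t | t <;> simp
  have h3 : Sum.elim f m ∘ Sum.map id e = Sum.elim f (m ∘ e) := by
    funext t
    rcases t with t | t <;> simp
  rw [h2, h3] at h1
  exact h1

theorem scheme_ext (X : Ext M0 A N') {D : Type} {g : D → N'} {p : ℕ} {f : Fin p → N}
    (hf : NSb X f g) {K : Type} {C : RS σ K} (hC : InC M0 C) {f' : Fin p → K}
    (hL : Leg A f C f') :
    ∃ (K' : Type) (Y : Ext M0 C K') (h : D → K'), IsSch X g f f' Y h := by
  classical
  obtain ⟨u, hu⟩ := exists_cone_ultrafilter K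
  choose m hm using fun F : Finset K => leg_fin hL (κ := F) (fun k => (k : K))
  let θ : Finset K → K → N := fun F k =>
    if hk : k ∈ F then m F ⟨k, hk⟩ else (Classical.choose (hL 1 fun _ => k)) 0
  -- the basic property of `θ`
  have hθ : ∀ (κ : Type) (y : κ → K) (F : Finset K), (∀ j, y j ∈ F) →
      ST C A (Sum.elim f' y) (Sum.elim f (θ F ∘ y)) := by
    intro κ y F hF
    have h1 := st_comp (hm F) (Sum.map id (fun j => (⟨y j, hF j⟩ : F)) : Fin p ⊕ κ → Fin p ⊕ F)
    have h2 : Sum.elim f' (fun k : F => (k : K)) ∘ Sum.map id (fun j => (⟨y j, hF j⟩ : F))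
        = Sum.elim f' y := by
      funext t
      rcases t with t | t <;> simp
    have h3 : Sum.elim f (m F) ∘ Sum.map id (fun j => (⟨y j, hF j⟩ : F))
        = Sum.elim f (θ F ∘ y) := by
      funext t
      rcases t with t | t
      · simp
      · simp [θ, hF t]
    rw [h2, h3] at h1
    exact h1
  have hθf : ∀ F : Finset K, (∀ j, f' j ∈ F) → ∀ j, θ F (f' j) = f j := by
    intro F hF j
    have h1 := (hθ (Fin p) f' F hF).1 (Sum.inl j) (Sum.inr j)
    exact (h1.1 rfl).symm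
  have hemb : Emb C (UP.rs u (fun _ : Finset K => X.B))
      (fun k => UP.mk u (fun F => X.i (θ F k))) := by
    refine up_emb (u := u) (A := fun _ : Finset K => X.B) (fun F k => X.i (θ F k)) ?_
    intro n v
    filter_upwards [cone_eventually hu v] with F hF
    have h1 : ST C A v (θ F ∘ v) := st_sum_right (hθ (Fin n) v F hF)
    exact st_trans h1 (emb_st X.emb (θ F ∘ v))
  let Y : Ext M0 C (UP u (fun _ : Finset K => N')) :=
    { B := UP.rs u (fun _ : Finset K => X.B)
      inC := up_inC (u := u) (A := fun _ : Finset K => X.B) (fun _ => X.inC)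
      i := fun k => UP.mk u (fun F => X.i (θ F k))
      emb := hemb }
  refine ⟨_, Y, fun d => UP.mk u (fun _ => g d), ?_⟩
  intro κ _ y mm hy
  refine st_finite fun n x => ?_
  have e1 : (Sum.elim (fun d => UP.mk u (fun _ : Finset K => g d)) (Y.i ∘ Sum.elim f' y)) ∘ x
      = fun j => UP.mk u (fun F => Sum.elim g (X.i ∘ θ F ∘ Sum.elim f' y) (x j)) := by
    funext j
    simp only [Function.comp]
    rcases x j with t | t <;> rfl
  rw [e1]
  have key := up_st_iff (u := u) (A := fun _ : Finset K => X.B)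
    (fun (j : Fin n) (F : Finset K) => Sum.elim g (X.i ∘ θ F ∘ Sum.elim f' y) (x j)) X.B
    (Sum.elim g (X.i ∘ Sum.elim f mm) ∘ x)
  refine key.2 ?_
  filter_upwards [cone_eventually hu y, cone_eventually hu f'] with F hF1 hF2
  have e2 : θ F ∘ Sum.elim f' y = Sum.elim f (θ F ∘ y) := by
    funext t
    rcases t with t | t
    · exact hθf F hF2 t
    · rfl
  have h1 : ST A A (Sum.elim f (θ F ∘ y)) (Sum.elim f mm) :=
    st_trans (st_symm (hθ κ y F hF1)) hy
  have h2 := nsb_fin hf (θ F ∘ y) mm h1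
  rw [← e2] at h2
  exact st_comp h2 x

/-- countable version -/
theorem scheme_ext_countable (X : Ext M0 A N') {D : Type} [Countable D] {g : D → N'} {p : ℕ}
    {f : Fin p → N} (hf : NSb X f g) {K : Type} [Countable K] {C : RS σ K} (hC : InC M0 C)
    {f' : Fin p → K} (hL : Leg A f C f') :
    ∃ (K' : Type) (_ : Countable K') (Y : Ext M0 C K') (h : D → K'), IsSch X g f f' Y h := by
  obtain ⟨K', Y, h, hs⟩ := scheme_ext X hf hC hL
  let S : Set K' := Set.range Y.i ∪ Set.range h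
  have hS : Countable S := ((Set.countable_range _).union (Set.countable_range _)).to_subtype
  have hemb : Emb (Y.B.comap (fun s : S => (s : K'))) Y.B (fun s : S => (s : K')) :=
    emb_comap Y.B Subtype.val_injective
  have hi : Emb C (Y.B.comap (fun s : S => (s : K')))
      (fun k => (⟨Y.i k, Or.inl ⟨k, rfl⟩⟩ : S)) :=
    st_trans Y.emb (st_symm (emb_st hemb (fun k => (⟨Y.i k, Or.inl ⟨k, rfl⟩⟩ : S))))
  refine ⟨S, hS, ⟨Y.B.comap (fun s : S => (s : K')), inC_of_emb hemb Y.inC,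
    fun k => ⟨Y.i k, Or.inl ⟨k, rfl⟩⟩, hi⟩, fun d => ⟨h d, Or.inr ⟨d, rfl⟩⟩, ?_⟩
  intro κ _ y m hy
  have h1 := hs κ y m hy
  refine st_trans (emb_st hemb _) ?_
  have e : (fun s : S => (s : K')) ∘ (Sum.elim (fun d => (⟨h d, Or.inr ⟨d, rfl⟩⟩ : S))
      ((fun k => (⟨Y.i k, Or.inl ⟨k, rfl⟩⟩ : S)) ∘ Sum.elim f' y))
      = Sum.elim h (Y.i ∘ Sum.elim f' y) := by
    funext t
    rcases t with t | t <;> rfl
  show ST Y.B X.B ((fun s : S => (s : K')) ∘ (Sum.elim (fun d => (⟨h d, Or.inr ⟨d, rfl⟩⟩ : S))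
      ((fun k => (⟨Y.i k, Or.inl ⟨k, rfl⟩⟩ : S)) ∘ Sum.elim f' y))) _
  rw [e]
  exact h1

theorem leg_self (hA : EC M0 A) {p : ℕ} (f : Fin p → N) {K : Type} (Y : Ext M0 A K) :
    Leg A f Y.B (Y.i ∘ f) :=
  fun _ y => ec_finite hA Y.inC Y.emb f y

section

variable {X : Ext M0 A N'} {D : Type} {g : D → N'} {p : ℕ} {f : Fin p → N} {K K' : Type}
  {C : RS σ K} {f' : Fin p → K} {Y : Ext M0 C K'} {h : D → K'}

/-- the scheme for a family of elements of `D` and of elements of `K` -/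
private theorem sch_sub (hs : IsSch X g f f' Y h) {κ ι : Type} [Finite κ] {y : κ → K} {m : κ → N}
    (hy : ST C A (Sum.elim f' y) (Sum.elim f m)) (α : ι → D) :
    ST Y.B X.B (Sum.elim (h ∘ α) (Y.i ∘ y)) (Sum.elim (g ∘ α) (X.i ∘ m)) := by
  have h1 := st_comp (hs κ y m hy) (Sum.map α Sum.inr : ι ⊕ κ → D ⊕ (Fin p ⊕ κ))
  have e1 : Sum.elim h (Y.i ∘ Sum.elim f' y) ∘ (Sum.map α Sum.inr : ι ⊕ κ → D ⊕ (Fin p ⊕ κ))
      = Sum.elim (h ∘ α) (Y.i ∘ y) := by
    funext t
    rcases t with t | t <;> rfl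
  have e2 : Sum.elim g (X.i ∘ Sum.elim f m) ∘ (Sum.map α Sum.inr : ι ⊕ κ → D ⊕ (Fin p ⊕ κ))
      = Sum.elim (g ∘ α) (X.i ∘ m) := by
    funext t
    rcases t with t | t <;> rfl
  rw [e1, e2] at h1
  exact h1

theorem scheme_pat (hs : IsSch X g f f' Y h) (hL : Leg A f C f') : Pat Y h ⊆ Pat X g := by
  rintro π ⟨c, hc⟩
  obtain ⟨m, hm⟩ := hL _ c
  refine ⟨m, ?_⟩
  rw [← hc]
  exact (typ_eq_iff.2 (sch_sub hs hm π.2.2.1)).symm

theorem scheme_nsb (hs : IsSch X g f f' Y h) (hL : Leg A f C f') : NSb Y f' h := by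
  intro n c c' hcc
  obtain ⟨m, hm⟩ := hL _ c'
  exact st_trans (hs (Fin n) c m (st_trans hcc hm)) (st_symm (hs (Fin n) c' m hm))

theorem scheme_out (hs : IsSch X g f f' Y h) (hL : Leg A f C f') (ho : ∀ d n, g d ≠ X.i n) :
    ∀ d n, h d ≠ Y.i n := by
  intro d k hk
  obtain ⟨m, hm⟩ := hL 1 (fun _ => k)
  have h1 := (sch_sub hs hm (fun _ : Unit => d)).1 (Sum.inl ()) (Sum.inr 0)
  exact ho d (m 0) (h1.1 hk)

theorem scheme_inj (hs : IsSch X g f f' Y h) (hL : Leg A f C f') (hg : Function.Injective g) :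
    Function.Injective h := by
  intro d d' hd
  obtain ⟨m, hm⟩ := hL 0 Fin.elim0
  have h1 := (hs (Fin 0) Fin.elim0 m hm).1 (Sum.inl d) (Sum.inl d')
  exact hg (h1.1 hd)

theorem scheme_fty (hs : IsSch X g f f' Y h) (hL : Leg A f C f') (hT : FTy X g) : FTy Y h := by
  obtain ⟨m, b, hb⟩ := hT
  refine ⟨m, b, fun d => ?_⟩
  obtain ⟨d', hd'⟩ := hb d
  refine ⟨d', fun n c => ?_⟩
  obtain ⟨w, hw⟩ := hL _ c
  have h1 := sch_sub hs hw d
  have h2 := sch_sub hs hw (b ∘ d')
  exact st_trans h1 (st_trans (hd' n w) (st_symm h2))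

end

end Pool.Agent.Helper89.EA
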