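import Pool.Agent.Helper89.EA.S.T4
import Pool.Agent.Helper89.EA.S.T5

/-!
# Project EA, piece S-T14a: consequences of finitely many types

`fty_of_finTy`: `FinTy` gives `Y j, a j` (`j < q`).  For each `j` such that some
`d : Fin σ.r → D` satisfies `STo X (Y j) (g ∘ d) (a j)` choose one; the finite subfamily consists
of all entries of the chosen `d`.

`finA_of_finTy`.  Let `C, F` be as in the negation of `FinA`, `Y t, h t` the scheme extensions at
`F t` (`scheme_ext`); `h t` is outside of `K` (`scheme_out`).  `FinTy M0 C` gives `Z j, a j`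
(`j < q`), `FTy X g` gives `m, b`.  For each `t` and `δ : Fin σ.r → Fin m` there is `φ t δ : Fin q`
with `STo (Y t) (Z (φ t δ)) (h t ∘ b ∘ δ) (a (φ t δ))`.  There are `t ≠ t'` with
`φ t = φ t'` (pigeonhole).  Then `h t ∘ b ∘ δ` and `h t' ∘ b ∘ δ` have the same type over `K` for
all `δ`.  We show `SchEq X g f C (F t) (F t')`, a contradiction: let `ST (F t, y) (f, m1)`,
`ST (F t', y) (f, m2)`.  By `st_small'` it is enough to see `ST (g ∘ d, m1) (g ∘ d, m2)` for all
`d : Fin σ.r → D` (entries not in `D` are replaced; if there is no entry in `D` use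
`ST (y) (m1)`, `ST (y) (m2)`).  Let `δ` be such that `STo X X (g ∘ d) (g ∘ b ∘ δ)`; then
`(g ∘ d, m1) ~ (g ∘ b ∘ δ, m1) ~ (h t ∘ b ∘ δ, y) ~ (h t' ∘ b ∘ δ, y) ~ (g ∘ b ∘ δ, m2) ~
(g ∘ d, m2)` by `IsSch`.
-/

namespace Pool.Agent.Helper89.EA

variable {σ : Sig} {M N N' : Type} {M0 : RS σ M} {A : RS σ N}

theorem fty_of_finTy (hfin : FinTy M0 A) (X : Ext M0 A N') {D : Type} {g : D → N'}
    (hout : ∀ d n, g d ≠ X.i n) : FTy X g := by
  classical
  obtain ⟨q, K, Y, a, H⟩ := hfin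
  rcases isEmpty_or_nonempty D with hD | ⟨⟨d0⟩⟩
  · exact ⟨0, Fin.elim0, fun d => (hD.elim (d ⟨0, lt_of_lt_of_le Nat.zero_lt_two σ.hr⟩))⟩
  · have he : ∀ j, ∃ e : Fin σ.r → D, (∃ d : Fin σ.r → D, STo X (Y j) (g ∘ d) (a j)) →
        STo X (Y j) (g ∘ e) (a j) := by
      intro j
      by_cases h : ∃ d : Fin σ.r → D, STo X (Y j) (g ∘ d) (a j)
      · obtain ⟨d, hd⟩ := h
        exact ⟨d, fun _ => hd⟩
      · exact ⟨fun _ => d0, fun h' => (h h').elim⟩
    choose e he using he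
    refine ⟨q * σ.r, fun k => e (finProdFinEquiv.symm k).1 (finProdFinEquiv.symm k).2,
      fun d => ?_⟩
    obtain ⟨j, hj⟩ := H N' X (g ∘ d) (fun i n => hout (d i) n)
    have h2 := he j ⟨d, hj⟩
    refine ⟨fun i => finProdFinEquiv (j, i), ?_⟩
    have e1 : (g ∘ (fun k => e (finProdFinEquiv.symm k).1 (finProdFinEquiv.symm k).2) ∘
        fun i => finProdFinEquiv (j, i)) = g ∘ e j := by
      funext i
      simp only [Function.comp_apply, Equiv.symm_apply_apply]
    intro n c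
    rw [e1]
    exact st_trans (hj n c) (st_symm (h2 n c))

/-- the scheme for a family of elements of `D` and of elements of `K` -/
private theorem sch_sub' {X : Ext M0 A N'} {D : Type} {g : D → N'} {p : ℕ} {f : Fin p → N}
    {K K' : Type} {C : RS σ K} {f' : Fin p → K} {Y : Ext M0 C K'} {h : D → K'}
    (hs : IsSch X g f f' Y h) {κ ι : Type} [Finite κ] {y : κ → K} {m : κ → N}
    (hy : ST C A (Sum.elim f' y) (Sum.elim f m)) (α : ι → D) :
    ST Y.B X.B (Sum.elim (h ∘ α) (Y.i ∘ y)) (Sum.elim (g ∘ α) (X.i ∘ m)) := by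
  have h1 := st_comp (hs κ y m hy) (Sum.map α Sum.inr : ι ⊕ κ → D ⊕ (Fin p ⊕ κ))
  have e1 : Sum.elim h (Y.i ∘ Sum.elim f' y) ∘ (Sum.map α Sum.inr : ι ⊕ κ → D ⊕ (Fin p ⊕ κ))
      = Sum.elim (h ∘ α) (Y.i ∘ y) := by
    funext t
    rcases t with t | t <;> rfl
  have e2 : Sum.elim g (X.i ∘ Sum.elim f m) ∘ (Sum.map α Sum.inr : ι ⊕ κ → D ⊕ (Fin p ⊕ κ))
      = Sum.elim (g ∘ α) (X.i ∘ m) := by
    funext t
    rcases t with t | t <;> rfl
  rw [e1, e2] at h1
  exact h1

theorem finA_of_finTy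
    (Hfin : ∀ (K : Type) [Countable K] (C : RS σ K), EC M0 C → FinTy M0 C)
    (X : Ext M0 A N') {D : Type} {g : D → N'} (hout : ∀ d n, g d ≠ X.i n) (hT : FTy X g)
    {p : ℕ} {f : Fin p → N} (hf : NSb X f g) : FinA X g f := by
  classical
  intro K _ C hC κ _ hex
  obtain ⟨F, hF, hne⟩ := hex
  choose K' Y h hs using fun t => scheme_ext X hf hC.1 (hF t)
  obtain ⟨q, L, Z, a, H⟩ := Hfin K C hC
  obtain ⟨m, b, hb⟩ := hT
  have hφ : ∀ (t : ℕ) (δ : Fin σ.r → Fin m), ∃ j, STo (Y t) (Z j) (h t ∘ b ∘ δ) (a j) :=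
    fun t δ => H _ (Y t) _ (fun i n => scheme_out (hs t) (hF t) hout _ n)
  choose φ hφ using hφ
  obtain ⟨t, t', htt, hφtt⟩ : ∃ t t', t ≠ t' ∧ φ t = φ t' :=
    Finite.exists_ne_map_eq_of_infinite φ
  apply hne t t' htt
  intro y m1 m2 h1 h2
  have key : ∀ d : Fin σ.r → D,
      ST X.B X.B (Sum.elim (g ∘ d) (X.i ∘ m1)) (Sum.elim (g ∘ d) (X.i ∘ m2)) := by
    intro d
    obtain ⟨δ, hδ⟩ := hb d
    have A1 := hδ σ.r m1
    have A2 := sch_sub' (hs t) h1 (b ∘ δ)
    have A3 := hφ t δ σ.r y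
    have A3' := hφ t' δ σ.r y
    have A2' := sch_sub' (hs t') h2 (b ∘ δ)
    have A1' := hδ σ.r m2
    rw [← hφtt] at A3'
    exact st_trans A1 (st_trans (st_symm A2) (st_trans A3 (st_trans (st_symm A3')
      (st_trans A2' (st_symm A1')))))
  refine st_small' X.inC X.inC fun x => ?_
  by_cases hz : ∃ s d, x s = Sum.inl d
  · obtain ⟨s0, d0, hd0⟩ := hz
    have h3 := st_comp (key fun s => Sum.elim id (fun _ => d0) (x s))
      (fun s => Sum.map (fun _ => s) id (x s) : Fin σ.r → Fin σ.r ⊕ Fin σ.r)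
    have e2 : ∀ c : Fin σ.r → N,
        Sum.elim (g ∘ fun s => Sum.elim id (fun _ => d0) (x s)) (X.i ∘ c) ∘
          (fun s => Sum.map (fun _ => s) id (x s)) = Sum.elim g (X.i ∘ c) ∘ x := by
      intro c
      funext s
      simp only [Function.comp_apply]
      rcases hxs : x s with d | i
      · simp [hxs]
      · simp
    rw [e2, e2] at h3
    exact h3
  · have hy : ∀ s, ∃ z, x s = Sum.inr z := by
      intro s
      rcases hxs : x s with d | z
      · exact (hz ⟨s, d, hxs⟩).elim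
      · exact ⟨z, rfl⟩
    choose z hz' using hy
    have hxz : x = Sum.inr ∘ z := funext hz'
    have h4 : ST A A m1 m2 := st_trans (st_symm (st_sum_right h1)) (st_sum_right h2)
    have h5 := st_trans (st_symm (emb_st X.emb m1)) (st_trans h4 (emb_st X.emb m2))
    rw [hxz]
    exact st_comp h5 z

end Pool.Agent.Helper89.EA
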