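import Pool.Agent.Helper89.EA.S.T4

/-!
# Project EA, piece S-T14c: common extensions; connected sets over larger bases

`am_omega`: chain `V 0 = K 0`, `V (i + 1)` = countable amalgam of `V i` and `K (i + 1)` over `N`
(`am`, `exists_countable_sub`, or `am_ec`), `chain_limit`.

`conn_free`: suppose that `P, Q` is a splitting of `B` and `FS ⟨Z.B, _, β, _⟩ g'_P g'_Q`; we show
`FS X g_P g_Q`.  Let `c` be a finite tuple of `N`.  There is `x0 : P → K` with
`ST (g'_P, g'_Q, c) (β ∘ x0, g'_Q, c)`.  By `hfs` and `fs_symm`, `FS Z (β ∘ x0) g'_Q`, so there is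
`x1 : P → N` with `ST (β ∘ x0, g'_Q, c) (Z.i ∘ x1, g'_Q, c)`.  By `STo X Z g g'`:
`(g_P, g_Q, c) ~ (g'_P, g'_Q, c) ~ (x1, g'_Q, c) ~ (x1, g_Q, c)`.
-/

namespace Pool.Agent.Helper89.EA

variable {σ : Sig} {M N N' : Type} {M0 : RS σ M} {A : RS σ N}

/-- restriction of types to tuples of common coordinates -/
private theorem st_sub14 {K L : Type} {B : RS σ K} {C : RS σ L} {ι κ : Type} {v : ι → K}
    {w : ι → L} {v' : κ → K} {w' : κ → L} (h : ST B C v w)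
    (hf : ∀ i, ∃ j, v' i = v j ∧ w' i = w j) : ST B C v' w' := by
  choose e he using hf
  have h1 : v' = v ∘ e := funext fun i => (he i).1
  have h2 : w' = w ∘ e := funext fun i => (he i).2
  rw [h1, h2]
  exact st_comp h e

/-- the same type over `N`, for finite parameter tuples with any index type -/
private theorem sto_fin14 {N'' : Type} {X : Ext M0 A N'} {X' : Ext M0 A N''} {U : Type}
    {u : U → N'} {u' : U → N''} (h : STo X X' u u') {κ : Type} [Finite κ] (c : κ → N) :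
    ST X.B X'.B (Sum.elim u (X.i ∘ c)) (Sum.elim u' (X'.i ∘ c)) := by
  obtain ⟨n, ⟨e⟩⟩ := Finite.exists_equiv_fin κ
  refine st_sub14 (h n (c ∘ e.symm)) ?_
  rintro (i | i)
  · exact ⟨Sum.inl i, rfl, rfl⟩
  · exact ⟨Sum.inr (e i), by simp, by simp⟩

/-- a countable extension -/
private structure Cx14 (M0 : RS σ M) (A : RS σ N) where
  /-- the points -/
  L : Type
  /-- countable -/
  cnt : Countable L
  /-- the extension -/
  X : Ext M0 A L

/-- a common extension of countably many countable extensions -/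
theorem am_omega (hA : EC M0 A) [Countable N] {K : ℕ → Type} [∀ i, Countable (K i)]
    (Y : ∀ i, Ext M0 A (K i)) :
    ∃ (K' : Type) (_ : Countable K') (Z : Ext M0 A K') (β : ∀ i, K i → K'),
      ∀ i, Emb (Y i).B Z.B (β i) ∧ β i ∘ (Y i).i = Z.i := by
  have step : ∀ (i : ℕ) (V : Cx14 M0 A), ∃ (V' : Cx14 M0 A) (e : V.L → V'.L)
      (k : K (i + 1) → V'.L), Emb V.X.B V'.X.B e ∧ Emb (Y (i + 1)).B V'.X.B k ∧
        V'.X.i = e ∘ V.X.i ∧ k ∘ (Y (i + 1)).i = V'.X.i := by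
    intro i V
    have := V.cnt
    obtain ⟨K', hK', C, α, β, hC, hα, hβ, hαβ⟩ := am_ec hA V.X (Y (i + 1))
    exact ⟨⟨K', hK', ⟨C, hC.1, α ∘ V.X.i, emb_comp V.X.emb hα⟩⟩, α, β, hα, hβ, rfl, hαβ.symm⟩
  choose nx e k he hk h1 h2 using step
  let V : ℕ → Cx14 M0 A := fun i => Nat.rec ⟨K 0, inferInstance, Y 0⟩ (fun i V => nx i V) i
  obtain ⟨K', hK', A', κ, hC, hκ, hcomm, -⟩ := chain_limit (M0 := M0) (fun i => (V i).X.B)
    (fun i => e i (V i)) (fun i => he i (V i)) (fun i => (V i).cnt) (fun i => (V i).X.inC)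
  have hi : ∀ i, κ i ∘ (V i).X.i = κ 0 ∘ (V 0).X.i := by
    intro i
    induction i with
    | zero => rfl
    | succ i ih =>
      rw [← ih]
      have h3 : (V (i + 1)).X.i = e i (V i) ∘ (V i).X.i := h1 i (V i)
      rw [h3]
      funext x
      exact hcomm i _
  refine ⟨K', hK', ⟨A', hC, κ 0 ∘ (V 0).X.i, emb_comp (V 0).X.emb (hκ 0)⟩,
    fun i => Nat.casesOn i (κ 0) (fun i => κ (i + 1) ∘ k i (V i)), ?_⟩
  intro i
  rcases i with _ | i
  · exact ⟨hκ 0, rfl⟩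
  · refine ⟨emb_comp (hk i (V i)) (hκ (i + 1)), ?_⟩
    have h3 : k i (V i) ∘ (Y (i + 1)).i = (V (i + 1)).X.i := h2 i (V i)
    show (κ (i + 1) ∘ k i (V i)) ∘ (Y (i + 1)).i = κ 0 ∘ (V 0).X.i
    rw [Function.comp_assoc, h3]
    exact hi (i + 1)

/-- connected sets remain connected over larger bases -/
theorem conn_free (hS : Stable M0) (hA : EC M0 A) (X : Ext M0 A N') {D : Type} {g : D → N'}
    {K K' : Type} (Y : Ext M0 A K) (Z : Ext M0 A K') (β : K → K') (hβ : Emb Y.B Z.B β)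
    (hZ : Z.i = β ∘ Y.i) {g' : D → K'} (hg : STo X Z g g')
    (hfs : ∀ (U W : Type) [Finite U] [Finite W] (d : U → D) (y : W → K),
      FS Z (g' ∘ d) (β ∘ y)) {B : Finset D} (hB : ConnI X g B) :
    ConnI (⟨Z.B, Z.inC, β, hβ⟩ : Ext M0 Y.B K') g' B := by
  refine ⟨hB.1, fun P Q hP hQ hPQ hu hFS => hB.2 P Q hP hQ hPQ hu ?_⟩
  intro n c
  obtain ⟨x0, hx0⟩ := hFS n (Y.i ∘ c)
  have hx0' : ST Z.B Z.B
      (Sum.elim (Sum.elim (fun d : P => g' d) (fun d : Q => g' d)) (Z.i ∘ c))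
      (Sum.elim (Sum.elim (β ∘ x0) (fun d : Q => g' d)) (Z.i ∘ c)) := by
    rw [hZ]
    exact hx0
  have h3 : FS Z (β ∘ x0) (fun d : Q => g' d) :=
    fs_symm hS hA (hfs Q P (fun d : Q => (d : D)) x0)
  obtain ⟨x1, hx1⟩ := h3 n c
  have s1 : ST X.B Z.B (Sum.elim (Sum.elim (fun d : P => g d) (fun d : Q => g d)) (X.i ∘ c))
      (Sum.elim (Sum.elim (fun d : P => g' d) (fun d : Q => g' d)) (Z.i ∘ c)) := by
    refine st_sub14 (hg n c) ?_
    rintro ((i | i) | i)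
    · exact ⟨Sum.inl i, rfl, rfl⟩
    · exact ⟨Sum.inl i, rfl, rfl⟩
    · exact ⟨Sum.inr i, rfl, rfl⟩
  have s4 : ST Z.B X.B (Sum.elim (Sum.elim (Z.i ∘ x1) (fun d : Q => g' d)) (Z.i ∘ c))
      (Sum.elim (Sum.elim (X.i ∘ x1) (fun d : Q => g d)) (X.i ∘ c)) := by
    refine st_sub14 (st_symm (sto_fin14 hg (Sum.elim x1 c))) ?_
    rintro ((i | i) | i)
    · exact ⟨Sum.inr (Sum.inl i), rfl, rfl⟩
    · exact ⟨Sum.inl i, rfl, rfl⟩
    · exact ⟨Sum.inr (Sum.inr i), rfl, rfl⟩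
  exact ⟨x1, st_trans s1 (st_trans hx0' (st_trans hx1 s4))⟩

end Pool.Agent.Helper89.EA
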