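import Pool.Agent.Helper89.EA.S.T12
import Pool.Agent.Helper89.EA.S.T14a
import Pool.Agent.Helper89.EA.S.T14c

/-!
# Project EA, piece S-T14b: finitely many types, connected sets of unbounded size

`exists_unbounded`.  For every `n` let `K n, C n, K' n, X n, D n, g n, B n` be as in `BigConn M0 n`.
`jep_omega` gives a countable existentially closed `V` (structure `C`) with embeddings
`κ n : K n → V`.  For every `n`, `free_ext_countable` for `X n, g n` and the extension `V` of `C n`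
gives a countable `W n ⊇ V` and `h n : D n → W n`, and `conn_free` says that `B n` is connected for
the extension `Y n : Ext M0 C (W n)` and `h n`; `h n` is injective and outside of `V` (if
`h n d = β v`, then by `FS` and the equality pattern `β v` is in the image of `K n`, so by
`STo` `g n d` is in `K n`).  `am_omega` gives `Z : Ext M0 C K'`, `β n : W n → K'`.  Let
`D = {x : K' // ∀ v, x ≠ Z.i v}`, `g = Subtype.val`.  The image of `B n` in `D` is connected
(`conn_image`: `FS` is a statement on types, which are preserved by the embedding `β n`; the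
embedding is injective).
-/

namespace Pool.Agent.Helper89.EA

variable {σ : Sig} {M N N' : Type} {M0 : RS σ M} {A : RS σ N}

/-- there is a connected set with at least `n` elements over some existentially closed structure -/
def BigConn (M0 : RS σ M) (n : ℕ) : Prop :=
  ∃ (K : Type) (_ : Countable K) (C : RS σ K) (K' : Type) (X : Ext M0 C K') (D : Type)
    (_ : Finite D) (g : D → K') (B : Finset D), EC M0 C ∧ Function.Injective g ∧
      (∀ d n, g d ≠ X.i n) ∧ ConnI X g B ∧ n ≤ B.card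

/-- transport of equality of types along maps of the index types -/
private theorem st_re {K : Type} {A : RS σ N} {B : RS σ K} {ι κ : Type} {v : ι → N} {w : ι → K}
    (h : ST A B v w) (f : κ → ι) {v' : κ → N} {w' : κ → K} (hv : ∀ x, v (f x) = v' x)
    (hw : ∀ x, w (f x) = w' x) : ST A B v' w' := by
  have h1 := st_comp h f
  rwa [show v ∘ f = v' from funext hv, show w ∘ f = w' from funext hw] at h1

theorem conn_image {K' : Type} {X : Ext M0 A N'} {Z : Ext M0 A K'} {β : N' → K'}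
    (hβ : Emb X.B Z.B β) (hi : β ∘ X.i = Z.i) {D E : Type} [DecidableEq E] {g : D → N'}
    {h : E → K'} (τ : D → E) (hτ : Function.Injective τ) (hg : ∀ d, h (τ d) = β (g d))
    {B : Finset D} (hB : ConnI X g B) : ConnI Z h (B.image τ) := by
  classical
  refine ⟨hB.1.image τ, fun P Q hP hQ hPQ hcov hFS => ?_⟩
  let P' : Finset D := B.filter fun d => τ d ∈ P
  let Q' : Finset D := B.filter fun d => τ d ∈ Q
  have hP' : P'.Nonempty := by
    obtain ⟨e, he⟩ := hP
    obtain ⟨d, hd, rfl⟩ := Finset.mem_image.1 ((hcov e).2 (Or.inl he))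
    exact ⟨d, Finset.mem_filter.2 ⟨hd, he⟩⟩
  have hQ' : Q'.Nonempty := by
    obtain ⟨e, he⟩ := hQ
    obtain ⟨d, hd, rfl⟩ := Finset.mem_image.1 ((hcov e).2 (Or.inr he))
    exact ⟨d, Finset.mem_filter.2 ⟨hd, he⟩⟩
  have hdis : Disjoint P' Q' := by
    rw [Finset.disjoint_left]
    intro d h1 h2
    exact Finset.disjoint_left.1 hPQ (Finset.mem_filter.1 h1).2 (Finset.mem_filter.1 h2).2
  have hcov' : ∀ d, d ∈ B ↔ d ∈ P' ∨ d ∈ Q' := by
    intro d
    constructor
    · intro hd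
      rcases (hcov (τ d)).1 (Finset.mem_image_of_mem τ hd) with h1 | h1
      · exact Or.inl (Finset.mem_filter.2 ⟨hd, h1⟩)
      · exact Or.inr (Finset.mem_filter.2 ⟨hd, h1⟩)
    · rintro (h1 | h1) <;> exact (Finset.mem_filter.1 h1).1
  refine hB.2 P' Q' hP' hQ' hdis hcov' fun n c => ?_
  obtain ⟨u0, hu0⟩ := hFS n c
  have hmP : ∀ d : {d // d ∈ P'}, τ d.1 ∈ P := fun d => (Finset.mem_filter.1 d.2).2
  have hmQ : ∀ d : {d // d ∈ Q'}, τ d.1 ∈ Q := fun d => (Finset.mem_filter.1 d.2).2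
  refine ⟨fun d => u0 ⟨τ d.1, hmP d⟩, ?_⟩
  let ρ : ({d // d ∈ P'} ⊕ {d // d ∈ Q'}) ⊕ Fin n → ({e // e ∈ P} ⊕ {e // e ∈ Q}) ⊕ Fin n :=
    Sum.map (Sum.map (fun d => ⟨τ d.1, hmP d⟩) (fun d => ⟨τ d.1, hmQ d⟩)) id
  have h1 : ST Z.B Z.B (β ∘ Sum.elim (Sum.elim (fun d : P' => g d) (fun d : Q' => g d)) (X.i ∘ c))
      (β ∘ Sum.elim (Sum.elim (X.i ∘ fun d : P' => u0 ⟨τ d.1, hmP d⟩) (fun d : Q' => g d))
        (X.i ∘ c)) := by
    refine st_re hu0 ρ ?_ ?_
    · rintro ((d | d) | d)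
      · exact hg d.1
      · exact hg d.1
      · exact (congrFun hi (c d)).symm
    · rintro ((d | d) | d)
      · exact (congrFun hi (u0 ⟨τ d.1, hmP d⟩)).symm
      · exact hg d.1
      · exact (congrFun hi (c d)).symm
  exact st_trans (emb_st hβ _) (st_trans h1 (st_symm (emb_st hβ _)))

/-- restriction to the set itself -/
theorem conn_restrict {X : Ext M0 A N'} {D : Type} {g : D → N'} {B : Finset D}
    (hB : ConnI X g B) :
    ConnI X (fun d : {d // d ∈ B} => g d) (Finset.univ : Finset {d // d ∈ B}) := by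
  classical
  refine ⟨?_, fun P Q hP hQ hPQ hcov hFS => ?_⟩
  · obtain ⟨d, hd⟩ := hB.1
    exact ⟨⟨d, hd⟩, Finset.mem_univ _⟩
  · have hmem : ∀ (R : Finset {d // d ∈ B}) (d : D),
        d ∈ R.map (Function.Embedding.subtype _) ↔ ∃ h : d ∈ B, (⟨d, h⟩ : {d // d ∈ B}) ∈ R := by
      intro R d
      rw [Finset.mem_map]
      constructor
      · rintro ⟨x, hx, rfl⟩
        exact ⟨x.2, hx⟩
      · rintro ⟨h, hx⟩
        exact ⟨⟨d, h⟩, hx, rfl⟩
    refine hB.2 (P.map (Function.Embedding.subtype _)) (Q.map (Function.Embedding.subtype _))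
      (hP.map) (hQ.map) ?_ ?_ ?_
    · rw [Finset.disjoint_left]
      intro d h1 h2
      obtain ⟨h, h1⟩ := (hmem P d).1 h1
      obtain ⟨_, h2⟩ := (hmem Q d).1 h2
      exact Finset.disjoint_left.1 hPQ h1 h2
    · intro d
      rw [hmem, hmem]
      constructor
      · intro hd
        rcases (hcov ⟨d, hd⟩).1 (Finset.mem_univ _) with h | h
        · exact Or.inl ⟨hd, h⟩
        · exact Or.inr ⟨hd, h⟩
      · rintro (⟨h, -⟩ | ⟨h, -⟩) <;> exact h
    · exact fs_mono hFS
        (fun d : {d // d ∈ P.map (Function.Embedding.subtype _)} =>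
          (⟨⟨d.1, ((hmem P d.1).1 d.2).1⟩, ((hmem P d.1).1 d.2).2⟩ : {x // x ∈ P}))
        (fun d : {d // d ∈ Q.map (Function.Embedding.subtype _)} =>
          (⟨⟨d.1, ((hmem Q d.1).1 d.2).1⟩, ((hmem Q d.1).1 d.2).2⟩ : {x // x ∈ Q}))

theorem exists_unbounded (hS : Stable M0) (Hbig : ∀ n, BigConn M0 n) :
    ∃ (V : Type) (_ : Countable V) (C : RS σ V) (K' : Type) (_ : Countable K')
      (Z : Ext M0 C K'), EC M0 C ∧ ∀ n : ℕ, ∃ B : Finset {x : K' // ∀ v, x ≠ Z.i v},
        ConnI Z Subtype.val B ∧ n ≤ B.card := by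
  classical
  choose K hK C K' X D hD g B hEC hinj hout hconn hcard using Hbig
  obtain ⟨V, hVc, Cv, κ, hV, hκ⟩ := jep_omega C fun i => (hEC i).1
  let Y0 : ∀ n, Ext M0 (C n) V := fun n => ⟨Cv, hV.1, κ n, hκ n⟩
  choose W hW Z β g' hβ hZ hsto hfs using fun n =>
    free_ext_countable (hEC n) (X n) (g n) (Y0 n)
  let Y : ∀ n, Ext M0 Cv (W n) := fun n => ⟨(Z n).B, (Z n).inC, β n, hβ n⟩
  have hc : ∀ n, ConnI (Y n) (g' n) (B n) := fun n =>
    conn_free hS (hEC n) (X n) (Y0 n) (Z n) (β n) (hβ n) (hZ n) (hsto n) (hfs n) (hconn n)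
  have hg' : ∀ n, Function.Injective (g' n) := by
    intro n d d' hdd
    have h3 := (hsto n 0 Fin.elim0).1 (Sum.inl d) (Sum.inl d')
    have h4 : g n d = g n d' ↔ g' n d = g' n d' := h3
    exact hinj n (h4.2 hdd)
  have hne : ∀ n d v, g' n d ≠ β n v := by
    intro n d v hdv
    obtain ⟨u0, hu0⟩ := hfs n Unit Unit (fun _ => d) (fun _ => v) 0 Fin.elim0
    have h1 := (hu0.1 (Sum.inl (Sum.inl ())) (Sum.inl (Sum.inr ()))).1 hdv
    have h2 : (Z n).i (u0 ()) = β n v := h1
    have h3 := (hsto n 1 (fun _ => u0 ())).1 (Sum.inl d) (Sum.inr 0)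
    have h4 : g n d = (X n).i (u0 ()) ↔ g' n d = (Z n).i (u0 ()) := h3
    exact hout n d _ (h4.2 (hdv.trans h2.symm))
  obtain ⟨K'', hK'', Z', β', hβ'⟩ := am_omega hV Y
  refine ⟨V, hVc, Cv, K'', hK'', Z', hV, fun n => ?_⟩
  have hno : ∀ d v, β' n (g' n d) ≠ Z'.i v := by
    intro d v hdv
    have h1 : β' n ((Y n).i v) = Z'.i v := congrFun (hβ' n).2 v
    rw [← h1] at hdv
    exact hne n d v (emb_injective (hβ' n).1 hdv)
  let τ : D n → {x : K'' // ∀ v, x ≠ Z'.i v} := fun d => ⟨β' n (g' n d), hno d⟩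
  have hτ : Function.Injective τ := by
    intro d d' hdd
    exact hg' n (emb_injective (hβ' n).1 (congrArg Subtype.val hdd))
  refine ⟨(B n).image τ, conn_image (hβ' n).1 (hβ' n).2 τ hτ (fun _ => rfl) (hc n), ?_⟩
  rw [Finset.card_image_of_injective _ hτ]
  exact hcard n

theorem case_b (hS : Stable M0)
    (Hfin : ∀ (K : Type) [Countable K] (C : RS σ K), EC M0 C → FinTy M0 C)
    (Hbig : ∀ n, BigConn M0 n) : ManyS M0 := by
  obtain ⟨V, _, C, K', _, Z, hC, hB⟩ := exists_unbounded hS Hbig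
  have hT : FTy Z (Subtype.val : {x : K' // ∀ v, x ≠ Z.i v} → K') :=
    fty_of_finTy (Hfin V C hC) Z (fun d n => d.2 n)
  exact mainS hS hC (X := Z) (g := (Subtype.val : {x : K' // ∀ v, x ≠ Z.i v} → K'))
    Subtype.val_injective (fun d n => d.2 n) hT hB (Fin.elim0 : Fin 0 → V)
    (fun p f _ hf => finA_of_finTy Hfin Z (fun d n => d.2 n) hT hf)

end Pool.Agent.Helper89.EA
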