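import Pool.Agent.Helper89.EA.S.T15a

/-!
# Project EA, piece S-T15c: closed pieces are equal or disjoint; exchange of closed pieces

`cp_inj`: `(x) ~ (g j)` (closedness for the empty tuple) and `T.inj`.

`cp_eq_or_disj`.  Suppose that `x i0 = x' i0'` and that some `x i1` is not an entry of `x'`.  Let
`P` be the set of the `i` such that `x i` is an entry of `x'`, and `Q` its complement, and
`τ : P → Fin (k j')` with `x i = x' (τ i)`.  `T.wc j` for the splitting `P, Q` gives
`e : Fin σ.r → Fin (k j)` with values in `Q` and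
`¬ ST (g j|P, f, c) (g j|P, f, g j ∘ e)` for all `c : Fin σ.r → N`; we take `c = x ∘ e`.
The tuple `(f, x ∘ e)` is disjoint from `x'`, so
`(x', f, x ∘ e) ~ (g j', f, x ∘ e)`, hence `(x|P, f, x ∘ e) ~ (g j' ∘ τ, f, x ∘ e)`.  In
particular `(x|P, f) ~ (g j' ∘ τ, f)`, and `(x|P, f) ~ (g j|P, f)`, so by `T.sep`
`(g j|P, f, x ∘ e) ~ (g j' ∘ τ, f, x ∘ e) ~ (x|P, f, x ∘ e) ~ (g j|P, f, g j ∘ e)` (the last one by
`(x, f) ~ (g j, f)`), contradiction.  By symmetry all entries of `x'` are entries of `x`, and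
conversely.

`exchange`.  Let `e` be the permutation of `N` which maps `x n l` to `x (τ n) l` and fixes all
other points.  We show `Emb A A e`: let `v : Fin m → N` be a finite tuple (`emb_of_finite`).  For
an injective map `ρ` defined on the finite set `F` of the indices `n` such that `v` meets `x n`, let `v ρ` be
the tuple where the entries `x n l` are replaced by `x (ρ n) l`.  If `ρ` and `ρ'` differ only at
one `n0 ∈ F` then `v ρ ~ v ρ'`: the entries not in `x (ρ n0)` resp. `x (ρ' n0)` form the same tuple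
`y`, disjoint from `x (ρ n0)` and from `x (ρ' n0)`, and
`(x (ρ n0), y) ~ (g j, y) ~ (x (ρ' n0), y)`.  Any two injective `ρ, ρ'` are connected by a chain of
such changes (go through an injective `ρ''` with new values outside of the values of `ρ, ρ'`);
apply this to `ρ = id` and `ρ' = τ`.
-/

namespace Pool.Agent.Helper89.EA

variable {σ : Sig} {M N N' : Type} {M0 : RS σ M} {A : RS σ N}

/-- restriction of types along a map of indices -/
private theorem t15c_st {K L : Type} {A : RS σ K} {B : RS σ L} {ι κ : Type} {v : ι → K}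
    {w : ι → L} (h : ST A B v w) (f : κ → ι) {v' : κ → K} {w' : κ → L}
    (hv : ∀ k, v (f k) = v' k) (hw : ∀ k, w (f k) = w' k) : ST A B v' w' := by
  have e1 : v ∘ f = v' := funext hv
  have e2 : w ∘ f = w' := funext hw
  rw [← e1, ← e2]
  exact st_comp h f

private theorem t15c_sto {K L : Type} {X : Ext M0 A K} {X' : Ext M0 A L} {U : Type} {u : U → K}
    {u' : U → L} (h : STo X X' u u') {κ : Type} [Finite κ] (c : κ → N) :
    ST X.B X'.B (Sum.elim u (X.i ∘ c)) (Sum.elim u' (X'.i ∘ c)) := by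
  obtain ⟨n, ⟨e⟩⟩ := Finite.exists_equiv_fin κ
  refine t15c_st (h n (c ∘ e.symm)) (Sum.map id e) ?_ ?_
  · rintro (i | i)
    · rfl
    · show X.i (c (e.symm (e i))) = X.i (c i)
      rw [Equiv.symm_apply_apply]
  · rintro (i | i)
    · rfl
    · show X'.i (c (e.symm (e i))) = X'.i (c i)
      rw [Equiv.symm_apply_apply]

theorem cp_inj {T : CT M0 A} {j : Fin T.q} {x : Fin (T.k j) → N} (h : CP T j x) :
    Function.Injective x := by
  have h1 := st_sum_left (h.cl Empty Empty.elim (fun i => i.elim))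
  intro a b hab
  exact T.inj j ((h1.1 a b).1 hab)

private theorem t15c_sub {T : CT M0 A} {j j' : Fin T.q} {x : Fin (T.k j) → N}
    {x' : Fin (T.k j') → N} (h : CP T j x) (h' : CP T j' x') {i0 : Fin (T.k j)}
    {i0' : Fin (T.k j')} (h0 : x i0 = x' i0') : ∀ i, ∃ l, x' l = x i := by
  classical
  by_contra hcon
  push Not at hcon
  obtain ⟨i1, hi1⟩ := hcon
  set P : Finset (Fin (T.k j)) := Finset.univ.filter (fun i => ∃ l, x' l = x i) with hP
  set Q : Finset (Fin (T.k j)) := Finset.univ.filter (fun i => ¬ ∃ l, x' l = x i) with hQ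
  have mP : ∀ i, i ∈ P ↔ ∃ l, x' l = x i := fun i => by simp [hP]
  have mQ : ∀ i, i ∈ Q ↔ ¬ ∃ l, x' l = x i := fun i => by simp [hQ]
  obtain ⟨e, he, hne⟩ := (T.wc j).2 P Q ⟨i0, (mP _).2 ⟨i0', h0.symm⟩⟩
    ⟨i1, (mQ _).2 (fun ⟨l, hl⟩ => hi1 l hl)⟩
    (Finset.disjoint_left.2 fun i hi hi' => (mQ i).1 hi' ((mP i).1 hi))
    (fun d => by
      rw [mP, mQ]
      simp only [Finset.mem_univ, true_iff]
      exact em _)
  choose τ hτ using fun i : P => (mP i).1 i.2
  -- (a)
  have hd : Dj (Sum.elim T.f (x ∘ e)) x' := by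
    rintro (i | i) l hl
    · exact h'.dj i l hl
    · exact (mQ _).1 (he i) ⟨l, hl.symm⟩
  have ha := h'.cl _ _ hd
  -- the set version
  let S : Set (Fin (T.k j)) := {i | i ∈ P}
  let τS : S → Fin (T.k j') := fun i => τ ⟨i, i.2⟩
  have hsep : STo (T.Y j) (T.Y j') (fun i : S => T.g j i) (T.g j' ∘ τS) := by
    apply T.sep
    have hb := h.cl _ _ h.dj
    have h1 : ST A (T.Y j).B (Sum.elim (fun i : S => x i) T.f)
        (Sum.elim (fun i : S => T.g j i) ((T.Y j).i ∘ T.f)) :=
      t15c_st hb (Sum.map (fun i : S => (i : Fin (T.k j))) id) (by rintro (i | i) <;> rfl)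
        (by rintro (i | i) <;> rfl)
    have h2 : ST A (T.Y j').B (Sum.elim (fun i : S => x i) T.f)
        (Sum.elim (T.g j' ∘ τS) ((T.Y j').i ∘ T.f)) :=
      t15c_st ha (Sum.map τS Sum.inl) (by
        rintro (i | i)
        · exact hτ ⟨i, i.2⟩
        · rfl) (by rintro (i | i) <;> rfl)
    exact st_trans (st_symm h1) h2
  have hc := t15c_sto hsep (Sum.elim T.f (x ∘ e))
  have h3 : ST A (T.Y j').B (Sum.elim (fun i : S => x i) (Sum.elim T.f (x ∘ e)))
      (Sum.elim (T.g j' ∘ τS) ((T.Y j').i ∘ Sum.elim T.f (x ∘ e))) :=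
    t15c_st ha (Sum.map τS id) (by
      rintro (i | i)
      · exact hτ ⟨i, i.2⟩
      · rfl) (by rintro (i | i) <;> rfl)
  have h4 : ST A (T.Y j).B (Sum.elim (fun i : S => x i) (Sum.elim T.f (x ∘ e)))
      (Sum.elim (fun i : S => T.g j i) (Sum.elim ((T.Y j).i ∘ T.f) (T.g j ∘ e))) :=
    t15c_st (h.cl _ _ h.dj) (Sum.elim (fun i : S => Sum.inl (i : Fin (T.k j)))
      (Sum.elim Sum.inr (fun i => Sum.inl (e i)))) (by rintro (i | i | i) <;> rfl)
      (by rintro (i | i | i) <;> rfl)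
  have h5 : ST (T.Y j).B (T.Y j).B
      (Sum.elim (fun i : S => T.g j i) ((T.Y j).i ∘ Sum.elim T.f (x ∘ e)))
      (Sum.elim (fun i : S => T.g j i) (Sum.elim ((T.Y j).i ∘ T.f) (T.g j ∘ e))) :=
    st_trans hc (st_trans (st_symm h3) h4)
  refine hne (x ∘ e) ?_
  exact t15c_st h5 (Sum.map (fun i : P => (⟨i, i.2⟩ : S)) id) (by rintro (i | i | i) <;> rfl)
    (by rintro (i | i | i) <;> rfl)

theorem cp_eq_or_disj {T : CT M0 A} {j j' : Fin T.q} {x : Fin (T.k j) → N}
    {x' : Fin (T.k j') → N} (h : CP T j x) (h' : CP T j' x') :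
    Set.range x = Set.range x' ∨ Dj x x' := by
  by_cases hd : Dj x x'
  · exact Or.inr hd
  · left
    unfold Dj at hd
    push Not at hd
    obtain ⟨i0, i0', h0⟩ := hd
    ext a
    constructor
    · rintro ⟨i, rfl⟩
      exact t15c_sub h h' h0 i
    · rintro ⟨i, rfl⟩
      exact t15c_sub h' h h0.symm i

open Classical in
/-- the map which replaces `x n` by `x (ρ n)` -/
private noncomputable def t15c_ex {k : ℕ} (x : ℕ → Fin k → N) (ρ : ℕ → ℕ) (a : N) : N :=
  if h : ∃ q : ℕ × Fin k, x q.1 q.2 = a then x (ρ h.choose.1) h.choose.2 else a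

private theorem t15c_ex_val {k : ℕ} {x : ℕ → Fin k → N} (hi : ∀ n, Function.Injective (x n))
    (hd : ∀ n m, n ≠ m → Dj (x n) (x m)) (ρ : ℕ → ℕ) (n : ℕ) (l : Fin k) :
    t15c_ex x ρ (x n l) = x (ρ n) l := by
  have h : ∃ q : ℕ × Fin k, x q.1 q.2 = x n l := ⟨(n, l), rfl⟩
  unfold t15c_ex
  rw [dif_pos h]
  have h1 := h.choose_spec
  have h2 : h.choose.1 = n := by
    by_contra h3
    exact hd _ _ h3 _ _ h1
  have h4 : h.choose.2 = l := by
    rw [h2] at h1
    exact hi n h1
  rw [h2, h4]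

private theorem t15c_ex_out {k : ℕ} {x : ℕ → Fin k → N} (ρ : ℕ → ℕ) {a : N}
    (ha : ∀ n l, x n l ≠ a) : t15c_ex x ρ a = a := by
  unfold t15c_ex
  rw [dif_neg]
  rintro ⟨q, hq⟩
  exact ha _ _ hq

private theorem t15c_step {T : CT M0 A} {j : Fin T.q} (x : ℕ → Fin (T.k j) → N)
    (h : ∀ n, CP T j (x n)) (hd : ∀ n m, n ≠ m → Dj (x n) (x m)) {ι : Type} (v : ι → N)
    (F : Finset ℕ) (hF : ∀ i n l, v i = x n l → n ∈ F) (ρ ρ' : ℕ → ℕ) (n0 : ℕ)
    (h1 : ∀ n, n ≠ n0 → ρ' n = ρ n) (h2 : ∀ n ∈ F, n ≠ n0 → ρ n ≠ ρ n0)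
    (h3 : ∀ n ∈ F, n ≠ n0 → ρ n ≠ ρ' n0) :
    ST A A (t15c_ex x ρ ∘ v) (t15c_ex x ρ' ∘ v) := by
  classical
  have hi : ∀ n, Function.Injective (x n) := fun n => cp_inj (h n)
  let y : {i : ι // ¬ ∃ l, v i = x n0 l} → N := fun i => t15c_ex x ρ (v i)
  have hy : ∀ i, y i = t15c_ex x ρ' (v i) := by
    intro i
    by_cases hv : ∃ n l, x n l = v i
    · obtain ⟨n, l, hnl⟩ := hv
      have hn : n ≠ n0 := by
        rintro rfl
        exact i.2 ⟨l, hnl.symm⟩
      show t15c_ex x ρ (v i) = _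
      rw [← hnl, t15c_ex_val hi hd, t15c_ex_val hi hd, h1 n hn]
    · push Not at hv
      show t15c_ex x ρ (v i) = _
      rw [t15c_ex_out ρ hv, t15c_ex_out ρ' hv]
  have key : ∀ m : ℕ, (∀ n ∈ F, n ≠ n0 → ρ n ≠ m) → Dj y (x m) := by
    intro m hm i l hl
    by_cases hv : ∃ n l, x n l = v i
    · obtain ⟨n, l', hnl⟩ := hv
      have hn : n ≠ n0 := by
        rintro rfl
        exact i.2 ⟨l', hnl.symm⟩
      have h5 : y i = x (ρ n) l' := by
        show t15c_ex x ρ (v i) = _
        rw [← hnl, t15c_ex_val hi hd]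
      rw [h5] at hl
      exact hd _ _ (hm n (hF i n l' hnl.symm) hn) _ _ hl
    · push Not at hv
      have h5 : y i = v i := by
        show t15c_ex x ρ (v i) = _
        rw [t15c_ex_out ρ hv]
      rw [h5] at hl
      exact hv _ _ hl.symm
  have c1 := (h (ρ n0)).cl _ _ (key _ h2)
  have c2 := (h (ρ' n0)).cl _ _ (key _ h3)
  have c3 := st_trans c1 (st_symm c2)
  refine t15c_st c3 (fun i => if hh : ∃ l, v i = x n0 l then Sum.inl hh.choose
    else Sum.inr ⟨i, hh⟩) ?_ ?_
  · intro i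
    by_cases hh : ∃ l, v i = x n0 l
    · simp only [dif_pos hh, Sum.elim_inl, Function.comp]
      conv_rhs => rw [hh.choose_spec, t15c_ex_val hi hd]
    · simp only [dif_neg hh, Sum.elim_inr, Function.comp]
      rfl
  · intro i
    by_cases hh : ∃ l, v i = x n0 l
    · simp only [dif_pos hh, Sum.elim_inl, Function.comp]
      conv_rhs => rw [hh.choose_spec, t15c_ex_val hi hd]
    · simp only [dif_neg hh, Sum.elim_inr, Function.comp]
      exact hy ⟨i, hh⟩

private theorem t15c_shift {T : CT M0 A} {j : Fin T.q} (x : ℕ → Fin (T.k j) → N)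
    (h : ∀ n, CP T j (x n)) (hd : ∀ n m, n ≠ m → Dj (x n) (x m)) {ι : Type} (v : ι → N)
    (F : Finset ℕ) (hF : ∀ i n l, v i = x n l → n ∈ F) (ρ : ℕ → ℕ) (hρ : Function.Injective ρ)
    (m : ℕ) (hm : ∀ n ∈ F, ρ n < m) :
    ST A A (t15c_ex x ρ ∘ v) (t15c_ex x (fun n => n + m) ∘ v) := by
  classical
  have hi : ∀ n, Function.Injective (x n) := fun n => cp_inj (h n)
  have step : ∀ G : Finset ℕ, G ⊆ F →
      ST A A (t15c_ex x ρ ∘ v) (t15c_ex x (fun n => if n ∈ G then n + m else ρ n) ∘ v) := by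
    intro G
    induction G using Finset.induction_on with
    | empty =>
      intro _
      simp only [Finset.notMem_empty, if_false]
      exact st_refl _ _
    | insert a G ha ih =>
      intro hG
      have haF : a ∈ F := hG (Finset.mem_insert_self a G)
      refine st_trans (ih ((Finset.subset_insert a G).trans hG)) ?_
      refine t15c_step x h hd v F hF _ _ a ?_ ?_ ?_
      · intro n hn
        simp only [Finset.mem_insert, hn, false_or]
      · intro n hn hna
        simp only [ha, if_false]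
        have := hm a haF
        split_ifs
        · omega
        · exact fun h9 => hna (hρ h9)
      · intro n hn hna
        simp only [Finset.mem_insert_self, if_true]
        have := hm n hn
        split_ifs
        · omega
        · omega
  refine st_trans (step F subset_rfl) ?_
  have e : t15c_ex x (fun n => if n ∈ F then n + m else ρ n) ∘ v =
      t15c_ex x (fun n => n + m) ∘ v := by
    funext i
    show t15c_ex x (fun n => if n ∈ F then n + m else ρ n) (v i) =
      t15c_ex x (fun n => n + m) (v i)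
    by_cases hv : ∃ n l, x n l = v i
    · obtain ⟨n, l, hnl⟩ := hv
      rw [← hnl, t15c_ex_val hi hd, t15c_ex_val hi hd, if_pos (hF i n l hnl.symm)]
    · push Not at hv
      rw [t15c_ex_out _ hv, t15c_ex_out _ hv]
  rw [e]
  exact st_refl _ _

theorem exchange {T : CT M0 A} {j : Fin T.q} (x : ℕ → Fin (T.k j) → N)
    (h : ∀ n, CP T j (x n)) (hd : ∀ n m, n ≠ m → Dj (x n) (x m)) (τ : Equiv.Perm ℕ) :
    ∃ e : N ≃ N, Emb A A e ∧ (∀ n l, e (x n l) = x (τ n) l) ∧
      ∀ a, (∀ n l, x n l ≠ a) → e a = a := by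
  classical
  have hi : ∀ n, Function.Injective (x n) := fun n => cp_inj (h n)
  have hinv : ∀ (τ τ' : ℕ → ℕ), (∀ n, τ (τ' n) = n) → ∀ a, t15c_ex x τ (t15c_ex x τ' a) = a := by
    intro τ τ' hτ a
    by_cases hv : ∃ n l, x n l = a
    · obtain ⟨n, l, rfl⟩ := hv
      rw [t15c_ex_val hi hd, t15c_ex_val hi hd, hτ]
    · push Not at hv
      rw [t15c_ex_out _ hv, t15c_ex_out _ hv]
  refine ⟨⟨t15c_ex x τ, t15c_ex x τ.symm, hinv _ _ (fun n => τ.symm_apply_apply n),
    hinv _ _ (fun n => τ.apply_symm_apply n)⟩, ?_, ?_, ?_⟩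
  · refine emb_of_finite ?_
    intro n v
    show ST A A v (t15c_ex x τ ∘ v)
    -- the finite set of the indices met by `v`
    have hfin : {m : ℕ | ∃ i l, v i = x m l}.Finite := by
      have : {m : ℕ | ∃ i l, v i = x m l} ⊆ ⋃ i : Fin n, {m : ℕ | ∃ l, v i = x m l} := by
        rintro m ⟨i, l, hl⟩
        exact Set.mem_iUnion.2 ⟨i, l, hl⟩
      refine Set.Finite.subset (Set.finite_iUnion fun i => ?_) this
      refine Set.Subsingleton.finite ?_
      rintro m ⟨l, hl⟩ m' ⟨l', hl'⟩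
      by_contra hne
      exact hd _ _ hne _ _ (hl.symm.trans hl')
    set F := hfin.toFinset with hFdef
    have hF : ∀ i n l, v i = x n l → n ∈ F := by
      intro i n l hl
      rw [hFdef, Set.Finite.mem_toFinset]
      exact ⟨i, l, hl⟩
    obtain ⟨m, hm⟩ : ∃ m : ℕ, ∀ n ∈ F, n < m ∧ τ n < m := by
      refine ⟨F.sup (fun n => n + τ n) + 1, fun n hn => ?_⟩
      have := Finset.le_sup (f := fun n => n + τ n) hn
      omega
    have s1 := t15c_shift x h hd v F hF id Function.injective_id m (fun n hn => (hm n hn).1)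
    have s2 := t15c_shift x h hd v F hF τ τ.injective m (fun n hn => (hm n hn).2)
    have e : t15c_ex x id ∘ v = v := by
      funext i
      show t15c_ex x id (v i) = v i
      by_cases hv : ∃ n l, x n l = v i
      · obtain ⟨n, l, hnl⟩ := hv
        rw [← hnl, t15c_ex_val hi hd]
        rfl
      · push Not at hv
        rw [t15c_ex_out _ hv]
    rw [e] at s1
    exact st_trans s1 (st_symm s2)
  · intro n l
    exact t15c_ex_val hi hd _ n l
  · intro a ha
    exact t15c_ex_out _ ha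

end Pool.Agent.Helper89.EA
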