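import Pool.Agent.Helper89.EA.S.T15b
import Pool.Agent.Helper89.EA.S.T15c

/-!
# Project EA, piece S-T15d: bounded connected sets imply cellularity

Let `T` be given by `exists_ctypes`.  Let `Pc` be the set of the ranges of the closed pieces, a
countable set of pairwise disjoint finite sets (`cp_eq_or_disj`); for each `p ∈ Pc` choose `j p` and
`x p` with `CP T (j p) (x p)`, `Set.range (x p) = p`.  For each `j` with `{p | j p = j}` infinite
choose a bijection of this (countable) set with `ℕ`; the corresponding `c j n = x p_n`.  The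
exceptional set is the finite set of `almost_all_cp` together with the finitely many pieces `p` with
`{p' | j p' = j p}` finite.  The automorphisms are given by `exchange`.  (Enumerate the `j` with
infinitely many pieces by `Fin n`, `Finite.equivFin`.)  A type `j` with `k j = 0` does not occur
(`T.wc j` says that `Fin (k j)` is nonempty).
-/

namespace Pool.Agent.Helper89.EA

variable {σ : Sig} {M N N' : Type} {M0 : RS σ M} {A : RS σ N}

/-- The set of the closed pieces. -/
def Pcs (T : CT M0 A) : Type :=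
  {p : Set N // ∃ (j : Fin T.q) (x : Fin (T.k j) → N), CP T j x ∧ Set.range x = p}

/-- Closed pieces that share a point are equal. -/
theorem pcs_eq {T : CT M0 A} {p p' : Pcs T} {a : N} (h : a ∈ p.1) (h' : a ∈ p'.1) : p = p' := by
  obtain ⟨p, j, x, hx, rfl⟩ := p
  obtain ⟨p', j', x', hx', rfl⟩ := p'
  obtain ⟨l, hl⟩ := h
  obtain ⟨l', hl'⟩ := h'
  apply Subtype.ext
  rcases cp_eq_or_disj hx hx' with e | e
  · exact e
  · exact absurd (hl.trans hl'.symm) (e l l')

theorem pcs_nonempty {T : CT M0 A} (p : Pcs T) : ∃ a, a ∈ p.1 := by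
  obtain ⟨p, j, x, hx, rfl⟩ := p
  obtain ⟨l, -⟩ := (T.wc j).1
  exact ⟨x l, l, rfl⟩

theorem pcs_finite {T : CT M0 A} (p : Pcs T) : p.1.Finite := by
  obtain ⟨p, j, x, hx, rfl⟩ := p
  exact Set.finite_range x

theorem pcs_countable [Countable N] (T : CT M0 A) : Countable (Pcs T) := by
  choose f hf using fun p : Pcs T => pcs_nonempty p
  refine Function.Injective.countable (f := f) fun p p' h => ?_
  exact pcs_eq (hf p) (h ▸ hf p')

theorem cell_of_ct (hS : Stable M0) (hA : EC M0 A) [Countable N] {n0 : ℕ}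
    (hb : ∀ (K' : Type) (X : Ext M0 A K') (D : Type) (g : D → K'), Function.Injective g →
      (∀ d n, g d ≠ X.i n) → ∀ B : Finset D, ConnI X g B → B.card ≤ n0) (T : CT M0 A) :
    Cell A := by
  classical
  have hcount := pcs_countable T
  choose jj hjj using fun p : Pcs T => p.2
  -- the types with infinitely many pieces
  let J : Type := {j : Fin T.q // Infinite {p : Pcs T // jj p = j}}
  have hen : ∀ i : J, Nonempty (ℕ ≃ {p : Pcs T // jj p = i.1}) := by
    intro i
    have := i.2
    obtain ⟨e⟩ := nonempty_equiv_of_countable (α := ℕ) (β := {p : Pcs T // jj p = i.1})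
    exact ⟨e⟩
  have en : ∀ i : J, ℕ ≃ {p : Pcs T // jj p = i.1} := fun i => Classical.choice (hen i)
  have hxx : ∀ (i : J) (n : ℕ), ∃ x : Fin (T.k i.1) → N, CP T i.1 x ∧
      Set.range x = (en i n).1.1 := by
    intro i n
    obtain ⟨p, hp⟩ := en i n
    obtain ⟨x, hx, e⟩ := hjj p
    have : ∀ j : Fin T.q, jj p = j → ∃ x : Fin (T.k j) → N, CP T j x ∧ Set.range x = p.1 := by
      rintro j rfl
      exact ⟨x, hx, e⟩
    exact this _ hp
  choose xx hCP hrange using hxx
  have hmem : ∀ (i : J) (n : ℕ) (l : Fin (T.k i.1)), xx i n l ∈ (en i n).1.1 := by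
    intro i n l
    rw [← hrange]
    exact ⟨l, rfl⟩
  have hinj1 : ∀ (i i' : J) (n n' : ℕ) (a : N), a ∈ (en i n).1.1 → a ∈ (en i' n').1.1 →
      i = i' ∧ (en i n).1 = (en i' n').1 := by
    intro i i' n n' a h h'
    have e := pcs_eq h h'
    refine ⟨?_, e⟩
    apply Subtype.ext
    rw [← (en i n).2, ← (en i' n').2, e]
  let eqv := Finite.equivFin J
  refine ⟨{a : N | ¬ ∃ (j : Fin T.q) (x : Fin (T.k j) → N), CP T j x ∧ ∃ i, x i = a} ∪
    ⋃ p ∈ {p : Pcs T | ¬ Infinite {p' : Pcs T // jj p' = jj p}}, p.1, Nat.card J,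
    fun i => T.k (eqv.symm i).1, fun i n => xx (eqv.symm i) n, ?_, ?_, ?_, ?_, ?_⟩
  · refine (almost_all_cp hS hA hb T).union (Set.Finite.biUnion ?_ fun p _ => pcs_finite p)
    have h1 : {p : Pcs T | ¬ Infinite {p' : Pcs T // jj p' = jj p}} ⊆
        ⋃ j : {j : Fin T.q // ¬ Infinite {p' : Pcs T // jj p' = j}}, {p : Pcs T | jj p = j.1} := by
      intro p hp
      exact Set.mem_iUnion.2 ⟨⟨jj p, hp⟩, rfl⟩
    refine Set.Finite.subset (Set.finite_iUnion fun j => ?_) h1
    have h2 : Finite {p : Pcs T // jj p = j.1} := not_infinite_iff_finite.1 j.2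
    exact h2
  · intro a
    by_cases h : ∃ (j : Fin T.q) (x : Fin (T.k j) → N), CP T j x ∧ ∃ i, x i = a
    · obtain ⟨j, x, hx, l, hl⟩ := h
      let p : Pcs T := ⟨Set.range x, j, x, hx, rfl⟩
      have hap : a ∈ p.1 := ⟨l, hl⟩
      by_cases h2 : Infinite {p' : Pcs T // jj p' = jj p}
      · right
        let i : J := ⟨jj p, h2⟩
        let n := (en i).symm ⟨p, rfl⟩
        have hn : (en i n).1 = p := by
          change ((en i) ((en i).symm ⟨p, rfl⟩)).1 = p
          rw [Equiv.apply_symm_apply]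
        have h3 : a ∈ Set.range (xx i n) := by
          rw [hrange, hn]
          exact hap
        obtain ⟨l', hl'⟩ := h3
        have h4 : ∃ l, xx (eqv.symm (eqv i)) n l = a := by
          rw [Equiv.symm_apply_apply]
          exact ⟨l', hl'⟩
        exact ⟨eqv i, n, h4⟩
      · left
        right
        exact Set.mem_biUnion (x := p) h2 hap
    · left
      left
      exact h
  · intro i n l hK
    rcases hK with h | h
    · exact h ⟨_, _, hCP (eqv.symm i) n, l, rfl⟩
    · obtain ⟨p, hp, hlp⟩ := Set.mem_iUnion₂.1 h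
      have e := pcs_eq hlp (hmem (eqv.symm i) n l)
      apply hp
      rw [e, (en (eqv.symm i) n).2]
      exact (eqv.symm i).2
  · intro i n l i' n' l' h
    change xx (eqv.symm i) n l = xx (eqv.symm i') n' l' at h
    obtain ⟨e1, e2⟩ := hinj1 _ _ _ _ _ (hmem (eqv.symm i) n l) (h ▸ hmem (eqv.symm i') n' l')
    have e3 : i = i' := eqv.symm.injective e1
    subst e3
    have e4 : n = n' := (en (eqv.symm i)).injective (Subtype.ext e2)
    subst e4
    have e5 : l = l' := cp_inj (hCP (eqv.symm i) n) h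
    subst e5
    rfl
  · intro i τ
    have hd : ∀ n m, n ≠ m → Dj (xx (eqv.symm i) n) (xx (eqv.symm i) m) := by
      intro n m hnm l l' h
      have e2 := (hinj1 _ _ _ _ _ (hmem (eqv.symm i) n l) (h ▸ hmem (eqv.symm i) m l')).2
      exact hnm ((en (eqv.symm i)).injective (Subtype.ext e2))
    obtain ⟨e, he, h1, h2⟩ := exchange (xx (eqv.symm i)) (hCP (eqv.symm i)) hd τ
    exact ⟨e, fun s x => (he.2 s x).symm, h1, fun x hx => h2 x hx⟩

theorem cell_of_bounded (hS : Stable M0) (hA : EC M0 A) [Countable N] (hfin : FinTy M0 A)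
    {n0 : ℕ}
    (hb : ∀ (K' : Type) (X : Ext M0 A K') (D : Type) (g : D → K'), Function.Injective g →
      (∀ d n, g d ≠ X.i n) → ∀ B : Finset D, ConnI X g B → B.card ≤ n0) : Cell A := by
  obtain ⟨T⟩ := exists_ctypes hS hA hfin hb
  exact cell_of_ct hS hA hb T

end Pool.Agent.Helper89.EA
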