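import Pool.Agent.Helper89.EA.S.T13d
import Pool.Agent.Helper89.EA.S.T14b
import Pool.Agent.Helper89.EA.S.T15d
import Pool.Agent.Helper89.EA.P.C2

/-!
# Project EA: the stable case
-/

namespace Pool.Agent.Helper89.EA

variable {σ : Sig} {M : Type} {M0 : RS σ M}

theorem stable_manyS (hS : Stable M0) (hc : ¬ CellAge M0) : ManyS M0 := by
  by_cases Hfin : ∀ (K : Type) [Countable K] (C : RS σ K), EC M0 C → FinTy M0 C
  · by_cases Hbig : ∀ n, BigConn M0 n
    · exact case_b hS Hfin Hbig
    · exfalso
      apply hc
      intro N _ A hA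
      obtain ⟨n0, hn0⟩ := not_forall.1 Hbig
      obtain ⟨K, _, C, f, hC, hf⟩ := exists_ec hA
      refine cell_of_emb hf (cell_of_bounded hS hC (Hfin K C hC) (n0 := n0) ?_)
      intro K' X D g hg ho B hB
      by_contra hlt
      apply hn0
      refine ⟨K, inferInstance, C, K', X, {d // d ∈ B}, inferInstance, fun d => g d,
        Finset.univ, hC, ?_, fun d n => ho d n, conn_restrict hB, ?_⟩
      · intro a b hab
        exact Subtype.ext (hg hab)
      · rw [Finset.card_univ, Fintype.card_coe]
        omega
  · simp only [not_forall] at Hfin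
    obtain ⟨K, hK, C, hC, hinf⟩ := Hfin
    exact case_a hS hC hinf

end Pool.Agent.Helper89.EA
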