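import Pool.Agent.Helper89.EA.SDefs
import Pool.Agent.Helper89.EA.P.B3a
import Pool.Agent.Helper89.EA.P.B7
import Pool.Agent.Helper89.EA.U.Ram

/-!
# Project EA, piece S-T0: types as objects, representatives, ladders of types

`tl_infinite`.  By `ramsey_pairs` (colour `i < j` by the types of `(u i, v j, v' j)` and of
`(u j, v i, v' i)`) we may assume (replacing the sequences by subsequences) that the type of
`(u i, (v j, v' j))` is constant for `i < j` and constant for `j < i`; `no_lad_st` (piece B7, with
`X = U`, `Y = V ⊕ V`, `C = Empty`) says that the two types are equal, which contradicts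
`h1` (for `j = 0`, `i = 1`) and `h2` (for `j = 1`, `i = 0`).

`tl_finite`.  Otherwise there are such finite families for every `L`; take the ultraproduct for the
hyperfilter on `ℕ` (`up_st_iff2`, `up_inC`; the `j`-th element is defined for `L > j`, arbitrary
otherwise -- if `U` or `V` is empty or the structures are empty treat separately, or use
`L + 1`-families and clamp the index: the element number `min j L`) and apply `tl_infinite`.
-/

namespace Pool.Agent.Helper89.EA

variable {σ : Sig} {M N K : Type}

theorem typ_eq_iff {A : RS σ N} {B : RS σ K} {ι : Type} {v : ι → N} {w : ι → K} :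
    typ A v = typ B w ↔ ST A B v w := by
  unfold typ ST
  constructor
  · intro h
    refine ⟨fun i j => ?_, fun s x => ?_⟩
    · exact Iff.of_eq (congrFun (congrFun (congrArg Prod.fst h) i) j)
    · exact Iff.of_eq (congrFun (congrFun (congrArg Prod.snd h) s) x)
  · rintro ⟨h1, h2⟩
    refine Prod.ext ?_ ?_
    · funext i j
      exact propext (h1 i j)
    · funext s x
      exact propext (h2 s x)

instance typ_finite {ι : Type} [Finite ι] : Finite (Typ σ ι) := by
  have h : ∀ s : σ.Sy, Finite ((Fin (σ.ar s) → ι) → Prop) := fun s => inferInstance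
  unfold Typ
  infer_instance

instance pc_countable {G : Type} [Countable G] : Countable (PC σ G) := by
  unfold PC
  infer_instance

/-- finitely many representatives of the values of a function to a finite type -/
private theorem reps_aux {X T : Type} [Finite T] (F : X → T) :
    ∃ (q : ℕ) (R : Fin q → X), ∀ x, ∃ j, F x = F (R j) := by
  obtain ⟨q, ⟨e⟩⟩ := Finite.exists_equiv_fin (Set.range F)
  choose g hg using fun t : Set.range F => t.2
  refine ⟨q, fun j => g (e.symm j), fun x => ⟨e ⟨F x, x, rfl⟩, ?_⟩⟩
  rw [hg, Equiv.symm_apply_apply]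

/-- finitely many representatives of the types of tuples in a structure -/
theorem exists_reps (A : RS σ N) (ι : Type) [Finite ι] :
    ∃ (q : ℕ) (R : Fin q → ι → N), ∀ v : ι → N, ∃ j, ST A A v (R j) := by
  obtain ⟨q, R, h⟩ := reps_aux (fun v : ι → N => typ A v)
  exact ⟨q, R, fun v => (h v).imp fun j hj => typ_eq_iff.1 hj⟩

/-- representatives of the types over `f` of the `n`-tuples, in one finite tuple -/
theorem exists_reps_over (A : RS σ N) {p : ℕ} (f : Fin p → N) (n : ℕ) :
    ∃ (q : ℕ) (R : Fin q → N), ∀ c : Fin n → N, ∃ d : Fin n → Fin q,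
      ST A A (Sum.elim f c) (Sum.elim f (R ∘ d)) := by
  obtain ⟨q, R, h⟩ := reps_aux (fun c : Fin n → N => typ A (Sum.elim f c))
  refine ⟨q * n, fun k => R (finProdFinEquiv.symm k).1 (finProdFinEquiv.symm k).2, fun c => ?_⟩
  obtain ⟨j, hj⟩ := h c
  refine ⟨fun i => finProdFinEquiv (j, i), ?_⟩
  have e : (fun k => R (finProdFinEquiv.symm k).1 (finProdFinEquiv.symm k).2) ∘
      (fun i => finProdFinEquiv (j, i)) = R j := by
    funext i
    show R (finProdFinEquiv.symm (finProdFinEquiv (j, i))).1
      (finProdFinEquiv.symm (finProdFinEquiv (j, i))).2 = R j i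
    rw [Equiv.symm_apply_apply]
  rw [e]
  exact typ_eq_iff.1 hj

/-- no infinite ladders of types -/
theorem tl_infinite {M0 : RS σ M} (hS : Stable M0) {A : RS σ N} (hA : InC M0 A) {U V : Type}
    [Finite U] [Finite V] (u : ℕ → U → N) (v v' : ℕ → V → N)
    (h1 : ∀ j i, j < i → ST A A (Sum.elim (u j) (v i)) (Sum.elim (u j) (v' i)))
    (h2 : ∀ j i, i ≤ j → ¬ ST A A (Sum.elim (u j) (v i)) (Sum.elim (u j) (v' i))) : False := by
  obtain ⟨f, hf, hc⟩ := ramsey_pairs (fun i j =>
    (typ A (Sum.elim (u i) (Sum.elim (v j) (v' j))), typ A (Sum.elim (u j) (Sum.elim (v i) (v' i)))))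
  have hE : ∀ (w : U → N) (z : V ⊕ V → N), Sum.elim (Sum.elim w z) (Empty.elim : Empty → N)
      = Sum.elim w z ∘ Sum.elim id Empty.elim := by
    intro w z
    funext t
    rcases t with t | t
    · rfl
    · exact t.elim
  have key := no_lad_st hS hA (C := Empty) (fun i => u (f i))
    (fun j => Sum.elim (v (f j)) (v' (f j))) Empty.elim
    (by
      intro i j i' j' hij hij'
      have h := congrArg Prod.fst (hc i j i' j' hij hij')
      have h' := typ_eq_iff.1 h
      rw [hE, hE]
      exact st_comp h' _)
    (by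
      intro i j i' j' hij hij'
      have h := congrArg Prod.snd (hc j i j' i' hij hij')
      have h' := typ_eq_iff.1 h
      rw [hE, hE]
      exact st_comp h' _)
  have k1 := st_comp key (κ := U ⊕ V)
    (Sum.elim (fun a => Sum.inl (Sum.inl a)) (fun b => Sum.inl (Sum.inr (Sum.inl b))))
  have k2 := st_comp key (κ := U ⊕ V)
    (Sum.elim (fun a => Sum.inl (Sum.inl a)) (fun b => Sum.inl (Sum.inr (Sum.inr b))))
  have e1 : ∀ (w : U → N) (z z' : V → N), Sum.elim (Sum.elim w (Sum.elim z z'))
      (Empty.elim : Empty → N) ∘ (Sum.elim (fun a => Sum.inl (Sum.inl a))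
        (fun b => Sum.inl (Sum.inr (Sum.inl b)))) = Sum.elim w z := by
    intro w z z'
    funext t
    rcases t with t | t <;> rfl
  have e2 : ∀ (w : U → N) (z z' : V → N), Sum.elim (Sum.elim w (Sum.elim z z'))
      (Empty.elim : Empty → N) ∘ (Sum.elim (fun a => Sum.inl (Sum.inl a))
        (fun b => Sum.inl (Sum.inr (Sum.inr b)))) = Sum.elim w z' := by
    intro w z z'
    funext t
    rcases t with t | t <;> rfl
  rw [e1, e1] at k1
  rw [e2, e2] at k2
  have h01 : f 0 < f 1 := hf (by omega)
  refine h2 (f 1) (f 0) h01.le ?_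
  exact st_trans (st_symm k1) (st_trans (h1 (f 0) (f 1) h01) k2)

/-- a uniform bound for ladders of types -/
theorem tl_finite {M0 : RS σ M} (hS : Stable M0) (U V : Type) [Finite U] [Finite V] :
    ∃ L : ℕ, ∀ (N : Type) (A : RS σ N), InC M0 A → ∀ (u : Fin L → U → N) (v v' : Fin L → V → N),
      (∀ j i, j < i → ST A A (Sum.elim (u j) (v i)) (Sum.elim (u j) (v' i))) →
      (∀ j i, i ≤ j → ¬ ST A A (Sum.elim (u j) (v i)) (Sum.elim (u j) (v' i))) → False := by
  by_contra hcon
  push Not at hcon
  choose N A hA u v v' h1 h2 _ using fun L : ℕ => hcon (L + 1)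
  have hcl : ∀ j L : ℕ, min j L < L + 1 := fun j L => by omega
  let uu : Ultrafilter ℕ := Filter.hyperfilter ℕ
  have hev : ∀ m : ℕ, ∀ᶠ L in (uu : Filter ℕ), m ≤ L := by
    intro m
    have : {L : ℕ | m ≤ L} ∈ (Filter.cofinite : Filter ℕ) := by
      rw [Nat.cofinite_eq_atTop]
      exact Filter.mem_atTop m
    exact Filter.hyperfilter_le_cofinite this
  have hE : ∀ (w : U → ∀ L, N L) (z : V → ∀ L, N L),
      Sum.elim (fun x => UP.mk uu (w x)) (fun y => UP.mk uu (z y))
        = fun k => UP.mk uu (Sum.elim w z k) := by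
    intro w z
    funext t
    rcases t with t | t <;> rfl
  have hE' : ∀ (w : U → ∀ L, N L) (z : V → ∀ L, N L) (L : ℕ),
      (fun k => Sum.elim w z k L) = Sum.elim (fun x => w x L) (fun y => z y L) := by
    intro w z L
    funext t
    rcases t with t | t <;> rfl
  refine tl_infinite hS (up_inC (u := uu) hA)
    (fun j x => UP.mk uu (fun L => u L ⟨min j L, hcl j L⟩ x))
    (fun j x => UP.mk uu (fun L => v L ⟨min j L, hcl j L⟩ x))
    (fun j x => UP.mk uu (fun L => v' L ⟨min j L, hcl j L⟩ x)) ?_ ?_
  · intro j i hji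
    rw [hE, hE, up_st_iff2]
    filter_upwards [hev i] with L hL
    rw [hE', hE']
    refine h1 L _ _ ?_
    rw [Fin.lt_def]
    simp only
    omega
  · intro j i hij hst
    rw [hE, hE, up_st_iff2] at hst
    obtain ⟨L, hL1, hL2⟩ := (hst.and (hev j)).exists
    rw [hE', hE'] at hL1
    refine h2 L _ _ ?_ hL1
    rw [Fin.le_def]
    simp only
    omega

end Pool.Agent.Helper89.EA
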