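import Pool.Agent.Helper89.EA.S.T0

/-!
# Project EA, piece S-T1: nonsplitting over finite sets

`nsb_exists`.  Suppose there is no finite `f`.  Construct recursively finite sets `F 0 ⊆ F 1 ⊆ ...`
of `N` and `v i, v' i : Fin σ.r → N`, `u i : U → N` with the values of `v i, v' i, u i` in
`F (i + 1)`: enumerate `F i` as `f : Fin p → N`; it is not a base, so there are `c, c'` with
`ST (f, c) (f, c')` and `¬ ST (u, f, c) (u, f, c')`.  By `st_small'` there is a subtuple of length
`σ.r` where the types differ; not all of its entries are in `U`; replacing the entries in `U` by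
one of the others we get subtuples `v i` of `(f, c)` and `v' i` of `(f, c')` (same positions) with
`¬ ST (u, v i) (u, v' i)`, while `(F i, v i)` and `(F i, v' i)` have the same type.  Let `u i` be a
tuple of `N` which has over `F i, v i, v' i` the same type as `u` (`ec_approx`).
Then for `j < i`: `u j` is in `F i`, so `ST (u j, v i) (u j, v' i)`; for `i ≤ j`: `u j` has the type
of `u` over `v i, v' i`, so `¬ ST (u j, v i) (u j, v' i)`: contradiction to `tl_infinite`.

`nsb_of_fty`: let `m, b` be as in `FTy`; a base for the finite tuple `g ∘ b` is a base for `g`: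
check the types of subtuples of length `σ.r` of `(g, f, c)` and `(g, f, c')` (entries not in `D` are
replaced by one of the entries in `D` to get `d : Fin σ.r → D`; if there is none there is nothing
to do).
-/

namespace Pool.Agent.Helper89.EA

variable {σ : Sig} {M N N' : Type} {M0 : RS σ M} {A : RS σ N}

theorem ec_approx (hA : EC M0 A) (X : Ext M0 A N') {U κ : Type} [Finite U] [Finite κ]
    (u : U → N') (c : κ → N) :
    ∃ u0 : U → N, ST X.B X.B (Sum.elim u (X.i ∘ c)) (Sum.elim (X.i ∘ u0) (X.i ∘ c)) := by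
  obtain ⟨b, hb⟩ := ec_finite hA X.inC X.emb c u
  refine ⟨b, ?_⟩
  have h1 := st_comp hb (Sum.swap : U ⊕ κ → κ ⊕ U)
  have e1 : Sum.elim (X.i ∘ c) u ∘ Sum.swap = Sum.elim u (X.i ∘ c) := by
    funext t; rcases t with t | t <;> rfl
  have e2 : Sum.elim c b ∘ Sum.swap = Sum.elim b c := by
    funext t; rcases t with t | t <;> rfl
  rw [e1, e2] at h1
  have h2 := emb_st X.emb (Sum.elim b c)
  rw [Sum.comp_elim] at h2
  exact st_trans h1 h2

/-- `NSb` for arbitrary finite index types -/
theorem nsb_fin {X : Ext M0 A N'} {p : ℕ} {f : Fin p → N} {U : Type} {u : U → N'}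
    (h : NSb X f u) {κ : Type} [Finite κ] (c c' : κ → N)
    (hc : ST A A (Sum.elim f c) (Sum.elim f c')) :
    ST X.B X.B (Sum.elim u (X.i ∘ Sum.elim f c)) (Sum.elim u (X.i ∘ Sum.elim f c')) := by
  obtain ⟨n, ⟨e⟩⟩ := Finite.exists_equiv_fin κ
  have h1 := h n (c ∘ e.symm) (c' ∘ e.symm) (by
    have h2 := st_comp hc (Sum.map id e.symm : Fin p ⊕ Fin n → Fin p ⊕ κ)
    rw [Sum.elim_comp_map, Sum.elim_comp_map] at h2
    exact h2)
  have h3 := st_comp h1 (Sum.map id (Sum.map id e) : U ⊕ (Fin p ⊕ κ) → U ⊕ (Fin p ⊕ Fin n))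
  have key : ∀ c : κ → N, Sum.elim u (X.i ∘ Sum.elim f (c ∘ e.symm)) ∘ Sum.map id (Sum.map id e)
      = Sum.elim u (X.i ∘ Sum.elim f c) := by
    intro c
    funext t
    rcases t with t | t | t
    · rfl
    · rfl
    · simp
  rw [key, key] at h3
  exact h3

theorem nsb_sub {X : Ext M0 A N'} {p : ℕ} {f : Fin p → N} {U U' : Type} {u : U → N'}
    (h : NSb X f u) (a : U' → U) : NSb X f (u ∘ a) := by
  intro n c c' hc
  have h1 := st_comp (h n c c' hc) (Sum.map a id : U' ⊕ (Fin p ⊕ Fin n) → U ⊕ (Fin p ⊕ Fin n))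
  rw [Sum.elim_comp_map, Sum.elim_comp_map] at h1
  exact h1

/-- a larger finite set is also a base -/
theorem nsb_mono {X : Ext M0 A N'} {p p' : ℕ} {f : Fin p → N} {f' : Fin p' → N} {U : Type}
    {u : U → N'} (h : NSb X f u) (e : Fin p → Fin p') (he : f' ∘ e = f) : NSb X f' u := by
  intro n c c' hc
  have h0 := nsb_fin h (κ := Fin p' ⊕ Fin n) (Sum.elim f' c) (Sum.elim f' c') (by
    have h2 := st_comp hc (Sum.elim (Sum.inl ∘ e) id : Fin p ⊕ (Fin p' ⊕ Fin n) → Fin p' ⊕ Fin n)
    have e1 : ∀ c : Fin n → N, Sum.elim f' c ∘ Sum.elim (Sum.inl ∘ e) id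
        = Sum.elim f (Sum.elim f' c) := by
      intro c
      rw [← he]
      funext t
      rcases t with t | t
      · rfl
      · rfl
    rw [e1, e1] at h2
    exact h2)
  have h1 := st_comp h0 (Sum.map id Sum.inr : U ⊕ (Fin p' ⊕ Fin n) →
    U ⊕ (Fin p ⊕ (Fin p' ⊕ Fin n)))
  have e2 : ∀ c : Fin n → N, Sum.elim u (X.i ∘ Sum.elim f (Sum.elim f' c)) ∘ Sum.map id Sum.inr
      = Sum.elim u (X.i ∘ Sum.elim f' c) := by
    intro c
    funext t
    rcases t with t | t
    · rfl
    · rfl
  rw [e2, e2] at h1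
  exact h1

/-- from a tuple that is not a base: two `r`-tuples with the same type over it, but with different
types over `u` -/
private theorem step_aux (X : Ext M0 A N') {U : Type} (u : U → N')
    (hno : ∀ (p : ℕ) (f : Fin p → N), ¬ NSb X f u) (S : Finset N) :
    ∃ v v' : Fin σ.r → N, ST A A (Sum.elim (Subtype.val : S → N) v) (Sum.elim Subtype.val v') ∧
      ¬ ST X.B X.B (Sum.elim u (X.i ∘ v)) (Sum.elim u (X.i ∘ v')) := by
  classical
  obtain ⟨p, ⟨e⟩⟩ := Finite.exists_equiv_fin S
  have h0 := hno p (fun k => (e.symm k : N))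
  unfold NSb at h0
  push Not at h0
  obtain ⟨n, c, c', hc, hne⟩ := h0
  have hx : ∃ x : Fin σ.r → U ⊕ (Fin p ⊕ Fin n), ¬ ST X.B X.B
      (Sum.elim u (X.i ∘ Sum.elim (fun k => (e.symm k : N)) c) ∘ x)
      (Sum.elim u (X.i ∘ Sum.elim (fun k => (e.symm k : N)) c') ∘ x) := by
    by_contra hcon
    push Not at hcon
    exact hne (st_small' X.inC X.inC hcon)
  obtain ⟨x, hx⟩ := hx
  by_cases hz : ∃ t z, x t = Sum.inr z
  · obtain ⟨t0, z0, hz0⟩ := hz
    set y : Fin σ.r → Fin p ⊕ Fin n := fun t => Sum.elim (fun _ => z0) id (x t) with hy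
    refine ⟨Sum.elim (fun k => (e.symm k : N)) c ∘ y, Sum.elim (fun k => (e.symm k : N)) c' ∘ y,
      ?_, ?_⟩
    · have h2 := st_comp hc (Sum.elim (fun s => Sum.inl (e s)) y : S ⊕ Fin σ.r → Fin p ⊕ Fin n)
      have e1 : ∀ c : Fin n → N, Sum.elim (fun k => (e.symm k : N)) c ∘
          Sum.elim (fun s => Sum.inl (e s)) y
          = Sum.elim (Subtype.val : S → N) (Sum.elim (fun k => (e.symm k : N)) c ∘ y) := by
        intro c
        funext t
        rcases t with t | t
        · simp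
        · rfl
      rw [e1, e1] at h2
      exact h2
    · intro hst
      apply hx
      have h3 := st_comp hst (fun t => Sum.map id (fun _ => t) (x t) : Fin σ.r → U ⊕ Fin σ.r)
      have e2 : ∀ c : Fin n → N, Sum.elim u (X.i ∘ Sum.elim (fun k => (e.symm k : N)) c ∘ y) ∘
          (fun t => Sum.map id (fun _ => t) (x t))
          = Sum.elim u (X.i ∘ Sum.elim (fun k => (e.symm k : N)) c) ∘ x := by
        intro c
        funext t
        simp only [Function.comp_apply, hy]
        rcases hxt : x t with a | a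
        · simp
        · simp [hxt]
      rw [e2, e2] at h3
      exact h3
  · exfalso
    apply hx
    have e3 : (Sum.elim u (X.i ∘ Sum.elim (fun k => (e.symm k : N)) c) ∘ x)
        = (Sum.elim u (X.i ∘ Sum.elim (fun k => (e.symm k : N)) c') ∘ x) := by
      funext t
      simp only [Function.comp_apply]
      rcases hxt : x t with a | a
      · rfl
      · exact (hz ⟨t, a, hxt⟩).elim
    rw [e3]
    exact st_refl _ _

theorem nsb_exists (hS : Stable M0) (hA : EC M0 A) (X : Ext M0 A N') {U : Type} [Finite U]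
    (u : U → N') : ∃ (p : ℕ) (f : Fin p → N), NSb X f u := by
  classical
  by_contra hno
  push Not at hno
  have := Fintype.ofFinite U
  choose V V' hV hV' using step_aux X u hno
  choose W hW using fun S : Finset N =>
    ec_approx hA X u (Sum.elim (Subtype.val : S → N) (Sum.elim (V S) (V' S)))
  let G : Finset N → Finset N := fun S =>
    ((S ∪ Finset.univ.image (V S)) ∪ Finset.univ.image (V' S)) ∪ Finset.univ.image (W S)
  let F : ℕ → Finset N := fun i => G^[i] ∅
  have hF : ∀ i, F (i + 1) = G (F i) := fun i => Function.iterate_succ_apply' G i ∅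
  have hGS : ∀ S, S ⊆ G S := fun S x hx => by
    simp only [G, Finset.mem_union]
    exact Or.inl (Or.inl (Or.inl hx))
  have hGV : ∀ S t, V S t ∈ G S := fun S t => by
    simp only [G, Finset.mem_union]
    exact Or.inl (Or.inl (Or.inr (Finset.mem_image_of_mem _ (Finset.mem_univ t))))
  have hGV' : ∀ S t, V' S t ∈ G S := fun S t => by
    simp only [G, Finset.mem_union]
    exact Or.inl (Or.inr (Finset.mem_image_of_mem _ (Finset.mem_univ t)))
  have hGW : ∀ S t, W S t ∈ G S := fun S t => by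
    simp only [G, Finset.mem_union]
    exact Or.inr (Finset.mem_image_of_mem _ (Finset.mem_univ t))
  have hmono : Monotone F := monotone_nat_of_le_succ fun i => by
    rw [hF]; exact hGS _
  have hlt : ∀ {i j}, i < j → G (F i) ⊆ F j := fun {i j} hij => by
    rw [← hF]; exact hmono hij
  refine tl_infinite hS hA.1 (fun j => W (F j)) (fun i => V (F i)) (fun i => V' (F i)) ?_ ?_
  · intro j i hji
    have h1 := st_comp (hV (F i)) (Sum.map (fun a => ⟨W (F j) a, hlt hji (hGW _ a)⟩) id :
      U ⊕ Fin σ.r → F i ⊕ Fin σ.r)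
    rw [Sum.elim_comp_map, Sum.elim_comp_map] at h1
    exact h1
  · intro j i hij hst
    -- the type of `u` over `v i, v' i`
    have key : ∀ v : Fin σ.r → N, (∃ q : Fin σ.r → (F j ⊕ (Fin σ.r ⊕ Fin σ.r)),
        Sum.elim (Subtype.val : F j → N) (Sum.elim (V (F j)) (V' (F j))) ∘ q = v) →
        ST X.B X.B (Sum.elim u (X.i ∘ v)) (Sum.elim (X.i ∘ W (F j)) (X.i ∘ v)) := by
      rintro v ⟨q, hq⟩
      have h1 := st_comp (hW (F j)) (Sum.map id q : U ⊕ Fin σ.r →
        U ⊕ (F j ⊕ (Fin σ.r ⊕ Fin σ.r)))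
      rw [Sum.elim_comp_map, Sum.elim_comp_map, Function.comp_assoc, hq] at h1
      exact h1
    have hv : ∃ q : Fin σ.r → (F j ⊕ (Fin σ.r ⊕ Fin σ.r)),
        Sum.elim (Subtype.val : F j → N) (Sum.elim (V (F j)) (V' (F j))) ∘ q = V (F i) := by
      rcases hij.lt_or_eq with hlt' | rfl
      · exact ⟨fun t => Sum.inl ⟨V (F i) t, hlt hlt' (hGV _ t)⟩, rfl⟩
      · exact ⟨fun t => Sum.inr (Sum.inl t), rfl⟩
    have hv' : ∃ q : Fin σ.r → (F j ⊕ (Fin σ.r ⊕ Fin σ.r)),
        Sum.elim (Subtype.val : F j → N) (Sum.elim (V (F j)) (V' (F j))) ∘ q = V' (F i) := by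
      rcases hij.lt_or_eq with hlt' | rfl
      · exact ⟨fun t => Sum.inl ⟨V' (F i) t, hlt hlt' (hGV' _ t)⟩, rfl⟩
      · exact ⟨fun t => Sum.inr (Sum.inr t), rfl⟩
    have hst' : ST X.B X.B (Sum.elim (X.i ∘ W (F j)) (X.i ∘ V (F i)))
        (Sum.elim (X.i ∘ W (F j)) (X.i ∘ V' (F i))) := by
      rw [← Sum.comp_elim, ← Sum.comp_elim]
      exact st_trans (st_symm (emb_st X.emb _)) (st_trans hst (emb_st X.emb _))
    exact hV' (F i) (st_trans (key _ hv) (st_trans hst' (st_symm (key _ hv'))))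

/-- a finite base for a family with finitely many types of `r`-tuples -/
theorem nsb_of_fty (hS : Stable M0) (hA : EC M0 A) (X : Ext M0 A N') {D : Type} {g : D → N'}
    (h : FTy X g) : ∃ (p : ℕ) (f : Fin p → N), NSb X f g := by
  obtain ⟨m, b, hb⟩ := h
  obtain ⟨p, f, hf⟩ := nsb_exists hS hA X (g ∘ b)
  refine ⟨p, f, ?_⟩
  intro n c c' hc
  refine st_small' X.inC X.inC fun x => ?_
  by_cases hz : ∃ t a, x t = Sum.inl a
  · obtain ⟨t0, d0, hd0⟩ := hz
    set d : Fin σ.r → D := fun t => Sum.elim id (fun _ => d0) (x t) with hd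
    obtain ⟨d', hd'⟩ := hb d
    -- `STo` for the index type `Fin p ⊕ Fin n`
    have hsto : ∀ c : Fin n → N, ST X.B X.B (Sum.elim (g ∘ d) (X.i ∘ Sum.elim f c))
        (Sum.elim (g ∘ b ∘ d') (X.i ∘ Sum.elim f c)) := by
      intro c
      have h1 := st_comp (hd' (p + n) (Sum.elim f c ∘ finSumFinEquiv.symm))
        (Sum.map id finSumFinEquiv : Fin σ.r ⊕ (Fin p ⊕ Fin n) → Fin σ.r ⊕ Fin (p + n))
      have e1 : ∀ w : Fin σ.r → N', Sum.elim w (X.i ∘ Sum.elim f c ∘ finSumFinEquiv.symm) ∘
          Sum.map id finSumFinEquiv = Sum.elim w (X.i ∘ Sum.elim f c) := by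
        intro w
        funext t
        rcases t with t | t
        · rfl
        · simp only [Function.comp_apply, Sum.map_inr, Sum.elim_inr, Equiv.symm_apply_apply]
      rw [e1, e1] at h1
      exact h1
    have h2 : ST X.B X.B (Sum.elim (g ∘ b ∘ d') (X.i ∘ Sum.elim f c))
        (Sum.elim (g ∘ b ∘ d') (X.i ∘ Sum.elim f c')) :=
      nsb_sub hf d' n c c' hc
    have h3 : ST X.B X.B (Sum.elim (g ∘ d) (X.i ∘ Sum.elim f c))
        (Sum.elim (g ∘ d) (X.i ∘ Sum.elim f c')) :=
      st_trans (hsto c) (st_trans h2 (st_symm (hsto c')))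
    have h4 := st_comp h3 (fun t => Sum.map (fun _ => t) id (x t) :
      Fin σ.r → Fin σ.r ⊕ (Fin p ⊕ Fin n))
    have e2 : ∀ c : Fin n → N, Sum.elim (g ∘ d) (X.i ∘ Sum.elim f c) ∘
        (fun t => Sum.map (fun _ => t) id (x t)) = Sum.elim g (X.i ∘ Sum.elim f c) ∘ x := by
      intro c
      funext t
      simp only [Function.comp_apply, hd]
      rcases hxt : x t with a | a
      · simp [hxt]
      · simp
    rw [e2, e2] at h4
    exact h4
  · -- no entries in `D`
    have hy : ∀ t, ∃ z, x t = Sum.inr z := by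
      intro t
      rcases hxt : x t with a | a
      · exact (hz ⟨t, a, hxt⟩).elim
      · exact ⟨a, rfl⟩
    choose y hy using hy
    have hxy : x = Sum.inr ∘ y := funext hy
    have h1 := st_comp hc y
    have h2 := st_trans (st_symm (emb_st X.emb (Sum.elim f c ∘ y)))
      (st_trans h1 (emb_st X.emb (Sum.elim f c' ∘ y)))
    rw [hxy]
    exact h2

end Pool.Agent.Helper89.EA
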