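import Pool.Agent.Helper89.EA.S.T4
import Pool.Agent.Helper89.EA.UDefs

/-!
# Project EA, piece S-T10: free unions of finite pieces

`add_piece`.  `free_ext` for `X, u` and `Y := Z` gives `Z1 : Ext M0 A K1`, `β : K → K1`,
`g' : D0 → K1`.  `g' d` is not in the range of `β`: if `g' d = β k` then, by `FS Z1 g' (β k)`,
`β k = Z1.i n` for some `n : N`, and then `STo` says `u d = X.i n`, contradiction to `hout`; `g'` is
injective by `STo`.  Let `K' = K ⊕ D0` with the structure pulled back along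
`Sum.elim β g' : K ⊕ D0 → K1` (`emb_comap`; `FS`, `STo` are transferred since types are preserved
by embeddings and the elements `u0` in `FS` are in `N`).

`free_union`: induction on `n`.  Step: if `n ∉ S` nothing happens (the index types for `n` and
`n + 1` are in bijection).  If `n ∈ S` apply `add_piece` to the structure for `n` and
`u = g` restricted to `B n`.  The new family: the old `b s` composed with `β`, and `b n = u'`.
(2) for `s = n`: `y` is disjoint from the range of `u'`, so it is in the range of `β`, last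
statement of `add_piece`.  (2) for an old `s`: `y` consists of `β ∘ y1` (`y1` disjoint from
`b s`) and of elements of `u'`.  `FS (b s) y1` in `Z`, hence in `Z'`; by `add_piece`
`FS Z' u' (b s, y1)`, so `FS Z' (b s, y1) u'` (`fs_symm`), and `fs_trans` gives
`FS Z' (b s) (y1, u')`; `fs_mono`.
-/

namespace Pool.Agent.Helper89.EA

variable {σ : Sig} {M N N' : Type} {M0 : RS σ M} {A : RS σ N}

/-- transport of equality of types along maps of the index types -/
private theorem st_re {K : Type} {A : RS σ N} {B : RS σ K} {ι κ : Type} {v : ι → N} {w : ι → K}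
    (h : ST A B v w) (f : κ → ι) {v' : κ → N} {w' : κ → K} (hv : ∀ x, v (f x) = v' x)
    (hw : ∀ x, w (f x) = w' x) : ST A B v' w' := by
  have h1 := st_comp h f
  rwa [show v ∘ f = v' from funext hv, show w ∘ f = w' from funext hw] at h1

/-- add one finite independent piece -/
theorem add_piece (hA : EC M0 A) (X : Ext M0 A N') {D0 : Type} [Finite D0] (u : D0 → N')
    (hinj : Function.Injective u) (hout : ∀ d n, u d ≠ X.i n) {K : Type} (Z : Ext M0 A K) :
    ∃ (K' : Type) (Z' : Ext M0 A K') (β : K → K') (u' : D0 → K'), Emb Z.B Z'.B β ∧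
      Z'.i = β ∘ Z.i ∧ STo X Z' u u' ∧ (∀ x, (∃ k, β k = x) ∨ ∃ d, u' d = x) ∧
      (∀ d k, u' d ≠ β k) ∧
      ∀ (W : Type) [Finite W] (y : W → K), FS Z' u' (β ∘ y) := by
  obtain ⟨K1, Z1, β, g', hβ, hZ1, hSTo, hFS⟩ := free_ext hA X u Z
  have hne : ∀ d k, g' d ≠ β k := by
    intro d k hdk
    obtain ⟨u0, hu0⟩ := hFS Unit Unit (fun _ => d) (fun _ => k) 0 Fin.elim0
    have h1 := (hu0.1 (Sum.inl (Sum.inl ())) (Sum.inl (Sum.inr ()))).1 hdk
    have h2 : Z1.i (u0 ()) = β k := h1
    have h3 := (hSTo 1 (fun _ => u0 ())).1 (Sum.inl d) (Sum.inr 0)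
    have h4 : u d = X.i (u0 ()) ↔ g' d = Z1.i (u0 ()) := h3
    exact hout d _ (h4.2 (hdk.trans h2.symm))
  have hg' : Function.Injective g' := by
    intro d d' hdd
    have h3 := (hSTo 0 Fin.elim0).1 (Sum.inl d) (Sum.inl d')
    have h4 : u d = u d' ↔ g' d = g' d' := h3
    exact hinj (h4.2 hdd)
  let φ : K ⊕ D0 → K1 := Sum.elim β g'
  have hφ : Function.Injective φ := by
    rintro (a | a) (a' | a') haa
    · exact congrArg Sum.inl (emb_injective hβ haa)
    · exact absurd haa.symm (hne _ _)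
    · exact absurd haa (hne _ _)
    · exact congrArg Sum.inr (hg' haa)
  have hc := emb_comap Z1.B hφ
  have hZi : Emb A (Z1.B.comap φ) (Sum.inl ∘ Z.i) := by
    have h1 : ST A Z1.B id (φ ∘ (Sum.inl ∘ Z.i)) := by
      have := Z1.emb
      rw [hZ1] at this
      exact this
    exact st_trans h1 (st_symm (emb_st hc _))
  let Z' : Ext M0 A (K ⊕ D0) := ⟨Z1.B.comap φ, inC_of_emb hc Z1.inC, Sum.inl ∘ Z.i, hZi⟩
  refine ⟨K ⊕ D0, Z', Sum.inl, Sum.inr, ?_, rfl, ?_, ?_, ?_, ?_⟩
  · exact st_trans hβ (st_symm (emb_st hc (Sum.inl : K → K ⊕ D0)))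
  · intro n c
    have h1 := hSTo n c
    have h2 := emb_st hc (Sum.elim (Sum.inr : D0 → K ⊕ D0) (Z'.i ∘ c))
    have h3 : φ ∘ (Sum.elim (Sum.inr : D0 → K ⊕ D0) (Z'.i ∘ c)) = Sum.elim g' (Z1.i ∘ c) := by
      rw [hZ1]
      funext x
      rcases x with x | x <;> rfl
    rw [h3] at h2
    exact st_trans h1 (st_symm h2)
  · rintro (x | x)
    · exact Or.inl ⟨x, rfl⟩
    · exact Or.inr ⟨x, rfl⟩
  · intro d k h
    exact absurd h (by simp)
  · intro W _ y n c
    obtain ⟨u0, hu0⟩ := hFS D0 W id y n c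
    refine ⟨u0, ?_⟩
    have h2 := emb_st hc (Sum.elim (Sum.elim (Sum.inr : D0 → K ⊕ D0) (Sum.inl ∘ y)) (Z'.i ∘ c))
    have h3 := emb_st hc (Sum.elim (Sum.elim (Z'.i ∘ u0) (Sum.inl ∘ y)) (Z'.i ∘ c))
    have e2 : φ ∘ (Sum.elim (Sum.elim (Sum.inr : D0 → K ⊕ D0) (Sum.inl ∘ y)) (Z'.i ∘ c)) =
        Sum.elim (Sum.elim (g' ∘ id) (β ∘ y)) (Z1.i ∘ c) := by
      rw [hZ1]
      funext x
      rcases x with (x | x) | x <;> rfl
    have e3 : φ ∘ (Sum.elim (Sum.elim (Z'.i ∘ u0) (Sum.inl ∘ y)) (Z'.i ∘ c)) =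
        Sum.elim (Sum.elim (Z1.i ∘ u0) (β ∘ y)) (Z1.i ∘ c) := by
      rw [hZ1]
      funext x
      rcases x with (x | x) | x <;> rfl
    rw [e2] at h2
    rw [e3] at h3
    exact st_trans h2 (st_trans hu0 (st_symm h3))

/-- finite satisfiability is preserved by embeddings over the base -/
private theorem fs_emb {K K' : Type} {Z : Ext M0 A K} {Z' : Ext M0 A K'} {β : K → K'}
    (hβ : Emb Z.B Z'.B β) (hi : Z'.i = β ∘ Z.i) {U Y : Type} {u : U → K} {y : Y → K}
    (h : FS Z u y) : FS Z' (β ∘ u) (β ∘ y) := by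
  intro n c
  obtain ⟨u0, hu0⟩ := h n c
  refine ⟨u0, ?_⟩
  have h2 := emb_st hβ (Sum.elim (Sum.elim u y) (Z.i ∘ c))
  have h3 := emb_st hβ (Sum.elim (Sum.elim (Z.i ∘ u0) y) (Z.i ∘ c))
  refine st_re (st_trans (st_symm h2) (st_trans hu0 h3)) id ?_ ?_ <;>
    (rw [hi]; rintro ((x | x) | x) <;> rfl)

/-- equality of types is preserved by embeddings over the base -/
private theorem sto_emb {K K' : Type} {X : Ext M0 A N'} {Z : Ext M0 A K} {Z' : Ext M0 A K'}
    {β : K → K'} (hβ : Emb Z.B Z'.B β) (hi : Z'.i = β ∘ Z.i) {U : Type} {u : U → N'} {y : U → K}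
    (h : STo X Z u y) : STo X Z' u (β ∘ y) := by
  intro n c
  have h2 := emb_st hβ (Sum.elim y (Z.i ∘ c))
  refine st_re (st_trans (h n c) h2) id (fun _ => rfl) ?_
  rw [hi]
  rintro (x | x) <;> rfl

theorem free_union (hS : Stable M0) (hA : EC M0 A) (X : Ext M0 A N') {D : Type} {g : D → N'}
    (hinj : Function.Injective g) (hout : ∀ d n, g d ≠ X.i n) (B : ℕ → Finset D) (n : ℕ)
    (S : Set ℕ) :
    ∃ (K : Type) (Z : Ext M0 A K) (b : ∀ s : {s : ℕ // s < n ∧ s ∈ S}, {d // d ∈ B s.1} → K),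
      (∀ s, STo X Z (fun d : {d // d ∈ B s.1} => g d) (b s)) ∧
      (∀ s, ∀ (W : Type) [Finite W] (y : W → K), Dj y (b s) → FS Z (b s) y) ∧
      ∀ x, (∃ m, Z.i m = x) ∨ ∃ s d, b s d = x := by
  classical
  induction n with
  | zero =>
    refine ⟨N, ⟨A, hA.1, id, emb_id A⟩, fun s => absurd s.2.1 (Nat.not_lt_zero _),
      fun s => absurd s.2.1 (Nat.not_lt_zero _), fun s => absurd s.2.1 (Nat.not_lt_zero _),
      fun x => Or.inl ⟨x, rfl⟩⟩
  | succ n ih =>
    obtain ⟨K, Z, b, h1, h2, h3⟩ := ih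
    by_cases hn : n ∈ S
    · obtain ⟨K', Z', β, u', hβ, hi, hsto, hcov, hdis, hfs⟩ :=
        add_piece hA X (fun d : {d // d ∈ B n} => g d)
          (fun a a' h => Subtype.ext (hinj h)) (fun d m => hout d m) Z
      let b' : ∀ s : {s : ℕ // s < n + 1 ∧ s ∈ S}, {d // d ∈ B s.1} → K' := fun s d =>
        if h : s.1 = n then u' ⟨d.1, (congrArg (fun t => d.1 ∈ B t) h).mp d.2⟩
        else β (b ⟨s.1, by have := s.2.1; omega, s.2.2⟩ d)
      have hb1 : ∀ h, b' ⟨n, h⟩ = u' := by
        intro h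
        funext d
        simp only [b', dif_pos]
      have hb2 : ∀ (s : ℕ) (h : s < n + 1 ∧ s ∈ S) (hs : s < n),
          b' ⟨s, h⟩ = β ∘ b ⟨s, hs, h.2⟩ := by
        intro s h hs
        funext d
        have : ¬ s = n := by omega
        simp only [b', dif_neg this, Function.comp_apply]
      refine ⟨K', Z', b', ?_, ?_, ?_⟩
      · rintro ⟨s, hs, hsS⟩
        rcases Nat.lt_succ_iff_lt_or_eq.1 hs with h | h
        · rw [hb2 s _ h]
          exact sto_emb hβ hi (h1 ⟨s, h, hsS⟩)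
        · subst h
          rw [hb1]
          exact hsto
      · rintro ⟨s, hs, hsS⟩ W _ y hy
        rcases Nat.lt_succ_iff_lt_or_eq.1 hs with h | h
        · rw [hb2 s _ h] at hy ⊢
          let W1 : Type := {i : W // ∃ k, β k = y i}
          let y1 : W1 → K := fun i => i.2.choose
          have hy1 : ∀ i : W1, β (y1 i) = y i.1 := fun i => i.2.choose_spec
          have hdj : Dj y1 (b ⟨s, h, hsS⟩) := by
            intro i j hij
            refine hy i.1 j ?_
            rw [← hy1 i, hij]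
            rfl
          have k1 := fs_emb hβ hi (h2 ⟨s, h, hsS⟩ W1 y1 hdj)
          have k2 := hfs ({d // d ∈ B s} ⊕ W1) (Sum.elim (b ⟨s, h, hsS⟩) y1)
          have k3 := fs_symm hS hA k2
          have e3 : β ∘ Sum.elim (b ⟨s, h, hsS⟩) y1 =
              Sum.elim (β ∘ b ⟨s, h, hsS⟩) (β ∘ y1) := by
            funext x
            rcases x with x | x <;> rfl
          rw [e3] at k3
          have k4 := fs_trans hS hA k1 k3
          have hex : ∀ i : W, ∃ x : W1 ⊕ {d // d ∈ B n}, Sum.elim (β ∘ y1) u' x = y i := by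
            intro i
            rcases hcov (y i) with hk | ⟨d, hd⟩
            · exact ⟨Sum.inl ⟨i, hk⟩, hy1 ⟨i, hk⟩⟩
            · exact ⟨Sum.inr d, hd⟩
          choose x hx using hex
          have k5 := fs_mono k4 id x
          have e5 : Sum.elim (β ∘ y1) u' ∘ x = y := funext hx
          rw [e5] at k5
          exact k5
        · subst h
          rw [hb1] at hy ⊢
          have hex : ∀ i : W, ∃ k, β k = y i := by
            intro i
            rcases hcov (y i) with hk | ⟨d, hd⟩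
            · exact hk
            · exact absurd hd.symm (hy i d)
          choose y0 hy0 using hex
          have e0 : β ∘ y0 = y := funext hy0
          rw [← e0]
          exact hfs W y0
      · intro x
        rcases hcov x with ⟨k, rfl⟩ | ⟨d, rfl⟩
        · rcases h3 k with ⟨m, rfl⟩ | ⟨⟨s, hs, hsS⟩, d, rfl⟩
          · exact Or.inl ⟨m, by rw [hi]; rfl⟩
          · refine Or.inr ⟨⟨s, by omega, hsS⟩, d, ?_⟩
            rw [hb2 s _ hs]
            rfl
        · refine Or.inr ⟨⟨n, by omega, hn⟩, d, ?_⟩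
          rw [hb1]
    · have hlt : ∀ s : {s : ℕ // s < n + 1 ∧ s ∈ S}, s.1 < n := by
        rintro ⟨s, hs, hsS⟩
        rcases Nat.lt_succ_iff_lt_or_eq.1 hs with h | h
        · exact h
        · subst h
          exact absurd hsS hn
      refine ⟨K, Z, fun s => b ⟨s.1, hlt s, s.2.2⟩, fun s => h1 ⟨s.1, hlt s, s.2.2⟩,
        fun s => h2 ⟨s.1, hlt s, s.2.2⟩, fun x => ?_⟩
      rcases h3 x with hx | ⟨s, d, hx⟩
      · exact Or.inl hx
      · exact Or.inr ⟨⟨s.1, by have := s.2.1; omega, s.2.2⟩, d, hx⟩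

end Pool.Agent.Helper89.EA
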