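import Pool.Agent.Helper89.EA.S.T4
import Pool.Agent.Helper89.EA.S.T5

/-!
# Project EA, piece S-T8a: a maximal family of different schemes

`schEq_refl` is `NSb`; `schEq_trans`: insert a tuple `m` given by `LegR` at `f2`.
`leg_up`: a tuple of `K'` has over `f'` the type of a tuple of `K` (`C` is existentially closed).

`max_family`.  (i) There is a bound `c0` such that no countable existentially closed extension of
`A` has `c0 + 1` pairwise different schemes.  Otherwise there are for every `n` such extensions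
`κ n : N → K n` with `n` pairwise different schemes.  Chain: `V 0 = N`, `V (n + 1)` is a countable
existentially closed structure containing `V n` and `K n`, amalgamated over `N` (`am_ec`, for the
extensions `V n` and `K n` of `N`).  Embed the limit (`chain_limit`) in a countable existentially
closed `V` (`exists_ec`).  In `V` there are for every `n` at least `n` pairwise different schemes
(`leg_up`, `schEq_down`; the embeddings of `N` in `V` via `K n` and via `V n` agree -- although
for `Leg` and `SchEq` the embedding of `N` does not matter).  Choose recursively an infinite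
sequence of tuples `F t` with `Leg` and pairwise different schemes: given `F 0, ..., F (n - 1)`,
among `n + 1` pairwise different schemes at most `n` are equal to one of the chosen ones
(`schEq_trans`, `schEq_symm`).  Contradiction to `FinA`.

(ii) Take an extension with the largest number `c` of pairwise different schemes.
-/

namespace Pool.Agent.Helper89.EA

variable {σ : Sig} {M N N' : Type} {M0 : RS σ M} {A : RS σ N} {X : Ext M0 A N'} {D : Type}
  {g : D → N'} {p : ℕ} {f : Fin p → N} {K K' : Type} {C : RS σ K}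

theorem schEq_refl (hf : NSb X f g) (f' : Fin p → K) : SchEq X g f C f' f' := by
  intro y m m' h h'
  have h1 := hf σ.r m m' (st_trans (st_symm h) h')
  have e : ∀ m : Fin σ.r → N, Sum.elim g (X.i ∘ Sum.elim f m) ∘
      (Sum.map id Sum.inr : D ⊕ Fin σ.r → D ⊕ (Fin p ⊕ Fin σ.r)) = Sum.elim g (X.i ∘ m) := by
    intro m
    funext t
    rcases t with t | t <;> rfl
  have h2 := st_comp h1 (Sum.map id Sum.inr : D ⊕ Fin σ.r → D ⊕ (Fin p ⊕ Fin σ.r))
  rwa [e, e] at h2

theorem schEq_symm {f' f'' : Fin p → K} (h : SchEq X g f C f' f'') : SchEq X g f C f'' f' :=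
  fun y m m' h1 h2 => st_symm (h y m' m h2 h1)

theorem schEq_trans {f1 f2 f3 : Fin p → K} (hL : LegR A f C f2) (h : SchEq X g f C f1 f2)
    (h' : SchEq X g f C f2 f3) : SchEq X g f C f1 f3 := by
  intro y m m' h1 h2
  obtain ⟨m2, h3⟩ := hL y
  exact st_trans (h y m m2 h1 h3) (h' y m2 m' h3 h2)

theorem legR_of_leg {f' : Fin p → K} (h : Leg A f C f') : LegR A f C f' :=
  fun y => h σ.r y

theorem leg_up (hC : EC M0 C) (Y : Ext M0 C K') {f' : Fin p → K} (h : Leg A f C f') :
    Leg A f Y.B (Y.i ∘ f') := by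
  intro n y
  obtain ⟨b, hb⟩ := hC.2 K' Y.B Y.inC Y.i Y.emb p n f' y
  obtain ⟨m, hm⟩ := h n b
  exact ⟨m, st_trans hb hm⟩

theorem schEq_down (Y : Ext M0 C K') {f' f'' : Fin p → K}
    (h : SchEq X g f Y.B (Y.i ∘ f') (Y.i ∘ f'')) : SchEq X g f C f' f'' := by
  intro y m m' h1 h2
  have key : ∀ (f1 : Fin p → K) (m1 : Fin σ.r → N), ST C A (Sum.elim f1 y) (Sum.elim f m1) →
      ST Y.B A (Sum.elim (Y.i ∘ f1) (Y.i ∘ y)) (Sum.elim f m1) := by
    intro f1 m1 h3
    rw [← Sum.comp_elim]
    exact st_trans (st_symm (emb_st Y.emb _)) h3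
  exact h (Y.i ∘ y) m m' (key f' m h1) (key f'' m' h2)

/-- there are arbitrarily many different schemes -/
private theorem many_schemes (X : Ext M0 A N') {D : Type} {g : D → N'} {p : ℕ}
    {f : Fin p → N} (hF : FinA X g f)
    (h : ∀ c : ℕ, ∃ (K : Type) (_ : Countable K) (C : RS σ K) (κ : N → K)
      (fs : Fin c → Fin p → K), EC M0 C ∧ Emb A C κ ∧ (∀ j, Leg A f C (fs j)) ∧
      ∀ j j', j ≠ j' → ¬ SchEq X g f C (fs j) (fs j')) : False := by
  classical
  choose K hK C κ fs hC hκ hL hne using h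
  obtain ⟨V, hV, B, ν, hB, hν⟩ := jep_omega (M0 := M0) (K := K) C (fun i => (hC i).1)
  let Y : ∀ n, Ext M0 (C n) V := fun n => ⟨B, hB.1, ν n, hν n⟩
  have hL' : ∀ n j, Leg A f B (ν n ∘ fs n j) := fun n j => leg_up (hC n) (Y n) (hL n j)
  have hne' : ∀ n j j', j ≠ j' → ¬ SchEq X g f B (ν n ∘ fs n j) (ν n ∘ fs n j') :=
    fun n j j' hj hs => hne n j j' hj (schEq_down (Y n) hs)
  obtain ⟨F, hF1, hF2⟩ := exists_seq_of_forall_finset_exists (fun f' : Fin p → V => Leg A f B f')
    (fun f' f'' => ¬ SchEq X g f B f' f'') (by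
      intro s hs
      by_contra hcon
      push Not at hcon
      choose x hx1 hx2 using fun j : Fin (s.card + 1) =>
        hcon (ν (s.card + 1) ∘ fs (s.card + 1) j) (hL' _ j)
      obtain ⟨j, -, j', -, hj, hjj⟩ := Finset.exists_ne_map_eq_of_card_lt_of_maps_to
        (s := (Finset.univ : Finset (Fin (s.card + 1)))) (t := s) (f := x) (by simp)
        (fun j _ => hx1 j)
      refine hne' (s.card + 1) j j' hj ?_
      refine schEq_trans (legR_of_leg (hs _ (hx1 j))) (schEq_symm (hx2 j)) ?_
      rw [hjj]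
      exact hx2 j')
  refine hF V B hB (ν 0 ∘ κ 0) (emb_comp (hκ 0) (hν 0)) ⟨F, hF1, fun t t' ht => ?_⟩
  rcases lt_or_gt_of_ne ht with h1 | h1
  · exact hF2 t t' h1
  · exact fun h2 => hF2 t' t h1 (schEq_symm h2)

theorem max_family (hA : EC M0 A) [Countable N] (X : Ext M0 A N') {D : Type} {g : D → N'} {p : ℕ}
    {f : Fin p → N} (hf : NSb X f g) (hF : FinA X g f) :
    ∃ (K : Type) (_ : Countable K) (C : RS σ K) (κ : N → K) (c : ℕ) (fs : Fin c → Fin p → K),
      EC M0 C ∧ Emb A C κ ∧ (∀ j, Leg A f C (fs j)) ∧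
      (∀ j j', j ≠ j' → ¬ SchEq X g f C (fs j) (fs j')) ∧
      ∀ (K2 : Type) [Countable K2] (C2 : RS σ K2) (μ : K → K2), EC M0 C2 → Emb C C2 μ →
        ∀ f' : Fin p → K2, Leg A f C2 f' → ∃ j, SchEq X g f C2 f' (μ ∘ fs j) := by
  classical
  let Q : ℕ → Prop := fun c => ∃ (K : Type) (_ : Countable K) (C : RS σ K) (κ : N → K)
      (fs : Fin c → Fin p → K), EC M0 C ∧ Emb A C κ ∧ (∀ j, Leg A f C (fs j)) ∧
      ∀ j j', j ≠ j' → ¬ SchEq X g f C (fs j) (fs j')
  have h0 : Q 0 := ⟨N, inferInstance, A, id, Fin.elim0, hA, emb_id A, fun j => j.elim0,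
    fun j => j.elim0⟩
  obtain ⟨c, hc, hc'⟩ : ∃ c, Q c ∧ ¬ Q (c + 1) := by
    by_contra hcon
    push Not at hcon
    refine many_schemes X hF fun c => ?_
    change Q c
    induction c with
    | zero => exact h0
    | succ c ih => exact hcon c ih
  obtain ⟨K, hK, C, κ, fs, hC, hκ, hL, hne⟩ := hc
  refine ⟨K, hK, C, κ, c, fs, hC, hκ, hL, hne, ?_⟩
  intro K2 hK2 C2 μ hC2 hμ f' hf'
  by_contra hcon
  push Not at hcon
  let Y : Ext M0 C K2 := ⟨C2, hC2.1, μ, hμ⟩
  refine hc' ⟨K2, hK2, C2, μ ∘ κ, Fin.snoc (α := fun _ => Fin p → K2) (fun j => μ ∘ fs j) f', hC2,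
    emb_comp hκ hμ, ?_, ?_⟩
  · intro j
    refine Fin.lastCases ?_ (fun i => ?_) j
    · rw [Fin.snoc_last]
      exact hf'
    · rw [Fin.snoc_castSucc]
      exact leg_up hC Y (hL i)
  · intro j j'
    refine Fin.lastCases ?_ (fun i => ?_) j
    · refine Fin.lastCases ?_ (fun i' => ?_) j'
      · exact fun h => absurd rfl h
      · intro _
        rw [Fin.snoc_last, Fin.snoc_castSucc]
        exact hcon i'
    · refine Fin.lastCases ?_ (fun i' => ?_) j'
      · intro _ h2
        rw [Fin.snoc_last, Fin.snoc_castSucc] at h2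
        exact hcon i (schEq_symm h2)
      · intro hij h2
        rw [Fin.snoc_castSucc, Fin.snoc_castSucc] at h2
        exact hne i i' (fun h => hij (by rw [h])) (schEq_down Y h2)

end Pool.Agent.Helper89.EA
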