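import Pool.Agent.Helper89.EA.S.T5
import Pool.Agent.Helper89.EA.S.T8a
import Pool.Agent.Helper89.EA.P.B2
import Pool.Agent.Helper89.EA.UDefs

/-!
# Project EA, piece S-T11a: the coding sentences; scheme closed pieces

`foc_psiS`: quantify over the finite tuples `f', z', x` (together a tuple indexed by
`Fin p ⊕ Fin q ⊕ B`); the inner statement is `∀ y, Dj y x → (pattern predicate of (x, f', y))`,
where `∃ m, ST C X.B (x, f', y) (g, f, m)` depends only on the type of `(x, f', y)` (constructor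
`FOc.pat`).

`scl_two`: check subtuples of length `σ.r` of `(x, f'', y)`, `(x, f'', y')` (`st_small'`).  If all
entries are in `x` there is nothing to do.  Otherwise let `w, w' : Fin σ.r → K` be the
corresponding entries of `(f'', y)` and `(f'', y')`, where the entries in `x` are replaced by one
of the others.  They are disjoint from `x` (`hxf`), `ST (f'', w) (f'', w')`; by `LegR` there is `m` with
`ST (f'', w) (f, m)`, so also `ST (f'', w') (f, m)`, and `SCl` gives
`(x, f'', w) ~ (g, f, m) ~ (x, f'', w')`.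
-/

namespace Pool.Agent.Helper89.EA

variable {σ : Sig} {M N N' : Type} {M0 : RS σ M} {A : RS σ N} {D : Type} {p q : ℕ}

/-- The coding sentence of the stable case: there is a piece `x` of the form `B` which is closed
with respect to parameters `f'` that look like `f`. -/
def PsiS (X : Ext M0 A N') (g : D → N') (f : Fin p → N) (z : Fin q → N) (B : Finset D)
    (K : Type) (C : RS σ K) : Prop :=
  ∃ (f' : Fin p → K) (z' : Fin q → K) (x : {d // d ∈ B} → K),
    ST C A (Sum.elim f' z') (Sum.elim f z) ∧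
    ST C X.B (Sum.elim x f') (Sum.elim (fun d : {d // d ∈ B} => g d) (X.i ∘ f)) ∧
    ∀ y : Fin σ.r → K, Dj y x → ∃ m : Fin σ.r → N,
      ST C X.B (Sum.elim x (Sum.elim f' y))
        (Sum.elim (fun d : {d // d ∈ B} => g d) (X.i ∘ Sum.elim f m))

private theorem st_pull {K L : Type} {B : RS σ K} {C : RS σ L} {ι κ : Type} {v : ι → K}
    {w : ι → L} {v' : κ → K} {w' : κ → L} (h : ST B C v w)
    (hf : ∀ i, ∃ j, v' i = v j ∧ w' i = w j) : ST B C v' w' := by
  choose e he using hf
  have h1 : v' = v ∘ e := funext fun i => (he i).1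
  have h2 : w' = w ∘ e := funext fun i => (he i).2
  rw [h1, h2]
  exact st_comp h e

theorem foc_psiS (X : Ext M0 A N') (g : D → N') (f : Fin p → N) (z : Fin q → N) (B : Finset D) :
    FOc σ (fun K C (_ : Empty → K) => PsiS X g f z B K C) := by
  let V : Type := Empty ⊕ (Fin p ⊕ (Fin q ⊕ {d // d ∈ B}))
  let a : Fin p ⊕ Fin q → V :=
    Sum.elim (fun i => Sum.inr (Sum.inl i)) (fun i => Sum.inr (Sum.inr (Sum.inl i)))
  let b : {d // d ∈ B} ⊕ Fin p → V :=
    Sum.elim (fun i => Sum.inr (Sum.inr (Sum.inr i))) (fun i => Sum.inr (Sum.inl i))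
  let c : {d // d ∈ B} ⊕ (Fin p ⊕ Fin σ.r) → V ⊕ Fin σ.r :=
    Sum.elim (fun i => Sum.inl (Sum.inr (Sum.inr (Sum.inr i))))
      (Sum.elim (fun i => Sum.inl (Sum.inr (Sum.inl i))) Sum.inr)
  have h1 : FOc σ (fun K C (v : V → K) => ST C A (v ∘ a) (Sum.elim f z)) :=
    foc_ren (foc_st A (Sum.elim f z)) a
  have h2 : FOc σ (fun K C (v : V → K) =>
      ST C X.B (v ∘ b) (Sum.elim (fun d : {d // d ∈ B} => g d) (X.i ∘ f))) :=
    foc_ren (foc_st X.B (Sum.elim (fun d : {d // d ∈ B} => g d) (X.i ∘ f))) b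
  have h3 : FOc σ (fun K C (v : V ⊕ Fin σ.r → K) =>
      (∀ (j : Fin σ.r) (d : {d // d ∈ B}),
        v (Sum.inr j) ≠ v (Sum.inl (Sum.inr (Sum.inr (Sum.inr d))))) →
      ∃ m : Fin σ.r → N, ST C X.B (v ∘ c)
        (Sum.elim (fun d : {d // d ∈ B} => g d) (X.i ∘ Sum.elim f m))) := by
    refine FOc.pat _ fun K K' C C' v w hvw => ?_
    refine imp_congr ?_ ?_
    · exact forall_congr' fun j => forall_congr' fun d => not_congr (hvw.1 _ _)
    · refine exists_congr fun m => ?_
      exact ⟨fun h => st_trans (st_symm (st_comp hvw c)) h, fun h => st_trans (st_comp hvw c) h⟩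
  refine foc_congr (FOc.ex _ (FOc.and _ _ h1 (FOc.and _ _ h2 (foc_all h3)))) fun K C v => ?_
  constructor
  · rintro ⟨w, k1, k2, k3⟩
    refine ⟨fun i => w (Sum.inl i), fun i => w (Sum.inr (Sum.inl i)),
      fun i => w (Sum.inr (Sum.inr i)), ?_, ?_, ?_⟩
    · refine st_pull k1 ?_
      rintro (i | i)
      · exact ⟨Sum.inl i, rfl, rfl⟩
      · exact ⟨Sum.inr i, rfl, rfl⟩
    · refine st_pull k2 ?_
      rintro (i | i)
      · exact ⟨Sum.inl i, rfl, rfl⟩
      · exact ⟨Sum.inr i, rfl, rfl⟩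
    · intro y hy
      obtain ⟨m, hm⟩ := k3 y (fun j d => hy j d)
      refine ⟨m, st_pull hm ?_⟩
      rintro (i | i | i)
      · exact ⟨Sum.inl i, rfl, rfl⟩
      · exact ⟨Sum.inr (Sum.inl i), rfl, rfl⟩
      · exact ⟨Sum.inr (Sum.inr i), rfl, rfl⟩
  · rintro ⟨f', z', x, k1, k2, k3⟩
    refine ⟨Sum.elim f' (Sum.elim z' x), ?_, ?_, ?_⟩
    · refine st_pull k1 ?_
      rintro (i | i)
      · exact ⟨Sum.inl i, rfl, rfl⟩
      · exact ⟨Sum.inr i, rfl, rfl⟩
    · refine st_pull k2 ?_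
      rintro (i | i)
      · exact ⟨Sum.inl i, rfl, rfl⟩
      · exact ⟨Sum.inr i, rfl, rfl⟩
    · intro y hy
      obtain ⟨m, hm⟩ := k3 y (fun j d => hy j d)
      refine ⟨m, st_pull hm ?_⟩
      rintro (i | i | i)
      · exact ⟨Sum.inl i, rfl, rfl⟩
      · exact ⟨Sum.inr (Sum.inl i), rfl, rfl⟩
      · exact ⟨Sum.inr (Sum.inr i), rfl, rfl⟩

/-- `x` is closed for the scheme at `f'` (arbitrary finite tuples) -/
def SCl (X : Ext M0 A N') (g : D → N') (f : Fin p → N) (B : Finset D) {K : Type} (C : RS σ K)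
    (f' : Fin p → K) (x : {d // d ∈ B} → K) : Prop :=
  Dj f' x ∧ ∀ (κ : Type) [Finite κ] (y : κ → K) (m : κ → N), Dj y x →
    ST C A (Sum.elim f' y) (Sum.elim f m) →
    ST C X.B (Sum.elim x (Sum.elim f' y))
      (Sum.elim (fun d : {d // d ∈ B} => g d) (X.i ∘ Sum.elim f m))

/-- `SCl` in a substructure -/
theorem scl_emb {X : Ext M0 A N'} {g : D → N'} {f : Fin p → N} {B : Finset D} {K L : Type}
    {C : RS σ K} {E : RS σ L} {i : K → L} (hi : Emb C E i) {f' : Fin p → K}
    {x : {d // d ∈ B} → K} (h : SCl X g f B E (i ∘ f') (i ∘ x)) : SCl X g f B C f' x := by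
  have hinj := emb_injective hi
  refine ⟨fun a b hab => h.1 a b (congrArg i hab), fun κ _ y m hy hm => ?_⟩
  have h1 := h.2 κ (i ∘ y) m (fun a b hab => hy a b (hinj hab)) (by
    rw [← Sum.comp_elim]
    exact st_trans (st_symm (emb_st hi _)) hm)
  rw [← Sum.comp_elim, ← Sum.comp_elim] at h1
  exact st_trans (emb_st hi _) h1

theorem scl_two {X : Ext M0 A N'} {g : D → N'} {f : Fin p → N} {B : Finset D} {K : Type}
    {C : RS σ K} (hC : InC M0 C) {f' : Fin p → K} {x : {d // d ∈ B} → K}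
    (h : SCl X g f B C f' x) (hL : LegR A f C f') {κ : Type} [Finite κ] (y y' : κ → K)
    (hy : Dj y x) (hy' : Dj y' x) (hyy : ST C C (Sum.elim f' y) (Sum.elim f' y')) :
    ST C C (Sum.elim x (Sum.elim f' y)) (Sum.elim x (Sum.elim f' y')) := by
  refine st_small' hC hC fun s => ?_
  by_cases hs : ∃ k0 t0, s k0 = Sum.inr t0
  · obtain ⟨k0, t0, hk0⟩ := hs
    let s' : Fin σ.r → Fin p ⊕ κ := fun k => Sum.elim (fun _ => t0) id (s k)
    have hD : ∀ (v : κ → K), Dj v x → Dj (Sum.elim f' v ∘ s') x := by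
      intro v hv k d
      show Sum.elim f' v (s' k) ≠ x d
      rcases s' k with t | t
      · exact h.1 t d
      · exact hv t d
    obtain ⟨m, hm⟩ := hL (Sum.elim f' y ∘ s')
    have h0 : ST C C (Sum.elim f' (Sum.elim f' y ∘ s')) (Sum.elim f' (Sum.elim f' y' ∘ s')) := by
      refine st_pull hyy ?_
      rintro (i | i)
      · exact ⟨Sum.inl i, rfl, rfl⟩
      · exact ⟨s' i, rfl, rfl⟩
    have h1 := h.2 (Fin σ.r) (Sum.elim f' y ∘ s') m (hD y hy) hm
    have h2 := h.2 (Fin σ.r) (Sum.elim f' y' ∘ s') m (hD y' hy') (st_trans (st_symm h0) hm)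
    refine st_pull (st_trans h1 (st_symm h2)) fun k => ?_
    rcases hk : s k with d | t
    · exact ⟨Sum.inl d, by simp only [Function.comp, hk, Sum.elim_inl],
        by simp only [Function.comp, hk, Sum.elim_inl]⟩
    · have hs' : s' k = t := by
        show Sum.elim (fun _ => t0) id (s k) = t
        rw [hk]
        rfl
      refine ⟨Sum.inr (Sum.inr k), ?_, ?_⟩
      · simp only [Function.comp, hk, Sum.elim_inr, hs']
      · simp only [Function.comp, hk, Sum.elim_inr, hs']
  · push Not at hs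
    have e : Sum.elim x (Sum.elim f' y) ∘ s = Sum.elim x (Sum.elim f' y') ∘ s := by
      funext k
      rcases hk : s k with d | t
      · simp only [Function.comp, hk, Sum.elim_inl]
      · exact absurd hk (hs k t)
    rw [e]
    exact st_refl _ _

/-- `(x, f')` has the type of `(g, f)`; in particular `x` is injective if `g` is -/
theorem scl_self {X : Ext M0 A N'} {g : D → N'} {f : Fin p → N} {B : Finset D} {K : Type}
    {C : RS σ K} {f' : Fin p → K} {x : {d // d ∈ B} → K} (h : SCl X g f B C f' x)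
    (hL : LegR A f C f') [Nonempty K] :
    ST C X.B (Sum.elim x f') (Sum.elim (fun d : {d // d ∈ B} => g d) (X.i ∘ f)) := by
  obtain ⟨k0⟩ := ‹Nonempty K›
  obtain ⟨m0, hm0⟩ := hL fun _ => k0
  have h1 := h.2 Empty Empty.elim Empty.elim (fun a => a.elim) (by
    refine st_pull hm0 ?_
    rintro (i | i)
    · exact ⟨Sum.inl i, rfl, rfl⟩
    · exact i.elim)
  refine st_pull h1 ?_
  rintro (i | i)
  · exact ⟨Sum.inl i, rfl, rfl⟩
  · exact ⟨Sum.inr (Sum.inl i), rfl, rfl⟩

end Pool.Agent.Helper89.EA
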