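import Pool.Agent.Helper89.EA.S.T11a

/-!
# Project EA, piece S-T11b: the parameters of a closed piece can be moved to the base

Proof of `psiS_reduce`.  Let `f', z', x` be as in `PsiS`, in the extension `Z` of `A`.  `Amb` gives
`LegR A f Z.B f'` and `j` with `SchEq X g f Z.B f' (Z.i ∘ fs j)`.  Let `c` be a finite tuple of
`N` containing: preimages of all the entries of `x` which are in the range of `Z.i`, all `fs j'`, and for `j' ≠ j''`
a tuple `y : Fin σ.r → N` witnessing `¬ SchEq X g f A (fs j') (fs j'')`.  As `A` is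
existentially closed there are `f'', z''` in `N` with `ST (f'', z'', c) (f', z', c)`.
* `Dj (Z.i ∘ f'') x`: an equality `Z.i (f'' a) = x d` means that `x d` is in the range of `Z.i`,
  so its preimage is an entry of `c`, and `f' a = x d`; but `f'` is disjoint from `x`, as
  `(x, f')` has the type of `(g, f)` and `g` is outside of `N` (`hout`).
* `Amb` for `Z.i ∘ f'', Z.i ∘ z''` gives `LegR` and `j''` with
  `SchEq X g f Z.B (Z.i ∘ f'') (Z.i ∘ fs j'')`.
* `j'' = j`: otherwise let `y` be the witness for `fs j, fs j''`: `ST (fs j, y) (f, m)`,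
  `ST (fs j'', y) (f, m')`, `¬ ST (g, m) (g, m')`.  By `LegR` for `f'` there is `m1` with
  `ST (f', y) (f, m1)`, and then `ST (f'', y) (f, m1)`, since `y` is a part of `c`.  The two
  `SchEq` give `ST (g, m1) (g, m)` and `ST (g, m1) (g, m')`.  Contradiction.
* So `SchEq X g f Z.B f' (Z.i ∘ f'')` (`schEq_trans`, `schEq_symm`; `am.leg` and `leg_up` give
  `LegR` for `Z.i ∘ fs j`).  `SCl`: let `y, m` be given, `Dj y x`,
  `ST (Z.i ∘ f'', y) (f, m)`.  Check subtuples of length `σ.r` of `(x, f'', y)` and `(g, f, m)`.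
  If all entries are in `x`: by the hypothesis on `(x, f')`.  Otherwise let
  `w : Fin σ.r → K`, `mw : Fin σ.r → N` be the entries of `(f'', y)`, `(f, m)` (entries in `x` are
  replaced by one of the others).  `Dj w x`, `ST (f'', w) (f, mw)`; by the closedness in `PsiS`
  there is `m1` with `ST (x, f', w) (g, f, m1)`, in particular `ST (f', w) (f, m1)`, so `SchEq`
  gives `ST (g, m1) (g, mw)` and `(x, w) ~ (g, m1) ~ (g, mw)`.
-/

namespace Pool.Agent.Helper89.EA

variable {σ : Sig} {M N N' : Type} {M0 : RS σ M} {A : RS σ N} {D : Type} {p : ℕ}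

private theorem st_pull {K L : Type} {B : RS σ K} {C : RS σ L} {ι κ : Type} {v : ι → K}
    {w : ι → L} {v' : κ → K} {w' : κ → L} (h : ST B C v w)
    (hf : ∀ i, ∃ j, v' i = v j ∧ w' i = w j) : ST B C v' w' := by
  choose e he using hf
  have h1 : v' = v ∘ e := funext fun i => (he i).1
  have h2 : w' = w ∘ e := funext fun i => (he i).2
  rw [h1, h2]
  exact st_comp h e

/-- the closedness for the scheme at `F`, from the closedness in `PsiS` for `f'` -/
private theorem scl_of_psi {X : Ext M0 A N'} {g : D → N'} {f : Fin p → N} {B : Finset D}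
    {K : Type} (Z : Ext M0 A K) {f' F : Fin p → K} {x : {d // d ∈ B} → K}
    (h2 : ST Z.B X.B (Sum.elim x f') (Sum.elim (fun d : {d // d ∈ B} => g d) (X.i ∘ f)))
    (h3 : ∀ y : Fin σ.r → K, Dj y x → ∃ m : Fin σ.r → N,
      ST Z.B X.B (Sum.elim x (Sum.elim f' y))
        (Sum.elim (fun d : {d // d ∈ B} => g d) (X.i ∘ Sum.elim f m)))
    (hD : Dj F x) (hS : SchEq X g f Z.B f' F) : SCl X g f B Z.B F x := by
  refine ⟨hD, fun κ _ y m hy hym => ?_⟩
  refine st_small' Z.inC X.inC fun s => ?_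
  by_cases hs : ∃ k0 t0, s k0 = Sum.inr t0
  · obtain ⟨k0, t0, hk0⟩ := hs
    let s' : Fin σ.r → Fin p ⊕ κ := fun k => Sum.elim (fun _ => t0) id (s k)
    have hDw : Dj (Sum.elim F y ∘ s') x := by
      intro k d
      show Sum.elim F y (s' k) ≠ x d
      rcases s' k with t | t
      · exact hD t d
      · exact hy t d
    obtain ⟨m1, hm1⟩ := h3 (Sum.elim F y ∘ s') hDw
    have h4 : ST Z.B A (Sum.elim f' (Sum.elim F y ∘ s')) (Sum.elim f m1) :=
      st_trans (st_sum_right hm1) (st_symm (emb_st X.emb _))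
    have h5 : ST Z.B A (Sum.elim F (Sum.elim F y ∘ s')) (Sum.elim f (Sum.elim f m ∘ s')) := by
      refine st_pull hym ?_
      rintro (i | i)
      · exact ⟨Sum.inl i, rfl, rfl⟩
      · exact ⟨s' i, rfl, rfl⟩
    have h6 := hS _ m1 _ h4 h5
    have h7 : ST X.B X.B (Sum.elim (fun d : {d // d ∈ B} => g d) (X.i ∘ m1))
        (Sum.elim (fun d : {d // d ∈ B} => g d) (X.i ∘ (Sum.elim f m ∘ s'))) := by
      refine st_pull h6 ?_
      rintro (i | i)
      · exact ⟨Sum.inl i, rfl, rfl⟩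
      · exact ⟨Sum.inr i, rfl, rfl⟩
    have h8 : ST Z.B X.B (Sum.elim x (Sum.elim F y ∘ s'))
        (Sum.elim (fun d : {d // d ∈ B} => g d) (X.i ∘ m1)) := by
      refine st_pull hm1 ?_
      rintro (i | i)
      · exact ⟨Sum.inl i, rfl, rfl⟩
      · exact ⟨Sum.inr (Sum.inr i), rfl, rfl⟩
    refine st_pull (st_trans h8 h7) fun k => ?_
    rcases hk : s k with d | t
    · exact ⟨Sum.inl d, by simp only [Function.comp, hk, Sum.elim_inl],
        by simp only [Function.comp, hk, Sum.elim_inl]⟩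
    · have hs' : s' k = t := by
        show Sum.elim (fun _ => t0) id (s k) = t
        rw [hk]
        rfl
      refine ⟨Sum.inr k, ?_, ?_⟩
      · simp only [Function.comp, hk, Sum.elim_inr, hs']
      · simp only [Function.comp, hk, Sum.elim_inr, hs']
  · push Not at hs
    refine st_pull h2 fun k => ?_
    rcases hk : s k with d | t
    · exact ⟨Sum.inl d, by simp only [Function.comp, hk, Sum.elim_inl],
        by simp only [Function.comp, hk, Sum.elim_inl]⟩
    · exact absurd hk (hs k t)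

theorem psiS_reduce (hA : EC M0 A) {X : Ext M0 A N'} {g : D → N'}
    (hout : ∀ d n, g d ≠ X.i n) {f : Fin p → N} (hf : NSb X f g) (am : Amb X g f)
    {B : Finset D} {K : Type} (Z : Ext M0 A K) (h : PsiS X g f am.z B K Z.B) :
    ∃ (x : {d // d ∈ B} → K) (f'' : Fin p → N) (j : Fin am.c),
      SCl X g f B Z.B (Z.i ∘ f'') x ∧ LegR A f Z.B (Z.i ∘ f'') ∧
      ST Z.B X.B (Sum.elim x (Z.i ∘ f'')) (Sum.elim (fun d : {d // d ∈ B} => g d) (X.i ∘ f)) ∧
      SchEq X g f Z.B (Z.i ∘ f'') (Z.i ∘ am.fs j) := by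
  classical
  obtain ⟨f', z', x, h1, h2, h3⟩ := h
  obtain ⟨-, j, hj⟩ := am.amb K Z f' z' h1
  have hLR' := (am.amb K Z f' z' h1).1
  -- the witnesses for the different schemes
  have hne : ∀ q : {q : Fin am.c × Fin am.c // q.1 ≠ q.2}, ∃ (y : Fin σ.r → N)
      (m m' : Fin σ.r → N), ST A A (Sum.elim (am.fs q.1.1) y) (Sum.elim f m) ∧
      ST A A (Sum.elim (am.fs q.1.2) y) (Sum.elim f m') ∧
      ¬ ST X.B X.B (Sum.elim g (X.i ∘ m)) (Sum.elim g (X.i ∘ m')) := by
    intro q
    have h := am.ne q.1.1 q.1.2 q.2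
    unfold SchEq at h
    push Not at h
    exact h
  choose yy mm mm' hy1 hy2 hy3 using hne
  let T : Type := {d : {d // d ∈ B} // ∃ n, Z.i n = x d}
  let c : T ⊕ ({q : Fin am.c × Fin am.c // q.1 ≠ q.2} × Fin σ.r) → N :=
    Sum.elim (fun t => Classical.choose t.2) (fun t => yy t.1 t.2)
  obtain ⟨b, hb⟩ := ec_finite hA Z.inC Z.emb c (Sum.elim f' z')
  have hcT : ∀ t : T, Z.i (c (Sum.inl t)) = x t.1 := fun t => Classical.choose_spec t.2
  let f'' : Fin p → N := fun a => b (Sum.inl a)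
  let z'' : Fin am.q → N := fun a => b (Sum.inr a)
  have hD : Dj (Z.i ∘ f'') x := by
    intro a d had
    have e1 : Z.i (f'' a) = x d := had
    let t : T := ⟨d, f'' a, e1⟩
    have e2 : c (Sum.inl t) = f'' a := emb_injective Z.emb ((hcT t).trans e1.symm)
    have e3 := (hb.1 (Sum.inl (Sum.inl t)) (Sum.inr (Sum.inl a))).2 e2
    have e4 : x d = f' a := (hcT t).symm.trans e3
    exact hout _ _ ((h2.1 (Sum.inl d) (Sum.inr a)).1 e4)
  have h4 : ST Z.B A (Sum.elim (Z.i ∘ f'') (Z.i ∘ z'')) (Sum.elim f am.z) := by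
    rw [← Sum.comp_elim]
    refine st_trans (st_symm (emb_st Z.emb _)) ?_
    refine st_trans ?_ h1
    refine st_symm (st_pull hb ?_)
    rintro (i | i)
    · exact ⟨Sum.inr (Sum.inl i), rfl, rfl⟩
    · exact ⟨Sum.inr (Sum.inr i), rfl, rfl⟩
  obtain ⟨hLR, j', hj'⟩ := am.amb K Z _ _ h4
  have hjj : j' = j := by
    by_contra hcon
    let q : {q : Fin am.c × Fin am.c // q.1 ≠ q.2} := ⟨(j, j'), fun e => hcon e.symm⟩
    obtain ⟨m1, hm1⟩ := hLR' (Z.i ∘ yy q)
    have k1 : ST Z.B A (Sum.elim (Z.i ∘ f'') (Z.i ∘ yy q)) (Sum.elim f m1) := by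
      rw [← Sum.comp_elim]
      refine st_trans (st_symm (emb_st Z.emb _)) ?_
      refine st_trans ?_ hm1
      refine st_symm (st_pull hb ?_)
      rintro (i | i)
      · exact ⟨Sum.inr (Sum.inl i), rfl, rfl⟩
      · exact ⟨Sum.inl (Sum.inr (q, i)), rfl, rfl⟩
    have k2 : ST Z.B A (Sum.elim (Z.i ∘ am.fs j) (Z.i ∘ yy q)) (Sum.elim f (mm q)) := by
      rw [← Sum.comp_elim]
      exact st_trans (st_symm (emb_st Z.emb _)) (hy1 q)
    have k3 : ST Z.B A (Sum.elim (Z.i ∘ am.fs j') (Z.i ∘ yy q)) (Sum.elim f (mm' q)) := by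
      rw [← Sum.comp_elim]
      exact st_trans (st_symm (emb_st Z.emb _)) (hy2 q)
    exact hy3 q (st_trans (st_symm (hj _ _ _ hm1 k2)) (hj' _ _ _ k1 k3))
  subst hjj
  have hLj : LegR A f Z.B (Z.i ∘ am.fs j') := legR_of_leg (leg_up hA Z (am.leg j'))
  have hS : SchEq X g f Z.B f' (Z.i ∘ f'') := schEq_trans hLj hj (schEq_symm hj')
  have hC := scl_of_psi Z h2 h3 hD hS
  refine ⟨x, f'', j', hC, hLR, ?_, hj'⟩
  have h5 := hC.2 Empty Empty.elim Empty.elim (fun a => a.elim) (by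
    refine st_pull h4 ?_
    rintro (i | i)
    · exact ⟨Sum.inl i, rfl, rfl⟩
    · exact i.elim)
  refine st_pull h5 ?_
  rintro (i | i)
  · exact ⟨Sum.inl i, rfl, rfl⟩
  · exact ⟨Sum.inr (Sum.inl i), rfl, rfl⟩

end Pool.Agent.Helper89.EA
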