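import Pool.Agent.Helper89.EA.S.T11a

/-!
# Project EA, piece S-T11c1: a closed piece is not split by an independent block

Everything is for a piece `x` closed at `f'' : Fin p → N`.

`step1`.  Let `e : Fin σ.r → D`, with values in `Q`, be given by `WConn` for the splitting `P, Q`
of `B`.  Let `c` be a finite tuple of `N` containing `f''` and the preimages of all entries of `x` in the
range of `Z.i`.  By `hFS` there is `u0 : Q → N` with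
`ST (x_Q, x_P, c) (Z.i ∘ u0, x_P, c)`.  The points `Z.i (u0 d)` are not entries of `x`:
`Z.i (u0 d) = x d'` implies that `x d'` is in the range of `Z.i`, so `d' ∈ P` (`hQN`) and its
preimage is in `c`, hence `x d = x d'`, `d = d'` (`x` is injective: `hself` and `hinj`),
contradiction.  By `LegR` let `m` satisfy `ST (f'', u0 ∘ e) (f, m)`.  `SCl`:
`(x, f'', u0 ∘ e) ~ (g, f, m)`.  So
`(g_P, f, m) ~ (x_P, f'', u0 ∘ e) ~ (x_P, f'', x ∘ e) ~ (g_P, f, g ∘ e)` (the last one by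
`hself`), contradiction to `WConn`.
-/

namespace Pool.Agent.Helper89.EA

variable {σ : Sig} {M N N' : Type} {M0 : RS σ M} {A : RS σ N} {D : Type} {p : ℕ}

theorem step1 (hA : EC M0 A) {X : Ext M0 A N'} {g : D → N'} (hinj : Function.Injective g)
    {f : Fin p → N} {B : Finset D} (hB : WConn X g f B) {K : Type} (Z : Ext M0 A K)
    (x : {d // d ∈ B} → K) (f'' : Fin p → N) (hcl : SCl X g f B Z.B (Z.i ∘ f'') x)
    (hL : LegR A f Z.B (Z.i ∘ f''))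
    (hself : ST Z.B X.B (Sum.elim x (Z.i ∘ f''))
      (Sum.elim (fun d : {d // d ∈ B} => g d) (X.i ∘ f)))
    (P Q : Finset D) (hP : P.Nonempty) (hQ : Q.Nonempty) (hPQ : Disjoint P Q)
    (hBPQ : ∀ d, d ∈ B ↔ d ∈ P ∨ d ∈ Q)
    (hQN : ∀ d (hd : d ∈ Q) n, x ⟨d, (hBPQ d).2 (Or.inr hd)⟩ ≠ Z.i n)
    (hFS : FS Z (fun d : {d // d ∈ Q} => x ⟨d.1, (hBPQ d.1).2 (Or.inr d.2)⟩)
      (fun d : {d // d ∈ P} => x ⟨d.1, (hBPQ d.1).2 (Or.inl d.2)⟩)) : False := by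
  classical
  obtain ⟨_, hB2⟩ := hB
  obtain ⟨e, heQ, hne⟩ := hB2 P Q hP hQ hPQ hBPQ
  -- the finite tuple `c`
  let κ : Type := Fin p ⊕ {d : {d // d ∈ B} // ∃ n, x d = Z.i n}
  let c : κ → N := Sum.elim f'' (fun d => d.2.choose)
  have hc : ∀ d : {d : {d // d ∈ B} // ∃ n, x d = Z.i n}, x d.1 = Z.i (c (Sum.inr d)) :=
    fun d => d.2.choose_spec
  obtain ⟨n, ⟨E⟩⟩ := Finite.exists_equiv_fin κ
  obtain ⟨u0, hu0⟩ := hFS n (c ∘ E.symm)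
  have h1 := st_comp hu0 (Sum.map id E :
    ({d // d ∈ Q} ⊕ {d // d ∈ P}) ⊕ κ → ({d // d ∈ Q} ⊕ {d // d ∈ P}) ⊕ Fin n)
  have e1 : ∀ w : {d // d ∈ Q} ⊕ {d // d ∈ P} → K,
      Sum.elim w (Z.i ∘ c ∘ E.symm) ∘ Sum.map id E = Sum.elim w (Z.i ∘ c) := by
    intro w
    funext t
    rcases t with t | t
    · rfl
    · simp only [Function.comp_apply, Sum.map_inr, Sum.elim_inr, Equiv.symm_apply_apply]
  rw [e1, e1] at h1
  -- the tuple `y`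
  let y : Fin σ.r → K := fun t => Z.i (u0 ⟨e t, heQ t⟩)
  have hDj : Dj y x := by
    intro t j hj
    have hj' : ∃ n, x j = Z.i n := ⟨_, hj.symm⟩
    have h3 := (h1.1 (Sum.inl (Sum.inl ⟨e t, heQ t⟩)) (Sum.inr (Sum.inr ⟨j, hj'⟩))).2 (by
      change Z.i (u0 ⟨e t, heQ t⟩) = Z.i (c (Sum.inr ⟨j, hj'⟩))
      rw [← hc ⟨j, hj'⟩]
      exact hj)
    exact hQN (e t) (heQ t) _ h3
  obtain ⟨m, hm⟩ := hL y
  have h2 := hcl.2 (Fin σ.r) y m hDj hm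
  refine hne m ?_
  -- `(g_P, f, m) ~ (x_P, f'', y)`
  have k1 := st_comp h2 (Sum.map (fun d => ⟨d.1, (hBPQ d.1).2 (Or.inl d.2)⟩) id :
    {d // d ∈ P} ⊕ (Fin p ⊕ Fin σ.r) → {d // d ∈ B} ⊕ (Fin p ⊕ Fin σ.r))
  -- `(x_P, f'', x ∘ e) ~ (x_P, f'', y)`
  have k2 := st_comp h1 (Sum.elim (fun d => Sum.inl (Sum.inr d))
    (Sum.elim (fun t => Sum.inr (Sum.inl t)) (fun t => Sum.inl (Sum.inl ⟨e t, heQ t⟩))) :
    {d // d ∈ P} ⊕ (Fin p ⊕ Fin σ.r) → ({d // d ∈ Q} ⊕ {d // d ∈ P}) ⊕ κ)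
  -- `(x_P, f'', x ∘ e) ~ (g_P, f, g ∘ e)`
  have k3 := st_comp hself (Sum.elim (fun d => Sum.inl ⟨d.1, (hBPQ d.1).2 (Or.inl d.2)⟩)
    (Sum.elim (fun t => Sum.inr t)
      (fun t => Sum.inl ⟨e t, (hBPQ (e t)).2 (Or.inr (heQ t))⟩)) :
    {d // d ∈ P} ⊕ (Fin p ⊕ Fin σ.r) → {d // d ∈ B} ⊕ Fin p)
  have a1 : ∀ (v : {d // d ∈ P} ⊕ (Fin p ⊕ Fin σ.r) → N')
      (w : {d // d ∈ P} ⊕ (Fin p ⊕ Fin σ.r) → N'), v = w → ST X.B X.B v w := by
    rintro v w rfl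
    exact st_refl _ _
  have a2 : ∀ (v : {d // d ∈ P} ⊕ (Fin p ⊕ Fin σ.r) → K)
      (w : {d // d ∈ P} ⊕ (Fin p ⊕ Fin σ.r) → K), v = w → ST Z.B Z.B v w := by
    rintro v w rfl
    exact st_refl _ _
  refine st_trans (a1 _ _ ?_) (st_trans (st_symm k1) (st_trans (a2 _ _ ?_) (st_trans (st_symm k2)
    (st_trans (a2 _ _ ?_) (st_trans k3 (a1 _ _ ?_))))))
  · funext t
    rcases t with t | t | t <;> rfl
  · funext t
    rcases t with t | t | t <;> rfl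
  · funext t
    rcases t with t | t | t <;> rfl
  · funext t
    rcases t with t | t | t <;> rfl

end Pool.Agent.Helper89.EA
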