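import Pool.Agent.Helper89.EA.S.T11a

/-!
# Project EA, piece S-T11c2: there are no closed pieces in the existentially closed base

Everything is for a piece `x` closed at `f'' : Fin p → N`.

`step2`.  Everything is in `A`.  Let `e : Fin σ.r → D`, with values in `Q = Bp \ B`, be given by
`WConn` for the splitting `B, Q` of `Bp`.  Let `Y : Ext M0 A K'`, `h : D → K'` be the scheme
extension at `am.fs j` (`scheme_ext`).  Define `i : N → K'`, `i n = h d` if `n = x d`, `i n = Y.i n`
if `n` is not an entry of `x`.  Claim: `Emb A Y.B i`.  By `emb_of_finite`/`st_small'` it is enough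
to see for `y : Fin σ.r → N` disjoint from `x` that `(x, y)` in `A` and `(h, Y.i ∘ y)` in `Y.B` have
the same type: let `ST (f'', y) (f, m)` (`hL`), so `(x, y) ~ (g, m)` (`SCl`); let
`ST (fs j, y) (f, m')` (`am.leg`), so `(h, y) ~ (g, m')` (`IsSch`), and `(g, m) ~ (g, m')` by
`SchEq`.  (If all entries are in `x` use `hself` and `IsSch` for the empty tuple.)
As `A` is existentially closed there is `b : Fin σ.r → N` with
`ST Y.B A (i ∘ (x, f''), h ∘ e) ((x, f''), b)`, i.e.
`(h_B, Y.i ∘ f'', h ∘ e) ~ (x, f'', b)` (`f''` is disjoint from `x`).  `b` is disjoint from `x`,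
since `h` is injective (`scheme_inj`) and `e` has values outside of `B`.  Let
`ST (f'', b) (f, m)`; `SCl`: `(x, f'', b) ~ (g_B, f, m)`.  Moreover `(h, Y.i ∘ f'') ~ (g, f)`:
(subtuples `w` of `f''` of length `σ.r`, with the corresponding subtuple `fw` of `f`:
`ST (f'', w) (f, fw)`, `ST (fs j, w) (f, m')`, so `(h, w) ~ (g, m') ~ (g, fw)`).  So
`(g_B, f, m) ~ (g_B, f, g ∘ e)`, contradiction to `WConn`.
-/

namespace Pool.Agent.Helper89.EA

variable {σ : Sig} {M N N' : Type} {M0 : RS σ M} {A : RS σ N} {D : Type} {p : ℕ}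

private theorem st_pull2 {K L : Type} {B : RS σ K} {C : RS σ L} {ι κ : Type} {v : ι → K}
    {w : ι → L} {v' : κ → K} {w' : κ → L} (h : ST B C v w)
    (hf : ∀ i, ∃ j, v' i = v j ∧ w' i = w j) : ST B C v' w' := by
  choose e he using hf
  have h1 : v' = v ∘ e := funext fun i => (he i).1
  have h2 : w' = w ∘ e := funext fun i => (he i).2
  rw [h1, h2]
  exact st_comp h e

/-- the scheme extension and the family look alike -/
private theorem step2_hg {X : Ext M0 A N'} {g : D → N'} {f : Fin p → N}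
    (am : Amb X g f) (j : Fin am.c) {K' : Type} {Y : Ext M0 A K'} {h : D → K'}
    (hs : IsSch X g f (am.fs j) Y h) : ST Y.B X.B h g := by
  obtain ⟨m, hm⟩ := am.leg j 0 Fin.elim0
  refine st_pull2 (hs (Fin 0) Fin.elim0 m hm) fun d => ⟨Sum.inl d, rfl, rfl⟩

/-- the scheme at `fs j` is the scheme at `f''` -/
private theorem step2_sch {X : Ext M0 A N'} {g : D → N'} {f : Fin p → N}
    (am : Amb X g f) (f'' : Fin p → N) (j : Fin am.c) (hj : SchEq X g f A f'' (am.fs j))
    {K' : Type} {Y : Ext M0 A K'} {h : D → K'}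
    (hs : IsSch X g f (am.fs j) Y h) (y m : Fin σ.r → N)
    (hm : ST A A (Sum.elim f'' y) (Sum.elim f m)) :
    ST Y.B X.B (Sum.elim h (Y.i ∘ y)) (Sum.elim g (X.i ∘ m)) := by
  obtain ⟨m', hm'⟩ := leg_fin (am.leg j) y
  have h1 := hs (Fin σ.r) y m' hm'
  have h2 : ST Y.B X.B (Sum.elim h (Y.i ∘ y)) (Sum.elim g (X.i ∘ m')) := by
    refine st_pull2 h1 ?_
    rintro (d | k)
    · exact ⟨Sum.inl d, rfl, rfl⟩
    · exact ⟨Sum.inr (Sum.inr k), rfl, rfl⟩
  exact st_trans h2 (st_symm (hj y m m' hm hm'))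

/-- `(h, f'')` looks like `(g, f)` -/
private theorem step2_hf {X : Ext M0 A N'} {g : D → N'} {f : Fin p → N}
    (am : Amb X g f) (f'' : Fin p → N) (j : Fin am.c) (hj : SchEq X g f A f'' (am.fs j))
    {K' : Type} {Y : Ext M0 A K'} {h : D → K'}
    (hs : IsSch X g f (am.fs j) Y h) (hff : ST A A f'' f) :
    ST Y.B X.B (Sum.elim h (Y.i ∘ f'')) (Sum.elim g (X.i ∘ f)) := by
  refine st_small' Y.inC X.inC fun s => ?_
  by_cases hs0 : ∃ k0 t0, s k0 = Sum.inr t0
  · obtain ⟨k0, t0, hk0⟩ := hs0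
    let w : Fin σ.r → Fin p := fun k => Sum.elim (fun _ => t0) id (s k)
    have h1 : ST A A (Sum.elim f'' (f'' ∘ w)) (Sum.elim f (f ∘ w)) := by
      refine st_pull2 hff ?_
      rintro (t | k)
      · exact ⟨t, rfl, rfl⟩
      · exact ⟨w k, rfl, rfl⟩
    have h2 := step2_sch am f'' j hj hs (f'' ∘ w) (f ∘ w) h1
    refine st_pull2 h2 fun k => ?_
    rcases hk : s k with d | t
    · exact ⟨Sum.inl d, by simp only [Function.comp, hk, Sum.elim_inl],
        by simp only [Function.comp, hk, Sum.elim_inl]⟩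
    · have hw : w k = t := by
        show Sum.elim (fun _ => t0) id (s k) = t
        rw [hk]
        rfl
      exact ⟨Sum.inr k, by simp only [Function.comp, hk, Sum.elim_inr, hw],
        by simp only [Function.comp, hk, Sum.elim_inr, hw]⟩
  · push Not at hs0
    refine st_pull2 (step2_hg am j hs) fun k => ?_
    rcases hk : s k with d | t
    · exact ⟨d, by simp only [Function.comp, hk, Sum.elim_inl],
        by simp only [Function.comp, hk, Sum.elim_inl]⟩
    · exact absurd hk (hs0 k t)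

/-- the modified embedding -/
private theorem step2_emb (hA : EC M0 A) {X : Ext M0 A N'} {g : D → N'} {f : Fin p → N}
    (am : Amb X g f) {B : Finset D} (x : {d // d ∈ B} → N) (f'' : Fin p → N)
    (hcl : SCl X g f B A f'' x) (hL : LegR A f A f'')
    (hself : ST A X.B (Sum.elim x f'') (Sum.elim (fun d : {d // d ∈ B} => g d) (X.i ∘ f)))
    (j : Fin am.c) (hj : SchEq X g f A f'' (am.fs j)) {K' : Type} {Y : Ext M0 A K'}
    {h : D → K'} (hs : IsSch X g f (am.fs j) Y h) (i : N → K') (hi1 : ∀ d, i (x d) = h d)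
    (hi2 : ∀ n, (∀ d, x d ≠ n) → i n = Y.i n) : Emb A Y.B i := by
  classical
  refine st_small' hA.1 Y.inC fun s => ?_
  by_cases hs0 : ∃ k0, ∀ d, x d ≠ s k0
  · obtain ⟨k0, hk0⟩ := hs0
    let y : Fin σ.r → N := fun k => if ∃ d, x d = s k then s k0 else s k
    have hy : ∀ k d, x d ≠ y k := by
      intro k d
      by_cases hk : ∃ d, x d = s k
      · have : y k = s k0 := if_pos hk
        rw [this]
        exact hk0 d
      · have : y k = s k := if_neg hk
        rw [this]
        exact fun hd => hk ⟨d, hd⟩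
    have hyD : Dj y x := fun k d hkd => hy k d hkd.symm
    obtain ⟨m, hm⟩ := hL y
    have h1 := hcl.2 (Fin σ.r) y m hyD hm
    have h2 := step2_sch am f'' j hj hs y m hm
    have h3 : ST A X.B (Sum.elim x y) (Sum.elim (fun d : {d // d ∈ B} => g d) (X.i ∘ m)) := by
      refine st_pull2 h1 ?_
      rintro (d | k)
      · exact ⟨Sum.inl d, rfl, rfl⟩
      · exact ⟨Sum.inr (Sum.inr k), rfl, rfl⟩
    have h4 : ST Y.B X.B (Sum.elim (fun d : {d // d ∈ B} => h d) (Y.i ∘ y))
        (Sum.elim (fun d : {d // d ∈ B} => g d) (X.i ∘ m)) := by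
      refine st_pull2 h2 ?_
      rintro (d | k)
      · exact ⟨Sum.inl (d : D), rfl, rfl⟩
      · exact ⟨Sum.inr k, rfl, rfl⟩
    refine st_pull2 (st_trans h3 (st_symm h4)) fun k => ?_
    by_cases hk : ∃ d, x d = s k
    · obtain ⟨d, hd⟩ := hk
      refine ⟨Sum.inl d, ?_, ?_⟩
      · simp only [Function.comp, id, Sum.elim_inl, hd]
      · simp only [Function.comp, Sum.elim_inl]
        rw [← hd, hi1]
    · have hyk : y k = s k := if_neg hk
      refine ⟨Sum.inr k, ?_, ?_⟩
      · simp only [Function.comp, id, Sum.elim_inr, hyk]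
      · simp only [Function.comp, Sum.elim_inr, hyk]
        exact hi2 _ fun d hd => hk ⟨d, hd⟩
  · push Not at hs0
    have h3 : ST A X.B x (fun d : {d // d ∈ B} => g d) :=
      st_pull2 hself fun d => ⟨Sum.inl d, rfl, rfl⟩
    have h4 : ST Y.B X.B (fun d : {d // d ∈ B} => h d) (fun d : {d // d ∈ B} => g d) :=
      st_pull2 (step2_hg am j hs) fun d => ⟨(d : D), rfl, rfl⟩
    refine st_pull2 (st_trans h3 (st_symm h4)) fun k => ?_
    obtain ⟨d, hd⟩ := hs0 k
    refine ⟨d, ?_, ?_⟩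
    · simp only [Function.comp, id, hd]
    · simp only [Function.comp]
      rw [← hd, hi1]

theorem step2 (hA : EC M0 A) {X : Ext M0 A N'} {g : D → N'} (hinj : Function.Injective g)
    {f : Fin p → N} (hf : NSb X f g) (am : Amb X g f) {B Bp : Finset D} (hBne : B.Nonempty)
    (hBp : WConn X g f Bp) (hBB : B ⊂ Bp) (x : {d // d ∈ B} → N) (f'' : Fin p → N)
    (hcl : SCl X g f B A f'' x) (hL : LegR A f A f'')
    (hself : ST A X.B (Sum.elim x f'') (Sum.elim (fun d : {d // d ∈ B} => g d) (X.i ∘ f)))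
    (j : Fin am.c) (hj : SchEq X g f A f'' (am.fs j)) : False := by
  classical
  -- the splitting of `Bp`
  have hQne : (Bp \ B).Nonempty := Finset.sdiff_nonempty.mpr hBB.2
  obtain ⟨e, he, hne⟩ := hBp.2 B (Bp \ B) hBne hQne Finset.disjoint_sdiff (by
    intro d
    rw [Finset.mem_sdiff]
    constructor
    · intro hd
      by_cases hdB : d ∈ B
      · exact Or.inl hdB
      · exact Or.inr ⟨hd, hdB⟩
    · rintro (hd | hd)
      · exact hBB.1 hd
      · exact hd.1)
  obtain ⟨K', Y, h, hs⟩ := scheme_ext X hf hA.1 (am.leg j)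
  have hxinj : Function.Injective x := by
    intro d d' hd
    have h1 := (hself.1 (Sum.inl d) (Sum.inl d')).1 hd
    exact Subtype.ext (hinj h1)
  let i : N → K' := fun n => if hn : ∃ d, x d = n then h (Classical.choose hn).1 else Y.i n
  have hi1 : ∀ d, i (x d) = h d := by
    intro d
    have hn : ∃ d', x d' = x d := ⟨d, rfl⟩
    have h1 : i (x d) = h (Classical.choose hn).1 := dif_pos hn
    rw [h1, hxinj (Classical.choose_spec hn)]
  have hi2 : ∀ n, (∀ d, x d ≠ n) → i n = Y.i n := by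
    intro n hn
    exact dif_neg fun ⟨d, hd⟩ => hn d hd
  have hemb : Emb A Y.B i := step2_emb hA am x f'' hcl hL hself j hj hs i hi1 hi2
  obtain ⟨b, hb⟩ := ec_finite hA Y.inC hemb (Sum.elim x f'') (h ∘ e)
  have hhinj : Function.Injective h := scheme_inj hs (am.leg j) hinj
  have hbD : Dj b x := by
    intro k d hkd
    have h1 := (hb.1 (Sum.inr k) (Sum.inl (Sum.inl d))).2 hkd
    have h2 : h (e k) = i (x d) := h1
    rw [hi1] at h2
    have h3 := he k
    rw [hhinj h2] at h3
    exact (Finset.mem_sdiff.mp h3).2 d.2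
  obtain ⟨m, hm⟩ := hL b
  have h7 := hcl.2 (Fin σ.r) b m hbD hm
  have hff : ST A A f'' f := by
    have h1 : ST A X.B f'' (X.i ∘ f) := st_pull2 hself fun t => ⟨Sum.inr t, rfl, rfl⟩
    exact st_trans h1 (st_symm (emb_st X.emb f))
  have h8 := step2_hf am f'' j hj hs hff
  refine hne m ?_
  have k1 : ST X.B A (Sum.elim (fun d : {d // d ∈ B} => g d) (Sum.elim (X.i ∘ f) (X.i ∘ m)))
      (Sum.elim x (Sum.elim f'' b)) := by
    refine st_pull2 (st_symm h7) ?_
    rintro (d | t | k)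
    · exact ⟨Sum.inl d, rfl, rfl⟩
    · exact ⟨Sum.inr (Sum.inl t), rfl, rfl⟩
    · exact ⟨Sum.inr (Sum.inr k), rfl, rfl⟩
  have k2 : ST A Y.B (Sum.elim x (Sum.elim f'' b))
      (Sum.elim (fun d : {d // d ∈ B} => h d) (Sum.elim (Y.i ∘ f'') (h ∘ e))) := by
    refine st_pull2 (st_symm hb) ?_
    rintro (d | t | k)
    · exact ⟨Sum.inl (Sum.inl d), rfl, (hi1 d).symm⟩
    · exact ⟨Sum.inl (Sum.inr t), rfl, (hi2 (f'' t) fun d hd => hcl.1 t d hd.symm).symm⟩
    · exact ⟨Sum.inr k, rfl, rfl⟩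
  have k3 : ST Y.B X.B (Sum.elim (fun d : {d // d ∈ B} => h d) (Sum.elim (Y.i ∘ f'') (h ∘ e)))
      (Sum.elim (fun d : {d // d ∈ B} => g d) (Sum.elim (X.i ∘ f) (g ∘ e))) := by
    refine st_pull2 h8 ?_
    rintro (d | t | k)
    · exact ⟨Sum.inl (d : D), rfl, rfl⟩
    · exact ⟨Sum.inr t, rfl, rfl⟩
    · exact ⟨Sum.inl (e k), rfl, rfl⟩
  exact st_trans k1 (st_trans k2 k3)

end Pool.Agent.Helper89.EA
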