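import Pool.Agent.Helper89.EA.S.T11a

/-!
# Project EA, piece S-T11c3: a closed piece inside a block is the whole block

Everything is for a piece `x` closed at `f'' : Fin p → N`.

`step3`.  `x` and `b` are injective (`hself`, `hb`).  Suppose that some `b d'` is not an entry of
`x`.  Let `P` be the set of the `d' ∈ B'` for which `b d'` is an entry of `x`, and `Q = B' \ P`; both are
nonempty.  Let `e` be given by `WConn` for this splitting of `B'`.  By `ec_approx` there is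
`n : Fin σ.r → N` with `ST (b ∘ e, f'', f) (Z.i ∘ n, f'', f)`.  The tuples
`y = (Z.i ∘ f, b ∘ e)` and `y' = (Z.i ∘ f, Z.i ∘ n)` are disjoint from `x` (entries of `x` are
entries of `b`, not in the range of `Z.i` by `hb`, `hout`).  `scl_two`:
`(x, f, b ∘ e) ~ (x, f, n)`, so `(b_P, f, b ∘ e) ~ (b_P, f, n)`, and by `hb`
`(g_P, f, g ∘ e) ~ (g_P, f, n)`, contradiction to `WConn`.  So `x` and `b` have the same
entries, and the same number of entries.
-/

namespace Pool.Agent.Helper89.EA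

variable {σ : Sig} {M N N' : Type} {M0 : RS σ M} {A : RS σ N} {D : Type} {p : ℕ}

/-- restriction of types to tuples of common coordinates -/
private theorem t11c3_sub {K L : Type} {B : RS σ K} {C : RS σ L} {ι κ : Type} {v : ι → K}
    {w : ι → L} {v' : κ → K} {w' : κ → L} (h : ST B C v w)
    (hf : ∀ i, ∃ j, v' i = v j ∧ w' i = w j) : ST B C v' w' := by
  choose e he using hf
  have h1 : v' = v ∘ e := funext fun i => (he i).1
  have h2 : w' = w ∘ e := funext fun i => (he i).2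
  rw [h1, h2]
  exact st_comp h e

private theorem t11c3_sto {K K' U : Type} {X : Ext M0 A K} {Z : Ext M0 A K'} {u : U → K}
    {u' : U → K'} (h : STo X Z u u') {κ : Type} [Finite κ] (c : κ → N) :
    ST X.B Z.B (Sum.elim u (X.i ∘ c)) (Sum.elim u' (Z.i ∘ c)) := by
  obtain ⟨n, ⟨e⟩⟩ := Finite.exists_equiv_fin κ
  refine t11c3_sub (h n (c ∘ e.symm)) ?_
  rintro (i | i)
  · exact ⟨Sum.inl i, rfl, rfl⟩
  · exact ⟨Sum.inr (e i), by simp, by simp⟩

theorem step3 (hA : EC M0 A) {X : Ext M0 A N'} {g : D → N'} (hinj : Function.Injective g)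
    (hout : ∀ d n, g d ≠ X.i n) {f : Fin p → N} {B B' : Finset D} (hBne : B.Nonempty)
    (hB' : WConn X g f B') {K : Type} (Z : Ext M0 A K) (x : {d // d ∈ B} → K)
    (f'' : Fin p → N) (hcl : SCl X g f B Z.B (Z.i ∘ f'') x) (hL : LegR A f Z.B (Z.i ∘ f''))
    (hself : ST Z.B X.B (Sum.elim x (Z.i ∘ f''))
      (Sum.elim (fun d : {d // d ∈ B} => g d) (X.i ∘ f)))
    (b : {d // d ∈ B'} → K) (hb : STo X Z (fun d : {d // d ∈ B'} => g d) b)
    (hx : ∀ d, ∃ d', x d = b d') : B.card = B'.card := by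
  classical
  have hbinj : Function.Injective b := by
    intro d d' e
    have h1 := (hb 0 Fin.elim0).1 (Sum.inl d) (Sum.inl d')
    exact Subtype.ext (hinj (h1.2 e))
  have hxinj : Function.Injective x := by
    intro d d' e
    have h1 := hself.1 (Sum.inl d) (Sum.inl d')
    exact Subtype.ext (hinj (h1.1 e))
  have hbout : ∀ d' m, b d' ≠ Z.i m := by
    intro d' m e
    have h1 := (hb 1 (fun _ => m)).1 (Sum.inl d') (Sum.inr 0)
    exact hout d'.1 m (h1.2 e)
  by_cases hsur : ∀ d', ∃ d, x d = b d'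
  · choose φ hφ using hx
    have hbij : Function.Bijective φ := by
      constructor
      · intro d d' e
        apply hxinj
        rw [hφ, hφ, e]
      · intro d'
        obtain ⟨d, hd⟩ := hsur d'
        exact ⟨d, hbinj ((hφ d).symm.trans hd)⟩
    have hcard := Fintype.card_congr (Equiv.ofBijective φ hbij)
    rwa [Fintype.card_coe, Fintype.card_coe] at hcard
  · exfalso
    push Not at hsur
    obtain ⟨d0, hd0⟩ := hsur
    let P : Finset D := B'.filter (fun d => ∃ (hd : d ∈ B') (a : {d // d ∈ B}), x a = b ⟨d, hd⟩)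
    let Q : Finset D := B'.filter (fun d => ∃ (hd : d ∈ B'), ∀ a : {d // d ∈ B}, x a ≠ b ⟨d, hd⟩)
    have hPm : ∀ d ∈ P, ∃ (hd : d ∈ B') (a : {d // d ∈ B}), x a = b ⟨d, hd⟩ :=
      fun d hd => (Finset.mem_filter.1 hd).2
    have hQm : ∀ d ∈ Q, ∃ (hd : d ∈ B'), ∀ a : {d // d ∈ B}, x a ≠ b ⟨d, hd⟩ :=
      fun d hd => (Finset.mem_filter.1 hd).2
    have hBPQ : ∀ d, d ∈ B' ↔ d ∈ P ∨ d ∈ Q := by
      intro d
      constructor
      · intro hd
        by_cases hq : ∃ a, x a = b ⟨d, hd⟩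
        · exact Or.inl (Finset.mem_filter.2 ⟨hd, hd, hq⟩)
        · push Not at hq
          exact Or.inr (Finset.mem_filter.2 ⟨hd, hd, hq⟩)
      · rintro (hd | hd)
        · exact (Finset.mem_filter.1 hd).1
        · exact (Finset.mem_filter.1 hd).1
    have hdisj : Disjoint P Q := by
      rw [Finset.disjoint_left]
      intro d hd hd'
      obtain ⟨_, a, h5⟩ := hPm d hd
      obtain ⟨_, h6⟩ := hQm d hd'
      exact h6 a h5
    have hPne : P.Nonempty := by
      obtain ⟨a, ha⟩ := hBne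
      obtain ⟨d', hd'⟩ := hx ⟨a, ha⟩
      exact ⟨d'.1, Finset.mem_filter.2 ⟨d'.2, d'.2, ⟨a, ha⟩, hd'⟩⟩
    have hQne : Q.Nonempty := ⟨d0.1, Finset.mem_filter.2 ⟨d0.2, d0.2, hd0⟩⟩
    obtain ⟨e, heQ, he⟩ := hB'.2 P Q hPne hQne hdisj hBPQ
    have heB : ∀ i, e i ∈ B' := fun i => (hBPQ (e i)).2 (Or.inr (heQ i))
    have hPB : ∀ d : {d // d ∈ P}, d.1 ∈ B' := fun d => (hBPQ d.1).2 (Or.inl d.2)
    have hch : ∀ d : {d // d ∈ P}, ∃ a : {d // d ∈ B}, x a = b ⟨d.1, hPB d⟩ := by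
      intro d
      obtain ⟨_, a, ha⟩ := hPm d.1 d.2
      exact ⟨a, ha⟩
    choose a ha using hch
    obtain ⟨n, hn⟩ := ec_approx hA Z (fun i => b ⟨e i, heB i⟩) (Sum.elim f'' f)
    have key : ST Z.B Z.B
        (Sum.elim x (Sum.elim (Z.i ∘ f'') (Sum.elim (Z.i ∘ f) (fun i => b ⟨e i, heB i⟩))))
        (Sum.elim x (Sum.elim (Z.i ∘ f'') (Sum.elim (Z.i ∘ f) (Z.i ∘ n)))) := by
      refine scl_two Z.inC hcl hL _ _ ?_ ?_ ?_
      · rintro (j | j) d h
        · obtain ⟨d', hd'⟩ := hx d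
          exact hbout d' (f j) (hd'.symm.trans h.symm)
        · obtain ⟨_, h6⟩ := hQm (e j) (heQ j)
          exact h6 d h.symm
      · rintro (j | j) d h
        · obtain ⟨d', hd'⟩ := hx d
          exact hbout d' (f j) (hd'.symm.trans h.symm)
        · obtain ⟨d', hd'⟩ := hx d
          exact hbout d' (n j) (hd'.symm.trans h.symm)
      · refine t11c3_sub hn ?_
        rintro (j | (j | j))
        · exact ⟨Sum.inr (Sum.inl j), rfl, rfl⟩
        · exact ⟨Sum.inr (Sum.inr j), rfl, rfl⟩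
        · exact ⟨Sum.inl j, rfl, rfl⟩
    have hX := t11c3_sto hb (Sum.elim f n)
    refine he n ?_
    -- `(g_P, f, n) ~ (b_P, f, n)`
    have a1 : ST X.B Z.B (Sum.elim (fun d : P => g d) (Sum.elim (X.i ∘ f) (X.i ∘ n)))
        (Sum.elim (fun d : P => b ⟨d.1, hPB d⟩) (Sum.elim (Z.i ∘ f) (Z.i ∘ n))) := by
      refine t11c3_sub hX ?_
      rintro (j | (j | j))
      · exact ⟨Sum.inl ⟨j.1, hPB j⟩, rfl, rfl⟩
      · exact ⟨Sum.inr (Sum.inl j), rfl, rfl⟩
      · exact ⟨Sum.inr (Sum.inr j), rfl, rfl⟩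
    have a2 : ST Z.B Z.B (Sum.elim (fun d : P => b ⟨d.1, hPB d⟩) (Sum.elim (Z.i ∘ f) (Z.i ∘ n)))
        (Sum.elim (fun d : P => b ⟨d.1, hPB d⟩)
          (Sum.elim (Z.i ∘ f) (fun i => b ⟨e i, heB i⟩))) := by
      refine t11c3_sub (st_symm key) ?_
      rintro (j | (j | j))
      · exact ⟨Sum.inl (a j), (ha j).symm, (ha j).symm⟩
      · exact ⟨Sum.inr (Sum.inr (Sum.inl j)), rfl, rfl⟩
      · exact ⟨Sum.inr (Sum.inr (Sum.inr j)), rfl, rfl⟩
    have a3 : ST Z.B X.B (Sum.elim (fun d : P => b ⟨d.1, hPB d⟩)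
          (Sum.elim (Z.i ∘ f) (fun i => b ⟨e i, heB i⟩)))
        (Sum.elim (fun d : P => g d) (Sum.elim (X.i ∘ f) (g ∘ e))) := by
      refine t11c3_sub (st_symm hX) ?_
      rintro (j | (j | j))
      · exact ⟨Sum.inl ⟨j.1, hPB j⟩, rfl, rfl⟩
      · exact ⟨Sum.inr (Sum.inl j), rfl, rfl⟩
      · exact ⟨Sum.inl ⟨e j, heB j⟩, rfl, rfl⟩
    exact st_trans a1 (st_trans a2 a3)

end Pool.Agent.Helper89.EA
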