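import Pool.Agent.Helper89.EA.S.T10
import Pool.Agent.Helper89.EA.S.T11b
import Pool.Agent.Helper89.EA.S.T11c1
import Pool.Agent.Helper89.EA.S.T11c2
import Pool.Agent.Helper89.EA.S.T11c3

/-!
# Project EA, piece S-T11d: the core of the stable case

`psiS_real`: take `f' = Z.i ∘ f`, `z' = Z.i ∘ z`, `x = b s`.  For `y` disjoint from `b s`:
`FS Z (b s) y`, so `FS Z y (b s)` (`fs_symm`), and there is `y0 : Fin σ.r → N` with
`ST (y, b s, f) (Z.i ∘ y0, b s, f)`; `(b s, f, y0) ~ (g, f, y0)` by `STo`.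

`psiS_conv`.  Let `x, f'', j` be as in `psiS_reduce`.  Suppose that some `x d` is in the range of some
`b s`.  Let `Q` be the set of all such `d` (for this `s`), `P = B i \ Q`.  If `P` is nonempty:
`x_P` is disjoint from `b s`, so `FS Z (b s) x_P`, hence `FS Z x_Q x_P` (`fs_mono`; the entries of
`x_Q` are entries of `b s`, which are not in the range of `Z.i`): contradiction by `step1`.  If
`P` is empty use `step3`.  If no `x d` is in the range of some `b s` then (last statement of `free_union`)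
`x = Z.i ∘ x0`; `scl_emb`, `schEq_down` etc. and `step2` give a contradiction.
-/

namespace Pool.Agent.Helper89.EA

variable {σ : Sig} {M N N' : Type} {M0 : RS σ M} {A : RS σ N} {D : Type} {p : ℕ}

/-- restriction of types to tuples of common coordinates -/
private theorem t11d_sub {K L : Type} {B : RS σ K} {C : RS σ L} {ι κ : Type} {v : ι → K}
    {w : ι → L} {v' : κ → K} {w' : κ → L} (h : ST B C v w)
    (hf : ∀ i, ∃ j, v' i = v j ∧ w' i = w j) : ST B C v' w' := by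
  choose e he using hf
  have h1 : v' = v ∘ e := funext fun i => (he i).1
  have h2 : w' = w ∘ e := funext fun i => (he i).2
  rw [h1, h2]
  exact st_comp h e

private theorem t11d_sto {K K' U : Type} {X : Ext M0 A K} {Z : Ext M0 A K'} {u : U → K}
    {u' : U → K'} (h : STo X Z u u') {κ : Type} [Finite κ] (c : κ → N) :
    ST X.B Z.B (Sum.elim u (X.i ∘ c)) (Sum.elim u' (Z.i ∘ c)) := by
  obtain ⟨n, ⟨e⟩⟩ := Finite.exists_equiv_fin κ
  refine t11d_sub (h n (c ∘ e.symm)) ?_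
  rintro (i | i)
  · exact ⟨Sum.inl i, rfl, rfl⟩
  · exact ⟨Sum.inr (e i), by simp, by simp⟩

theorem psiS_real (hS : Stable M0) (hA : EC M0 A) {X : Ext M0 A N'} {g : D → N'}
    (f : Fin p → N) {q : ℕ} (z : Fin q → N) (B : ℕ → Finset D) {K : Type} (Z : Ext M0 A K)
    (s : ℕ) (b : {d // d ∈ B s} → K) (hb : STo X Z (fun d : {d // d ∈ B s} => g d) b)
    (hFS : ∀ (W : Type) [Finite W] (y : W → K), Dj y b → FS Z b y) :
    PsiS X g f z (B s) K Z.B := by
  refine ⟨Z.i ∘ f, Z.i ∘ z, b, ?_, st_symm (hb p f), fun y hy => ?_⟩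
  · refine t11d_sub (st_symm (emb_st Z.emb (Sum.elim f z))) ?_
    rintro (j | j)
    · exact ⟨Sum.inl j, rfl, rfl⟩
    · exact ⟨Sum.inr j, rfl, rfl⟩
  · obtain ⟨y0, hy0⟩ := fs_symm hS hA (hFS (Fin σ.r) y hy) p f
    refine ⟨y0, ?_⟩
    have a1 : ST Z.B Z.B (Sum.elim b (Sum.elim (Z.i ∘ f) y))
        (Sum.elim b (Sum.elim (Z.i ∘ f) (Z.i ∘ y0))) := by
      refine t11d_sub hy0 ?_
      rintro (j | (j | j))
      · exact ⟨Sum.inl (Sum.inr j), rfl, rfl⟩
      · exact ⟨Sum.inr j, rfl, rfl⟩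
      · exact ⟨Sum.inl (Sum.inl j), rfl, rfl⟩
    refine st_trans a1 (t11d_sub (st_symm (t11d_sto hb (Sum.elim f y0))) ?_)
    rintro (j | (j | j))
    · exact ⟨Sum.inl j, rfl, rfl⟩
    · exact ⟨Sum.inr (Sum.inl j), rfl, rfl⟩
    · exact ⟨Sum.inr (Sum.inr j), rfl, rfl⟩

theorem psiS_conv (hA : EC M0 A) {X : Ext M0 A N'} {g : D → N'} (hinj : Function.Injective g)
    (hout : ∀ d n, g d ≠ X.i n) {f : Fin p → N} (hf : NSb X f g) (am : Amb X g f)
    (B Bp : ℕ → Finset D) (hB : ∀ i, WConn X g f (B i)) (hBp : ∀ i, WConn X g f (Bp i))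
    (hsub : ∀ i, B i ⊂ Bp i) {n : ℕ} {S : Set ℕ} {K : Type} (Z : Ext M0 A K)
    (b : ∀ s : {s : ℕ // s < n ∧ s ∈ S}, {d // d ∈ B s.1} → K)
    (h1 : ∀ s, STo X Z (fun d : {d // d ∈ B s.1} => g d) (b s))
    (h2 : ∀ s, ∀ (W : Type) [Finite W] (y : W → K), Dj y (b s) → FS Z (b s) y)
    (h3 : ∀ x, (∃ m, Z.i m = x) ∨ ∃ s d, b s d = x) (i : ℕ)
    (h : PsiS X g f am.z (B i) K Z.B) :
    ∃ s : {s : ℕ // s < n ∧ s ∈ S}, (B i).card = (B s.1).card := by
  classical
  obtain ⟨x, f'', j, hcl, hL, hself, hsch⟩ := psiS_reduce hA hout hf am Z h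
  by_cases hex : ∃ (d : {d // d ∈ B i}) (s : {s : ℕ // s < n ∧ s ∈ S})
      (d' : {d // d ∈ B s.1}), x d = b s d'
  · obtain ⟨d1, s, d0, hd1⟩ := hex
    have hbout : ∀ d' m, b s d' ≠ Z.i m := by
      intro d' m e
      have h4 := (h1 s 1 (fun _ => m)).1 (Sum.inl d') (Sum.inr 0)
      exact hout d'.1 m (h4.2 e)
    by_cases hP : ∃ d : {d // d ∈ B i}, ∀ d', x d ≠ b s d'
    · exfalso
      let Q : Finset D := (B i).filter (fun d => ∃ (hd : d ∈ B i) (d' : {d // d ∈ B s.1}),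
        x ⟨d, hd⟩ = b s d')
      let P : Finset D := (B i).filter (fun d => ∃ (hd : d ∈ B i), ∀ d' : {d // d ∈ B s.1},
        x ⟨d, hd⟩ ≠ b s d')
      have hQm : ∀ d ∈ Q, ∃ (hd : d ∈ B i) (d' : {d // d ∈ B s.1}), x ⟨d, hd⟩ = b s d' :=
        fun d hd => (Finset.mem_filter.1 hd).2
      have hPm : ∀ d ∈ P, ∃ (hd : d ∈ B i), ∀ d' : {d // d ∈ B s.1}, x ⟨d, hd⟩ ≠ b s d' :=
        fun d hd => (Finset.mem_filter.1 hd).2
      have hBPQ : ∀ d, d ∈ B i ↔ d ∈ P ∨ d ∈ Q := by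
        intro d
        constructor
        · intro hd
          by_cases hq : ∃ d', x ⟨d, hd⟩ = b s d'
          · exact Or.inr (Finset.mem_filter.2 ⟨hd, hd, hq⟩)
          · push Not at hq
            exact Or.inl (Finset.mem_filter.2 ⟨hd, hd, hq⟩)
        · rintro (hd | hd)
          · exact (Finset.mem_filter.1 hd).1
          · exact (Finset.mem_filter.1 hd).1
      have hdisj : Disjoint P Q := by
        rw [Finset.disjoint_left]
        intro d hd hd'
        obtain ⟨_, h5⟩ := hPm d hd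
        obtain ⟨_, d', h6⟩ := hQm d hd'
        exact h5 d' h6
      have hPne : P.Nonempty := by
        obtain ⟨d, hd⟩ := hP
        exact ⟨d.1, Finset.mem_filter.2 ⟨d.2, d.2, hd⟩⟩
      have hQne : Q.Nonempty := ⟨d1.1, Finset.mem_filter.2 ⟨d1.2, d1.2, d0, hd1⟩⟩
      refine step1 hA hinj (hB i) Z x f'' hcl hL hself P Q hPne hQne hdisj hBPQ ?_ ?_
      · intro d hd m e
        obtain ⟨_, d', h6⟩ := hQm d hd
        exact hbout d' m (h6.symm.trans e)
      · have hFS := h2 s {d // d ∈ P}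
          (fun d : {d // d ∈ P} => x ⟨d.1, (hBPQ d.1).2 (Or.inl d.2)⟩) (by
            intro d d' e
            obtain ⟨_, h5⟩ := hPm d.1 d.2
            exact h5 d' e)
        have hch : ∀ d : {d // d ∈ Q}, ∃ d' : {d // d ∈ B s.1},
            x ⟨d.1, (hBPQ d.1).2 (Or.inr d.2)⟩ = b s d' := by
          intro d
          obtain ⟨_, d', h6⟩ := hQm d.1 d.2
          exact ⟨d', h6⟩
        choose a ha using hch
        have e : (fun d : {d // d ∈ Q} => x ⟨d.1, (hBPQ d.1).2 (Or.inr d.2)⟩) = b s ∘ a :=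
          funext ha
        rw [e]
        exact fs_mono hFS a id
    · push Not at hP
      exact ⟨s, step3 hA hinj hout (hB i).1 (hB s.1) Z x f'' hcl hL hself (b s) (h1 s) hP⟩
  · exfalso
    have hx : ∀ d, ∃ m, x d = Z.i m := by
      intro d
      rcases h3 (x d) with ⟨m, hm⟩ | ⟨s, d', hd'⟩
      · exact ⟨m, hm.symm⟩
      · exact absurd ⟨d, s, d', hd'.symm⟩ hex
    choose x0 hx0 using hx
    have hxe : x = Z.i ∘ x0 := funext hx0
    subst hxe
    refine step2 hA hinj hf am (hB i).1 (hBp i) (hsub i) x0 f'' (scl_emb Z.emb hcl) ?_ ?_ j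
      (schEq_down Z hsch)
    · intro y
      obtain ⟨m, hm⟩ := hL (Z.i ∘ y)
      refine ⟨m, st_trans (emb_st Z.emb (Sum.elim f'' y)) (t11d_sub hm ?_)⟩
      rintro (k | k)
      · exact ⟨Sum.inl k, rfl, rfl⟩
      · exact ⟨Sum.inr k, rfl, rfl⟩
    · refine st_trans (emb_st Z.emb (Sum.elim x0 f'')) (t11d_sub hself ?_)
      rintro (k | k)
      · exact ⟨Sum.inl k, rfl, rfl⟩
      · exact ⟨Sum.inr k, rfl, rfl⟩

theorem core_manyS (hS : Stable M0) (hA : EC M0 A) {X : Ext M0 A N'} {g : D → N'}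
    (hinj : Function.Injective g) (hout : ∀ d n, g d ≠ X.i n) {f : Fin p → N}
    (hf : NSb X f g) (am : Amb X g f) (B Bp : ℕ → Finset D) (hB : ∀ i, WConn X g f (B i))
    (hBp : ∀ i, WConn X g f (Bp i)) (hsub : ∀ i, B i ⊂ Bp i)
    (hcard : ∀ i j, (B i).card = (B j).card → i = j) : ManyS M0 := by
  refine ⟨fun i K C _ => PsiS X g f am.z (B i) K C, fun i => foc_psiS X g f am.z (B i), ?_⟩
  intro n S t a
  obtain ⟨K, Z, b, h1, h2, h3⟩ := free_union hS hA X hinj hout B n S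
  obtain ⟨w, hw⟩ := ec_age hA a
  refine ⟨K, Z.B, Z.inC, ⟨Z.i ∘ w, ?_⟩, ?_⟩
  · exact st_symm (st_trans hw (emb_st Z.emb w))
  · intro i hi
    constructor
    · intro hpsi
      obtain ⟨s, hs⟩ := psiS_conv hA hinj hout hf am B Bp hB hBp hsub Z b h1 h2 h3 i hpsi
      rw [hcard i s.1 hs]
      exact s.2.2
    · intro hiS
      exact psiS_real hS hA f am.z B Z i (b ⟨i, hi, hiS⟩) (h1 ⟨i, hi, hiS⟩) (h2 ⟨i, hi, hiS⟩)

end Pool.Agent.Helper89.EA
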