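import Pool.Agent.Helper89.EA.S.T8b

/-!
# Project EA, piece S-T8c: the definite form of finite ambiguity

`max_family` gives `K, C, κ, c, fs`, `amb_pattern` gives `q, z`; `scheme_ext_countable` at
`κ ∘ f` (`leg_self`) gives `Y, h`.  `Amb Y h (κ ∘ f)`: all notions for `(A, f, X, g)` are
equivalent to those for `(C, κ ∘ f, Y, h)`: if `ST (f', y) (f, m)` then
`ST (f', y) (κ ∘ f, κ ∘ m)`; conversely, for `k` in `K` there is `m` in `N` with
`ST (κ ∘ f, k) (f, m)` (`leg_self`), and `(h, κ ∘ f, k)` has the type of `(g, f, m)` by `IsSch`.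
-/

namespace Pool.Agent.Helper89.EA

variable {σ : Sig} {M N N' : Type} {M0 : RS σ M} {A : RS σ N}

/-- a scheme realizes the types over parameters -/
theorem h82_isSch_par {X : Ext M0 A N'} {D : Type} {g : D → N'} {p : ℕ}
    {f : Fin p → N} {K K' : Type} {C : RS σ K} {f' : Fin p → K} {Y : Ext M0 C K'}
    {h : D → K'} (hs : IsSch X g f f' Y h) {κ : Type} [Finite κ] {y : κ → K} {m : κ → N}
    (hm : ST C A (Sum.elim f' y) (Sum.elim f m)) :
    ST Y.B X.B (Sum.elim h (Y.i ∘ y)) (Sum.elim g (X.i ∘ m)) := by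
  have h1 := st_comp (hs κ y m hm) (κ := D ⊕ κ)
    (Sum.elim Sum.inl (fun k => Sum.inr (Sum.inr k)))
  have e1 : Sum.elim h (Y.i ∘ Sum.elim f' y) ∘ (Sum.elim Sum.inl (fun k => Sum.inr (Sum.inr k)))
      = Sum.elim h (Y.i ∘ y) := by
    funext t
    rcases t with t | t <;> rfl
  have e2 : Sum.elim g (X.i ∘ Sum.elim f m) ∘ (Sum.elim Sum.inl (fun k => Sum.inr (Sum.inr k)))
      = Sum.elim g (X.i ∘ m) := by
    funext t
    rcases t with t | t <;> rfl
  rw [e1, e2] at h1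
  exact h1

/-- change of the base of reference -/
theorem schEq_rebase (hA : EC M0 A) {X : Ext M0 A N'} {D : Type} {g : D → N'} {p : ℕ}
    {f : Fin p → N} {K K' L : Type} {C : RS σ K} {f' : Fin p → K} {Y : Ext M0 C K'}
    {h : D → K'} (hs : IsSch X g f f' Y h) (hL : Leg A f C f') {B : RS σ L} {a b : Fin p → L}
    (hab : SchEq X g f B a b) : SchEq Y h f' B a b := by
  intro y k k' hk hk'
  obtain ⟨m, hm⟩ := hL _ k
  obtain ⟨m', hm'⟩ := hL _ k'
  exact st_trans (h82_isSch_par hs hm)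
    (st_trans (hab y m m' (st_trans hk hm) (st_trans hk' hm')) (st_symm (h82_isSch_par hs hm')))

theorem exists_amb (hA : EC M0 A) [Countable N] (X : Ext M0 A N') {D : Type} [Countable D]
    {g : D → N'} {p : ℕ} {f : Fin p → N} (hf : NSb X f g) (hF : FinA X g f) :
    ∃ (K : Type) (_ : Countable K) (C : RS σ K) (κ : N → K) (K' : Type) (_ : Countable K')
      (Y : Ext M0 C K') (h : D → K'), EC M0 C ∧ Emb A C κ ∧ IsSch X g f (κ ∘ f) Y h ∧
      Leg A f C (κ ∘ f) ∧ Nonempty (Amb Y h (κ ∘ f)) := by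
  obtain ⟨K, hKc, C, κ, c, fs, hC, hκ, hleg, hne, hmax⟩ := max_family hA X hf hF
  obtain ⟨q, z, hz⟩ := amb_pattern hA X hf hC hκ fs hleg hmax
  have hL : Leg A f C (κ ∘ f) := leg_self hA f (⟨C, hC.1, κ, hκ⟩ : Ext M0 A K)
  obtain ⟨K', hK', Y, h, hs⟩ := scheme_ext_countable X hf hC.1 hL
  have hemb : ∀ {ι : Type} (m : ι → N), ST A C (Sum.elim f m) (Sum.elim (κ ∘ f) (κ ∘ m)) := by
    intro ι m
    have h1 := emb_st hκ (Sum.elim f m)
    rw [Sum.comp_elim] at h1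
    exact h1
  refine ⟨K, hKc, C, κ, K', hK', Y, h, hC, hκ, hs, hL, ⟨?_⟩⟩
  refine ⟨q, z, c, fs, ?_, ?_, ?_⟩
  · intro j n y
    obtain ⟨m, hm⟩ := hleg j n y
    exact ⟨κ ∘ m, st_trans hm (hemb m)⟩
  · intro j j' hjj hcon
    apply hne j j' hjj
    intro y m m' hm hm'
    have h1 := hcon y (κ ∘ m) (κ ∘ m') (st_trans hm (hemb m)) (st_trans hm' (hemb m'))
    exact st_trans (st_symm (h82_isSch_par hs (st_symm (hemb m))))
      (st_trans h1 (h82_isSch_par hs (st_symm (hemb m'))))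
  · intro K2 Y2 f' z' hz'
    obtain ⟨h1, j, hj⟩ := hz K2 Y2 f' z' hz'
    refine ⟨?_, j, schEq_rebase hA hs hL hj⟩
    intro y
    obtain ⟨m, hm⟩ := h1 y
    exact ⟨κ ∘ m, st_trans hm (hemb m)⟩

end Pool.Agent.Helper89.EA
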