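import Pool.Agent.Helper89.EA.S.T5

/-!
# Project EA, piece S-T9: the definite form of connectedness

`wconn_of_conn`.  Let `R : Fin q → N` be representatives of the types of the `r`-tuples of `N` over `f0`
(`exists_reps_over` with `n = σ.r`), and `f = (f0, R)`.  It is a base for `g` (`nsb_mono`).
Let `B` be connected, `P, Q` a splitting, and suppose that for every `e : Fin σ.r → D` with values
in `Q` there is `c : Fin σ.r → N` with `ST (g_P, f, c) (g_P, f, g ∘ e)`.  We show
`FS X g_Q g_P` (contradiction to the splitting `Q, P`).  Let `c0` be a finite tuple of `N`, without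
loss of generality nonempty (`N` is nonempty by `ec_approx`).  Choose `n : Q → N` with
`ST (g_Q, c0, f0) (n, c0, f0)` (`ec_approx`).  Claim `ST (g_Q, g_P, c0) (n, g_P, c0)`.  Look at a
subtuple of length `σ.r`: positions in `Q`, `P` and `c0`.  Let `e : Fin σ.r → Q` be the entries in
`Q` (the other ones replaced by some element of `Q`) and `c' : Fin σ.r → N` the entries from `c0`
(the other ones replaced by an entry of `c0`).  Let `c''` be a tuple of entries of `R` with
`ST (f0, c') (f0, c'')`, and `m` such that `ST (g_P, f, m) (g_P, f, g ∘ e)`.  Then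
`(g, c') ~ (g, c'')` by `NSb X f0 g`, so
`(g_P, g ∘ e, c') ~ (g_P, g ∘ e, c'') ~ (g_P, m, c'')`; and
`(f0, n ∘ e, c') ~ (f0, g ∘ e, c') ~ (f0, g ∘ e, c'') ~ (f0, m, c'')`, so by `NSb X f0 g` again
`(g_P, n ∘ e, c') ~ (g_P, m, c'') ~ (g_P, g ∘ e, c')`.

`wconn_scheme`: for `c : Fin σ.r → K` let `m` be given by `Leg`; `(h, f', c)` has the type of
`(g, f, m)`.
-/

namespace Pool.Agent.Helper89.EA

variable {σ : Sig} {M N N' : Type} {M0 : RS σ M} {A : RS σ N}

/-- reindexing of equal types, with the results given by equations -/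
theorem h82_st_comp_eq {K L : Type} {A : RS σ K} {B : RS σ L} {ι κ : Type} {v : ι → K} {w : ι → L}
    (h : ST A B v w) (f : κ → ι) {v' : κ → K} {w' : κ → L} (hv : ∀ k, v (f k) = v' k)
    (hw : ∀ k, w (f k) = w' k) : ST A B v' w' := by
  have e1 : v ∘ f = v' := funext hv
  have e2 : w ∘ f = w' := funext hw
  rw [← e1, ← e2]
  exact st_comp h f

theorem wconn_of_conn (hA : EC M0 A) (X : Ext M0 A N') {D : Type} {g : D → N'} {p0 : ℕ}
    {f0 : Fin p0 → N} (hf0 : NSb X f0 g) :
    ∃ (p : ℕ) (f : Fin p → N), (∃ e : Fin p0 → Fin p, f ∘ e = f0) ∧ NSb X f g ∧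
      ∀ B : Finset D, ConnI X g B → WConn X g f B := by
  obtain ⟨q, R, hR⟩ := exists_reps_over A f0 σ.r
  have he0 : (Sum.elim f0 R ∘ finSumFinEquiv.symm) ∘ (fun i => finSumFinEquiv (Sum.inl i)) = f0 := by
    funext i
    show Sum.elim f0 R (finSumFinEquiv.symm (finSumFinEquiv (Sum.inl i))) = f0 i
    rw [Equiv.symm_apply_apply]
    rfl
  refine ⟨p0 + q, Sum.elim f0 R ∘ finSumFinEquiv.symm, ⟨_, he0⟩, ?_, ?_⟩
  · refine nsb_mono hf0 (fun i => finSumFinEquiv (Sum.inl i)) ?_
    funext i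
    show Sum.elim f0 R (finSumFinEquiv.symm (finSumFinEquiv (Sum.inl i))) = f0 i
    rw [Equiv.symm_apply_apply]
    rfl
  · intro B hB
    refine ⟨hB.1, ?_⟩
    intro P Q hP hQ hPQ hBPQ
    by_contra hcon
    push Not at hcon
    refine hB.2 Q P hQ hP hPQ.symm (fun d => (hBPQ d).trans or_comm) ?_
    intro n c0
    obtain ⟨q0, hq0⟩ := hQ
    -- a default element of `N`
    obtain ⟨a1, -⟩ := ec_approx hA X (fun _ : Unit => g q0) (Empty.elim : Empty → N)
    obtain ⟨n0, hn0⟩ := ec_approx hA X (fun d : Q => g d)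
      (Sum.elim (Sum.elim c0 a1) f0)
    refine ⟨n0, st_small' X.inC X.inC ?_⟩
    intro x
    obtain ⟨e, he⟩ : ∃ e : Fin σ.r → Q, ∀ i q1, x i = Sum.inl (Sum.inl q1) → e i = q1 := by
      refine ⟨fun i => match x i with
        | Sum.inl (Sum.inl q1) => q1
        | _ => ⟨q0, hq0⟩, ?_⟩
      intro i q1 hi
      show (match x i with
        | Sum.inl (Sum.inl q1) => q1
        | _ => (⟨q0, hq0⟩ : Q)) = q1
      rw [hi]
    obtain ⟨ci, hci⟩ : ∃ ci : Fin σ.r → Fin n ⊕ Unit, ∀ i j, x i = Sum.inr j →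
        ci i = Sum.inl j := by
      refine ⟨fun i => match x i with
        | Sum.inr j => Sum.inl j
        | _ => Sum.inr (), ?_⟩
      intro i j hi
      show (match x i with
        | Sum.inr j => (Sum.inl j : Fin n ⊕ Unit)
        | _ => Sum.inr ()) = Sum.inl j
      rw [hi]
    obtain ⟨c', hc'⟩ : ∃ c', c' = Sum.elim c0 a1 ∘ ci := ⟨_, rfl⟩
    obtain ⟨d, hd⟩ := hR c'
    obtain ⟨m, hm⟩ := hcon (fun i => (e i : D)) (fun i => (e i).2)
    -- the first application of the base
    have s1 := hf0 σ.r c' (R ∘ d) hd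
    -- the type of `(f0, n0 ∘ e, c')` and `(f0, g ∘ e, c')`
    have t1 : ST X.B X.B (Sum.elim (X.i ∘ f0) (Sum.elim (X.i ∘ n0 ∘ e) (X.i ∘ c')))
        (Sum.elim (X.i ∘ f0) (Sum.elim (fun i => g (e i)) (X.i ∘ c'))) := by
      refine h82_st_comp_eq (st_symm hn0) (Sum.elim (fun i => Sum.inr (Sum.inr i))
        (Sum.elim (fun i => Sum.inl (e i)) (fun i => Sum.inr (Sum.inl (ci i))))) ?_ ?_
      · rintro (t | t | t)
        · rfl
        · rfl
        · rw [hc']; rfl
      · rintro (t | t | t)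
        · rfl
        · rfl
        · rw [hc']; rfl
    have t2 : ST X.B X.B (Sum.elim (X.i ∘ f0) (Sum.elim (fun i => g (e i)) (X.i ∘ c')))
        (Sum.elim (X.i ∘ f0) (Sum.elim (fun i => g (e i)) (X.i ∘ R ∘ d))) := by
      refine h82_st_comp_eq s1 (Sum.elim (fun i => Sum.inr (Sum.inl i))
        (Sum.elim (fun i => Sum.inl (e i : D)) (fun i => Sum.inr (Sum.inr i)))) ?_ ?_
      · rintro (t | t | t) <;> rfl
      · rintro (t | t | t) <;> rfl
    have hfl : ∀ i, (Sum.elim f0 R ∘ finSumFinEquiv.symm) (finSumFinEquiv (Sum.inl i)) = f0 i := by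
      intro i
      show Sum.elim f0 R (finSumFinEquiv.symm (finSumFinEquiv (Sum.inl i))) = f0 i
      rw [Equiv.symm_apply_apply]
      rfl
    have hfr : ∀ i, (Sum.elim f0 R ∘ finSumFinEquiv.symm) (finSumFinEquiv (Sum.inr i)) = R i := by
      intro i
      show Sum.elim f0 R (finSumFinEquiv.symm (finSumFinEquiv (Sum.inr i))) = R i
      rw [Equiv.symm_apply_apply]
      rfl
    have t3 : ST X.B X.B (Sum.elim (X.i ∘ f0) (Sum.elim (X.i ∘ m) (X.i ∘ R ∘ d)))
        (Sum.elim (X.i ∘ f0) (Sum.elim (fun i => g (e i)) (X.i ∘ R ∘ d))) := by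
      refine h82_st_comp_eq hm (Sum.elim (fun i => Sum.inr (Sum.inl (finSumFinEquiv (Sum.inl i))))
        (Sum.elim (fun i => Sum.inr (Sum.inr i))
          (fun i => Sum.inr (Sum.inl (finSumFinEquiv (Sum.inr (d i))))))) ?_ ?_
      · rintro (t | t | t)
        · exact congrArg X.i (hfl t)
        · rfl
        · exact congrArg X.i (hfr (d t))
      · rintro (t | t | t)
        · exact congrArg X.i (hfl t)
        · rfl
        · exact congrArg X.i (hfr (d t))
    have t4 := st_trans t1 (st_trans t2 (st_symm t3))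
    -- pull back to `A`
    have t5 : ST A A (Sum.elim f0 (Sum.elim (n0 ∘ e) c')) (Sum.elim f0 (Sum.elim m (R ∘ d))) := by
      have h1 := emb_st X.emb (Sum.elim f0 (Sum.elim (n0 ∘ e) c'))
      have h2 := emb_st X.emb (Sum.elim f0 (Sum.elim m (R ∘ d)))
      rw [Sum.comp_elim, Sum.comp_elim] at h1 h2
      exact st_trans h1 (st_trans t4 (st_symm h2))
    have s2 := nsb_fin hf0 _ _ t5
    -- the main comparison
    have k1 : ST X.B X.B (Sum.elim (fun d : P => g d) (Sum.elim (fun i => g (e i)) (X.i ∘ c')))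
        (Sum.elim (fun d : P => g d) (Sum.elim (fun i => g (e i)) (X.i ∘ R ∘ d))) := by
      refine h82_st_comp_eq s1 (Sum.elim (fun i : P => Sum.inl (i : D))
        (Sum.elim (fun i => Sum.inl (e i : D)) (fun i => Sum.inr (Sum.inr i)))) ?_ ?_
      · rintro (t | t | t) <;> rfl
      · rintro (t | t | t) <;> rfl
    have k2 : ST X.B X.B (Sum.elim (fun d : P => g d) (Sum.elim (X.i ∘ m) (X.i ∘ R ∘ d)))
        (Sum.elim (fun d : P => g d) (Sum.elim (fun i => g (e i)) (X.i ∘ R ∘ d))) := by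
      refine h82_st_comp_eq hm (Sum.elim (fun i => Sum.inl i)
        (Sum.elim (fun i => Sum.inr (Sum.inr i))
          (fun i => Sum.inr (Sum.inl (finSumFinEquiv (Sum.inr (d i))))))) ?_ ?_
      · rintro (t | t | t)
        · rfl
        · rfl
        · exact congrArg X.i (hfr (d t))
      · rintro (t | t | t)
        · rfl
        · rfl
        · exact congrArg X.i (hfr (d t))
    have k3 : ST X.B X.B (Sum.elim (fun d : P => g d) (Sum.elim (X.i ∘ n0 ∘ e) (X.i ∘ c')))
        (Sum.elim (fun d : P => g d) (Sum.elim (X.i ∘ m) (X.i ∘ R ∘ d))) := by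
      refine h82_st_comp_eq s2 (Sum.elim (fun i : P => Sum.inl (i : D))
        (Sum.elim (fun i => Sum.inr (Sum.inr (Sum.inl i)))
          (fun i => Sum.inr (Sum.inr (Sum.inr i))))) ?_ ?_
      · rintro (t | t | t) <;> rfl
      · rintro (t | t | t) <;> rfl
    have k4 := st_trans k1 (st_trans (st_symm k2) (st_symm k3))
    obtain ⟨φ, hφ⟩ : ∃ φ : Fin σ.r → P ⊕ (Fin σ.r ⊕ Fin σ.r), ∀ i,
        (∀ q1, x i = Sum.inl (Sum.inl q1) → φ i = Sum.inr (Sum.inl i)) ∧
        (∀ q1, x i = Sum.inl (Sum.inr q1) → φ i = Sum.inl q1) ∧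
        (∀ q1, x i = Sum.inr q1 → φ i = Sum.inr (Sum.inr i)) := by
      have : ∀ i, ∃ y : P ⊕ (Fin σ.r ⊕ Fin σ.r),
          (∀ q1, x i = Sum.inl (Sum.inl q1) → y = Sum.inr (Sum.inl i)) ∧
          (∀ q1, x i = Sum.inl (Sum.inr q1) → y = Sum.inl q1) ∧
          (∀ q1, x i = Sum.inr q1 → y = Sum.inr (Sum.inr i)) := by
        intro i
        rcases hx : x i with (q1 | q1) | q1
        · exact ⟨Sum.inr (Sum.inl i), fun _ _ => rfl, fun _ h => by simp at h,
            fun _ h => by simp at h⟩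
        · refine ⟨Sum.inl q1, fun _ h => by simp at h, fun q2 h => ?_, fun _ h => by simp at h⟩
          have := Sum.inr.inj (Sum.inl.inj h)
          rw [this]
        · exact ⟨Sum.inr (Sum.inr i), fun _ h => by simp at h, fun _ h => by simp at h,
            fun _ _ => rfl⟩
      choose φ hφ using this
      exact ⟨φ, hφ⟩
    refine h82_st_comp_eq k4 φ ?_ ?_
    · intro i
      rcases hx : x i with (q1 | q1) | q1
      · rw [(hφ i).1 q1 hx]
        show g (e i) = Sum.elim (Sum.elim _ _) _ (x i)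
        rw [hx, he i q1 hx]
        rfl
      · rw [(hφ i).2.1 q1 hx]
        show g q1 = Sum.elim (Sum.elim _ _) _ (x i)
        rw [hx]
        rfl
      · rw [(hφ i).2.2 q1 hx]
        show X.i (c' i) = Sum.elim (Sum.elim _ _) _ (x i)
        rw [hx, hc']
        show X.i (Sum.elim c0 a1 (ci i)) = _
        rw [hci i q1 hx]
        rfl
    · intro i
      rcases hx : x i with (q1 | q1) | q1
      · rw [(hφ i).1 q1 hx]
        show X.i (n0 (e i)) = Sum.elim (Sum.elim _ _) _ (x i)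
        rw [hx, he i q1 hx]
        rfl
      · rw [(hφ i).2.1 q1 hx]
        show g q1 = Sum.elim (Sum.elim _ _) _ (x i)
        rw [hx]
        rfl
      · rw [(hφ i).2.2 q1 hx]
        show X.i (c' i) = Sum.elim (Sum.elim _ _) _ (x i)
        rw [hx, hc']
        show X.i (Sum.elim c0 a1 (ci i)) = _
        rw [hci i q1 hx]
        rfl

theorem wconn_scheme {X : Ext M0 A N'} {D : Type} {g : D → N'} {p : ℕ} {f : Fin p → N}
    {K K' : Type} {C : RS σ K} {f' : Fin p → K} {Y : Ext M0 C K'} {h : D → K'}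
    (hs : IsSch X g f f' Y h) (hL : Leg A f C f') {B : Finset D} (hB : WConn X g f B) :
    WConn Y h f' B := by
  refine ⟨hB.1, ?_⟩
  intro P Q hP hQ hPQ hBPQ
  obtain ⟨e, he, hc⟩ := hB.2 P Q hP hQ hPQ hBPQ
  refine ⟨e, he, ?_⟩
  intro c hcon
  obtain ⟨m, hm⟩ := hL _ c
  have h1 := hs _ c m hm
  have h2 : ST Y.B X.B (Sum.elim (fun d : P => h d) (Sum.elim (Y.i ∘ f') (Y.i ∘ c)))
      (Sum.elim (fun d : P => g d) (Sum.elim (X.i ∘ f) (X.i ∘ m))) := by
    refine h82_st_comp_eq h1 (Sum.elim (fun i : P => Sum.inl (i : D))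
      (Sum.elim (fun i => Sum.inr (Sum.inl i)) (fun i => Sum.inr (Sum.inr i)))) ?_ ?_
    · rintro (t | t | t) <;> rfl
    · rintro (t | t | t) <;> rfl
  have h3 : ST Y.B X.B (Sum.elim (fun d : P => h d) (Sum.elim (Y.i ∘ f') (h ∘ e)))
      (Sum.elim (fun d : P => g d) (Sum.elim (X.i ∘ f) (g ∘ e))) := by
    refine h82_st_comp_eq h1 (Sum.elim (fun i : P => Sum.inl (i : D))
      (Sum.elim (fun i => Sum.inr (Sum.inl i)) (fun i => Sum.inl (e i)))) ?_ ?_
    · rintro (t | t | t) <;> rfl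
    · rintro (t | t | t) <;> rfl
  exact hc m (st_trans (st_symm h2) (st_trans hcon h3))

end Pool.Agent.Helper89.EA
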