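import Pool.Agent.Helper89.EA.S.T3
import Pool.Agent.Helper89.EA.S.T8c
import Pool.Agent.Helper89.EA.S.T9
import Pool.Agent.Helper89.EA.S.T11d

/-!
# Project EA, piece S-T12: large connected sets and finite ambiguity give many theories

`exists_seq`: for every `n` there is a connected set `Bp` with at least `n + σ.r + 2` elements, and
`conn_chain` gives a connected `B ⊂ Bp` with `Bp.card ≤ B.card + σ.r`; choose recursively (as a
function of the previous cardinality) pairs with strictly increasing `B.card`.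
-/

namespace Pool.Agent.Helper89.EA

variable {σ : Sig} {M N N' : Type} {M0 : RS σ M} {A : RS σ N}

theorem exists_seq (hS : Stable M0) (hA : EC M0 A) {X : Ext M0 A N'} {D : Type} {g : D → N'}
    (hc : ∀ n : ℕ, ∃ B : Finset D, ConnI X g B ∧ n ≤ B.card) :
    ∃ B Bp : ℕ → Finset D, (∀ i, ConnI X g (B i)) ∧ (∀ i, ConnI X g (Bp i)) ∧
      (∀ i, B i ⊂ Bp i) ∧ ∀ i j, (B i).card = (B j).card → i = j := by
  classical
  have step : ∀ n : ℕ, ∃ q : Finset D × Finset D, ConnI X g q.1 ∧ ConnI X g q.2 ∧ q.1 ⊂ q.2 ∧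
      n < q.1.card := by
    intro n
    obtain ⟨Bp, hBp, hn⟩ := hc (n + σ.r + 2)
    obtain ⟨B, hB, hsub, hle⟩ := conn_chain hS hA hBp (by omega)
    exact ⟨(B, Bp), hB, hBp, hsub, by simp only; omega⟩
  choose q h1 h2 h3 h4 using step
  let F : ℕ → Finset D × Finset D := fun i => Nat.rec (q 0) (fun _ t => q t.1.card) i
  have hF : ∀ i, F (i + 1) = q (F i).1.card := fun _ => rfl
  have hFi : ∀ i, ∃ m, F i = q m := by
    intro i
    cases i with
    | zero => exact ⟨0, rfl⟩
    | succ i => exact ⟨_, hF i⟩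
  have hmono : StrictMono fun i => (F i).1.card := by
    refine strictMono_nat_of_lt_succ fun i => ?_
    rw [hF]
    exact h4 _
  refine ⟨fun i => (F i).1, fun i => (F i).2, fun i => ?_, fun i => ?_, fun i => ?_,
    fun i j hij => hmono.injective hij⟩
  · obtain ⟨m, hm⟩ := hFi i
    simp only [hm]
    exact h1 m
  · obtain ⟨m, hm⟩ := hFi i
    simp only [hm]
    exact h2 m
  · obtain ⟨m, hm⟩ := hFi i
    simp only [hm]
    exact h3 m

theorem mainS (hS : Stable M0) (hA : EC M0 A) [Countable N] {X : Ext M0 A N'} {D : Type}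
    [Countable D] {g : D → N'} (hinj : Function.Injective g) (hout : ∀ d n, g d ≠ X.i n)
    (hT : FTy X g) (hc : ∀ n : ℕ, ∃ B : Finset D, ConnI X g B ∧ n ≤ B.card)
    {p1 : ℕ} (f1 : Fin p1 → N)
    (hF : ∀ (p : ℕ) (f : Fin p → N), (∃ e : Fin p1 → Fin p, f ∘ e = f1) → NSb X f g →
      FinA X g f) : ManyS M0 := by
  obtain ⟨p0, f0, hf0⟩ := nsb_of_fty hS hA X hT
  have he1 : (Sum.elim f0 f1 ∘ finSumFinEquiv.symm) ∘ (fun i => finSumFinEquiv (Sum.inr i)) =
      f1 := by
    funext i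
    simp
  have hf01 : NSb X (Sum.elim f0 f1 ∘ finSumFinEquiv.symm) g := by
    refine nsb_mono hf0 (fun i => finSumFinEquiv (Sum.inl i)) ?_
    funext i
    simp
  obtain ⟨p, f, ⟨e, he⟩, hf, hW⟩ := wconn_of_conn hA X hf01
  obtain ⟨B, Bp, hB, hBp, hsub, hcard⟩ := exists_seq hS hA hc
  obtain ⟨K, _, C, κ, K', _, Y, h, hC, hκ, hs, hL, ⟨am⟩⟩ := exists_amb hA X hf
    (hF p f ⟨e ∘ fun i => finSumFinEquiv (Sum.inr i), by rw [← Function.comp_assoc, he, he1]⟩ hf)
  exact core_manyS hS hC (scheme_inj hs hL hinj) (scheme_out hs hL hout) (scheme_nsb hs hL) am B Bp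
    (fun i => wconn_scheme hs hL (hW _ (hB i))) (fun i => wconn_scheme hs hL (hW _ (hBp i))) hsub
    hcard

end Pool.Agent.Helper89.EA
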