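import Pool.Agent.Helper89.EA.S.T2
import Pool.Agent.Helper89.EA.P.B3c

/-!
# Project EA, piece S-T4: free extensions, amalgamation, joint embedding

`free_ext`.  If `D` is empty take `K' = K`.  Otherwise `N` is nonempty (`ec_approx` for one element
of `D`).  For `F : Finset (D ⊕ N)` (write `F_D, F_N` for the two parts) choose `h F : D → N` such
that `(g|F_D, X.i|F_N)` and `(X.i ∘ h F|F_D, X.i|F_N)` have the same type (`ec_approx`; extend
arbitrarily outside `F_D`).  Let `u` be a cone ultrafilter on `Finset (D ⊕ N)`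
(`exists_cone_ultrafilter`), `K' = UP u (fun _ => K)`, `Z.B = UP.rs u (fun _ => Y.B)`, `β` the
diagonal embedding (`up_emb`), `g' d = UP.mk u (fun F => Y.i (h F d))`.
* `STo X Z g g'`: check finite subtuples (`st_finite`), and use `up_st_iff2`/`up_st_iff`; for all
  `F` containing the given elements `(g, c)` and `(Y.i ∘ h F, Y.i ∘ c)` have the same type
  (all embeddings of `N` preserve types, `emb_st`).
* the last statement: given `d : U → D`, `y : W → K` and `c`: the types of `(Y.i ∘ h F ∘ d, y, c)`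
  are constant `= τ` for almost all `F` (finitely many types; an ultrafilter); choose such an `F0`
  and `u0 = h F0 ∘ d`.

`am`: `free_ext` for the family `g = id : N' → N'`; `α = g'` (it is an embedding, and
`α ∘ X.i = β ∘ Y.i` because of the equality part of `STo`).

`jep2`: by `jep` embed `M0` and `C` in a structure `C1` with `InC M0 C1`; then `InC C1 B` (every
tuple of `B` has the type of a tuple of `M0`, hence of `C1`), and `jep` for `M0 := C1` embeds `B`
and `C1` in a common structure `B'` with `InC C1 B'`, so `InC M0 B'`.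

`jep_omega`: chain `V 0 = K 0`, `V (i + 1)` countable containing `V i` and `K (i + 1)` (`jep2` and
`exists_countable_sub`), `chain_limit`, `exists_ec`.
-/

namespace Pool.Agent.Helper89.EA

variable {σ : Sig} {M N N' : Type} {M0 : RS σ M} {A : RS σ N}

/-- restriction of types to tuples of common coordinates -/
private theorem st_sub' {K L : Type} {B : RS σ K} {C : RS σ L} {ι κ : Type} {v : ι → K}
    {w : ι → L} {v' : κ → K} {w' : κ → L} (h : ST B C v w)
    (hf : ∀ i, ∃ j, v' i = v j ∧ w' i = w j) : ST B C v' w' := by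
  choose e he using hf
  have h1 : v' = v ∘ e := funext fun i => (he i).1
  have h2 : w' = w ∘ e := funext fun i => (he i).2
  rw [h1, h2]
  exact st_comp h e

/-- Free realizations: the type of `g` over `N` is realized over every extension `K` of `N` by a
family `g'` whose type over `K` is finitely satisfiable in `N`. -/
theorem free_ext (hA : EC M0 A) (X : Ext M0 A N') {D : Type} (g : D → N') {K : Type}
    (Y : Ext M0 A K) :
    ∃ (K' : Type) (Z : Ext M0 A K') (β : K → K') (g' : D → K'), Emb Y.B Z.B β ∧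
      Z.i = β ∘ Y.i ∧ STo X Z g g' ∧
      ∀ (U W : Type) [Finite U] [Finite W] (d : U → D) (y : W → K), FS Z (g' ∘ d) (β ∘ y) := by
  classical
  rcases isEmpty_or_nonempty D with hD | ⟨⟨d0⟩⟩
  · refine ⟨K, Y, id, fun d => hD.elim d, emb_id _, rfl, ?_, ?_⟩
    · intro n c
      have h1 : ST X.B Y.B (X.i ∘ c) (Y.i ∘ c) :=
        st_trans (st_symm (emb_st X.emb c)) (emb_st Y.emb c)
      refine st_sub' h1 ?_
      rintro (i | i)
      · exact hD.elim i
      · exact ⟨i, rfl, rfl⟩
    · intro U W _ _ d y n c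
      refine ⟨fun a => hD.elim (d a), ?_⟩
      have e : ((fun d => hD.elim d) ∘ d : U → K) = Y.i ∘ fun a => hD.elim (d a) :=
        funext fun a => hD.elim (d a)
      rw [e]
      exact st_refl _ _
  · have hN : Nonempty N := by
      obtain ⟨u0, _⟩ := ec_approx hA X (fun _ : Unit => g d0) (fun x : Empty => x.elim)
      exact ⟨u0 ()⟩
    have fD : ∀ F : Finset (D ⊕ N), Finite {d : D // Sum.inl d ∈ F} := fun F =>
      Finite.of_injective (fun x => (⟨Sum.inl x.1, x.2⟩ : {y // y ∈ F})) (by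
        intro x y hxy
        exact Subtype.ext (Sum.inl_injective (congrArg Subtype.val hxy)))
    have fN : ∀ F : Finset (D ⊕ N), Finite {m : N // Sum.inr m ∈ F} := fun F =>
      Finite.of_injective (fun x => (⟨Sum.inr x.1, x.2⟩ : {y // y ∈ F})) (by
        intro x y hxy
        exact Subtype.ext (Sum.inr_injective (congrArg Subtype.val hxy)))
    choose w hw using fun F : Finset (D ⊕ N) =>
      ec_approx hA X (fun x : {d : D // Sum.inl d ∈ F} => g x)
        (fun y : {m : N // Sum.inr m ∈ F} => (y : N))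
    obtain ⟨u, hu⟩ := exists_cone_ultrafilter (D ⊕ N)
    let h : Finset (D ⊕ N) → D → N := fun F d =>
      if hd : Sum.inl d ∈ F then w F ⟨d, hd⟩ else Classical.choice hN
    have hβ : Emb Y.B (UP.rs u (fun _ : Finset (D ⊕ N) => Y.B))
        (fun x => UP.mk u (fun _ => x)) :=
      up_emb (fun _ x => x) (fun n v => Filter.Eventually.of_forall fun _ => st_refl Y.B v)
    let Z : Ext M0 A (UP u (fun _ : Finset (D ⊕ N) => K)) :=
      ⟨UP.rs u (fun _ => Y.B), up_inC (fun _ => Y.inC), (fun x => UP.mk u (fun _ => x)) ∘ Y.i,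
        emb_comp Y.emb hβ⟩
    refine ⟨UP u (fun _ : Finset (D ⊕ N) => K), Z, fun x => UP.mk u (fun _ => x),
      fun d => UP.mk u (fun F => Y.i (h F d)), hβ, rfl, ?_, ?_⟩
    · intro n c
      refine st_finite fun m x => ?_
      refine st_symm ?_
      have key : ST (UP.rs u (fun _ : Finset (D ⊕ N) => Y.B)) X.B
          (fun j => UP.mk u (fun F => Sum.elim (fun d => Y.i (h F d)) (Y.i ∘ c) (x j)))
          (Sum.elim g (X.i ∘ c) ∘ x) := by
        rw [up_st_iff (N := fun _ : Finset (D ⊕ N) => K)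
          (fun j F => Sum.elim (fun d => Y.i (h F d)) (Y.i ∘ c) (x j))]
        filter_upwards [cone_eventually hu (fun j => Sum.map id c (x j))] with F hF
        have e1 : (fun j => Sum.elim (fun d => Y.i (h F d)) (Y.i ∘ c) (x j)) =
            Y.i ∘ fun j => Sum.elim (h F) c (x j) := by
          funext j
          rcases hx : x j with d | i <;> simp [hx]
        rw [e1]
        have e2 : ST Y.B X.B (Y.i ∘ fun j => Sum.elim (h F) c (x j))
            (X.i ∘ fun j => Sum.elim (h F) c (x j)) :=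
          st_trans (st_symm (emb_st Y.emb _)) (emb_st X.emb _)
        refine st_trans e2 (st_sub' (st_symm (hw F)) ?_)
        intro j
        have hj := hF j
        rcases hx : x j with d | i
        · rw [hx] at hj
          have hj' : Sum.inl d ∈ F := hj
          refine ⟨Sum.inl ⟨d, hj'⟩, ?_, ?_⟩
          · simp [hx, h, hj']
          · simp [hx]
        · rw [hx] at hj
          have hj' : Sum.inr (c i) ∈ F := hj
          refine ⟨Sum.inr ⟨c i, hj'⟩, ?_, ?_⟩
          · simp [hx]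
          · simp [hx]
      have e3 : (Sum.elim (fun d => UP.mk u (fun F => Y.i (h F d))) (Z.i ∘ c) ∘ x) =
          (fun j => UP.mk u (fun F => Sum.elim (fun d => Y.i (h F d)) (Y.i ∘ c) (x j))) := by
        funext j
        rcases hx : x j with d | i
        · simp only [Function.comp_apply, hx, Sum.elim_inl]
        · simp only [Function.comp_apply, hx, Sum.elim_inr]
          rfl
      rw [e3]
      exact key
    · intro U W _ _ d y n c
      obtain ⟨τ, hτ⟩ := Ultrafilter.eq_pure_of_finite (u.map (fun F => typ Y.B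
        (Sum.elim (Sum.elim (fun a => Y.i (h F (d a))) y) (Y.i ∘ c))))
      have hτ' : ∀ᶠ F in (u : Filter (Finset (D ⊕ N))), typ Y.B
          (Sum.elim (Sum.elim (fun a => Y.i (h F (d a))) y) (Y.i ∘ c)) = τ := by
        have h1 : ({τ} : Set (Typ σ ((U ⊕ W) ⊕ Fin n))) ∈ u.map (fun F => typ Y.B
            (Sum.elim (Sum.elim (fun a => Y.i (h F (d a))) y) (Y.i ∘ c))) := by
          rw [hτ]
          exact Set.mem_singleton τ
        exact h1
      obtain ⟨F0, hF0⟩ := hτ'.exists
      refine ⟨fun a => h F0 (d a), ?_⟩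
      have s1 : ST Z.B Y.B
          (fun j => UP.mk u (fun F => Sum.elim (Sum.elim (fun a => Y.i (h F (d a))) y)
            (Y.i ∘ c) j))
          (Sum.elim (Sum.elim (fun a => Y.i (h F0 (d a))) y) (Y.i ∘ c)) := by
        refine (up_st_iff (N := fun _ : Finset (D ⊕ N) => K)
          (fun j F => Sum.elim (Sum.elim (fun a => Y.i (h F (d a))) y) (Y.i ∘ c) j) Y.B _).2 ?_
        filter_upwards [hτ'] with F hF
        exact typ_eq_iff.1 (hF.trans hF0.symm)
      have s2 := emb_st hβ (Sum.elim (Sum.elim (fun a => Y.i (h F0 (d a))) y) (Y.i ∘ c))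
      refine st_sub' (st_trans s1 s2) ?_
      rintro ((a | a) | a)
      · exact ⟨Sum.inl (Sum.inl a), rfl, rfl⟩
      · exact ⟨Sum.inl (Sum.inr a), rfl, rfl⟩
      · exact ⟨Sum.inr a, rfl, rfl⟩

/-- countable version -/
theorem free_ext_countable (hA : EC M0 A) (X : Ext M0 A N') {D : Type} [Countable D] (g : D → N')
    {K : Type} [Countable K] [Countable N] (Y : Ext M0 A K) :
    ∃ (K' : Type) (_ : Countable K') (Z : Ext M0 A K') (β : K → K') (g' : D → K'),
      Emb Y.B Z.B β ∧ Z.i = β ∘ Y.i ∧ STo X Z g g' ∧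
      ∀ (U W : Type) [Finite U] [Finite W] (d : U → D) (y : W → K), FS Z (g' ∘ d) (β ∘ y) := by
  obtain ⟨K', Z, β, g', hβ, hZ, hST, hFS⟩ := free_ext hA X g Y
  obtain ⟨L, hL, C, j, f', t', h1, h2, h3, h4, h5⟩ := exists_countable_sub Z.inC hβ g'
  refine ⟨L, hL, ⟨C, h1, f' ∘ Y.i, emb_comp Y.emb h3⟩, f', t', h3, rfl, ?_, ?_⟩
  · intro n c
    have e : Sum.elim g' (Z.i ∘ c) = j ∘ Sum.elim t' ((f' ∘ Y.i) ∘ c) := by
      rw [hZ, ← h4, ← h5, comp_sum_elim]
      rfl
    have s1 := hST n c
    rw [e] at s1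
    exact st_trans s1 (st_symm (emb_st h2 _))
  · intro U W _ _ d y n c
    obtain ⟨u0, hu0⟩ := hFS U W d y n c
    refine ⟨u0, ?_⟩
    have e1 : Sum.elim (Sum.elim (g' ∘ d) (β ∘ y)) (Z.i ∘ c) =
        j ∘ Sum.elim (Sum.elim (t' ∘ d) (f' ∘ y)) ((f' ∘ Y.i) ∘ c) := by
      rw [hZ, ← h4, ← h5, comp_sum_elim, comp_sum_elim]
      rfl
    have e2 : Sum.elim (Sum.elim (Z.i ∘ u0) (β ∘ y)) (Z.i ∘ c) =
        j ∘ Sum.elim (Sum.elim ((f' ∘ Y.i) ∘ u0) (f' ∘ y)) ((f' ∘ Y.i) ∘ c) := by
      rw [hZ, ← h4, comp_sum_elim, comp_sum_elim]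
      rfl
    rw [e1, e2] at hu0
    exact st_trans (emb_st h2 _) (st_trans hu0 (st_symm (emb_st h2 _)))

/-- amalgamation over existentially closed structures -/
theorem am (hA : EC M0 A) {K : Type} (X : Ext M0 A N') (Y : Ext M0 A K) :
    ∃ (K' : Type) (C : RS σ K') (α : N' → K') (β : K → K'), InC M0 C ∧ Emb X.B C α ∧
      Emb Y.B C β ∧ α ∘ X.i = β ∘ Y.i := by
  obtain ⟨K', Z, β, g', hβ, hZ, hST, -⟩ := free_ext hA X (id : N' → N') Y
  refine ⟨K', Z.B, g', β, Z.inC, st_sum_left (hST 0 Fin.elim0), hβ, ?_⟩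
  rw [← hZ]
  funext n0
  have s1 := (hST 1 (fun _ => n0)).1 (Sum.inl (X.i n0)) (Sum.inr 0)
  exact s1.1 rfl

/-- amalgamation of countable structures in a countable existentially closed one -/
theorem am_ec (hA : EC M0 A) {K : Type} [Countable N] [Countable N'] [Countable K]
    (X : Ext M0 A N') (Y : Ext M0 A K) :
    ∃ (K' : Type) (_ : Countable K') (C : RS σ K') (α : N' → K') (β : K → K'), EC M0 C ∧
      Emb X.B C α ∧ Emb Y.B C β ∧ α ∘ X.i = β ∘ Y.i := by
  obtain ⟨K', C, α, β, hC, hα, hβ, hαβ⟩ := am hA X Y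
  obtain ⟨L, hL, C', j, f', t', h1, h2, h3, h4, h5⟩ := exists_countable_sub hC hβ α
  obtain ⟨L', hL', C'', f, hEC, hf⟩ := exists_ec h1
  have ht' : Emb X.B C' t' := by
    have s1 : ST C' C t' (j ∘ t') := emb_st h2 t'
    rw [h5] at s1
    exact st_trans hα (st_symm s1)
  refine ⟨L', hL', C'', f ∘ t', f ∘ f', hEC, emb_comp ht' hf, emb_comp h3 hf, ?_⟩
  have hj := emb_injective h2
  funext n0
  show f (t' (X.i n0)) = f (f' (Y.i n0))
  congr 1
  apply hj
  have e1 : j (t' (X.i n0)) = α (X.i n0) := congrFun h5 _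
  have e2 : j (f' (Y.i n0)) = β (Y.i n0) := congrFun h4 _
  rw [e1, e2]
  exact congrFun hαβ n0

theorem jep2 {K L : Type} {B : RS σ K} {C : RS σ L} (hB : InC M0 B) (hC : InC M0 C) :
    ∃ (K' : Type) (B' : RS σ K') (f : K → K') (g : L → K'), InC M0 B' ∧ Emb B B' f ∧
      Emb C B' g := by
  obtain ⟨K1, C1, f1, g1, hC1, hf1, hg1⟩ := jep hC
  have hB1 : InC C1 B := by
    intro n v
    obtain ⟨w, hw⟩ := hB n v
    exact ⟨g1 ∘ w, st_trans hw (emb_st hg1 w)⟩
  obtain ⟨K', B', f, g, hB', hf, hg⟩ := jep hB1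
  refine ⟨K', B', f, g ∘ f1, ?_, hf, emb_comp hf1 hg⟩
  intro n v
  obtain ⟨w, hw⟩ := hB' n v
  obtain ⟨w', hw'⟩ := hC1 n w
  exact ⟨w', st_trans hw hw'⟩

/-- a countable structure of the class -/
structure Cs4 (M0 : RS σ M) where
  /-- the points -/
  L : Type
  /-- countable -/
  cnt : Countable L
  /-- the structure -/
  A : RS σ L
  /-- in the class -/
  inC : InC M0 A

/-- countably many countable structures embed in a countable existentially closed one -/
theorem jep_omega {K : ℕ → Type} [∀ i, Countable (K i)] (B : ∀ i, RS σ (K i))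
    (hB : ∀ i, InC M0 (B i)) :
    ∃ (V : Type) (_ : Countable V) (C : RS σ V) (κ : ∀ i, K i → V), EC M0 C ∧
      ∀ i, Emb (B i) C (κ i) := by
  have step : ∀ (i : ℕ) (V : Cs4 M0), ∃ (V' : Cs4 M0) (e : V.L → V'.L) (k : K (i + 1) → V'.L),
      Emb V.A V'.A e ∧ Emb (B (i + 1)) V'.A k := by
    intro i V
    have := V.cnt
    obtain ⟨K', B', f, g, hB', hf, hg⟩ := jep2 V.inC (hB (i + 1))
    obtain ⟨L, hL, C, j, f', t', h1, h2, h3, h4, h5⟩ := exists_countable_sub hB' hf g
    refine ⟨⟨L, hL, C, h1⟩, f', t', h3, ?_⟩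
    have s1 : ST C B' t' (j ∘ t') := emb_st h2 t'
    rw [h5] at s1
    exact st_trans hg (st_symm s1)
  choose nx e k he hk using step
  let V : ℕ → Cs4 M0 := fun i => Nat.rec ⟨K 0, inferInstance, B 0, hB 0⟩ (fun i V => nx i V) i
  obtain ⟨K', hK', A', κ, h1, h2, -, -⟩ := chain_limit (M0 := M0) (fun i => (V i).A)
    (fun i => e i (V i)) (fun i => he i (V i)) (fun i => (V i).cnt) (fun i => (V i).inC)
  obtain ⟨L, hL, C, f, hEC, hf⟩ := exists_ec h1
  refine ⟨L, hL, C, fun i => Nat.casesOn i (f ∘ κ 0) (fun i => f ∘ κ (i + 1) ∘ k i (V i)),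
    hEC, ?_⟩
  intro i
  rcases i with _ | i
  · exact emb_comp (h2 0) hf
  · exact emb_comp (emb_comp (hk i (V i)) (h2 (i + 1))) hf

end Pool.Agent.Helper89.EA
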