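import Pool.Agent.Helper89.EA.S.T1
import Pool.Agent.Helper89.EA.S.T4
import Pool.Agent.Helper89.EA.UDefs

/-!
# Project EA, piece S-T13a: objects, when there are infinitely many types

Proof of `exists_obj`.

(1) Since `FinTy M0 A` fails there is a sequence of extensions `Y t : Ext M0 A (K t)` and tuples
`u t : Fin σ.r → K t` outside of `N` whose types over `N` are pairwise different (recursion: given
the first `q` of them, the failure of `FinTy` gives a new one).

(2) For every finite tuple `c` of `N` there is `t` such that `c` is not a base (`NSb`) for `u t`.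
Let `R` be a finite tuple of representatives of the types over `c` of the `r`-tuples of `N`
(`exists_reps_over`).  There are finitely many types of `(u t, c, R)`, so there are `t ≠ t'` with
`ST (u t, c, R) (u t', c, R)`.  If `c` was a base for both, then for every `w : Fin σ.r → N`, with
`R ∘ d` of the type of `w` over `c`: `(u t, w) ~ (u t, R ∘ d) ~ (u t', R ∘ d) ~ (u t', w)`; so `u t` and
`u t'` would have the same type over `N` (`st_small'`).

(3) So there are `v, v' : Fin σ.r → N` with `ST (c, v) (c, v')` and `¬ ST (u t, v) (u t, v')` (as in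
the proof of `nsb_exists`: take a subtuple of length `σ.r` where the types differ).  Choose
recursively `a j : Fin σ.r → N` having over `c, v, v'` and all `a j'`, `j' < j`, the type of `u t`
(`ec_approx`).  As `u t` is outside of `N`, the tuple `a j` is disjoint from `c, v, v'` and `a j'`,
`j' < j`; `¬ ST (a j, v) (a j, v')`.  Applying `ramsey_seq` (with `r = σ.r`, colour
= type of `(a ∘ g, c, v, v')`) we may assume that the type of `(a (s 0), ..., a (s (r-1)), c, v, v')`
does not depend on the strictly increasing `s : Fin σ.r → ℕ`.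

(4) Do this for every finite subset `C` of `N` (enumerated as `c`), and take the ultraproduct of
copies of `N` for a cone ultrafilter on `Finset N` (`exists_cone_ultrafilter`, `up_st_iff2`, ...),
`X.i` the diagonal embedding; `e, e', a j` are the classes of `v_C, v'_C, a_{C, j}`.
-/

namespace Pool.Agent.Helper89.EA

variable {σ : Sig} {M N N' : Type} {M0 : RS σ M} {A : RS σ N}

/-- Two tuples `e, e'` of the same type over `N`, separated by infinitely many disjoint tuples
`a j`, which are homogeneous over `N, e, e'`. -/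
structure Obj (X : Ext M0 A N') (e e' : Fin σ.r → N') (a : ℕ → Fin σ.r → N') : Prop where
  same : STo X X e e'
  sep : ∀ j, ¬ ST X.B X.B (Sum.elim (a j) e) (Sum.elim (a j) e')
  hom : ∀ (n : ℕ) (c : Fin n → N) (s s' : Fin σ.r → ℕ), StrictMono s → StrictMono s' →
    ST X.B X.B
      (Sum.elim (fun i : Fin σ.r × Fin σ.r => a (s i.1) i.2) (Sum.elim (Sum.elim e e') (X.i ∘ c)))
      (Sum.elim (fun i : Fin σ.r × Fin σ.r => a (s' i.1) i.2) (Sum.elim (Sum.elim e e') (X.i ∘ c)))
  out : ∀ j i n, a j i ≠ X.i n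
  disj : ∀ j j' i i', j ≠ j' → a j i ≠ a j' i'
  dje : ∀ j, Dj (a j) e
  dje' : ∀ j, Dj (a j) e'

/-- a tuple outside of `N` in an extension -/
private structure Rt (M0 : RS σ M) (A : RS σ N) where
  K : Type
  Y : Ext M0 A K
  u : Fin σ.r → K
  out : ∀ i n, u i ≠ Y.i n

/-- infinitely many different types -/
private theorem rt_seq (hinf : ¬ FinTy M0 A) :
    ∃ T : ℕ → Rt M0 A, ∀ m n, m < n → ¬ STo (T n).Y (T m).Y (T n).u (T m).u := by
  obtain ⟨T, -, hT⟩ := exists_seq_of_forall_finset_exists (fun _ : Rt M0 A => True)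
    (fun x y => ¬ STo y.Y x.Y y.u x.u) (by
      intro s _
      by_contra hcon
      push Not at hcon
      apply hinf
      refine ⟨s.card, fun j => (s.equivFin.symm j).1.K, fun j => (s.equivFin.symm j).1.Y,
        fun j => (s.equivFin.symm j).1.u, ?_⟩
      intro K' X u hu
      obtain ⟨x, hx, hxy⟩ := hcon ⟨K', X, u, hu⟩ trivial
      refine ⟨s.equivFin ⟨x, hx⟩, ?_⟩
      have e : s.equivFin.symm (s.equivFin ⟨x, hx⟩) = ⟨x, hx⟩ := Equiv.symm_apply_apply _ _
      show STo X (s.equivFin.symm (s.equivFin ⟨x, hx⟩)).1.Y u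
        (s.equivFin.symm (s.equivFin ⟨x, hx⟩)).1.u
      rw [e]
      exact hxy)
  exact ⟨T, hT⟩

/-- no finite set is a base for all the types outside of `N` -/
private theorem split_aux (hinf : ¬ FinTy M0 A) (C : Finset N) :
    ∃ (T : Rt M0 A) (v v' : Fin σ.r → N),
      ST A A (Sum.elim (Subtype.val : C → N) v) (Sum.elim Subtype.val v') ∧
      ¬ ST T.Y.B T.Y.B (Sum.elim T.u (T.Y.i ∘ v)) (Sum.elim T.u (T.Y.i ∘ v')) := by
  classical
  by_contra hcon
  push Not at hcon
  obtain ⟨T, hT⟩ := rt_seq hinf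
  obtain ⟨p, ⟨e⟩⟩ := Finite.exists_equiv_fin C
  obtain ⟨q, R, hR⟩ := exists_reps_over A (fun k => (e.symm k : N)) σ.r
  obtain ⟨t, t', hne, htt⟩ := Finite.exists_ne_map_eq_of_infinite
    (fun t => typ (T t).Y.B (Sum.elim (T t).u ((T t).Y.i ∘ R)))
  have main : ∀ t t' : ℕ, ST (T t).Y.B (T t').Y.B (Sum.elim (T t).u ((T t).Y.i ∘ R))
      (Sum.elim (T t').u ((T t').Y.i ∘ R)) → STo (T t).Y (T t').Y (T t).u (T t').u := by
    intro t t' hst n c
    refine st_small' (T t).Y.inC (T t').Y.inC fun x => ?_
    by_cases hz : ∃ s z, x s = Sum.inr z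
    · obtain ⟨s0, z0, hz0⟩ := hz
      set w : Fin σ.r → N := fun s => Sum.elim (fun _ => c z0) c (x s) with hw
      obtain ⟨d, hd⟩ := hR w
      -- the type over `C`
      have hd' : ST A A (Sum.elim (Subtype.val : C → N) w) (Sum.elim Subtype.val (R ∘ d)) := by
        have h1 := st_comp hd (Sum.map e id : C ⊕ Fin σ.r → Fin p ⊕ Fin σ.r)
        have e1 : ∀ w : Fin σ.r → N, Sum.elim (fun k => (e.symm k : N)) w ∘ Sum.map e id =
            Sum.elim (Subtype.val : C → N) w := by
          intro w
          funext s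
          rcases s with s | s
          · simp
          · rfl
        rw [e1, e1] at h1
        exact h1
      have h1 := hcon (T t) _ _ hd'
      have h2 := hcon (T t') _ _ hd'
      have h3 := st_comp hst (Sum.map id d : Fin σ.r ⊕ Fin σ.r → Fin σ.r ⊕ Fin q)
      rw [Sum.elim_comp_map, Sum.elim_comp_map] at h3
      have h4 : ST (T t).Y.B (T t').Y.B (Sum.elim (T t).u ((T t).Y.i ∘ w))
          (Sum.elim (T t').u ((T t').Y.i ∘ w)) := st_trans h1 (st_trans h3 (st_symm h2))
      have h5 := st_comp h4 (fun s => Sum.map id (fun _ => s) (x s) :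
        Fin σ.r → Fin σ.r ⊕ Fin σ.r)
      have e2 : ∀ t, Sum.elim (T t).u ((T t).Y.i ∘ w) ∘ (fun s => Sum.map id (fun _ => s) (x s))
          = Sum.elim (T t).u ((T t).Y.i ∘ c) ∘ x := by
        intro t
        funext s
        simp only [Function.comp_apply, hw]
        rcases hxs : x s with a | a
        · simp
        · simp [hxs]
      rw [e2, e2] at h5
      exact h5
    · have hy : ∀ s, ∃ a, x s = Sum.inl a := by
        intro s
        rcases hxs : x s with a | a
        · exact ⟨a, rfl⟩
        · exact (hz ⟨s, a, hxs⟩).elim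
      choose y hy using hy
      have hxy : x = Sum.inl ∘ y := funext hy
      rw [hxy]
      exact st_comp (st_sum_left hst) y
  have htt' := typ_eq_iff.1 htt
  rcases lt_or_gt_of_ne hne with h | h
  · exact hT t t' h (main t' t (st_symm htt'))
  · exact hT t' t h (main t t' htt')

/-- the local form of the objects -/
private theorem loc_obj (hA : EC M0 A) (hinf : ¬ FinTy M0 A) (C : Finset N) :
    ∃ (v v' : Fin σ.r → N) (a : ℕ → Fin σ.r → N),
      ST A A (Sum.elim (Subtype.val : C → N) v) (Sum.elim Subtype.val v') ∧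
      (∀ j, ¬ ST A A (Sum.elim (a j) v) (Sum.elim (a j) v')) ∧
      (∀ s s' : Fin σ.r → ℕ, StrictMono s → StrictMono s' →
        ST A A
          (Sum.elim (fun i : Fin σ.r × Fin σ.r => a (s i.1) i.2)
            (Sum.elim (Sum.elim v v') (Subtype.val : C → N)))
          (Sum.elim (fun i : Fin σ.r × Fin σ.r => a (s' i.1) i.2)
            (Sum.elim (Sum.elim v v') (Subtype.val : C → N)))) ∧
      (∀ j i, a j i ∉ C) ∧ (∀ j j' i i', j ≠ j' → a j i ≠ a j' i') ∧ (∀ j, Dj (a j) v) ∧
      ∀ j, Dj (a j) v' := by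
  classical
  obtain ⟨T, v, v', hv, hsp⟩ := split_aux hinf C
  choose W hW using fun S : Finset N => ec_approx hA T.Y T.u (Subtype.val : S → N)
  let G : Finset N → Finset N := fun S => S ∪ Finset.univ.image (W S)
  let S0 : Finset N := (C ∪ Finset.univ.image v) ∪ Finset.univ.image v'
  let F : ℕ → Finset N := fun i => G^[i] S0
  have hF : ∀ i, F (i + 1) = G (F i) := fun i => Function.iterate_succ_apply' G i S0
  have hGS : ∀ S, S ⊆ G S := fun S x hx => Finset.mem_union_left _ hx
  have hGW : ∀ S t, W S t ∈ G S := fun S t =>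
    Finset.mem_union_right _ (Finset.mem_image_of_mem _ (Finset.mem_univ t))
  have hmono : Monotone F := monotone_nat_of_le_succ fun i => by
    rw [hF]; exact hGS _
  have hlt : ∀ {i j}, i < j → G (F i) ⊆ F j := fun {i j} hij => by
    rw [← hF]; exact hmono hij
  have hC0 : ∀ j, C ⊆ F j := fun j x hx => hmono (Nat.zero_le j)
    (Finset.mem_union_left _ (Finset.mem_union_left _ hx))
  have hv0 : ∀ j t, v t ∈ F j := fun j t => hmono (Nat.zero_le j)
    (Finset.mem_union_left _ (Finset.mem_union_right _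
      (Finset.mem_image_of_mem _ (Finset.mem_univ t))))
  have hv0' : ∀ j t, v' t ∈ F j := fun j t => hmono (Nat.zero_le j)
    (Finset.mem_union_right _ (Finset.mem_image_of_mem _ (Finset.mem_univ t)))
  -- the tuples are disjoint from the previous sets
  have hWS : ∀ (S : Finset N) t, W S t ∉ S := by
    intro S t ht
    have h1 := (hW S).1 (Sum.inl t) (Sum.inr ⟨W S t, ht⟩)
    have h2 : T.u t = T.Y.i (W S t) ↔ T.Y.i (W S t) = T.Y.i (W S t) := h1
    exact T.out t _ (h2.2 rfl)
  have hWne : ∀ (S : Finset N) t x, x ∈ S → W S t ≠ x := by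
    rintro S t x hx rfl
    exact hWS S t hx
  -- the types of the tuples
  have hWst : ∀ (S : Finset N) {ι : Type} (w : ι → N), (∀ x, w x ∈ S) →
      ST T.Y.B A (Sum.elim T.u (T.Y.i ∘ w)) (Sum.elim (W S) w) := by
    intro S ι w hw
    have h1 := st_comp (hW S) (Sum.map id (fun x => ⟨w x, hw x⟩) : Fin σ.r ⊕ ι → Fin σ.r ⊕ S)
    rw [Sum.elim_comp_map, Sum.elim_comp_map] at h1
    have h2 := emb_st T.Y.emb (Sum.elim (W S) w)
    rw [Sum.comp_elim] at h2
    exact st_trans h1 (st_symm h2)
  obtain ⟨f, hf, hcol⟩ := ramsey_seq σ.r (fun g : Fin σ.r → ℕ => typ A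
    (Sum.elim (fun i : Fin σ.r × Fin σ.r => W (F (g i.1)) i.2)
      (Sum.elim (Sum.elim v v') (Subtype.val : C → N))))
  refine ⟨v, v', fun j => W (F (f j)), hv, ?_, ?_, ?_, ?_, ?_, ?_⟩
  · intro j hst
    apply hsp
    exact st_trans (hWst _ v (hv0 (f j))) (st_trans hst (st_symm (hWst _ v' (hv0' (f j)))))
  · intro s s' hs hs'
    exact typ_eq_iff.1 (hcol s s' hs hs')
  · intro j i hi
    exact hWS _ i (hC0 (f j) hi)
  · intro j j' i i' hjj
    rcases lt_or_gt_of_ne hjj with h | h
    · exact fun he => hWne _ i' _ (hlt (hf h) (hGW _ i)) he.symm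
    · exact hWne _ i _ (hlt (hf h) (hGW _ i'))
  · intro j i t
    exact hWne _ i _ (hv0 (f j) t)
  · intro j i t
    exact hWne _ i _ (hv0' (f j) t)

theorem exists_obj (hA : EC M0 A) [Countable N] (hinf : ¬ FinTy M0 A) :
    ∃ (N' : Type) (X : Ext M0 A N') (e e' : Fin σ.r → N') (a : ℕ → Fin σ.r → N'),
      Obj X e e' a := by
  choose v v' a h1 h2 h3 h4 h5 h6 h7 using fun C : Finset N => loc_obj hA hinf C
  obtain ⟨u, hu⟩ := exists_cone_ultrafilter N
  let X : Ext M0 A (UP u (fun _ : Finset N => N)) :=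
    ⟨UP.rs u (fun _ => A), up_inC (fun _ => hA.1), fun x => UP.mk u (fun _ => x),
      up_emb (fun _ x => x) (fun _ w => Filter.Eventually.of_forall fun _ => st_refl A w)⟩
  have hmem : ∀ n : N, ∀ᶠ C in (u : Filter (Finset N)), n ∈ C := by
    intro n
    filter_upwards [hu {n}] with C hC
    exact hC (Finset.mem_singleton_self n)
  refine ⟨_, X, fun t => UP.mk u (fun C => v C t), fun t => UP.mk u (fun C => v' C t),
    fun j t => UP.mk u (fun C => a C j t), ?_, ?_, ?_, ?_, ?_, ?_, ?_⟩
  · intro n c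
    have e1 : ∀ w : Fin σ.r → ∀ _ : Finset N, N,
        Sum.elim (fun t => UP.mk u (w t)) (X.i ∘ c) =
        fun j => UP.mk u (Sum.elim w (fun k _ => c k) j) := by
      intro w
      funext t
      rcases t with t | t <;> rfl
    have e2 : ∀ (w : Fin σ.r → ∀ _ : Finset N, N) (C : Finset N),
        (fun j => Sum.elim w (fun k _ => c k) j C) = Sum.elim (fun t => w t C) c := by
      intro w C
      funext t
      rcases t with t | t <;> rfl
    rw [e1 (fun t C => v C t), e1 (fun t C => v' C t)]
    refine (up_st_iff2 _ _).2 ?_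
    filter_upwards [cone_eventually hu c] with C hC
    rw [e2, e2]
    have h := st_comp (h1 C) (Sum.elim Sum.inr (fun k => Sum.inl ⟨c k, hC k⟩) :
      Fin σ.r ⊕ Fin n → C ⊕ Fin σ.r)
    have e3 : ∀ w : Fin σ.r → N, Sum.elim (Subtype.val : C → N) w ∘
        Sum.elim Sum.inr (fun k => Sum.inl ⟨c k, hC k⟩) = Sum.elim w c := by
      intro w
      funext t
      rcases t with t | t <;> rfl
    rw [e3, e3] at h
    exact h
  · intro j hst
    have e1 : ∀ w : Fin σ.r → ∀ _ : Finset N, N,
        Sum.elim (fun t => UP.mk u (fun C => a C j t)) (fun t => UP.mk u (w t)) =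
        fun k => UP.mk u (Sum.elim (fun t C => a C j t) w k) := by
      intro w
      funext t
      rcases t with t | t <;> rfl
    have e2 : ∀ (w : Fin σ.r → ∀ _ : Finset N, N) (C : Finset N),
        (fun k => Sum.elim (fun t C => a C j t) w k C) = Sum.elim (a C j) (fun t => w t C) := by
      intro w C
      funext t
      rcases t with t | t <;> rfl
    rw [e1 (fun t C => v C t), e1 (fun t C => v' C t)] at hst
    obtain ⟨C, hC⟩ := ((up_st_iff2 _ _).1 hst).exists
    rw [e2, e2] at hC
    exact h2 C j hC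
  · intro n c s s' hs hs'
    have e1 : ∀ s : Fin σ.r → ℕ,
        Sum.elim (fun i : Fin σ.r × Fin σ.r => UP.mk u (fun C => a C (s i.1) i.2))
          (Sum.elim (Sum.elim (fun t => UP.mk u (fun C => v C t))
            (fun t => UP.mk u (fun C => v' C t))) (X.i ∘ c)) =
        fun k => UP.mk u (fun C => Sum.elim (fun i : Fin σ.r × Fin σ.r => a C (s i.1) i.2)
          (Sum.elim (Sum.elim (v C) (v' C)) c) k) := by
      intro s
      funext t
      rcases t with t | (t | t) | t <;> rfl
    rw [e1, e1]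
    refine (up_st_iff2 _ _).2 ?_
    filter_upwards [cone_eventually hu c] with C hC
    have h := st_comp (h3 C s s' hs hs') (Sum.map id (Sum.map id (fun k => ⟨c k, hC k⟩)) :
      (Fin σ.r × Fin σ.r) ⊕ ((Fin σ.r ⊕ Fin σ.r) ⊕ Fin n) →
        (Fin σ.r × Fin σ.r) ⊕ ((Fin σ.r ⊕ Fin σ.r) ⊕ C))
    have e3 : ∀ w : Fin σ.r × Fin σ.r → N,
        Sum.elim w (Sum.elim (Sum.elim (v C) (v' C)) (Subtype.val : C → N)) ∘
          Sum.map id (Sum.map id (fun k => ⟨c k, hC k⟩)) =
        Sum.elim w (Sum.elim (Sum.elim (v C) (v' C)) c) := by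
      intro w
      funext t
      rcases t with t | (t | t) | t <;> rfl
    rw [e3, e3] at h
    exact h
  · intro j i n h
    obtain ⟨C, hC, hn⟩ := ((up_mk_eq.1 h).and (hmem n)).exists
    exact h4 C j i (by rw [hC]; exact hn)
  · intro j j' i i' hjj h
    obtain ⟨C, hC⟩ := (up_mk_eq.1 h).exists
    exact h5 C j j' i i' hjj hC
  · intro j i t h
    obtain ⟨C, hC⟩ := (up_mk_eq.1 h).exists
    exact h6 C j i t hC
  · intro j i t h
    obtain ⟨C, hC⟩ := (up_mk_eq.1 h).exists
    exact h7 C j i t hC

end Pool.Agent.Helper89.EA
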