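import Pool.Agent.Helper89.EA.S.T13a
import Pool.Agent.Helper89.EA.S.T8a

/-!
# Project EA, piece S-T13b: properties of objects

`obj_of_pat`: every condition in `Obj` is a condition on the types of the tuples
`(fam ∘ b, Y.i ∘ c)`, `b` a finite tuple of indices, `c` a finite tuple of `K`; each of these types
is the type of a tuple `(fam ∘ b, X.i ∘ c')` (`Pat Y h ⊆ Pat X fam`), for which the condition holds.

`obj_fty`: the finite subfamily consists of `e, e'` and `a j`, `j < σ.r`.  A tuple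
`d : Fin σ.r → G` uses at most `σ.r` indices `j`; let `s : Fin σ.r → ℕ` be strictly increasing with
all these indices in its range, and compare with `s' j = j` (`hom`).
-/

namespace Pool.Agent.Helper89.EA

variable {σ : Sig} {M N N' : Type} {M0 : RS σ M} {A : RS σ N}

/-- the family of all points of an object -/
def fam (e e' : Fin σ.r → N') (a : ℕ → Fin σ.r → N') :
    (Fin σ.r ⊕ Fin σ.r) ⊕ (ℕ × Fin σ.r) → N' :=
  Sum.elim (Sum.elim e e') (fun x => a x.1 x.2)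

/-- transfer of the type of a finite tuple -/
private theorem pat_transfer {X : Ext M0 A N'} {K K' G : Type} {C : RS σ K} {Y : Ext M0 C K'}
    {g : G → N'} {g1 : G → K'} (hp : Pat Y g1 ⊆ Pat X g) {β γ : Type} [Finite β] [Finite γ]
    (b : β → G) (c : γ → K) :
    ∃ c' : γ → N, ST Y.B X.B (Sum.elim (g1 ∘ b) (Y.i ∘ c)) (Sum.elim (g ∘ b) (X.i ∘ c')) := by
  obtain ⟨n, ⟨eb⟩⟩ := Finite.exists_equiv_fin β
  obtain ⟨m, ⟨ec⟩⟩ := Finite.exists_equiv_fin γ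
  have h1 : (⟨n, m, (b ∘ eb.symm, typ Y.B (Sum.elim (g1 ∘ b ∘ eb.symm) (Y.i ∘ c ∘ ec.symm)))⟩ :
      PC σ G) ∈ Pat Y g1 := ⟨c ∘ ec.symm, rfl⟩
  obtain ⟨c', hc'⟩ := hp h1
  have h2 : ST X.B Y.B (Sum.elim (g ∘ b ∘ eb.symm) (X.i ∘ c'))
      (Sum.elim (g1 ∘ b ∘ eb.symm) (Y.i ∘ c ∘ ec.symm)) := typ_eq_iff.1 hc'
  have h3 := st_comp (st_symm h2) (Sum.map eb ec : β ⊕ γ → Fin n ⊕ Fin m)
  refine ⟨c' ∘ ec, ?_⟩
  rw [Sum.elim_comp_map, Sum.elim_comp_map] at h3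
  have e1 : (g1 ∘ b ∘ eb.symm) ∘ eb = g1 ∘ b := by
    funext t
    simp
  have e2 : (g ∘ b ∘ eb.symm) ∘ eb = g ∘ b := by
    funext t
    simp
  have e3 : (Y.i ∘ c ∘ ec.symm) ∘ ec = Y.i ∘ c := by
    funext t
    simp
  rw [e1, e2, e3] at h3
  exact h3

/-- transfer of an equality -/
private theorem pat_ne {X : Ext M0 A N'} {K K' G : Type} {C : RS σ K} {Y : Ext M0 C K'}
    {g : G → N'} {g1 : G → K'} (hp : Pat Y g1 ⊆ Pat X g) {x y : G} (h : g x ≠ g y) :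
    g1 x ≠ g1 y := by
  intro h1
  obtain ⟨c', hc'⟩ := pat_transfer hp (fun t : Bool => if t then x else y)
    (Empty.elim : Empty → K)
  have h2 := (hc'.1 (Sum.inl true) (Sum.inl false)).1 (by simpa using h1)
  exact h (by simpa using h2)

theorem obj_of_pat {X : Ext M0 A N'} {e e' : Fin σ.r → N'} {a : ℕ → Fin σ.r → N'}
    (h : Obj X e e' a) {K K' : Type} {C : RS σ K} {Y : Ext M0 C K'} {e1 e1' : Fin σ.r → K'}
    {a1 : ℕ → Fin σ.r → K'} (hp : Pat Y (fam e1 e1' a1) ⊆ Pat X (fam e e' a)) :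
    Obj Y e1 e1' a1 := by
  refine ⟨?_, ?_, ?_, ?_, ?_, ?_, ?_⟩
  · -- same
    intro n c
    obtain ⟨c', hc'⟩ := pat_transfer hp
      (Sum.inl : Fin σ.r ⊕ Fin σ.r → (Fin σ.r ⊕ Fin σ.r) ⊕ (ℕ × Fin σ.r)) c
    have h1 := st_comp hc' (Sum.map Sum.inl id : Fin σ.r ⊕ Fin n → (Fin σ.r ⊕ Fin σ.r) ⊕ Fin n)
    have h2 := st_comp hc' (Sum.map Sum.inr id : Fin σ.r ⊕ Fin n → (Fin σ.r ⊕ Fin σ.r) ⊕ Fin n)
    rw [Sum.elim_comp_map, Sum.elim_comp_map] at h1 h2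
    exact st_trans h1 (st_trans (h.same n c') (st_symm h2))
  · -- sep
    intro j hst
    obtain ⟨c', hc'⟩ := pat_transfer hp
      (Sum.elim (fun i => Sum.inr (j, i)) Sum.inl :
        Fin σ.r ⊕ (Fin σ.r ⊕ Fin σ.r) → (Fin σ.r ⊕ Fin σ.r) ⊕ (ℕ × Fin σ.r))
      (Empty.elim : Empty → K)
    have h1 := st_comp hc' (Sum.inl ∘ Sum.map id Sum.inl :
      Fin σ.r ⊕ Fin σ.r → (Fin σ.r ⊕ (Fin σ.r ⊕ Fin σ.r)) ⊕ Empty)
    have h2 := st_comp hc' (Sum.inl ∘ Sum.map id Sum.inr :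
      Fin σ.r ⊕ Fin σ.r → (Fin σ.r ⊕ (Fin σ.r ⊕ Fin σ.r)) ⊕ Empty)
    have key : ∀ (L P : Type) (f f' : Fin σ.r → L) (w : ℕ → Fin σ.r → L) (q : P → L),
        (Sum.elim (fam f f' w ∘ Sum.elim (fun i => Sum.inr (j, i)) Sum.inl) q ∘ Sum.inl ∘
            (Sum.map id Sum.inl : Fin σ.r ⊕ Fin σ.r → Fin σ.r ⊕ (Fin σ.r ⊕ Fin σ.r)) =
          Sum.elim (w j) f) ∧
        (Sum.elim (fam f f' w ∘ Sum.elim (fun i => Sum.inr (j, i)) Sum.inl) q ∘ Sum.inl ∘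
            (Sum.map id Sum.inr : Fin σ.r ⊕ Fin σ.r → Fin σ.r ⊕ (Fin σ.r ⊕ Fin σ.r)) =
          Sum.elim (w j) f') := by
      intro L P f f' w q
      constructor <;> (funext t; rcases t with t | t <;> rfl)
    rw [(key _ _ _ _ _ _).1, (key _ _ _ _ _ _).1] at h1
    rw [(key _ _ _ _ _ _).2, (key _ _ _ _ _ _).2] at h2
    exact h.sep j (st_trans (st_symm h1) (st_trans hst h2))
  · -- hom
    intro n c s s' hs hs'
    obtain ⟨c', hc'⟩ := pat_transfer hp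
      (Sum.elim (Sum.elim (fun i => Sum.inr (s i.1, i.2)) (fun i => Sum.inr (s' i.1, i.2)))
        Sum.inl : ((Fin σ.r × Fin σ.r) ⊕ (Fin σ.r × Fin σ.r)) ⊕ (Fin σ.r ⊕ Fin σ.r) →
          (Fin σ.r ⊕ Fin σ.r) ⊕ (ℕ × Fin σ.r)) c
    have h1 := st_comp hc' (Sum.elim (Sum.inl ∘ Sum.inl ∘ Sum.inl) (Sum.map Sum.inr id) :
      (Fin σ.r × Fin σ.r) ⊕ ((Fin σ.r ⊕ Fin σ.r) ⊕ Fin n) →
        (((Fin σ.r × Fin σ.r) ⊕ (Fin σ.r × Fin σ.r)) ⊕ (Fin σ.r ⊕ Fin σ.r)) ⊕ Fin n)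
    have h2 := st_comp hc' (Sum.elim (Sum.inl ∘ Sum.inl ∘ Sum.inr) (Sum.map Sum.inr id) :
      (Fin σ.r × Fin σ.r) ⊕ ((Fin σ.r ⊕ Fin σ.r) ⊕ Fin n) →
        (((Fin σ.r × Fin σ.r) ⊕ (Fin σ.r × Fin σ.r)) ⊕ (Fin σ.r ⊕ Fin σ.r)) ⊕ Fin n)
    have key : ∀ (L P : Type) (f f' : Fin σ.r → L) (w : ℕ → Fin σ.r → L) (q : P → L),
        (Sum.elim (fam f f' w ∘ Sum.elim (Sum.elim (fun i : Fin σ.r × Fin σ.r =>
            Sum.inr (s i.1, i.2)) (fun i : Fin σ.r × Fin σ.r => Sum.inr (s' i.1, i.2)))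
            Sum.inl) q ∘ Sum.elim (Sum.inl ∘ Sum.inl ∘ Sum.inl) (Sum.map Sum.inr id) =
          Sum.elim (fun i : Fin σ.r × Fin σ.r => w (s i.1) i.2) (Sum.elim (Sum.elim f f') q)) ∧
        (Sum.elim (fam f f' w ∘ Sum.elim (Sum.elim (fun i : Fin σ.r × Fin σ.r =>
            Sum.inr (s i.1, i.2)) (fun i : Fin σ.r × Fin σ.r => Sum.inr (s' i.1, i.2)))
            Sum.inl) q ∘ Sum.elim (Sum.inl ∘ Sum.inl ∘ Sum.inr) (Sum.map Sum.inr id) =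
          Sum.elim (fun i : Fin σ.r × Fin σ.r => w (s' i.1) i.2)
            (Sum.elim (Sum.elim f f') q)) := by
      intro L P f f' w q
      constructor <;> (funext t; rcases t with t | (t | t) | t <;> rfl)
    rw [(key _ _ _ _ _ _).1, (key _ _ _ _ _ _).1] at h1
    rw [(key _ _ _ _ _ _).2, (key _ _ _ _ _ _).2] at h2
    exact st_trans h1 (st_trans (h.hom n c' s s' hs hs') (st_symm h2))
  · -- out
    intro j i n h1
    obtain ⟨c', hc'⟩ := pat_transfer hp (fun _ : Unit => Sum.inr (j, i)) (fun _ : Unit => n)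
    have h2 := (hc'.1 (Sum.inl ()) (Sum.inr ())).1 h1
    exact h.out j i (c' ()) h2
  · -- disj
    intro j j' i i' hj
    exact pat_ne hp (x := Sum.inr (j, i)) (y := Sum.inr (j', i')) (h.disj j j' i i' hj)
  · -- dje
    intro j i k
    exact pat_ne hp (x := Sum.inr (j, i)) (y := Sum.inl (Sum.inl k)) (h.dje j i k)
  · -- dje'
    intro j i k
    exact pat_ne hp (x := Sum.inr (j, i)) (y := Sum.inl (Sum.inr k)) (h.dje' j i k)

theorem obj_fty {X : Ext M0 A N'} {e e' : Fin σ.r → N'} {a : ℕ → Fin σ.r → N'}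
    (h : Obj X e e' a) : FTy X (fam e e' a) := by
  classical
  let D' : Type := (Fin σ.r × Fin σ.r) ⊕ (Fin σ.r ⊕ Fin σ.r)
  obtain ⟨m, ⟨E⟩⟩ := Finite.exists_equiv_fin D'
  let inc : D' → (Fin σ.r ⊕ Fin σ.r) ⊕ (ℕ × Fin σ.r) :=
    Sum.elim (fun i => Sum.inr ((i.1 : ℕ), i.2)) Sum.inl
  refine ⟨m, inc ∘ E.symm, fun d => ?_⟩
  -- the indices that are used
  let J : Finset ℕ := Finset.univ.image
    (fun t : Fin σ.r => (Sum.elim (fun _ => 0) Prod.fst (d t) : ℕ))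
  have hJ : J.card ≤ σ.r := Finset.card_image_le.trans (by simp)
  obtain ⟨J', hJJ, hJ'⟩ := Infinite.exists_superset_card_eq J σ.r hJ
  let s : Fin σ.r → ℕ := J'.orderEmbOfFin hJ'
  have hs : StrictMono s := (J'.orderEmbOfFin hJ').strictMono
  have hrange : ∀ j ∈ J', ∃ k, s k = j := by
    intro j hj
    have h1 : j ∈ Set.range (J'.orderEmbOfFin hJ') := by
      rw [Finset.range_orderEmbOfFin]
      exact hj
    exact h1
  have hφ : ∀ t : Fin σ.r, ∃ x : D', (Sum.elim (fun i => Sum.inr (s i.1, i.2)) Sum.inl :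
      D' → (Fin σ.r ⊕ Fin σ.r) ⊕ (ℕ × Fin σ.r)) x = d t := by
    intro t
    rcases hd : d t with x | ⟨j, i⟩
    · exact ⟨Sum.inr x, rfl⟩
    · obtain ⟨k, hk⟩ := hrange j (hJJ (Finset.mem_image.2 ⟨t, Finset.mem_univ _, by rw [hd]; rfl⟩))
      exact ⟨Sum.inl (k, i), by simp [hk]⟩
  choose φ hφ using hφ
  refine ⟨E ∘ φ, fun n c => ?_⟩
  have h1 := st_comp (h.hom n c s (fun k => (k : ℕ)) hs (fun _ _ hlt => hlt))
    (Sum.elim (fun t => Sum.elim Sum.inl (fun y => Sum.inr (Sum.inl y)) (φ t))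
      (fun z => Sum.inr (Sum.inr z)) :
      Fin σ.r ⊕ Fin n → (Fin σ.r × Fin σ.r) ⊕ ((Fin σ.r ⊕ Fin σ.r) ⊕ Fin n))
  have key : ∀ s0 : Fin σ.r → ℕ,
      Sum.elim (fun i : Fin σ.r × Fin σ.r => a (s0 i.1) i.2)
        (Sum.elim (Sum.elim e e') (X.i ∘ c)) ∘
        (Sum.elim (fun t => Sum.elim Sum.inl (fun y => Sum.inr (Sum.inl y)) (φ t))
          (fun z => Sum.inr (Sum.inr z)) :
          Fin σ.r ⊕ Fin n → (Fin σ.r × Fin σ.r) ⊕ ((Fin σ.r ⊕ Fin σ.r) ⊕ Fin n)) =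
      Sum.elim (fun t => fam e e' a ((Sum.elim (fun i => Sum.inr (s0 i.1, i.2)) Sum.inl :
        D' → (Fin σ.r ⊕ Fin σ.r) ⊕ (ℕ × Fin σ.r)) (φ t))) (X.i ∘ c) := by
    intro s0
    funext t
    rcases t with t | t
    · simp only [Function.comp_apply, Sum.elim_inl]
      rcases φ t with x | x <;> rfl
    · rfl
  rw [key, key] at h1
  have e1 : (fun t => fam e e' a ((Sum.elim (fun i => Sum.inr (s i.1, i.2)) Sum.inl :
        D' → (Fin σ.r ⊕ Fin σ.r) ⊕ (ℕ × Fin σ.r)) (φ t))) = fam e e' a ∘ d := by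
    funext t
    rw [hφ]
    rfl
  have e2 : (fun t => fam e e' a ((Sum.elim (fun i => Sum.inr ((i.1 : ℕ), i.2)) Sum.inl :
        D' → (Fin σ.r ⊕ Fin σ.r) ⊕ (ℕ × Fin σ.r)) (φ t))) =
      fam e e' a ∘ (inc ∘ E.symm) ∘ E ∘ φ := by
    funext t
    simp only [Function.comp_apply, Equiv.symm_apply_apply]
    rfl
  rw [e1, e2] at h1
  exact h1

end Pool.Agent.Helper89.EA
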