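import Pool.Agent.Helper89.EA.S.T3
import Pool.Agent.Helper89.EA.S.T13b

/-!
# Project EA, piece S-T13c: an object contains large connected sets

`D` is the type of the points of the object outside of `N`.

(1) For every `j`: `¬ FS X (a j) e` or `¬ FS X (a j) e'`.  Otherwise, by symmetry (`fs_symm`),
`FS X e (a j)` and `FS X e' (a j)`, and `fs_stat` with `same` gives that `(e, a j)` and
`(e', a j)` have the same type, contradiction to `sep`.

(2) So for infinitely many `j` the same alternative holds, say with `e* = e` or `e* = e'`.  For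
these `j` let `P j : Finset D` be the set of the points of `a j`, and `Q` the set of the points of
`e*` outside of `N`.  They are disjoint (`dje`, `dje'`).  `¬ Ind X val (P j) Q`: otherwise, by
`fs_mono` and `fs_add` (the entries of `e*` in `N` are parameters), `FS X (a j) e*`.
`conn_of_not_ind` gives a connected `E j ⊆ P j ∪ Q` meeting `P j` and `Q`.

(3) By the pigeonhole principle there is `x0 ∈ Q` with `x0 ∈ E j` for infinitely many `j`.  The
union of `n` of these sets is connected (`conn_union`), and it has at least `n` points since it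
meets the disjoint sets `P j`.
-/

namespace Pool.Agent.Helper89.EA

variable {σ : Sig} {M N N' : Type} {M0 : RS σ M} {A : RS σ N}

private theorem obj_conn_aux (hS : Stable M0) (hA : EC M0 A) {X : Ext M0 A N'}
    {e e' : Fin σ.r → N'} {a : ℕ → Fin σ.r → N'} (h : Obj X e e' a) (es : Fin σ.r → N')
    (hes : ∀ i, ∃ γ, fam e e' a γ = es i) (hdj : ∀ j, Dj (a j) es)
    (hJ : {j | ¬ FS X (a j) es}.Infinite) (n : ℕ) :
    ∃ B : Finset {x : N' // (∀ n, x ≠ X.i n) ∧ ∃ γ, fam e e' a γ = x},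
      ConnI X Subtype.val B ∧ n ≤ B.card := by
  classical
  set D := {x : N' // (∀ n, x ≠ X.i n) ∧ ∃ γ, fam e e' a γ = x} with hD
  have fP : ∀ j, {d : D | d.1 ∈ Set.range (a j)}.Finite := fun j =>
    (Set.finite_range (a j)).preimage Subtype.val_injective.injOn
  have fQ : {d : D | d.1 ∈ Set.range es}.Finite :=
    (Set.finite_range es).preimage Subtype.val_injective.injOn
  set P : ℕ → Finset D := fun j => (fP j).toFinset with hP
  set Q : Finset D := fQ.toFinset with hQ
  have mP : ∀ j d, d ∈ P j ↔ ∃ i, a j i = d.1 := by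
    intro j d
    simp only [hP, Set.Finite.mem_toFinset, Set.mem_setOf_eq, Set.mem_range]
  have mQ : ∀ d, d ∈ Q ↔ ∃ i, es i = d.1 := by
    intro d
    simp only [hQ, Set.Finite.mem_toFinset, Set.mem_setOf_eq, Set.mem_range]
  have dPQ : ∀ j, Disjoint (P j) Q := by
    intro j
    rw [Finset.disjoint_left]
    intro d h1 h2
    obtain ⟨i, hi⟩ := (mP j d).1 h1
    obtain ⟨i', hi'⟩ := (mQ d).1 h2
    exact hdj j i i' (hi.trans hi'.symm)
  have hn : ∀ j, ¬ FS X (a j) es → ¬ Ind X (Subtype.val : D → N') (P j) Q := by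
    intro j hj hI
    apply hj
    have h1 := fs_mono hI (fun i : Fin σ.r => (⟨⟨a j i, h.out j i, Sum.inr (j, i), rfl⟩,
      (mP j _).2 ⟨i, rfl⟩⟩ : P j)) (id : Q → Q)
    have h2 : FS X (a j) (fun d : Q => (d : D).1) := h1
    let κ := {i : Fin σ.r // ∃ n, es i = X.i n}
    choose c hc using fun i : κ => i.2
    have h3 := fs_add h2 c
    have h4 := fs_mono h3 (id : Fin σ.r → Fin σ.r) (fun i : Fin σ.r =>
      if hi : ∃ n, es i = X.i n then (Sum.inr ⟨i, hi⟩ : Q ⊕ κ)
      else Sum.inl ⟨⟨es i, fun n hn => hi ⟨n, hn⟩, hes i⟩, (mQ _).2 ⟨i, rfl⟩⟩)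
    have h5 : Sum.elim (fun d : Q => (d : D).1) (X.i ∘ c) ∘ (fun i : Fin σ.r =>
      if hi : ∃ n, es i = X.i n then (Sum.inr ⟨i, hi⟩ : Q ⊕ κ)
      else Sum.inl ⟨⟨es i, fun n hn => hi ⟨n, hn⟩, hes i⟩, (mQ _).2 ⟨i, rfl⟩⟩) = es := by
      funext i
      by_cases hi : ∃ n, es i = X.i n
      · simp only [Function.comp_apply, dif_pos hi, Sum.elim_inr]
        exact (hc ⟨i, hi⟩).symm
      · simp only [Function.comp_apply, dif_neg hi, Sum.elim_inl]
    rw [h5] at h4
    exact h4
  set J : Set ℕ := {j | ¬ FS X (a j) es} with hJd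
  have hE : ∀ j : J, ∃ E : Finset D, ConnI X Subtype.val E ∧ E ⊆ P j ∪ Q ∧ E.card ≤ σ.r ∧
      (E ∩ P j).Nonempty ∧ (E ∩ Q).Nonempty := fun j =>
    conn_of_not_ind hS hA (dPQ j) (hn j j.2)
  choose E hE1 hE2 hE3 hE4 hE5 using hE
  choose y hy using hE4
  choose x hx using hE5
  haveI : Infinite J := hJ.to_subtype
  obtain ⟨x0, hx0⟩ := Finite.exists_infinite_fiber (fun j : J =>
    (⟨x j, (Finset.mem_inter.1 (hx j)).2⟩ : Q))
  have hinf : {j : J | (⟨x j, (Finset.mem_inter.1 (hx j)).2⟩ : Q) = x0}.Infinite :=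
    Set.infinite_coe_iff.1 hx0
  obtain ⟨T, hT, hTc⟩ := hinf.exists_subset_card_eq (n + 1)
  have hmem : ∀ j ∈ T, (x0 : D) ∈ E j := by
    intro j hj
    have h1 := hT hj
    have h2 : x j = (x0 : D) := congrArg Subtype.val h1
    rw [← h2]
    exact (Finset.mem_inter.1 (hx j)).1
  have hconn : ∀ S : Finset J, S.Nonempty → S ⊆ T →
      ConnI X Subtype.val (S.biUnion E) ∧ (x0 : D) ∈ S.biUnion E := by
    intro S hS'
    induction hS' using Finset.Nonempty.cons_induction with
    | singleton j =>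
      intro hs
      rw [Finset.singleton_biUnion]
      exact ⟨hE1 j, hmem j (Finset.singleton_subset_iff.1 hs)⟩
    | cons j S hj hne ih =>
      intro hs
      rw [Finset.cons_subset] at hs
      obtain ⟨h1, h2⟩ := ih hs.2
      rw [Finset.cons_eq_insert, Finset.biUnion_insert]
      exact ⟨conn_union (hE1 j) h1 ⟨x0, Finset.mem_inter.2 ⟨hmem j hs.1, h2⟩⟩,
        Finset.mem_union_left _ (hmem j hs.1)⟩
  have hTne : T.Nonempty := by
    rw [← Finset.card_pos, hTc]
    omega
  refine ⟨T.biUnion E, (hconn T hTne subset_rfl).1, ?_⟩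
  have hcard : T.card ≤ (T.biUnion E).card := by
    refine Finset.card_le_card_of_injOn y ?_ ?_
    · intro j hj
      exact Finset.mem_biUnion.2 ⟨j, hj, (Finset.mem_inter.1 (hy j)).1⟩
    · intro j _ j' _ hjj'
      by_contra hne
      have hne' : (j : ℕ) ≠ j' := fun h' => hne (Subtype.ext h')
      obtain ⟨i, hi⟩ := (mP j _).1 (Finset.mem_inter.1 (hy j)).2
      obtain ⟨i', hi'⟩ := (mP j' _).1 (Finset.mem_inter.1 (hy j')).2
      rw [← hjj'] at hi'
      exact h.disj j j' i i' hne' (hi.trans hi'.symm)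
  omega

theorem obj_conn (hS : Stable M0) (hA : EC M0 A) {X : Ext M0 A N'} {e e' : Fin σ.r → N'}
    {a : ℕ → Fin σ.r → N'} (h : Obj X e e' a) (n : ℕ) :
    ∃ B : Finset {x : N' // (∀ n, x ≠ X.i n) ∧ ∃ γ, fam e e' a γ = x},
      ConnI X Subtype.val B ∧ n ≤ B.card := by
  have h1 : ∀ j, ¬ FS X (a j) e ∨ ¬ FS X (a j) e' := by
    intro j
    by_contra hcon
    push Not at hcon
    obtain ⟨h2, h3⟩ := hcon
    have h4 := fs_stat hS hA h.same (fs_symm hS hA h2) (fs_symm hS hA h3) 0 Fin.elim0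
    refine h.sep j ?_
    have h5 := st_comp h4 (Sum.elim (fun i => Sum.inl (Sum.inr i)) (fun i => Sum.inl (Sum.inl i)) :
      Fin σ.r ⊕ Fin σ.r → (Fin σ.r ⊕ Fin σ.r) ⊕ Fin 0)
    have h6 : ∀ w : Fin σ.r → N', Sum.elim (Sum.elim w (a j)) (X.i ∘ Fin.elim0) ∘
        (Sum.elim (fun i => Sum.inl (Sum.inr i)) (fun i => Sum.inl (Sum.inl i)) :
      Fin σ.r ⊕ Fin σ.r → (Fin σ.r ⊕ Fin σ.r) ⊕ Fin 0) = Sum.elim (a j) w := by
      intro w
      funext t
      rcases t with t | t <;> rfl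
    rw [h6, h6] at h5
    exact h5
  have h2 : {j | ¬ FS X (a j) e}.Infinite ∨ {j | ¬ FS X (a j) e'}.Infinite := by
    rw [← Set.infinite_union]
    have h3 : {j | ¬ FS X (a j) e} ∪ {j | ¬ FS X (a j) e'} = Set.univ := by
      ext j
      simp only [Set.mem_union, Set.mem_setOf_eq, Set.mem_univ, iff_true]
      exact h1 j
    rw [h3]
    exact Set.infinite_univ
  rcases h2 with h2 | h2
  · exact obj_conn_aux hS hA h e (fun i => ⟨Sum.inl (Sum.inl i), rfl⟩) h.dje h2 n
  · exact obj_conn_aux hS hA h e' (fun i => ⟨Sum.inl (Sum.inr i), rfl⟩) h.dje' h2 n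

end Pool.Agent.Helper89.EA
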