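import Pool.Agent.Helper89.EA.S.T0
import Pool.Agent.Helper89.EA.S.T8a

/-!
# Project EA, piece S-T13e: subfamilies

`fty_of_factor`: let `m, b` be as in `FTy X h`.  For each of the finitely many
`δ : Fin σ.r → Fin m` such that there is `d : Fin σ.r → D` with `STo X X (g ∘ d) (h ∘ b ∘ δ)`
choose one such `d`; the new finite subfamily consists of all entries of the chosen `d`.
-/

namespace Pool.Agent.Helper89.EA

variable {σ : Sig} {M N N' : Type} {M0 : RS σ M} {A : RS σ N}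

theorem fty_of_factor {X : Ext M0 A N'} {G D : Type} {h : G → N'} {g : D → N'}
    (hT : FTy X h) (hg : ∀ d, ∃ γ, h γ = g d) : FTy X g := by
  classical
  choose γ hγ using hg
  obtain ⟨m, b, hb⟩ := hT
  obtain ⟨m', ⟨e⟩⟩ := Finite.exists_equiv_fin
    ({δ : Fin σ.r → Fin m // ∃ d : Fin σ.r → D, STo X X (g ∘ d) (h ∘ b ∘ δ)} × Fin σ.r)
  refine ⟨m', fun i => (e.symm i).1.2.choose (e.symm i).2, fun d => ?_⟩
  obtain ⟨δ, hδ⟩ := hb (γ ∘ d)
  have h1 : h ∘ γ ∘ d = g ∘ d := funext fun i => hγ (d i)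
  rw [h1] at hδ
  refine ⟨fun i => e (⟨δ, d, hδ⟩, i), ?_⟩
  have h2 := (⟨δ, d, hδ⟩ : {δ : Fin σ.r → Fin m // ∃ d : Fin σ.r → D,
    STo X X (g ∘ d) (h ∘ b ∘ δ)}).2.choose_spec
  intro n c
  refine st_trans (hδ n c) (st_symm ?_)
  have h3 := h2 n c
  have h4 : (g ∘ (fun i => (e.symm i).1.2.choose (e.symm i).2) ∘
      fun i => e (⟨δ, d, hδ⟩, i)) = g ∘ (⟨δ, d, hδ⟩ : {δ : Fin σ.r → Fin m //
      ∃ d : Fin σ.r → D, STo X X (g ∘ d) (h ∘ b ∘ δ)}).2.choose := by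
    funext i
    show g ((e.symm (e (⟨δ, d, hδ⟩, i))).1.2.choose (e.symm (e (⟨δ, d, hδ⟩, i))).2) = _
    rw [Equiv.symm_apply_apply]
    rfl
  rw [h4]
  exact h3

theorem schEq_of_factor {X : Ext M0 A N'} {G D : Type} {h : G → N'} {g : D → N'} {p : ℕ}
    {f : Fin p → N} (hg : ∀ d, ∃ γ, h γ = g d) {K : Type} {C : RS σ K} {f' f'' : Fin p → K}
    (hs : SchEq X h f C f' f'') : SchEq X g f C f' f'' := by
  choose γ hγ using hg
  intro y m m' hm hm'
  have h1 := st_comp (hs y m m' hm hm') (Sum.map γ id)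
  have e1 : ∀ w : Fin σ.r → N, Sum.elim h (X.i ∘ w) ∘ Sum.map γ id = Sum.elim g (X.i ∘ w) := by
    intro w
    funext t
    rcases t with t | t
    · exact hγ t
    · rfl
  rw [e1, e1] at h1
  exact h1

theorem finA_of_factor {X : Ext M0 A N'} {G D : Type} {h : G → N'} {g : D → N'} {p : ℕ}
    {f : Fin p → N} (hg : ∀ d, ∃ γ, h γ = g d) (hF : FinA X h f) : FinA X g f := by
  intro K hK C hC κ hκ
  rintro ⟨F, hF1, hF2⟩
  exact hF K C hC κ hκ ⟨F, hF1, fun t t' htt h' => hF2 t t' htt (schEq_of_factor hg h')⟩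

end Pool.Agent.Helper89.EA
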