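import Pool.Agent.Helper89.EA.S.T7
import Pool.Agent.Helper89.EA.S.T12
import Pool.Agent.Helper89.EA.S.T13c
import Pool.Agent.Helper89.EA.S.T13e

/-!
# Project EA, piece S-T13d: infinitely many types give many theories
-/

namespace Pool.Agent.Helper89.EA

variable {σ : Sig} {M N : Type} {M0 : RS σ M} {A : RS σ N}

theorem case_a (hS : Stable M0) (hA : EC M0 A) [Countable N] (hinf : ¬ FinTy M0 A) :
    ManyS M0 := by
  obtain ⟨N', X, e, e', a, hO⟩ := exists_obj hA hinf
  obtain ⟨K, _, C, K', Y, h, hC, hp, hmin⟩ := exists_minPat hS hA X (fam e e' a)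
  have hh : h = fam (fun i => h (.inl (.inl i))) (fun i => h (.inl (.inr i)))
      (fun j i => h (.inr (j, i))) := by
    funext x
    rcases x with (x | x) | x <;> rfl
  have hO' : Obj Y (fun i => h (.inl (.inl i))) (fun i => h (.inl (.inr i)))
      (fun j i => h (.inr (j, i))) := obj_of_pat hO (by rw [← hh]; exact hp)
  have hT : FTy Y h := by
    have := obj_fty hO'
    rwa [← hh] at this
  obtain ⟨p1, f1, hf1⟩ := nsb_of_fty hS hC Y hT
  have hcount : Countable {x : K' // (∀ n, x ≠ Y.i n) ∧ ∃ γ, h γ = x} := by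
    have hc : (Set.range h).Countable := Set.countable_range h
    have : Countable (Set.range h) := hc.to_subtype
    refine Function.Injective.countable
      (f := fun x : {x : K' // (∀ n, x ≠ Y.i n) ∧ ∃ γ, h γ = x} =>
        (⟨x.1, x.2.2⟩ : Set.range h)) ?_
    intro x y hxy
    exact Subtype.ext (congrArg (fun z : Set.range h => z.1) hxy)
  refine mainS hS hC (X := Y) (D := {x : K' // (∀ n, x ≠ Y.i n) ∧ ∃ γ, h γ = x})
    (g := Subtype.val) Subtype.val_injective (fun d n => d.2.1 n)
    (fty_of_factor hT (fun d => d.2.2)) ?_ f1 ?_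
  · intro n
    have := obj_conn hS hC hO' n
    rwa [← hh] at this
  · intro p f hef _
    obtain ⟨e0, he0⟩ := hef
    exact finA_of_factor (fun d => d.2.2) (finA_of_minPat hS hC Y hmin hT (nsb_mono hf1 e0 he0))

end Pool.Agent.Helper89.EA
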