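import Pool.Agent.Helper89.EA.S.T3
import Pool.Agent.Helper89.EA.S.T9
import Pool.Agent.Helper89.EA.UDefs

/-!
# Project EA, piece S-T15a: the types of components

Proof of `exists_ctypes`.  Let `FinTy M0 A` be given by `Z i, a i` (`i < q0`).

(1) For every `k ≤ n0` there are finitely many types over `N` of tuples `u : Fin k → K'` outside of
`N`: for each `x : Fin σ.r → Fin k` there is `φ u x : Fin q0` with
`STo X (Z (φ u x)) (u ∘ x) (a (φ u x))`, and if `φ u = φ u'` then `u` and `u'` have the same type over `N`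
(`st_small'`; entries in `N` are replaced by one of the entries in `u`; `k > 0`; the case `k = 0`
does not occur for connected tuples).  So there is a finite list `Y j, g j : Fin (k j) → _`
(`j < q`, `k j ≤ n0`) of injective connected tuples outside of `N` such that every such tuple
`u` has the type of some `g j` (choose one tuple for every `k` and every function `φ` that occurs).

(2) For each `j` there is a base `f j` (`nsb_exists`), enlarged by `wconn_of_conn` so that
`WConn (Y j) (g j) (f j) Finset.univ`.  For all `j, j'`, `P : Set (Fin (k j))`,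
`τ : P → Fin (k j')` (finitely many) such that `g j|P` and `g j' ∘ τ` do not have the same type
over `N` choose a finite tuple `c` of `N` witnessing this.  Let `f` be the concatenation of all `f j` and
all these `c`.  `NSb` and `WConn` are preserved when the base is enlarged (`nsb_mono`; for `WConn`
take the same `e`).
-/

namespace Pool.Agent.Helper89.EA

variable {σ : Sig} {M N N' : Type} {M0 : RS σ M} {A : RS σ N}

/-- the finitely many types of components over `N`, and a good base `f` -/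
structure CT (M0 : RS σ M) (A : RS σ N) where
  q : ℕ
  k : Fin q → ℕ
  L : Fin q → Type
  Y : ∀ j, Ext M0 A (L j)
  g : ∀ j, Fin (k j) → L j
  p : ℕ
  f : Fin p → N
  inj : ∀ j, Function.Injective (g j)
  out : ∀ j d n, g j d ≠ (Y j).i n
  nsb : ∀ j, NSb (Y j) f (g j)
  wc : ∀ j, WConn (Y j) (g j) f Finset.univ
  sep : ∀ (j j' : Fin q) (P : Set (Fin (k j))) (τ : P → Fin (k j')),
    ST (Y j).B (Y j').B (Sum.elim (fun i : P => g j i) ((Y j).i ∘ f))
      (Sum.elim (g j' ∘ τ) ((Y j').i ∘ f)) → STo (Y j) (Y j') (fun i : P => g j i) (g j' ∘ τ)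
  all : ∀ (K' : Type) (X : Ext M0 A K') (k0 : ℕ) (u : Fin k0 → K'), Function.Injective u →
    (∀ i n, u i ≠ X.i n) → ConnI X u Finset.univ → ∃ (j : Fin q) (e : Fin k0 ≃ Fin (k j)),
      STo X (Y j) u (g j ∘ e)

/-- `x` is a closed piece of the type number `j` -/
structure CP (T : CT M0 A) (j : Fin T.q) (x : Fin (T.k j) → N) : Prop where
  dj : Dj T.f x
  cl : ∀ (κ : Type) (y : κ → N), Dj y x →
    ST A (T.Y j).B (Sum.elim x y) (Sum.elim (T.g j) ((T.Y j).i ∘ y))

theorem wconn_mono {X : Ext M0 A N'} {D : Type} {g : D → N'} {p p' : ℕ} {f : Fin p → N}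
    {f' : Fin p' → N} (e : Fin p → Fin p') (he : f' ∘ e = f) {B : Finset D}
    (h : WConn X g f B) : WConn X g f' B := by
  refine ⟨h.1, fun P Q hP hQ hd hu => ?_⟩
  obtain ⟨d, hd1, hd2⟩ := h.2 P Q hP hQ hd hu
  refine ⟨d, hd1, fun c hST => hd2 c ?_⟩
  refine h82_st_comp_eq hST (Sum.map id (Sum.map e id)) ?_ ?_
  · rintro (i | i | i)
    · rfl
    · exact congrArg X.i (congrFun he i)
    · rfl
  · rintro (i | i | i)
    · rfl
    · exact congrArg X.i (congrFun he i)
    · rfl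

/-- concatenation of finitely many finite tuples -/
theorem h45_concat {ι : Type} [Finite ι] (p : ι → ℕ) (f : ∀ i, Fin (p i) → N) :
    ∃ (p' : ℕ) (f' : Fin p' → N), ∀ i, ∃ e : Fin (p i) → Fin p', f' ∘ e = f i := by
  obtain ⟨p', ⟨e⟩⟩ := Finite.exists_equiv_fin (Σ i, Fin (p i))
  refine ⟨p', (fun s : Σ i, Fin (p i) => f s.1 s.2) ∘ e.symm, fun i => ⟨fun d => e ⟨i, d⟩, ?_⟩⟩
  funext d
  exact congrArg (fun s : Σ i, Fin (p i) => f s.1 s.2) (e.symm_apply_apply ⟨i, d⟩)

/-- equality of types can be checked on `σ.r`-tuples -/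
theorem h45_sto_small {N'' : Type} {X : Ext M0 A N'} {X' : Ext M0 A N''} {k : ℕ} {u : Fin k → N'}
    {u' : Fin k → N''} (hk : 0 < k) (h : ∀ x : Fin σ.r → Fin k, STo X X' (u ∘ x) (u' ∘ x)) :
    STo X X' u u' := by
  intro n c
  refine st_small' X.inC X'.inC fun x => ?_
  refine h82_st_comp_eq (h (fun t => Sum.elim id (fun _ => ⟨0, hk⟩) (x t)) n c)
    (fun t => Sum.elim (fun _ => Sum.inl t) Sum.inr (x t)) ?_ ?_
  · intro t
    rcases ht : x t with i | i <;> simp [ht]
  · intro t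
    rcases ht : x t with i | i <;> simp [ht]

theorem exists_ctypes (hS : Stable M0) (hA : EC M0 A) (hfin : FinTy M0 A) {n0 : ℕ}
    (hb : ∀ (K' : Type) (X : Ext M0 A K') (D : Type) (g : D → K'), Function.Injective g →
      (∀ d n, g d ≠ X.i n) → ∀ B : Finset D, ConnI X g B → B.card ≤ n0) :
    Nonempty (CT M0 A) := by
  classical
  obtain ⟨q0, K, Z, a, hZ⟩ := hfin
  let R : ∀ k : ℕ, ((Fin σ.r → Fin k) → Fin q0) → Prop := fun k φ =>
    ∃ (K' : Type) (X : Ext M0 A K') (u : Fin k → K'), Function.Injective u ∧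
      (∀ i n, u i ≠ X.i n) ∧ ConnI X u Finset.univ ∧
      ∀ x, STo X (Z (φ x)) (u ∘ x) (a (φ x))
  let J : Type := {s : Σ k : Fin (n0 + 1), (Fin σ.r → Fin (k : ℕ)) → Fin q0 // R s.1 s.2}
  have hJ : Finite J := inferInstanceAs (Finite {s : Σ k : Fin (n0 + 1),
    (Fin σ.r → Fin (k : ℕ)) → Fin q0 // R s.1 s.2})
  obtain ⟨q, ⟨ε⟩⟩ := Finite.exists_equiv_fin J
  have hR : ∀ j : Fin q, R (ε.symm j).1.1 (ε.symm j).1.2 := fun j => (ε.symm j).2
  choose L Y g hinj hout hconn hST using hR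
  have hbase : ∀ j : Fin q, ∃ (p : ℕ) (f : Fin p → N), NSb (Y j) f (g j) ∧
      WConn (Y j) (g j) f Finset.univ := by
    intro j
    obtain ⟨p0, f0, hf0⟩ := nsb_exists hS hA (Y j) (g j)
    obtain ⟨p, f, -, h1, h2⟩ := wconn_of_conn hA (Y j) hf0
    exact ⟨p, f, h1, h2 _ (hconn j)⟩
  choose pb fb hnsb hwc using hbase
  let S : Type := Σ (j j' : Fin q) (P : Set (Fin ((ε.symm j).1.1 : ℕ))),
    (P → Fin ((ε.symm j').1.1 : ℕ))
  have hS' : Finite S := inferInstanceAs (Finite (Σ (j j' : Fin q)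
    (P : Set (Fin ((ε.symm j).1.1 : ℕ))), (P → Fin ((ε.symm j').1.1 : ℕ))))
  have hsep : ∀ s : S, ∃ (n : ℕ) (c : Fin n → N),
      ST (Y s.1).B (Y s.2.1).B (Sum.elim (fun i : s.2.2.1 => g s.1 i) ((Y s.1).i ∘ c))
        (Sum.elim (g s.2.1 ∘ s.2.2.2) ((Y s.2.1).i ∘ c)) →
      STo (Y s.1) (Y s.2.1) (fun i : s.2.2.1 => g s.1 i) (g s.2.1 ∘ s.2.2.2) := by
    intro s
    by_cases h : STo (Y s.1) (Y s.2.1) (fun i : s.2.2.1 => g s.1 i) (g s.2.1 ∘ s.2.2.2)
    · exact ⟨0, Fin.elim0, fun _ => h⟩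
    · have h1 := h
      unfold STo at h1
      push Not at h1
      obtain ⟨n, c, hc⟩ := h1
      exact ⟨n, c, fun h2 => absurd h2 hc⟩
  choose pc fc hc using hsep
  obtain ⟨p, f, hf⟩ := h45_concat (ι := Fin q ⊕ S) (N := N) (fun i => Sum.elim pb pc i)
    (fun i => match i with
      | .inl j => fb j
      | .inr s => fc s)
  have hf1 : ∀ j, ∃ e : Fin (pb j) → Fin p, f ∘ e = fb j := fun j => hf (.inl j)
  have hf2 : ∀ s, ∃ e : Fin (pc s) → Fin p, f ∘ e = fc s := fun s => hf (.inr s)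
  refine ⟨{
    q := q
    k := fun j => (ε.symm j).1.1
    L := L
    Y := Y
    g := g
    p := p
    f := f
    inj := hinj
    out := hout
    nsb := ?_
    wc := ?_
    sep := ?_
    all := ?_ }⟩
  · intro j
    obtain ⟨e, he⟩ := hf1 j
    exact nsb_mono (hnsb j) e he
  · intro j
    obtain ⟨e, he⟩ := hf1 j
    exact wconn_mono e he (hwc j)
  · intro j j' P τ h
    obtain ⟨e, he⟩ := hf2 ⟨j, j', P, τ⟩
    refine hc ⟨j, j', P, τ⟩ (h82_st_comp_eq h (Sum.map id e) ?_ ?_)
    · rintro (i | i)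
      · rfl
      · exact congrArg (Y j).i (congrFun he i)
    · rintro (i | i)
      · rfl
      · exact congrArg (Y j').i (congrFun he i)
  · intro K' X k0 u hu huo huc
    have hk0 : k0 ≤ n0 := by
      have := hb K' X (Fin k0) u hu huo Finset.univ huc
      simpa using this
    have hpos : 0 < k0 := by
      obtain ⟨i, -⟩ := huc.1
      exact i.pos
    choose φ hφ using fun x : Fin σ.r → Fin k0 => hZ K' X (u ∘ x) (fun i n => huo (x i) n)
    have hRR : R k0 φ := ⟨K', X, u, hu, huo, huc, hφ⟩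
    obtain ⟨j, hj⟩ := ε.symm.surjective
      (⟨⟨⟨k0, by omega⟩, φ⟩, hRR⟩ : J)
    have key : ∀ (s : J) (X' : Ext M0 A (L j)) (v : Fin (s.1.1 : ℕ) → L j),
        s = ⟨⟨⟨k0, by omega⟩, φ⟩, hRR⟩ →
        (∀ x, STo X' (Z (s.1.2 x)) (v ∘ x) (a (s.1.2 x))) →
        ∃ e : Fin k0 ≃ Fin (s.1.1 : ℕ), STo X X' u (v ∘ e) := by
      rintro s X' v rfl hv
      refine ⟨Equiv.refl _, h45_sto_small hpos fun x n c => ?_⟩
      exact st_trans (hφ x n c) (st_symm (hv x n c))
    obtain ⟨e, he⟩ := key (ε.symm j) (Y j) (g j) hj (hST j)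
    exact ⟨j, e, he⟩

end Pool.Agent.Helper89.EA
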