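import Pool.Agent.Helper89.EA.S.T15a

/-!
# Project EA, piece S-T15b: almost all points are in closed pieces

Suppose that infinitely many points are not in a closed piece; let `a : ℕ → N` be injective with
`a t` not in a closed piece.  Let `K' = UP u (fun _ => N)` for the hyperfilter `u` on `ℕ`, `X` the diagonal
extension, `a*` the class of `a`; it is outside of `N`.

Let `D = {x : K' // ∀ n, x ≠ X.i n}`, `g = Subtype.val`.  The singleton of `a*` is connected, and the
sizes of connected sets are bounded (`hb`); let `B ∋ a*` be a connected set of maximal size.  For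
every finite tuple `y` of `K'` disjoint from `B`: `FS X y (B)`.  (Otherwise, dropping the entries
of `y` in `N` (`fs_add`, `fs_mono`), `¬ Ind X g (entries of y) B`, so `conn_of_not_ind` gives a
connected `E` meeting `B` and the entries of `y`, and `B ∪ E` is connected and larger.)

Enumerate `B` by `u0 : Fin k0 → K'`, injective (`conn` is transported: `ConnI X u0 univ`).  By
`T.all` there are `j` and `e : Fin k0 ≃ Fin (k j)` with `STo X (Y j) u0 (g j ∘ e)`; replacing `u0`
by `u0 ∘ e.symm` we get `w : Fin (k j) → K'` with `STo X (Y j) w (g j)` and the same entries; let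
`w` be the class of `t ↦ w t : Fin (k j) → N`.  For almost all `t` the point `a t` is an entry of
`w t`.  Claim: for almost all `t`, `CP T j (w t)`: contradiction.  For almost all `t`
`ST (w t, f) (g j, f)` (`up_st_iff`), so `w t` is disjoint from `f` (`T.out`).  It is enough to have
the closedness for `y : Fin σ.r → N` (`st_small'`, entries in `x` are replaced by an entry of
`y`; if all entries are in `x` use `ST (w t) (g j)`).  If it fails for almost all `t`, let
`y t : Fin σ.r → N` be disjoint from `w t` with `¬ ST (w t, y t) (g j, y t)`; let `y*` be the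
class.  It is disjoint from `w`, so `FS X y* w`, and there is `y0 : Fin σ.r → N` with
`ST (y*, w, f) (y0, w, f)`; `(w, f, y0) ~ (g j, f, y0)` by `STo`.  So for almost all `t`:
`(w t, f, y t) ~ (g j, f, y0)`, in particular `(f, y t) ~ (f, y0)`, and by `T.nsb`
`(g j, f, y t) ~ (g j, f, y0) ~ (w t, f, y t)`, contradiction.
-/

namespace Pool.Agent.Helper89.EA

variable {σ : Sig} {M N N' : Type} {M0 : RS σ M} {A : RS σ N}

open Filter

/-- `STo` with parameters indexed by any finite type -/
private theorem sto_fin' {N'' : Type} {X : Ext M0 A N'} {X' : Ext M0 A N''} {U : Type}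
    {u : U → N'} {u' : U → N''} (h : STo X X' u u') {κ : Type} [Finite κ] (c : κ → N) :
    ST X.B X'.B (Sum.elim u (X.i ∘ c)) (Sum.elim u' (X'.i ∘ c)) := by
  obtain ⟨n, ⟨e⟩⟩ := Finite.exists_equiv_fin κ
  refine h82_st_comp_eq (h n (c ∘ e.symm)) (Sum.map id e) ?_ ?_
  · rintro (t | t)
    · rfl
    · simp
  · rintro (t | t)
    · rfl
    · simp

/-- connectedness is transported to an enumeration -/
private theorem conn_enum {X : Ext M0 A N'} {D : Type} {g : D → N'} {B : Finset D}
    (h : ConnI X g B) {k0 : ℕ} (e : Fin k0 ≃ B) :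
    ConnI X (fun i => g (e i)) (Finset.univ : Finset (Fin k0)) := by
  classical
  refine ⟨?_, ?_⟩
  · obtain ⟨b, hb⟩ := h.1
    exact ⟨e.symm ⟨b, hb⟩, Finset.mem_univ _⟩
  · intro P Q hP hQ hPQ hu hfs
    have hinj : Function.Injective (fun i : Fin k0 => (e i : D)) := fun i i' hii =>
      e.injective (Subtype.ext hii)
    refine h.2 (P.image fun i => (e i : D)) (Q.image fun i => (e i : D)) (hP.image _)
      (hQ.image _) ?_ ?_ ?_
    · rw [Finset.disjoint_left]
      intro d hd hd'
      obtain ⟨i, hi, rfl⟩ := Finset.mem_image.1 hd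
      obtain ⟨i', hi', h2⟩ := Finset.mem_image.1 hd'
      have h3 : i' = i := hinj h2
      subst h3
      exact (Finset.disjoint_left.1 hPQ) hi hi'
    · intro d
      constructor
      · intro hd
        have h1 : (e (e.symm ⟨d, hd⟩) : D) = d := by rw [Equiv.apply_symm_apply]
        rcases (hu (e.symm ⟨d, hd⟩)).1 (Finset.mem_univ _) with h2 | h2
        · exact Or.inl (Finset.mem_image.2 ⟨_, h2, h1⟩)
        · exact Or.inr (Finset.mem_image.2 ⟨_, h2, h1⟩)
      · rintro (hd | hd)
        · obtain ⟨i, -, rfl⟩ := Finset.mem_image.1 hd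
          exact (e i).2
        · obtain ⟨i, -, rfl⟩ := Finset.mem_image.1 hd
          exact (e i).2
    · have hch : ∀ (R : Finset (Fin k0)) (d : (R.image fun i => (e i : D) : Finset D)),
          ∃ i : R, (e i : D) = d := by
        rintro R ⟨d, hd⟩
        obtain ⟨i, hi, h1⟩ := Finset.mem_image.1 hd
        exact ⟨⟨i, hi⟩, h1⟩
      choose F hF using hch
      have h1 := fs_mono hfs (F P) (F Q)
      have e1 : (fun d : P => g (e d)) ∘ F P
          = fun d : (P.image fun i => (e i : D) : Finset D) => g d := by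
        funext d
        exact congrArg g (hF P d)
      have e2 : (fun d : Q => g (e d)) ∘ F Q
          = fun d : (Q.image fun i => (e i : D) : Finset D) => g d := by
        funext d
        exact congrArg g (hF Q d)
      rw [e1, e2] at h1
      exact h1

/-- a connected set of maximal size containing a point -/
private theorem exists_max_conn {X : Ext M0 A N'} {D : Type} {g : D → N'} {n0 : ℕ}
    (hb : ∀ B : Finset D, ConnI X g B → B.card ≤ n0) (d : D) :
    ∃ B : Finset D, ConnI X g B ∧ d ∈ B ∧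
      ∀ B' : Finset D, ConnI X g B' → d ∈ B' → B'.card ≤ B.card := by
  classical
  let P : ℕ → Prop := fun m => ∃ B : Finset D, ConnI X g B ∧ d ∈ B ∧ B.card = m
  have h0 : ConnI X g {d} := conn_singleton d
  have h1 : P (Finset.card {d}) := ⟨{d}, h0, Finset.mem_singleton_self d, rfl⟩
  obtain ⟨B, hB, hd, hc⟩ := Nat.findGreatest_spec (P := P) (hb _ h0) h1
  refine ⟨B, hB, hd, fun B' hB' hd' => ?_⟩
  rw [hc]
  exact Nat.le_findGreatest (hb B' hB') ⟨B', hB', hd', rfl⟩

/-- tuples disjoint from a maximal connected set are independent from it -/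
private theorem fs_of_max (hS : Stable M0) (hA : EC M0 A) [Nonempty N] {X : Ext M0 A N'}
    {B : Finset {x : N' // ∀ n, x ≠ X.i n}} {d0 : {x : N' // ∀ n, x ≠ X.i n}}
    (hB : ConnI X Subtype.val B) (hd : d0 ∈ B)
    (hmax : ∀ B' : Finset {x : N' // ∀ n, x ≠ X.i n}, ConnI X Subtype.val B' → d0 ∈ B' →
      B'.card ≤ B.card) {r : ℕ} (y : Fin r → N') (hy : ∀ i, ∀ b ∈ B, y i ≠ b.1) :
    FS X y (fun d : B => d.1.1) := by
  classical
  let Q : Finset {x : N' // ∀ n, x ≠ X.i n} :=
    (Finset.univ.filter (fun i : Fin r => ∀ n, y i ≠ X.i n)).attach.image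
      (fun i => ⟨y i.1, (Finset.mem_filter.1 i.2).2⟩)
  have hQ : ∀ i (hi : ∀ n, y i ≠ X.i n), (⟨y i, hi⟩ : {x : N' // ∀ n, x ≠ X.i n}) ∈ Q := by
    intro i hi
    exact Finset.mem_image.2 ⟨⟨i, Finset.mem_filter.2 ⟨Finset.mem_univ _, hi⟩⟩,
      Finset.mem_attach _ _, rfl⟩
  have hQ' : ∀ q ∈ Q, ∃ i, y i = q.1 := by
    intro q hq
    obtain ⟨i, -, rfl⟩ := Finset.mem_image.1 hq
    exact ⟨i.1, rfl⟩
  have hdisj : Disjoint Q B := by
    rw [Finset.disjoint_left]
    intro q hq hqB
    obtain ⟨i, hi⟩ := hQ' q hq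
    exact hy i q hqB hi
  have hind : Ind X Subtype.val Q B := by
    by_contra hcon
    obtain ⟨E, hE, -, -, hEQ, hEB⟩ := conn_of_not_ind hS hA hdisj hcon
    have h1 : ConnI X Subtype.val (B ∪ E) := conn_union hB hE (by
      rw [Finset.inter_comm]
      exact hEB)
    have h2 := hmax _ h1 (Finset.mem_union_left _ hd)
    obtain ⟨q, hq⟩ := hEQ
    rw [Finset.mem_inter] at hq
    have h3 : q ∉ B := fun h => (Finset.disjoint_left.1 hdisj) hq.2 h
    have h4 : (insert q B).card ≤ (B ∪ E).card := Finset.card_le_card (by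
      intro z hz
      rcases Finset.mem_insert.1 hz with rfl | hz
      · exact Finset.mem_union_right _ hq.1
      · exact Finset.mem_union_left _ hz)
    rw [Finset.card_insert_of_notMem h3] at h4
    omega
  have hc : ∀ i : Fin r, ∃ n : N, (∃ n', y i = X.i n') → y i = X.i n := by
    intro i
    by_cases h : ∃ n', y i = X.i n'
    · obtain ⟨n, hn⟩ := h
      exact ⟨n, fun _ => hn⟩
    · exact ⟨Classical.arbitrary N, fun h' => (h h').elim⟩
  choose c hc using hc
  have h5 := fs_add' (hind : FS X (fun d : Q => d.1.1) (fun d : B => d.1.1)) c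
  have hz : ∀ i : Fin r, ∃ z : Q ⊕ Fin r, Sum.elim (fun d : Q => d.1.1) (X.i ∘ c) z = y i := by
    intro i
    by_cases h : ∀ n, y i ≠ X.i n
    · exact ⟨Sum.inl ⟨⟨y i, h⟩, hQ i h⟩, rfl⟩
    · push Not at h
      exact ⟨Sum.inr i, (hc i h).symm⟩
  choose z hz using hz
  have h6 := fs_mono h5 z id
  have e1 : Sum.elim (fun d : Q => d.1.1) (X.i ∘ c) ∘ z = y := funext hz
  rw [e1] at h6
  exact h6

theorem almost_all_cp (hS : Stable M0) (hA : EC M0 A) {n0 : ℕ}
    (hb : ∀ (K' : Type) (X : Ext M0 A K') (D : Type) (g : D → K'), Function.Injective g →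
      (∀ d n, g d ≠ X.i n) → ∀ B : Finset D, ConnI X g B → B.card ≤ n0) (T : CT M0 A) :
    {a : N | ¬ ∃ (j : Fin T.q) (x : Fin (T.k j) → N), CP T j x ∧ ∃ i, x i = a}.Finite := by
  classical
  by_contra hinf
  have hinf' : {a : N | ¬ ∃ (j : Fin T.q) (x : Fin (T.k j) → N), CP T j x ∧
      ∃ i, x i = a}.Infinite := hinf
  let a : ℕ → N := fun t => (hinf'.natEmbedding _ t : N)
  have ha : Function.Injective a := fun t t' h =>
    (hinf'.natEmbedding _).injective (Subtype.ext h)
  have haS : ∀ t, ¬ ∃ (j : Fin T.q) (x : Fin (T.k j) → N), CP T j x ∧ ∃ i, x i = a t :=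
    fun t => (hinf'.natEmbedding _ t).2
  have : Nonempty N := ⟨a 0⟩
  let u : Ultrafilter ℕ := Filter.hyperfilter ℕ
  let X : Ext M0 A (UP u (fun _ : ℕ => N)) :=
    { B := UP.rs u (fun _ : ℕ => A)
      inC := up_inC (u := u) (A := fun _ : ℕ => A) (fun _ => hA.1)
      i := fun n => UP.mk u (fun _ => n)
      emb := up_emb (u := u) (A := fun _ : ℕ => A) (fun _ n => n)
        (fun _ v => Filter.Eventually.of_forall fun _ => st_refl A v) }
  have hXi : ∀ n, X.i n = UP.mk u (fun _ => n) := fun _ => rfl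
  have hout : ∀ n, UP.mk u a ≠ X.i n := by
    intro n hn
    rw [hXi, up_mk_eq] at hn
    have h1 : ∀ᶠ t in (u : Filter ℕ), a t ≠ n := by
      have h2 : {t : ℕ | a t = n}.Finite := Set.Subsingleton.finite (by
        intro t ht t' ht'
        exact ha ((show a t = n from ht).trans (show a t' = n from ht').symm))
      exact Filter.hyperfilter_le_cofinite h2.compl_mem_cofinite
    obtain ⟨t, ht, ht'⟩ := (hn.and h1).exists
    exact ht' ht
  let d0 : {x : UP u (fun _ : ℕ => N) // ∀ n, x ≠ X.i n} := ⟨UP.mk u a, hout⟩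
  obtain ⟨B, hB, hd0, hmax⟩ := exists_max_conn (X := X) (g := (Subtype.val :
    {x : UP u (fun _ : ℕ => N) // ∀ n, x ≠ X.i n} → UP u (fun _ : ℕ => N)))
    (hb _ X _ _ Subtype.val_injective (fun d n => d.2 n)) d0
  -- the enumeration
  let e0 : Fin B.card ≃ B := B.equivFin.symm
  obtain ⟨j, e, hje⟩ := T.all _ X B.card (fun i => (e0 i).1.1)
    (fun i i' h => e0.injective (Subtype.ext (Subtype.ext h))) (fun i n => (e0 i).1.2 n)
    (conn_enum hB e0)
  let w : Fin (T.k j) → UP u (fun _ : ℕ => N) := fun i => (e0 (e.symm i)).1.1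
  have hw : STo X (T.Y j) w (T.g j) := by
    intro n c
    refine h82_st_comp_eq (hje n c) (Sum.map e.symm id) ?_ ?_
    · rintro (t | t)
      · rfl
      · rfl
    · rintro (t | t)
      · simp
      · rfl
  choose wt hwt using fun i => up_exists_mk (w i)
  have hwt' : w = fun i => UP.mk u (wt i) := funext fun i => (hwt i).symm
  -- `a t` is an entry of `w t`
  let i0 : Fin (T.k j) := e (e0.symm ⟨d0, hd0⟩)
  have hi0 : w i0 = UP.mk u a := by
    show ((e0 (e.symm (e (e0.symm ⟨d0, hd0⟩)))).1.1) = _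
    rw [Equiv.symm_apply_apply, Equiv.apply_symm_apply]
  have hi0' : ∀ᶠ t in (u : Filter ℕ), wt i0 t = a t := by
    rw [← hwt i0, up_mk_eq] at hi0
    exact hi0
  -- the type of `w` over finite tuples
  have hty : ∀ {κ : Type} [Finite κ] (c : κ → N), ∀ᶠ t in (u : Filter ℕ),
      ST A (T.Y j).B (Sum.elim (fun i => wt i t) c) (Sum.elim (T.g j) ((T.Y j).i ∘ c)) := by
    intro κ _ c
    have h1 := sto_fin' hw c
    have e1 : Sum.elim w (X.i ∘ c) =
        fun z => UP.mk u (Sum.elim (fun i => wt i) (fun l (_ : ℕ) => c l) z) := by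
      funext z
      rcases z with z | z
      · exact (hwt z).symm
      · rfl
    rw [e1] at h1
    have h2 := (up_st_iff (u := u) (A := fun _ : ℕ => A) _ _ _).1 h1
    filter_upwards [h2] with t ht
    refine h82_st_comp_eq ht id ?_ ?_
    · rintro (z | z) <;> rfl
    · rintro (z | z) <;> rfl
  have hdj : ∀ᶠ t in (u : Filter ℕ), Dj T.f (fun i => wt i t) := by
    filter_upwards [hty T.f] with t ht
    intro l i hli
    exact T.out j i (T.f l) ((ht.1 (Sum.inl i) (Sum.inr l)).1 hli.symm)
  -- the closedness for `r`-tuples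
  have key : ∀ᶠ t in (u : Filter ℕ), ∀ y : Fin σ.r → N, Dj y (fun i => wt i t) →
      ST A (T.Y j).B (Sum.elim (fun i => wt i t) y) (Sum.elim (T.g j) ((T.Y j).i ∘ y)) := by
    by_contra hcon
    rw [← Ultrafilter.eventually_not] at hcon
    have hch : ∀ t, ∃ y : Fin σ.r → N, (∃ y' : Fin σ.r → N, Dj y' (fun i => wt i t) ∧
        ¬ ST A (T.Y j).B (Sum.elim (fun i => wt i t) y') (Sum.elim (T.g j) ((T.Y j).i ∘ y'))) →
        Dj y (fun i => wt i t) ∧
        ¬ ST A (T.Y j).B (Sum.elim (fun i => wt i t) y) (Sum.elim (T.g j) ((T.Y j).i ∘ y)) := by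
      intro t
      by_cases h : ∃ y' : Fin σ.r → N, Dj y' (fun i => wt i t) ∧
        ¬ ST A (T.Y j).B (Sum.elim (fun i => wt i t) y') (Sum.elim (T.g j) ((T.Y j).i ∘ y'))
      · obtain ⟨y, hy⟩ := h
        exact ⟨y, fun _ => hy⟩
      · exact ⟨fun _ => a 0, fun h' => (h h').elim⟩
    choose y hy using hch
    have hy' : ∀ᶠ t in (u : Filter ℕ), Dj (y t) (fun i => wt i t) ∧
        ¬ ST A (T.Y j).B (Sum.elim (fun i => wt i t) (y t))
          (Sum.elim (T.g j) ((T.Y j).i ∘ (y t))) := by
      filter_upwards [hcon] with t ht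
      push Not at ht
      exact hy t ht
    let ys : Fin σ.r → UP u (fun _ : ℕ => N) := fun i => UP.mk u (fun t => y t i)
    have hys : ∀ i, ∀ b ∈ B, ys i ≠ b.1 := by
      intro i b hbB hib
      let l : Fin (T.k j) := e (e0.symm ⟨b, hbB⟩)
      have hl : w l = b.1 := by
        show ((e0 (e.symm (e (e0.symm ⟨b, hbB⟩)))).1.1) = _
        rw [Equiv.symm_apply_apply, Equiv.apply_symm_apply]
      rw [← hl, ← hwt l] at hib
      have h1 := up_mk_eq.1 hib
      obtain ⟨t, ht, ht'⟩ := (h1.and hy').exists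
      exact ht'.1 i l ht
    have hfs0 : FS X ys (fun d : B => d.1.1) := fs_of_max hS hA hB hd0 hmax ys hys
    have hfs : FS X ys w := fs_mono hfs0 id (fun i => e0 (e.symm i))
    obtain ⟨y0, hy0⟩ := hfs T.p T.f
    -- compare with the type of `g j`
    have h1 : ST X.B (T.Y j).B (Sum.elim w (Sum.elim (X.i ∘ T.f) ys))
        (Sum.elim (T.g j) ((T.Y j).i ∘ Sum.elim T.f y0)) := by
      have h2 : ST X.B X.B (Sum.elim w (Sum.elim (X.i ∘ T.f) ys))
          (Sum.elim w (X.i ∘ Sum.elim T.f y0)) := by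
        refine h82_st_comp_eq hy0 (Sum.elim (fun i => Sum.inl (Sum.inr i))
          (Sum.elim (fun l => Sum.inr l) (fun i => Sum.inl (Sum.inl i)))) ?_ ?_
        · rintro (z | z | z) <;> rfl
        · rintro (z | z | z) <;> rfl
      exact st_trans h2 (sto_fin' hw (Sum.elim T.f y0))
    have e1 : Sum.elim w (Sum.elim (X.i ∘ T.f) ys) =
        fun z => UP.mk u (Sum.elim (fun i => wt i) (Sum.elim (fun l (_ : ℕ) => T.f l)
          (fun i t => y t i)) z) := by
      funext z
      rcases z with z | z | z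
      · exact (hwt z).symm
      · rfl
      · rfl
    rw [e1] at h1
    have h2 := (up_st_iff (u := u) (A := fun _ : ℕ => A) _ _ _).1 h1
    obtain ⟨t, ht, hyt⟩ := (h2.and hy').exists
    refine hyt.2 ?_
    have h3 : ST A (T.Y j).B (Sum.elim (fun i => wt i t) (Sum.elim T.f (y t)))
        (Sum.elim (T.g j) ((T.Y j).i ∘ Sum.elim T.f y0)) := by
      refine h82_st_comp_eq ht id ?_ ?_
      · rintro (z | z | z) <;> rfl
      · intro z
        rfl
    have h4 : ST A A (Sum.elim T.f (y t)) (Sum.elim T.f y0) :=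
      st_trans (st_sum_right h3) (st_symm (emb_st (T.Y j).emb (Sum.elim T.f y0)))
    have h5 := T.nsb j _ (y t) y0 h4
    have h6 : ST A (T.Y j).B (Sum.elim (fun i => wt i t) (Sum.elim T.f (y t)))
        (Sum.elim (T.g j) ((T.Y j).i ∘ Sum.elim T.f (y t))) := st_trans h3 (st_symm h5)
    refine h82_st_comp_eq h6 (Sum.map id Sum.inr) ?_ ?_
    · rintro (z | z) <;> rfl
    · rintro (z | z) <;> rfl
  -- the conclusion
  obtain ⟨t, ht1, ht2, ht3, ht4⟩ :=
    (hi0'.and (hdj.and (key.and (hty (Empty.elim : Empty → N))))).exists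
  refine haS t ⟨j, fun i => wt i t, ⟨ht2, ?_⟩, i0, ht1⟩
  intro κ y hy
  refine st_small' hA.1 (T.Y j).inC fun x => ?_
  by_cases hz : ∃ i z, x i = Sum.inr z
  · obtain ⟨i1, z1, hz1⟩ := hz
    have h1 := ht3 (fun i => y (Sum.elim (fun _ => z1) id (x i))) (fun i l => hy _ l)
    refine h82_st_comp_eq h1 (fun i => Sum.map id (fun _ => i) (x i)) ?_ ?_
    · intro i
      show _ = Sum.elim (fun i => wt i t) y (x i)
      rcases hx : x i with z | z
      · rfl
      · simp [hx]
    · intro i
      show _ = Sum.elim (T.g j) ((T.Y j).i ∘ y) (x i)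
      rcases hx : x i with z | z
      · rfl
      · simp [hx]
  · have hl : ∀ i, ∃ l, x i = Sum.inl l := by
      intro i
      rcases hx : x i with l | z
      · exact ⟨l, rfl⟩
      · exact (hz ⟨i, z, hx⟩).elim
    choose l hl using hl
    refine h82_st_comp_eq ht4 (fun i => Sum.inl (l i)) ?_ ?_
    · intro i
      show _ = Sum.elim (fun i => wt i t) y (x i)
      rw [hl i]
      rfl
    · intro i
      show _ = Sum.elim (T.g j) ((T.Y j).i ∘ y) (x i)
      rw [hl i]
      rfl

end Pool.Agent.Helper89.EA
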