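import Pool.Agent.Helper89.EA.S.T1

/-!
# Project EA, piece S-T2: finite satisfiability

`A` is existentially closed and `M0` is stable.  All index types are finite.

`fs_symm`: suppose `FS u y` and not `FS y u`: there is `c` (finite tuple of `N`) such that no
`y0 : Y → N` satisfies `ST (y, u, c) (y0, u, c)`.  Construct `u n : U → N` and `y n : Y → N`:
`u n` has the type of `u` over `y, c` and all earlier `y m, u m` (`FS u y`), `y n` has the type of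
`y` over `c`, the earlier elements and `u n` (`ec_approx`).  For `i ≤ n`:
`(u i, y n, c)`, `(u i, y, c)` and `(u, y, c)` have the same type `τ`.  For `m < n`:
`(u n, y m, c)` has the type of `(u, y m, c)`, which is different from `τ` (choice of `c`; all
these points `y m` are in `N`).  By the pigeonhole principle (`pigeon_seq`, finitely many types) we
may assume that the type of `(u, y m, c)` does not depend on `m`.  Contradiction to `no_lad_st`
(piece B7).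

`fs_trans`: by symmetry `FS z (x, y)` and `FS y x`; given `c` first choose `z0` in `N` with
`ST (z, x, y, c) (z0, x, y, c)`, then `y0` in `N` with `ST (y, x, z0, c) (y0, x, z0, c)`; so
`ST (y, z, x, c) (y0, z0, x, c)`, i.e. `FS (y, z) x`; symmetry.

`fs_stat`: let `f` be a base for `u` (`nsb_exists`), and `c` given; by symmetry `FS y u`, `FS y u'`:
there are `y0, y0'` in `N` with `ST (y, u, f, c) (y0, u, f, c)` and
`ST (y, u', f, c) (y0', u', f, c)`.  Then `(f, c, y0)` and `(f, c, y0')` have the same type, and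
`(u, y, c) ~ (u, y0, c) ~ (u, y0', c) ~ (u', y0', c) ~ (u', y, c)`.

`fs_small`: let `f` be a base for the tuple `y` (or `(u, y)`).  Let `c` be given.  Choose `u0` in `N` with
`ST (u, f, c) (u0, f, c)`.  Claim: `ST (u, y, c) (u0, y, c)`.  It is enough to look at subtuples
of length `σ.r` (`st_small'`); such a subtuple uses `P ⊆ U`, `Q ⊆ Y` with
`card P + card Q ≤ σ.r`; by `FS (u|P) (y|Q)` there is `u1 : P → N` with
`ST (u|P, y|Q, f, c) (u1, y|Q, f, c)`; now `(f, u1, c) ~ (f, u|P, c) ~ (f, u0|P, c)`, so the base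
`f` of `y` gives `(y|Q, u1, c) ~ (y|Q, u0|P, c)`.
-/

namespace Pool.Agent.Helper89.EA

variable {σ : Sig} {M N N' : Type} {M0 : RS σ M} {A : RS σ N} {X : Ext M0 A N'}
  {U Y W U' Y' : Type} {u : U → N'} {y : Y → N'} {w : W → N'}

/-- restriction of types to tuples of common coordinates -/
private theorem st_sub {K L : Type} {B : RS σ K} {C : RS σ L} {ι κ : Type} {v : ι → K}
    {w : ι → L} {v' : κ → K} {w' : κ → L} (h : ST B C v w)
    (hf : ∀ i, ∃ j, v' i = v j ∧ w' i = w j) : ST B C v' w' := by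
  choose e he using hf
  have h1 : v' = v ∘ e := funext fun i => (he i).1
  have h2 : w' = w ∘ e := funext fun i => (he i).2
  rw [h1, h2]
  exact st_comp h e

private theorem exists_seq {α : Type} (P : ∀ n : ℕ, (Fin n → α) → α → Prop)
    (h : ∀ n g, ∃ x, P n g x) : ∃ f : ℕ → α, ∀ n, P n (fun i => f i) (f n) := by
  classical
  choose F hF using h
  let f : ℕ → α := WellFounded.fix (C := fun _ => α) Nat.lt_wfRel.wf
    (fun n g => F n (fun i => g i i.2))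
  have hf : ∀ n, f n = F n (fun i => f i) := fun n =>
    WellFounded.fix_eq (C := fun _ => α) Nat.lt_wfRel.wf (fun n g => F n (fun i => g i i.2)) n
  refine ⟨f, fun n => ?_⟩
  have := hF n (fun i => f i)
  rwa [← hf n] at this

private theorem sto_fin {u' : U → N'} (h : STo X X u u') {κ : Type} [Finite κ] (c : κ → N) :
    ST X.B X.B (Sum.elim u (X.i ∘ c)) (Sum.elim u' (X.i ∘ c)) := by
  obtain ⟨n, ⟨e⟩⟩ := Finite.exists_equiv_fin κ
  refine st_sub (h n (c ∘ e.symm)) ?_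
  rintro (i | i)
  · exact ⟨Sum.inl i, rfl, rfl⟩
  · exact ⟨Sum.inr (e i), by simp, by simp⟩

theorem fs_mono (h : FS X u y) (a : U' → U) (b : Y' → Y) : FS X (u ∘ a) (y ∘ b) := by
  intro n c
  obtain ⟨u0, hu0⟩ := h n c
  refine ⟨u0 ∘ a, st_sub hu0 ?_⟩
  rintro ((i | i) | i)
  · exact ⟨Sum.inl (Sum.inl (a i)), rfl, rfl⟩
  · exact ⟨Sum.inl (Sum.inr (b i)), rfl, rfl⟩
  · exact ⟨Sum.inr i, rfl, rfl⟩

/-- parameters indexed by any finite type -/
theorem fs_fin (h : FS X u y) {κ : Type} [Finite κ] (c : κ → N) :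
    ∃ u0 : U → N, ST X.B X.B (Sum.elim (Sum.elim u y) (X.i ∘ c))
      (Sum.elim (Sum.elim (X.i ∘ u0) y) (X.i ∘ c)) := by
  obtain ⟨n, ⟨e⟩⟩ := Finite.exists_equiv_fin κ
  obtain ⟨u0, hu0⟩ := h n (c ∘ e.symm)
  refine ⟨u0, st_sub hu0 ?_⟩
  rintro (i | i)
  · exact ⟨Sum.inl i, rfl, rfl⟩
  · exact ⟨Sum.inr (e i), by simp, by simp⟩

theorem fs_base (hA : EC M0 A) [Finite U] [Finite Y] (hy : ∀ j, ∃ n, y j = X.i n) : FS X u y := by
  choose y0 hy0 using hy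
  intro n c
  obtain ⟨u0, hu0⟩ := ec_approx hA X u (Sum.elim y0 c)
  refine ⟨u0, st_sub hu0 ?_⟩
  rintro ((i | i) | i)
  · exact ⟨Sum.inl i, rfl, rfl⟩
  · exact ⟨Sum.inr (Sum.inl i), hy0 i, hy0 i⟩
  · exact ⟨Sum.inr (Sum.inr i), rfl, rfl⟩

theorem fs_base' (hu : ∀ j, ∃ n, u j = X.i n) : FS X u y := by
  choose u0 hu0 using hu
  intro n c
  have e : X.i ∘ u0 = u := funext fun j => (hu0 j).symm
  refine ⟨u0, ?_⟩
  rw [e]
  exact st_refl _ _

theorem fs_add (h : FS X u y) {κ : Type} [Finite κ] (c : κ → N) :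
    FS X u (Sum.elim y (X.i ∘ c)) := by
  intro n c'
  obtain ⟨u0, hu0⟩ := fs_fin h (Sum.elim c c')
  refine ⟨u0, st_sub hu0 ?_⟩
  rintro ((i | (i | i)) | i)
  · exact ⟨Sum.inl (Sum.inl i), rfl, rfl⟩
  · exact ⟨Sum.inl (Sum.inr i), rfl, rfl⟩
  · exact ⟨Sum.inr (Sum.inl i), rfl, rfl⟩
  · exact ⟨Sum.inr (Sum.inr i), rfl, rfl⟩

theorem fs_add' (h : FS X u y) {κ : Type} [Finite κ] (c : κ → N) :
    FS X (Sum.elim u (X.i ∘ c)) y := by
  intro n c'
  obtain ⟨u0, hu0⟩ := fs_fin h (Sum.elim c c')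
  refine ⟨Sum.elim u0 c, st_sub hu0 ?_⟩
  rintro (((i | i) | i) | i)
  · exact ⟨Sum.inl (Sum.inl i), rfl, rfl⟩
  · exact ⟨Sum.inr (Sum.inl i), rfl, rfl⟩
  · exact ⟨Sum.inl (Sum.inr i), rfl, rfl⟩
  · exact ⟨Sum.inr (Sum.inr i), rfl, rfl⟩

theorem fs_symm (hS : Stable M0) (hA : EC M0 A) [Finite U] [Finite Y] (h : FS X u y) :
    FS X y u := by
  intro k c
  by_contra hcon
  push Not at hcon
  obtain ⟨s, hs⟩ := exists_seq (α := (U → N) × (Y → N))
    (fun n g x =>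
      ST X.B X.B (Sum.elim (Sum.elim u y)
          (X.i ∘ Sum.elim c (fun p : Fin n × Y => (g p.1).2 p.2)))
        (Sum.elim (Sum.elim (X.i ∘ x.1) y)
          (X.i ∘ Sum.elim c (fun p : Fin n × Y => (g p.1).2 p.2))) ∧
      ST X.B X.B (Sum.elim y
          (X.i ∘ Sum.elim c (Sum.elim x.1 (fun p : Fin n × U => (g p.1).1 p.2))))
        (Sum.elim (X.i ∘ x.2)
          (X.i ∘ Sum.elim c (Sum.elim x.1 (fun p : Fin n × U => (g p.1).1 p.2)))))
    (by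
      intro n g
      obtain ⟨u0, hu0⟩ := fs_fin h (Sum.elim c (fun p : Fin n × Y => (g p.1).2 p.2))
      obtain ⟨y0, hy0⟩ := ec_approx hA X y
        (Sum.elim c (Sum.elim u0 (fun p : Fin n × U => (g p.1).1 p.2)))
      exact ⟨(u0, y0), hu0, hy0⟩)
  -- the type of `(u i, y n, c)` for `i ≤ n`
  have t1 : ∀ i n, i ≤ n → ST A X.B (Sum.elim (Sum.elim (s i).1 (s n).2) c)
      (Sum.elim (Sum.elim u y) (X.i ∘ c)) := by
    intro i n hin
    have a1 : ST A X.B (Sum.elim (Sum.elim (s i).1 (s n).2) c)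
        (Sum.elim (Sum.elim (X.i ∘ (s i).1) (X.i ∘ (s n).2)) (X.i ∘ c)) := by
      refine st_sub (emb_st X.emb (Sum.elim (Sum.elim (s i).1 (s n).2) c)) ?_
      rintro ((j | j) | j)
      · exact ⟨Sum.inl (Sum.inl j), rfl, rfl⟩
      · exact ⟨Sum.inl (Sum.inr j), rfl, rfl⟩
      · exact ⟨Sum.inr j, rfl, rfl⟩
    have a2 : ST X.B X.B (Sum.elim (Sum.elim (X.i ∘ (s i).1) (X.i ∘ (s n).2)) (X.i ∘ c))
        (Sum.elim (Sum.elim (X.i ∘ (s i).1) y) (X.i ∘ c)) := by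
      refine st_sub (st_symm (hs n).2) ?_
      rintro ((j | j) | j)
      · rcases Nat.lt_or_eq_of_le hin with hlt | rfl
        · exact ⟨Sum.inr (Sum.inr (Sum.inr (⟨i, hlt⟩, j))), rfl, rfl⟩
        · exact ⟨Sum.inr (Sum.inr (Sum.inl j)), rfl, rfl⟩
      · exact ⟨Sum.inl j, rfl, rfl⟩
      · exact ⟨Sum.inr (Sum.inl j), rfl, rfl⟩
    have a3 : ST X.B X.B (Sum.elim (Sum.elim (X.i ∘ (s i).1) y) (X.i ∘ c))
        (Sum.elim (Sum.elim u y) (X.i ∘ c)) := by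
      refine st_sub (st_symm (hs i).1) ?_
      rintro ((j | j) | j)
      · exact ⟨Sum.inl (Sum.inl j), rfl, rfl⟩
      · exact ⟨Sum.inl (Sum.inr j), rfl, rfl⟩
      · exact ⟨Sum.inr (Sum.inl j), rfl, rfl⟩
    exact st_trans a1 (st_trans a2 a3)
  -- the type of `(u n, y m, c)` for `m < n`
  have t2 : ∀ n m, m < n → ST A X.B (Sum.elim (Sum.elim (s n).1 (s m).2) c)
      (Sum.elim (Sum.elim u (X.i ∘ (s m).2)) (X.i ∘ c)) := by
    intro n m hmn
    have a1 : ST A X.B (Sum.elim (Sum.elim (s n).1 (s m).2) c)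
        (Sum.elim (Sum.elim (X.i ∘ (s n).1) (X.i ∘ (s m).2)) (X.i ∘ c)) := by
      refine st_sub (emb_st X.emb (Sum.elim (Sum.elim (s n).1 (s m).2) c)) ?_
      rintro ((j | j) | j)
      · exact ⟨Sum.inl (Sum.inl j), rfl, rfl⟩
      · exact ⟨Sum.inl (Sum.inr j), rfl, rfl⟩
      · exact ⟨Sum.inr j, rfl, rfl⟩
    have a2 : ST X.B X.B (Sum.elim (Sum.elim (X.i ∘ (s n).1) (X.i ∘ (s m).2)) (X.i ∘ c))
        (Sum.elim (Sum.elim u (X.i ∘ (s m).2)) (X.i ∘ c)) := by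
      refine st_sub (st_symm (hs n).1) ?_
      rintro ((j | j) | j)
      · exact ⟨Sum.inl (Sum.inl j), rfl, rfl⟩
      · exact ⟨Sum.inr (Sum.inr (⟨m, hmn⟩, j)), rfl, rfl⟩
      · exact ⟨Sum.inr (Sum.inl j), rfl, rfl⟩
    exact st_trans a1 a2
  obtain ⟨f, hf, hff⟩ := pigeon_seq (fun m => typ X.B
    (Sum.elim (Sum.elim u (X.i ∘ (s m).2)) (X.i ∘ c)))
  have key := no_lad_st hS hA.1 (fun i => (s (f i)).1) (fun j => (s (f j)).2) c
    (fun i j i' j' hij hij' => st_trans (t1 _ _ (hf hij).le) (st_symm (t1 _ _ (hf hij').le)))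
    (fun i j i' j' hij hij' => st_trans (t2 _ _ (hf hij))
      (st_trans (typ_eq_iff.1 (hff j j')) (st_symm (t2 _ _ (hf hij')))))
  have fin := st_trans (st_symm (t1 _ _ (hf Nat.zero_lt_one).le))
    (st_trans key (t2 _ _ (hf Nat.zero_lt_one)))
  refine hcon (s (f 0)).2 (st_sub fin ?_)
  rintro ((j | j) | j)
  · exact ⟨Sum.inl (Sum.inr j), rfl, rfl⟩
  · exact ⟨Sum.inl (Sum.inl j), rfl, rfl⟩
  · exact ⟨Sum.inr j, rfl, rfl⟩

theorem fs_trans (hS : Stable M0) (hA : EC M0 A) [Finite U] [Finite Y] [Finite W]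
    (h : FS X u y) (h' : FS X (Sum.elim u y) w) : FS X u (Sum.elim y w) := by
  have h1 := fs_symm hS hA h
  have h2 := fs_symm hS hA h'
  refine fs_symm hS hA ?_
  intro n c
  obtain ⟨w0, hw0⟩ := h2 n c
  obtain ⟨y0, hy0⟩ := fs_fin h1 (Sum.elim w0 c)
  refine ⟨Sum.elim y0 w0, ?_⟩
  have a1 : ST X.B X.B (Sum.elim (Sum.elim (Sum.elim y w) u) (X.i ∘ c))
      (Sum.elim (Sum.elim (Sum.elim y (X.i ∘ w0)) u) (X.i ∘ c)) := by
    refine st_sub hw0 ?_
    rintro (((j | j) | j) | j)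
    · exact ⟨Sum.inl (Sum.inr (Sum.inr j)), rfl, rfl⟩
    · exact ⟨Sum.inl (Sum.inl j), rfl, rfl⟩
    · exact ⟨Sum.inl (Sum.inr (Sum.inl j)), rfl, rfl⟩
    · exact ⟨Sum.inr j, rfl, rfl⟩
  refine st_trans a1 (st_sub hy0 ?_)
  rintro (((j | j) | j) | j)
  · exact ⟨Sum.inl (Sum.inl j), rfl, rfl⟩
  · exact ⟨Sum.inr (Sum.inl j), rfl, rfl⟩
  · exact ⟨Sum.inl (Sum.inr j), rfl, rfl⟩
  · exact ⟨Sum.inr (Sum.inr j), rfl, rfl⟩

theorem fs_stat (hS : Stable M0) (hA : EC M0 A) [Finite U] [Finite Y] {u' : U → N'}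
    (huu' : STo X X u u') (h : FS X u y) (h' : FS X u' y) :
    STo X X (Sum.elim u y) (Sum.elim u' y) := by
  intro n c
  obtain ⟨p, f, hf⟩ := nsb_exists hS hA X u
  obtain ⟨y0, hy0⟩ := fs_fin (fs_symm hS hA h) (Sum.elim f c)
  obtain ⟨y0', hy0'⟩ := fs_fin (fs_symm hS hA h') (Sum.elim f c)
  have e0 : ∀ z : Y → N, ST A X.B (Sum.elim f (Sum.elim c z))
      (Sum.elim (X.i ∘ f) (Sum.elim (X.i ∘ c) (X.i ∘ z))) := by
    intro z
    refine st_sub (emb_st X.emb (Sum.elim f (Sum.elim c z))) ?_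
    rintro (j | (j | j))
    · exact ⟨Sum.inl j, rfl, rfl⟩
    · exact ⟨Sum.inr (Sum.inl j), rfl, rfl⟩
    · exact ⟨Sum.inr (Sum.inr j), rfl, rfl⟩
  have e1 : ST X.B X.B (Sum.elim (X.i ∘ f) (Sum.elim (X.i ∘ c) (X.i ∘ y0)))
      (Sum.elim (X.i ∘ f) (Sum.elim (X.i ∘ c) y)) := by
    refine st_sub (st_symm hy0) ?_
    rintro (j | (j | j))
    · exact ⟨Sum.inr (Sum.inl j), rfl, rfl⟩
    · exact ⟨Sum.inr (Sum.inr j), rfl, rfl⟩
    · exact ⟨Sum.inl (Sum.inl j), rfl, rfl⟩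
  have e1' : ST X.B X.B (Sum.elim (X.i ∘ f) (Sum.elim (X.i ∘ c) y))
      (Sum.elim (X.i ∘ f) (Sum.elim (X.i ∘ c) (X.i ∘ y0'))) := by
    refine st_sub hy0' ?_
    rintro (j | (j | j))
    · exact ⟨Sum.inr (Sum.inl j), rfl, rfl⟩
    · exact ⟨Sum.inr (Sum.inr j), rfl, rfl⟩
    · exact ⟨Sum.inl (Sum.inl j), rfl, rfl⟩
  have e2 := nsb_fin hf (Sum.elim c y0) (Sum.elim c y0')
    (st_trans (e0 y0) (st_trans e1 (st_trans e1' (st_symm (e0 y0')))))
  -- the chain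
  have s1 : ST X.B X.B (Sum.elim (Sum.elim u y) (X.i ∘ c))
      (Sum.elim (Sum.elim u (X.i ∘ y0)) (X.i ∘ c)) := by
    refine st_sub hy0 ?_
    rintro ((j | j) | j)
    · exact ⟨Sum.inl (Sum.inr j), rfl, rfl⟩
    · exact ⟨Sum.inl (Sum.inl j), rfl, rfl⟩
    · exact ⟨Sum.inr (Sum.inr j), rfl, rfl⟩
  have s2 : ST X.B X.B (Sum.elim (Sum.elim u (X.i ∘ y0)) (X.i ∘ c))
      (Sum.elim (Sum.elim u (X.i ∘ y0')) (X.i ∘ c)) := by
    refine st_sub e2 ?_
    rintro ((j | j) | j)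
    · exact ⟨Sum.inl j, rfl, rfl⟩
    · exact ⟨Sum.inr (Sum.inr (Sum.inr j)), rfl, rfl⟩
    · exact ⟨Sum.inr (Sum.inr (Sum.inl j)), rfl, rfl⟩
  have s3 : ST X.B X.B (Sum.elim (Sum.elim u (X.i ∘ y0')) (X.i ∘ c))
      (Sum.elim (Sum.elim u' (X.i ∘ y0')) (X.i ∘ c)) := by
    refine st_sub (sto_fin huu' (Sum.elim y0' c)) ?_
    rintro ((j | j) | j)
    · exact ⟨Sum.inl j, rfl, rfl⟩
    · exact ⟨Sum.inr (Sum.inl j), rfl, rfl⟩
    · exact ⟨Sum.inr (Sum.inr j), rfl, rfl⟩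
  have s4 : ST X.B X.B (Sum.elim (Sum.elim u' (X.i ∘ y0')) (X.i ∘ c))
      (Sum.elim (Sum.elim u' y) (X.i ∘ c)) := by
    refine st_sub (st_symm hy0') ?_
    rintro ((j | j) | j)
    · exact ⟨Sum.inl (Sum.inr j), rfl, rfl⟩
    · exact ⟨Sum.inl (Sum.inl j), rfl, rfl⟩
    · exact ⟨Sum.inr (Sum.inr j), rfl, rfl⟩
  exact st_trans s1 (st_trans s2 (st_trans s3 s4))

theorem fs_small (hS : Stable M0) (hA : EC M0 A) [Finite U] [Finite Y]
    (h : ∀ (P : Set U) (Q : Set Y), Nat.card P + Nat.card Q ≤ σ.r →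
      FS X (fun i : P => u i) (fun j : Q => y j)) : FS X u y := by
  intro n c
  obtain ⟨p, f, hf⟩ := nsb_exists hS hA X y
  obtain ⟨u0, hu0⟩ := ec_approx hA X u (Sum.elim f c)
  refine ⟨u0, st_small' X.inC X.inC fun x => ?_⟩
  let P : Set U := {i | ∃ k, x k = Sum.inl (Sum.inl i)}
  let Q : Set Y := {j | ∃ k, x k = Sum.inl (Sum.inr j)}
  have hP : ∀ i : P, ∃ k, x k = Sum.inl (Sum.inl i.1) := fun i => i.2
  have hQ : ∀ j : Q, ∃ k, x k = Sum.inl (Sum.inr j.1) := fun j => j.2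
  have hcard : Nat.card P + Nat.card Q ≤ σ.r := by
    choose a ha using hP
    choose b hb using hQ
    rw [← Nat.card_sum, ← Nat.card_fin σ.r]
    refine Nat.card_le_card_of_injective (Sum.elim a b) ?_
    rintro (i | i) (j | j) hij
    · have h1 : a i = a j := hij
      have h2 := ha i
      rw [h1, ha j] at h2
      have h3 : j.1 = i.1 := by simpa using h2
      rw [Subtype.ext h3]
    · have h1 : a i = b j := hij
      have h2 := ha i
      rw [h1, hb j] at h2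
      simp at h2
    · have h1 : b i = a j := hij
      have h2 := hb i
      rw [h1, ha j] at h2
      simp at h2
    · have h1 : b i = b j := hij
      have h2 := hb i
      rw [h1, hb j] at h2
      have h3 : j.1 = i.1 := by simpa using h2
      rw [Subtype.ext h3]
  obtain ⟨u1, hu1⟩ := fs_fin (h P Q hcard) (Sum.elim f c)
  have e0 : ∀ z : P → N, ST A X.B (Sum.elim f (Sum.elim z c))
      (Sum.elim (X.i ∘ f) (Sum.elim (X.i ∘ z) (X.i ∘ c))) := by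
    intro z
    refine st_sub (emb_st X.emb (Sum.elim f (Sum.elim z c))) ?_
    rintro (j | (j | j))
    · exact ⟨Sum.inl j, rfl, rfl⟩
    · exact ⟨Sum.inr (Sum.inl j), rfl, rfl⟩
    · exact ⟨Sum.inr (Sum.inr j), rfl, rfl⟩
  have e1 : ST X.B X.B (Sum.elim (X.i ∘ f) (Sum.elim (X.i ∘ u1) (X.i ∘ c)))
      (Sum.elim (X.i ∘ f) (Sum.elim (fun i : P => u i) (X.i ∘ c))) := by
    refine st_sub (st_symm hu1) ?_
    rintro (j | (j | j))
    · exact ⟨Sum.inr (Sum.inl j), rfl, rfl⟩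
    · exact ⟨Sum.inl (Sum.inl j), rfl, rfl⟩
    · exact ⟨Sum.inr (Sum.inr j), rfl, rfl⟩
  have e2 : ST X.B X.B (Sum.elim (X.i ∘ f) (Sum.elim (fun i : P => u i) (X.i ∘ c)))
      (Sum.elim (X.i ∘ f) (Sum.elim (X.i ∘ fun i : P => u0 i) (X.i ∘ c))) := by
    refine st_sub hu0 ?_
    rintro (j | (j | j))
    · exact ⟨Sum.inr (Sum.inl j), rfl, rfl⟩
    · exact ⟨Sum.inl j, rfl, rfl⟩
    · exact ⟨Sum.inr (Sum.inr j), rfl, rfl⟩
  have e3 := nsb_fin hf (Sum.elim u1 c) (Sum.elim (fun i : P => u0 i) c)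
    (st_trans (e0 u1) (st_trans e1 (st_trans e2 (st_symm (e0 _)))))
  have s1 : ST X.B X.B
      (Sum.elim (Sum.elim (fun i : P => u i) (fun j : Q => y j)) (X.i ∘ c))
      (Sum.elim (Sum.elim (X.i ∘ u1) (fun j : Q => y j)) (X.i ∘ c)) := by
    refine st_sub hu1 ?_
    rintro ((j | j) | j)
    · exact ⟨Sum.inl (Sum.inl j), rfl, rfl⟩
    · exact ⟨Sum.inl (Sum.inr j), rfl, rfl⟩
    · exact ⟨Sum.inr (Sum.inr j), rfl, rfl⟩
  have s2 : ST X.B X.B
      (Sum.elim (Sum.elim (X.i ∘ u1) (fun j : Q => y j)) (X.i ∘ c))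
      (Sum.elim (Sum.elim (X.i ∘ fun i : P => u0 i) (fun j : Q => y j)) (X.i ∘ c)) := by
    refine st_sub e3 ?_
    rintro ((j | j) | j)
    · exact ⟨Sum.inr (Sum.inr (Sum.inl j)), rfl, rfl⟩
    · exact ⟨Sum.inl j.1, rfl, rfl⟩
    · exact ⟨Sum.inr (Sum.inr (Sum.inr j)), rfl, rfl⟩
  refine st_sub (st_trans s1 s2) fun k => ?_
  rcases hk : x k with (i | i) | i
  · exact ⟨Sum.inl (Sum.inl ⟨i, k, hk⟩), by simp [hk], by simp [hk]⟩
  · exact ⟨Sum.inl (Sum.inr ⟨i, k, hk⟩), by simp [hk], by simp [hk]⟩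
  · exact ⟨Sum.inr i, by simp [hk], by simp [hk]⟩

end Pool.Agent.Helper89.EA
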