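import Pool.Agent.Helper89.EA.S.T2

/-!
# Project EA, piece S-T3: connected sets

`Ind X g P Q` is the independence of two finite sets of indices.

`ind_trans` is `fs_trans` (with `fs_mono` along the obvious maps of subtypes).

`conn_union`: let `B ∪ B'` be the disjoint union of the nonempty sets `P, Q` with `Ind P Q`.  By
monotonicity `B ⊆ P` or `B ⊆ Q`, and `B' ⊆ P` or `B' ⊆ Q`; as `B ∩ B'` is nonempty both are in the
same part, so the other one is empty, contradiction.

`conn_of_not_ind`: by `fs_small` there are `P' ⊆ P`, `Q' ⊆ Q` with `card P' + card Q' ≤ σ.r` and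
`¬ Ind P' Q'`; choose such a pair with `card P' + card Q'` minimal.  Both are nonempty (`fs_base`,
`fs_base'` for empty index types).  Claim: `E = P' ∪ Q'` is connected.  Let `E = Z1 ∪ Z2`, disjoint,
nonempty, with `Ind Z1 Z2`; put `Pi = P' ∩ Zi`, `Qi = Q' ∩ Zi`.  By minimality `Ind P1 Q1` and
`Ind P2 Q2`.  From `Ind P1 Q1` and `Ind (P1 ∪ Q1) (P2 ∪ Q2)` we get `Ind P1 (Q1 ∪ P2 ∪ Q2)`;
similarly `Ind P2 (Q2 ∪ P1 ∪ Q1)`.  So `Ind (Q1 ∪ Q2) P2` and `Ind (Q1 ∪ Q2 ∪ P2) P1` (symmetry,
monotonicity), hence `Ind (Q1 ∪ Q2) (P2 ∪ P1)`, i.e. `Ind Q' P'`, contradiction.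

`conn_chain`: singletons are connected.  Let `B'` be a connected proper subset of `B` with
the largest number of elements.  `¬ Ind B' (B \ B')` since `B` is connected; `conn_of_not_ind`
gives `E`, and `B' ∪ E` is connected (`conn_union`) and strictly larger, so `B' ∪ E = B`.
-/

namespace Pool.Agent.Helper89.EA

variable {σ : Sig} {M N N' : Type} {M0 : RS σ M} {A : RS σ N} {X : Ext M0 A N'}
  {D : Type} {g : D → N'}

/-- independence of finite sets of indices -/
def Ind (X : Ext M0 A N') {D : Type} (g : D → N') (P Q : Finset D) : Prop :=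
  FS X (fun d : P => g d) (fun d : Q => g d)

theorem ind_mono {P Q P' Q' : Finset D} (h : Ind X g P Q) (hP : P' ⊆ P) (hQ : Q' ⊆ Q) :
    Ind X g P' Q' :=
  fs_mono h (fun d : P' => (⟨d, hP d.2⟩ : P)) (fun d : Q' => (⟨d, hQ d.2⟩ : Q))

theorem ind_symm (hS : Stable M0) (hA : EC M0 A) {P Q : Finset D} (h : Ind X g P Q) :
    Ind X g Q P :=
  fs_symm hS hA h

theorem ind_trans [DecidableEq D] (hS : Stable M0) (hA : EC M0 A) {P Q R : Finset D}
    (h : Ind X g P Q) (h' : Ind X g (P ∪ Q) R) : Ind X g P (Q ∪ R) := by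
  have h1 : FS X (Sum.elim (fun d : P => g d) (fun d : Q => g d)) (fun d : R => g d) := by
    have h2 := fs_mono h' (fun d : P ⊕ Q => (Sum.elim
      (fun e : P => (⟨e, Finset.mem_union_left _ e.2⟩ : (P ∪ Q : Finset D)))
      (fun e : Q => (⟨e, Finset.mem_union_right _ e.2⟩ : (P ∪ Q : Finset D))) d)) id
    have h3 : (fun d : (P ∪ Q : Finset D) => g d) ∘ (fun d : P ⊕ Q => (Sum.elim
      (fun e : P => (⟨e, Finset.mem_union_left _ e.2⟩ : (P ∪ Q : Finset D)))
      (fun e : Q => (⟨e, Finset.mem_union_right _ e.2⟩ : (P ∪ Q : Finset D))) d)) =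
        Sum.elim (fun d : P => g d) (fun d : Q => g d) := by
      funext d
      rcases d with d | d <;> rfl
    rw [h3] at h2
    exact h2
  have h4 := fs_trans hS hA h h1
  have h5 := fs_mono h4 id (fun d : (Q ∪ R : Finset D) =>
    if hd : (d : D) ∈ Q then (Sum.inl ⟨d, hd⟩ : Q ⊕ R)
    else Sum.inr ⟨d, (Finset.mem_union.1 d.2).resolve_left hd⟩)
  have h6 : Sum.elim (fun d : Q => g d) (fun d : R => g d) ∘ (fun d : (Q ∪ R : Finset D) =>
    if hd : (d : D) ∈ Q then (Sum.inl ⟨d, hd⟩ : Q ⊕ R)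
    else Sum.inr ⟨d, (Finset.mem_union.1 d.2).resolve_left hd⟩) =
      fun d : (Q ∪ R : Finset D) => g d := by
    funext d
    by_cases hd : (d : D) ∈ Q
    · simp [hd]
    · simp [hd]
  rw [h6] at h5
  exact h5

theorem conn_union [DecidableEq D] {B B' : Finset D} (h : ConnI X g B) (h' : ConnI X g B')
    (hBB : (B ∩ B').Nonempty) : ConnI X g (B ∪ B') := by
  refine ⟨h.1.mono Finset.subset_union_left, fun P Q hP hQ hPQ hu hFS => ?_⟩
  have key : ∀ C : Finset D, C ⊆ B ∪ B' → ConnI X g C → C ⊆ P ∨ C ⊆ Q := by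
    intro C hCB hC
    by_contra hcon
    push Not at hcon
    obtain ⟨h1, h2⟩ := hcon
    rw [Finset.not_subset] at h1 h2
    obtain ⟨x, hx, hxP⟩ := h1
    obtain ⟨y, hy, hyQ⟩ := h2
    have hxQ : x ∈ Q := ((hu x).1 (hCB hx)).resolve_left hxP
    have hyP : y ∈ P := ((hu y).1 (hCB hy)).resolve_right hyQ
    refine hC.2 (C ∩ P) (C ∩ Q) ⟨y, Finset.mem_inter.2 ⟨hy, hyP⟩⟩ ⟨x, Finset.mem_inter.2 ⟨hx, hxQ⟩⟩
      (hPQ.mono Finset.inter_subset_right Finset.inter_subset_right) (fun d => ?_)
      (ind_mono (P := P) (Q := Q) hFS Finset.inter_subset_right Finset.inter_subset_right)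
    constructor
    · intro hd
      rcases (hu d).1 (hCB hd) with h3 | h3
      · exact Or.inl (Finset.mem_inter.2 ⟨hd, h3⟩)
      · exact Or.inr (Finset.mem_inter.2 ⟨hd, h3⟩)
    · rintro (h3 | h3)
      · exact (Finset.mem_inter.1 h3).1
      · exact (Finset.mem_inter.1 h3).1
  obtain ⟨z, hz⟩ := hBB
  rw [Finset.mem_inter] at hz
  obtain ⟨p, hp⟩ := hP
  obtain ⟨q, hq⟩ := hQ
  rcases key B Finset.subset_union_left h with h1 | h1 <;>
    rcases key B' Finset.subset_union_right h' with h2 | h2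
  · -- all in P
    have h3 := (hu q).2 (Or.inr hq)
    have h4 : q ∈ P := by
      rcases Finset.mem_union.1 h3 with h5 | h5
      · exact h1 h5
      · exact h2 h5
    exact Finset.disjoint_left.1 hPQ h4 hq
  · exact Finset.disjoint_left.1 hPQ (h1 hz.1) (h2 hz.2)
  · exact Finset.disjoint_left.1 hPQ (h2 hz.2) (h1 hz.1)
  · have h3 := (hu p).2 (Or.inl hp)
    have h4 : p ∈ Q := by
      rcases Finset.mem_union.1 h3 with h5 | h5
      · exact h1 h5
      · exact h2 h5
    exact Finset.disjoint_left.1 hPQ hp h4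

theorem conn_of_not_ind_aux [DecidableEq D] (hS : Stable M0) (hA : EC M0 A) (k : ℕ) :
    ∀ P Q : Finset D, P.card + Q.card = k → Disjoint P Q → ¬ Ind X g P Q →
      ∃ E : Finset D, ConnI X g E ∧ E ⊆ P ∪ Q ∧ E.card ≤ k ∧ (E ∩ P).Nonempty ∧
        (E ∩ Q).Nonempty := by
  induction k using Nat.strong_induction_on with
  | _ k ih =>
    intro P Q hk hPQ hn
    by_cases hmin : ∃ P' Q' : Finset D, P' ⊆ P ∧ Q' ⊆ Q ∧ P'.card + Q'.card < k ∧ ¬ Ind X g P' Q'
    · obtain ⟨P', Q', hP', hQ', hlt, hn'⟩ := hmin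
      obtain ⟨E, hE, hE1, hE2, hE3, hE4⟩ := ih _ hlt P' Q' rfl (hPQ.mono hP' hQ') hn'
      exact ⟨E, hE, hE1.trans (Finset.union_subset_union hP' hQ'), hE2.trans hlt.le,
        hE3.mono (Finset.inter_subset_inter_left hP'),
        hE4.mono (Finset.inter_subset_inter_left hQ')⟩
    · push Not at hmin
      have hPne : P.Nonempty := by
        rw [Finset.nonempty_iff_ne_empty]
        rintro rfl
        exact hn (fs_base' (fun j => absurd j.2 (Finset.notMem_empty _)))
      have hQne : Q.Nonempty := by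
        rw [Finset.nonempty_iff_ne_empty]
        rintro rfl
        exact hn (ind_symm hS hA (fs_base' (fun j => absurd j.2 (Finset.notMem_empty _))))
      refine ⟨P ∪ Q, ⟨hPne.mono Finset.subset_union_left, ?_⟩, subset_rfl, ?_, ?_, ?_⟩
      · intro Z1 Z2 hZ1 hZ2 hZ hu hFS
        have hI : Ind X g Z1 Z2 := hFS
        have hI' : Ind X g Z2 Z1 := ind_symm hS hA hI
        have hZ1s : Z1 ⊆ P ∪ Q := fun d hd => (hu d).2 (Or.inl hd)
        have hZ2s : Z2 ⊆ P ∪ Q := fun d hd => (hu d).2 (Or.inr hd)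
        have e1 : (P ∩ Z1) ∪ (Q ∩ Z1) = Z1 := by
          rw [← Finset.union_inter_distrib_right, Finset.inter_eq_right]
          exact hZ1s
        have e2 : (P ∩ Z2) ∪ (Q ∩ Z2) = Z2 := by
          rw [← Finset.union_inter_distrib_right, Finset.inter_eq_right]
          exact hZ2s
        have hcu : (P ∪ Q).card = k := by rw [Finset.card_union_of_disjoint hPQ, hk]
        have hZc : Z1.card + Z2.card = k := by
          rw [← Finset.card_union_of_disjoint hZ, ← hcu]
          congr 1
          ext d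
          rw [Finset.mem_union]
          exact (hu d).symm
        have c1 : (P ∩ Z1).card + (Q ∩ Z1).card < k := by
          rw [← Finset.card_union_of_disjoint
            (hPQ.mono Finset.inter_subset_left Finset.inter_subset_left), e1]
          have := hZ2.card_pos
          omega
        have c2 : (P ∩ Z2).card + (Q ∩ Z2).card < k := by
          rw [← Finset.card_union_of_disjoint
            (hPQ.mono Finset.inter_subset_left Finset.inter_subset_left), e2]
          have := hZ1.card_pos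
          omega
        have i1 := hmin _ _ Finset.inter_subset_left Finset.inter_subset_left c1
        have i2 := hmin _ _ Finset.inter_subset_left Finset.inter_subset_left c2
        have j1 : Ind X g (P ∩ Z1) (Q ∩ Z1 ∪ Z2) := ind_trans hS hA i1 (by rw [e1]; exact hI)
        have j2 : Ind X g (P ∩ Z2) (Q ∩ Z2 ∪ Z1) := ind_trans hS hA i2 (by rw [e2]; exact hI')
        have hQZ : Q ∩ Z1 ∪ Q ∩ Z2 = Q := by
          rw [← Finset.inter_union_distrib_left, Finset.inter_eq_left]
          intro d hd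
          rw [Finset.mem_union]
          exact (hu d).1 (Finset.mem_union_right _ hd)
        have hPZ : P ∩ Z2 ∪ P ∩ Z1 = P := by
          rw [← Finset.inter_union_distrib_left, Finset.inter_eq_left]
          intro d hd
          rw [Finset.mem_union]
          exact ((hu d).1 (Finset.mem_union_left _ hd)).symm
        have k1 : Ind X g Q (P ∩ Z2) := by
          refine ind_symm hS hA (ind_mono j2 subset_rfl ?_)
          intro d hd
          rcases (hu d).1 (Finset.mem_union_right _ hd) with h3 | h3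
          · exact Finset.mem_union_right _ h3
          · exact Finset.mem_union_left _ (Finset.mem_inter.2 ⟨hd, h3⟩)
        have k2 : Ind X g (Q ∪ P ∩ Z2) (P ∩ Z1) := by
          refine ind_symm hS hA (ind_mono j1 subset_rfl ?_)
          intro d hd
          rcases Finset.mem_union.1 hd with h4 | h4
          · rcases (hu d).1 (Finset.mem_union_right _ h4) with h3 | h3
            · exact Finset.mem_union_left _ (Finset.mem_inter.2 ⟨h4, h3⟩)
            · exact Finset.mem_union_right _ h3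
          · exact Finset.mem_union_right _ (Finset.mem_inter.1 h4).2
        have k3 := ind_trans hS hA k1 k2
        rw [hPZ] at k3
        exact hn (ind_symm hS hA k3)
      · rw [Finset.card_union_of_disjoint hPQ, hk]
      · rw [Finset.union_inter_cancel_left]
        exact hPne
      · rw [Finset.union_inter_cancel_right]
        exact hQne

theorem conn_of_not_ind [DecidableEq D] (hS : Stable M0) (hA : EC M0 A) {P Q : Finset D}
    (hPQ : Disjoint P Q) (h : ¬ Ind X g P Q) :
    ∃ E : Finset D, ConnI X g E ∧ E ⊆ P ∪ Q ∧ E.card ≤ σ.r ∧ (E ∩ P).Nonempty ∧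
      (E ∩ Q).Nonempty := by
  have h1 : ∃ (S : Set P) (T : Set Q), Nat.card S + Nat.card T ≤ σ.r ∧
      ¬ FS X (fun i : S => g (i : P)) (fun j : T => g (j : Q)) := by
    by_contra hcon
    push Not at hcon
    exact h (fs_small hS hA (fun S T hc => hcon S T hc))
  obtain ⟨S, T, hc, hn⟩ := h1
  classical
  set P' : Finset D := (S.toFinite.toFinset).map (Function.Embedding.subtype _) with hP'
  set Q' : Finset D := (T.toFinite.toFinset).map (Function.Embedding.subtype _) with hQ'
  have mP : ∀ d : D, d ∈ P' ↔ ∃ hd : d ∈ P, (⟨d, hd⟩ : P) ∈ S := by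
    intro d
    simp only [hP', Finset.mem_map, Set.Finite.mem_toFinset, Function.Embedding.subtype_apply]
    constructor
    · rintro ⟨x, hx, rfl⟩
      exact ⟨x.2, hx⟩
    · rintro ⟨hd, hd2⟩
      exact ⟨⟨d, hd⟩, hd2, rfl⟩
  have mQ : ∀ d : D, d ∈ Q' ↔ ∃ hd : d ∈ Q, (⟨d, hd⟩ : Q) ∈ T := by
    intro d
    simp only [hQ', Finset.mem_map, Set.Finite.mem_toFinset, Function.Embedding.subtype_apply]
    constructor
    · rintro ⟨x, hx, rfl⟩
      exact ⟨x.2, hx⟩
    · rintro ⟨hd, hd2⟩
      exact ⟨⟨d, hd⟩, hd2, rfl⟩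
  have hPs : P' ⊆ P := fun d hd => ((mP d).1 hd).1
  have hQs : Q' ⊆ Q := fun d hd => ((mQ d).1 hd).1
  have cP : P'.card = Nat.card S := by
    rw [hP', Finset.card_map, Nat.card_coe_set_eq, Set.ncard_eq_toFinset_card]
  have cQ : Q'.card = Nat.card T := by
    rw [hQ', Finset.card_map, Nat.card_coe_set_eq, Set.ncard_eq_toFinset_card]
  have hn' : ¬ Ind X g P' Q' := by
    intro hI
    apply hn
    exact fs_mono hI (fun i : S => (⟨((i : P) : D), (mP _).2 ⟨(i : P).2, i.2⟩⟩ : P'))
      (fun j : T => (⟨((j : Q) : D), (mQ _).2 ⟨(j : Q).2, j.2⟩⟩ : Q'))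
  obtain ⟨E, hE, hE1, hE2, hE3, hE4⟩ := conn_of_not_ind_aux hS hA _ P' Q' rfl
    (hPQ.mono hPs hQs) hn'
  exact ⟨E, hE, hE1.trans (Finset.union_subset_union hPs hQs), hE2.trans (by rw [cP, cQ]; exact hc),
    hE3.mono (Finset.inter_subset_inter_left hPs), hE4.mono (Finset.inter_subset_inter_left hQs)⟩

theorem conn_singleton (d : D) : ConnI X g {d} := by
  refine ⟨Finset.singleton_nonempty d, fun P Q hP hQ hPQ hu _ => ?_⟩
  obtain ⟨p, hp⟩ := hP
  obtain ⟨q, hq⟩ := hQ
  have h1 := Finset.mem_singleton.1 ((hu p).2 (Or.inl hp))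
  have h2 := Finset.mem_singleton.1 ((hu q).2 (Or.inr hq))
  rw [h1] at hp
  rw [h2] at hq
  exact Finset.disjoint_left.1 hPQ hp hq

theorem conn_chain (hS : Stable M0) (hA : EC M0 A) {B : Finset D} (h : ConnI X g B)
    (h2 : 2 ≤ B.card) : ∃ B' : Finset D, ConnI X g B' ∧ B' ⊂ B ∧ B.card ≤ B'.card + σ.r := by
  classical
  obtain ⟨b, hb⟩ := h.1
  set F : Finset (Finset D) := B.powerset.filter (fun C => ConnI X g C ∧ C ≠ B) with hF
  have hbF : ({b} : Finset D) ∈ F := by
    rw [hF, Finset.mem_filter, Finset.mem_powerset]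
    refine ⟨Finset.singleton_subset_iff.2 hb, conn_singleton b, fun h3 => ?_⟩
    rw [← h3, Finset.card_singleton] at h2
    omega
  obtain ⟨B', hB', hmax⟩ := Finset.exists_max_image F Finset.card ⟨_, hbF⟩
  rw [hF, Finset.mem_filter, Finset.mem_powerset] at hB'
  obtain ⟨hsub, hconn, hne⟩ := hB'
  have hss : B' ⊂ B := Finset.ssubset_iff_subset_ne.2 ⟨hsub, hne⟩
  have hn : ¬ Ind X g B' (B \ B') := by
    intro hI
    refine h.2 B' (B \ B') hconn.1 ?_ Finset.disjoint_sdiff (fun d => ?_) hI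
    · obtain ⟨x, hx, hx2⟩ := Finset.exists_of_ssubset hss
      exact ⟨x, Finset.mem_sdiff.2 ⟨hx, hx2⟩⟩
    · rw [Finset.mem_sdiff]
      constructor
      · intro hd
        by_cases h3 : d ∈ B'
        · exact Or.inl h3
        · exact Or.inr ⟨hd, h3⟩
      · rintro (h3 | h3)
        · exact hsub h3
        · exact h3.1
  obtain ⟨E, hE, hE1, hE2, hE3, hE4⟩ := conn_of_not_ind hS hA Finset.disjoint_sdiff hn
  have hU : ConnI X g (B' ∪ E) := conn_union hconn hE (by rw [Finset.inter_comm]; exact hE3)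
  have hUs : B' ∪ E ⊆ B := by
    refine Finset.union_subset hsub (hE1.trans ?_)
    exact Finset.union_subset hsub Finset.sdiff_subset
  have hEq : B' ∪ E = B := by
    by_contra hne'
    have h3 := hmax (B' ∪ E) (by
      rw [hF, Finset.mem_filter, Finset.mem_powerset]
      exact ⟨hUs, hU, hne'⟩)
    obtain ⟨x, hx⟩ := hE4
    rw [Finset.mem_inter, Finset.mem_sdiff] at hx
    have h4 : B' ⊂ B' ∪ E := by
      refine Finset.ssubset_iff_subset_ne.2 ⟨Finset.subset_union_left, fun h5 => hx.2.2 ?_⟩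
      rw [h5]
      exact Finset.mem_union_right _ hx.1
    have := Finset.card_lt_card h4
    omega
  refine ⟨B', hconn, hss, ?_⟩
  calc B.card = (B' ∪ E).card := by rw [hEq]
    _ ≤ B'.card + E.card := Finset.card_union_le _ _
    _ ≤ B'.card + σ.r := by omega

end Pool.Agent.Helper89.EA
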