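import Pool.Agent.Helper89.EA.S.T4

/-!
# Project EA, piece S-T6: families with a minimal set of patterns

`pat_extend`: `free_ext` for `X`, `g` and the extension `⟨C, hC, κ, hκ⟩ : Ext M0 A K` of `A` gives
`Z`, `β : K → K'`, `g'`; take `Y = ⟨Z.B, Z.inC, β, _⟩ : Ext M0 C K'`, `h = g'`.  A pattern of `h`:
`(g' ∘ b, β ∘ c)`, `c : Fin n → K`.  `FS Z (g' ∘ b) (β ∘ c)`, so by symmetry (`fs_symm`) there is
`c0 : Fin n → N` such that `(β ∘ c, g' ∘ b)` and `(Z.i ∘ c0, g' ∘ b)` have the same type, and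
`(g' ∘ b, Z.i ∘ c0)` has the type of `(g ∘ b, X.i ∘ c0)` by `STo`: a pattern of `g`.

`exists_minPat`.  Enumerate the codes `π 0, π 1, ...` (`pc_countable`; if `PC σ G` is empty
everything is trivial -- it never is).  Bundle the data: a structure `GT` consisting of a
countable type `K`, `C : RS σ K`, `EC M0 C`, `K'`, `Y : Ext M0 C K'`, `h : G → K'`.  Recursion:
`T 0` is the given one; if there is a `GT` `T'` with `Pat T' ⊆ Pat (T k) \ {π k}` let
`T (k + 1)` be such a one, otherwise `T (k + 1) = T k`.  By `jep_omega` there is a countable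
existentially closed `V` with embeddings `κ k : (T k).K → V`.  By `pat_extend` there are
extensions `Y k : Ext M0 V (K' k)` and `h k : G → K' k` with `Pat (Y k) (h k) ⊆ Pat (T k)`.  Let
`Y, h` be the ultraproduct for the hyperfilter on `ℕ` (as an extension of `V`).  By `up_st_iff`
every pattern of `h` is a pattern of `h k` for almost all `k`, so
`Pat Y h ⊆ ⋂ k, Pat (T k)` (the sets `Pat (T k)` decrease).  Minimality: if `T'` has
`Pat T' ⊆ Pat Y h` and `π k ∈ Pat Y h \ Pat T'` then at step `k` there was a possible `T'`, so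
`π k ∉ Pat (T (k + 1))`, contradiction.
-/

namespace Pool.Agent.Helper89.EA

open Filter

variable {σ : Sig} {M N N' : Type} {M0 : RS σ M} {A : RS σ N}

theorem pat_extend (hS : Stable M0) (hA : EC M0 A) (X : Ext M0 A N') {G : Type} (g : G → N')
    {K : Type} {C : RS σ K} (hC : InC M0 C) {κ : N → K} (hκ : Emb A C κ) :
    ∃ (K' : Type) (Y : Ext M0 C K') (h : G → K'), Pat Y h ⊆ Pat X g := by
  obtain ⟨K', Z, β, g', hβ, -, hst, hfs⟩ := free_ext hA X g (⟨C, hC, κ, hκ⟩ : Ext M0 A K)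
  refine ⟨K', ⟨Z.B, Z.inC, β, hβ⟩, g', ?_⟩
  rintro ⟨n, m, b, T⟩ ⟨c, hc⟩
  change Fin m → K at c
  change typ Z.B (Sum.elim (g' ∘ b) (β ∘ c)) = T at hc
  obtain ⟨c0, hc0⟩ := fs_symm hS hA (hfs (Fin n) (Fin m) b c) 0 Fin.elim0
  refine ⟨c0, ?_⟩
  change typ X.B (Sum.elim (g ∘ b) (X.i ∘ c0)) = T
  rw [← hc, typ_eq_iff]
  have h1 := st_comp hc0 (κ := Fin n ⊕ Fin m)
    (Sum.elim (fun i => Sum.inl (Sum.inr i)) (fun j => Sum.inl (Sum.inl j)))
  have e : ∀ (w : Fin m → K') (z : Fin n → K') (e0 : Fin 0 → K'),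
      Sum.elim (Sum.elim w z) e0 ∘
        (Sum.elim (fun i => Sum.inl (Sum.inr i)) (fun j => Sum.inl (Sum.inl j))) =
      Sum.elim z w := by
    intro w z e0
    funext t
    rcases t with t | t <;> rfl
  rw [e, e] at h1
  have h2 := st_comp (hst m c0) (Sum.map b id)
  rw [Sum.elim_comp_map, Sum.elim_comp_map, Function.comp_id, Function.comp_id] at h2
  exact st_trans h2 (st_symm h1)

/-- a family over a countable existentially closed structure -/
private structure GT {M : Type} (M0 : RS σ M) (G : Type) where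
  K : Type
  cnt : Countable K
  C : RS σ K
  ec : EC M0 C
  K' : Type
  Y : Ext M0 C K'
  h : G → K'

/-- its patterns -/
private def GT.P {M0 : RS σ M} {G : Type} (t : GT M0 G) : Set (PC σ G) := Pat t.Y t.h

theorem exists_minPat (hS : Stable M0) (hA : EC M0 A) [Countable N] (X : Ext M0 A N') {G : Type}
    [Countable G] (g : G → N') :
    ∃ (K : Type) (_ : Countable K) (C : RS σ K) (K' : Type) (Y : Ext M0 C K') (h : G → K'),
      EC M0 C ∧ Pat Y h ⊆ Pat X g ∧ MinPat Y h := by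
  classical
  have hne : Nonempty (PC σ G) := ⟨⟨0, 0, Fin.elim0, (fun _ _ => True, fun _ _ => True)⟩⟩
  obtain ⟨π, hπ⟩ := exists_surjective_nat (PC σ G)
  have step : ∀ (k : ℕ) (t : GT M0 G), ∃ t' : GT M0 G, t'.P ⊆ t.P ∧
      ((∃ t'' : GT M0 G, t''.P ⊆ t.P \ {π k}) → π k ∉ t'.P) := by
    intro k t
    by_cases h : ∃ t'' : GT M0 G, t''.P ⊆ t.P \ {π k}
    · obtain ⟨t'', ht''⟩ := h
      exact ⟨t'', fun x hx => (ht'' hx).1, fun _ hx => (ht'' hx).2 rfl⟩
    · exact ⟨t, subset_rfl, fun h' => (h h').elim⟩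
  choose nxt hn1 hn2 using step
  let T : ℕ → GT M0 G := fun k => Nat.rec ⟨N, inferInstance, A, hA, N', X, g⟩
    (fun k t => nxt k t) k
  have hT0 : (T 0).P = Pat X g := rfl
  have hTs : ∀ k, T (k + 1) = nxt k (T k) := fun _ => rfl
  have hanti : ∀ k l, k ≤ l → (T l).P ⊆ (T k).P := by
    intro k l hkl
    induction l, hkl using Nat.le_induction with
    | base => exact subset_rfl
    | succ l _ ih =>
      refine subset_trans ?_ ih
      rw [hTs]
      exact hn1 l (T l)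
  have hcnt : ∀ k, Countable (T k).K := fun k => (T k).cnt
  obtain ⟨V, hV, C, κ, hC, hκ⟩ := jep_omega (K := fun k => (T k).K) (fun k => (T k).C)
    (fun k => (T k).ec.1)
  have hex : ∀ k, ∃ (K' : Type) (Y : Ext M0 C K') (h : G → K'), Pat Y h ⊆ (T k).P :=
    fun k => pat_extend hS (T k).ec (T k).Y (T k).h hC.1 (hκ k)
  choose K' Y h hYh using hex
  let u : Ultrafilter ℕ := Filter.hyperfilter ℕ
  have hev : ∀ m : ℕ, ∀ᶠ L in (u : Filter ℕ), m ≤ L := by
    intro m
    have : {L : ℕ | m ≤ L} ∈ (Filter.cofinite : Filter ℕ) := by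
      rw [Nat.cofinite_eq_atTop]
      exact Filter.mem_atTop m
    exact Filter.hyperfilter_le_cofinite this
  let Z : Ext M0 C (UP u K') :=
    ⟨UP.rs u (fun k => (Y k).B), up_inC (fun k => (Y k).inC),
      fun x => UP.mk u (fun k => (Y k).i x),
      up_emb (fun k => (Y k).i) (fun _ v => Filter.Eventually.of_forall fun k =>
        emb_st (Y k).emb v)⟩
  let hZ : G → UP u K' := fun a => UP.mk u (fun k => h k a)
  have hsub : ∀ k, Pat Z hZ ⊆ (T k).P := by
    intro k
    rintro ⟨n, m, b, τ⟩ ⟨c, hc⟩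
    change Fin m → V at c
    change typ (UP.rs u (fun k => (Y k).B)) (Sum.elim (hZ ∘ b) (Z.i ∘ c)) = τ at hc
    have e : Sum.elim (hZ ∘ b) (Z.i ∘ c) = fun j => UP.mk u
        (Sum.elim (fun j k => h k (b j)) (fun j k => (Y k).i (c j)) j) := by
      funext t
      rcases t with t | t <;> rfl
    have h0 := st_refl (UP.rs u (fun k => (Y k).B)) (Sum.elim (hZ ∘ b) (Z.i ∘ c))
    nth_rewrite 1 [e] at h0
    rw [up_st_iff] at h0
    obtain ⟨l, hl, hkl⟩ := (h0.and (hev k)).exists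
    refine hanti k l hkl (hYh l ?_)
    refine ⟨c, ?_⟩
    change typ (Y l).B (Sum.elim (h l ∘ b) ((Y l).i ∘ c)) = τ
    rw [← hc, typ_eq_iff]
    have e2 : (fun j => Sum.elim (fun j k => h k (b j)) (fun j k => (Y k).i (c j)) j l) =
        Sum.elim (h l ∘ b) ((Y l).i ∘ c) := by
      funext t
      rcases t with t | t <;> rfl
    rw [e2] at hl
    exact hl
  refine ⟨V, hV, C, UP u K', Z, hZ, hC, hsub 0, ?_⟩
  intro L hL D hD L' W h' hle p hp
  by_contra hcon
  obtain ⟨k, rfl⟩ := hπ p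
  have h1 : ∃ t'' : GT M0 G, t''.P ⊆ (T k).P \ {π k} :=
    ⟨⟨L, hL, D, hD, L', W, h'⟩, fun x hx => ⟨hsub k (hle hx), fun hxk => hcon (by
      rw [Set.mem_singleton_iff] at hxk
      rw [← hxk]
      exact hx)⟩⟩
  have h2 := hn2 k (T k) h1
  rw [← hTs] at h2
  exact h2 (hsub (k + 1) hp)

end Pool.Agent.Helper89.EA
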