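import Pool.Agent.Helper89.EA.S.T5
import Pool.Agent.Helper89.EA.S.T6

/-!
# Project EA, piece S-T7: minimal patterns give finite ambiguity

Suppose `FinA X g f` fails: `C` existentially closed on `K`, `κ : N → K`, `F : ℕ → Fin p → K` with
`Leg` and pairwise different schemes.  Let `Y t : Ext M0 C (K' t)`, `g t : D → K' t` be the scheme
extensions (`scheme_ext`), and let `Q : Ext M0 C _`, `gQ : G → _` be their ultraproduct for the
hyperfilter on `ℕ` (`Q.i k` the class of `fun t => (Y t).i k`, `gQ d` the class of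
`fun t => g t d`).  `Pat (Y t) (g t) ⊆ Pat X g` (`scheme_pat`), so `Pat Q gQ ⊆ Pat X g`
(`up_st_iff`), and by minimality `Pat X g ⊆ Pat Q gQ`, so `Pat (Y t) (g t) ⊆ Pat Q gQ`  (1).

Let `m, b` be as in `FTy X g`.  For `t ≠ t'`: `g t ∘ b` and `g t' ∘ b` do not have the same type
over `K`: by `¬ SchEq` there are `y, m1, m2` with `ST (F t, y) (f, m1)`, `ST (F t', y) (f, m2)`
and `¬ ST (g, m1) (g, m2)`, so (`st_small'` and `FTy`) `¬ ST (g ∘ b, m1) (g ∘ b, m2)`.  Hence for
all `t` except at most one, `g t ∘ b` and `gQ ∘ b` do not have the same type over `K`  (2).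

One step (`one_step` below).  Let `c` be a base for `gQ ∘ b` (`nsb_exists`), let `C0` be a finite tuple of `K`.
Put `C1 = (C0, c)` and let `R` be a finite tuple of representatives of the types of `r`-tuples over
`C1` (`exists_reps_over`).  For almost all `t` the tuples `(g t ∘ b, C1, R)` and
`(gQ ∘ b, C1, R)` have the same type; choose such a `t` with (2): there is `v : Fin σ.r → K` with
`¬ ST (g t ∘ b, v) (gQ ∘ b, v)` (`st_small'`; entries in `b` are replaced).  Let `v'` be a tuple in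
`R` with `ST (C1, v) (C1, v')`.  Then `(g t ∘ b, v') ~ (gQ ∘ b, v') ~ (gQ ∘ b, v)`, so
`¬ ST (g t ∘ b, v) (g t ∘ b, v')`.  Let `w : Fin m → K` be such that
`ST (g t ∘ b, C0, v, v') (w, C0, v, v')` (`ec_approx` for `Y t`).  By (1) the pattern
`(g t ∘ b; C0, v, v', w)` is realized in `Q`: there are `C0', v1, v1', w1` in `K` with
`ST (g t ∘ b; C0, v, v', w) (gQ ∘ b; C0', v1, v1', w1)`.

So: for every finite tuple `C0` of `K` there are `C0', v1, v1', w1` in `K` with
`ST (gQ∘b, C0) (gQ∘b, C0')`, `ST (C0', v1) (C0', v1')`, `¬ ST (gQ∘b, v1) (gQ∘b, v1')`,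
`ST (w1, C0', v1, v1') (gQ∘b, C0', v1, v1')`.

By induction on `L` (`chain` below): for every finite tuple `C0` there are `C0'` and families
`v i, v' i : Fin σ.r → K`, `w i : Fin m → K` (`i < L`) with
(a) `ST (gQ∘b, C0) (gQ∘b, C0')`; (b) `ST (C0', v i) (C0', v' i)`;
(c) `ST (w j, v i) (w j, v' i)` for `j < i`; (d) `¬ ST (w j, v i) (w j, v' i)` for `i ≤ j`;
(e) `ST (w j, C0') (gQ∘b, C0')`.
Induction step: apply one step to `C0`, then the induction hypothesis to
`C1 = (C0', v1, v1', w1)`: it gives `C1' = (C0'', v 0, v' 0, w 0)` (the new members number `0`) and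
the families for `i ≥ 1`.  For (d) with `i = 0 < j` use (e) for `C1'`, and
`¬ ST (gQ∘b, v 0) (gQ∘b, v' 0)` which follows from (a).
For large `L` this contradicts `tl_finite`.
-/

namespace Pool.Agent.Helper89.EA

variable {σ : Sig} {M N N' : Type} {M0 : RS σ M} {A : RS σ N}

/-- transport of equality of types along maps of the index types -/
private theorem st_re {K : Type} {A : RS σ N} {B : RS σ K} {ι κ : Type} {v : ι → N} {w : ι → K}
    (h : ST A B v w) (f : κ → ι) {v' : κ → N} {w' : κ → K} (hv : ∀ x, v (f x) = v' x)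
    (hw : ∀ x, w (f x) = w' x) : ST A B v' w' := by
  have h1 := st_comp h f
  rwa [show v ∘ f = v' from funext hv, show w ∘ f = w' from funext hw] at h1

private theorem st_base {K K' : Type} {C : RS σ K} {Q : Ext M0 C K'} {ι : Type} {c c' : ι → K}
    (h : ST Q.B Q.B (Q.i ∘ c) (Q.i ∘ c')) : ST C C c c' :=
  st_trans (emb_st Q.emb c) (st_trans h (st_symm (emb_st Q.emb c')))

private theorem st_up {K K' : Type} {C : RS σ K} {Q : Ext M0 C K'} {ι : Type} {c c' : ι → K}
    (h : ST C C c c') : ST Q.B Q.B (Q.i ∘ c) (Q.i ∘ c') :=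
  st_trans (st_symm (emb_st Q.emb c)) (st_trans h (emb_st Q.emb c'))

/-- one step, for tuples with any finite index type -/
private def Step {K K' : Type} {C : RS σ K} (Q : Ext M0 C K') {m : ℕ} (q : Fin m → K') : Prop :=
  ∀ (ι : Type) [Finite ι] (c : ι → K), ∃ (c' : ι → K) (v v' : Fin σ.r → K) (w : Fin m → K),
    ST Q.B Q.B (Sum.elim q (Q.i ∘ c)) (Sum.elim q (Q.i ∘ c')) ∧
    ST C C (Sum.elim c' v) (Sum.elim c' v') ∧
    ¬ ST Q.B Q.B (Sum.elim q (Q.i ∘ v)) (Sum.elim q (Q.i ∘ v')) ∧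
    ST C Q.B (Sum.elim w (Sum.elim c' (Sum.elim v v')))
      (Sum.elim q (Q.i ∘ Sum.elim c' (Sum.elim v v')))

private theorem chain {K K' : Type} {C : RS σ K} (Q : Ext M0 C K') {m : ℕ} (q : Fin m → K')
    (hstep : Step Q q) (L : ℕ) :
    ∀ (ι : Type) [Finite ι] (c : ι → K), ∃ (c' : ι → K) (v v' : Fin L → Fin σ.r → K)
      (w : Fin L → Fin m → K),
      ST Q.B Q.B (Sum.elim q (Q.i ∘ c)) (Sum.elim q (Q.i ∘ c')) ∧
      (∀ i, ST C C (Sum.elim c' (v i)) (Sum.elim c' (v' i))) ∧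
      (∀ j i, j < i → ST C C (Sum.elim (w j) (v i)) (Sum.elim (w j) (v' i))) ∧
      (∀ j i, i ≤ j → ¬ ST C C (Sum.elim (w j) (v i)) (Sum.elim (w j) (v' i))) ∧
      (∀ j, ST C Q.B (Sum.elim (w j) c') (Sum.elim q (Q.i ∘ c'))) := by
  induction L with
  | zero =>
    intro ι _ c
    exact ⟨c, fun i => i.elim0, fun i => i.elim0, fun i => i.elim0, st_refl _ _,
      fun i => i.elim0, fun i => i.elim0, fun i => i.elim0, fun i => i.elim0⟩
  | succ L ih =>
    intro ι _ c
    obtain ⟨c1, v1, v1', w1, s1, s2, s3, s4⟩ := hstep ι c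
    obtain ⟨D, v, v', w, ha, hb, hc, hd, he⟩ :=
      ih (ι ⊕ (Fin σ.r ⊕ (Fin σ.r ⊕ Fin m))) (Sum.elim c1 (Sum.elim v1 (Sum.elim v1' w1)))
    have hD : ST C C (Sum.elim c1 (Sum.elim v1 (Sum.elim v1' w1))) D :=
      st_base (Q := Q) (st_sum_right ha)
    refine ⟨fun x => D (Sum.inl x),
      Fin.cons (fun x => D (Sum.inr (Sum.inl x))) v,
      Fin.cons (fun x => D (Sum.inr (Sum.inr (Sum.inl x)))) v',
      Fin.cons (fun x => D (Sum.inr (Sum.inr (Sum.inr x)))) w, ?_, ?_, ?_, ?_, ?_⟩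
    · refine st_trans s1 (st_re ha (Sum.map id Sum.inl) ?_ ?_) <;>
        rintro (x | x) <;> rfl
    · intro i
      refine Fin.cases ?_ (fun i => ?_) i
      · simp only [Fin.cons_zero]
        have h1 : ST C C (Sum.elim c1 v1)
            (Sum.elim (fun x => D (Sum.inl x)) (fun x => D (Sum.inr (Sum.inl x)))) := by
          refine st_re hD (Sum.elim Sum.inl (fun x => Sum.inr (Sum.inl x))) ?_ ?_ <;>
            rintro (x | x) <;> rfl
        have h2 : ST C C (Sum.elim c1 v1')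
            (Sum.elim (fun x => D (Sum.inl x))
              (fun x => D (Sum.inr (Sum.inr (Sum.inl x))))) := by
          refine st_re hD (Sum.elim Sum.inl (fun x => Sum.inr (Sum.inr (Sum.inl x)))) ?_ ?_ <;>
            rintro (x | x) <;> rfl
        exact st_trans (st_symm h1) (st_trans s2 h2)
      · simp only [Fin.cons_succ]
        refine st_re (hb i) (Sum.map Sum.inl id) ?_ ?_ <;> rintro (x | x) <;> rfl
    · intro j i
      refine Fin.cases ?_ (fun i => ?_) i
      · intro hj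
        exact absurd hj (Fin.not_lt_zero j)
      · refine Fin.cases ?_ (fun j => ?_) j
        · intro _
          simp only [Fin.cons_zero, Fin.cons_succ]
          refine st_re (hb i) (Sum.map (fun x => Sum.inr (Sum.inr (Sum.inr x))) id) ?_ ?_ <;>
            rintro (x | x) <;> rfl
        · intro hj
          simp only [Fin.cons_succ]
          exact hc j i (Fin.succ_lt_succ_iff.1 hj)
    · intro j i
      refine Fin.cases ?_ (fun i => ?_) i
      · -- `i = 0`
        have key : ¬ ST Q.B Q.B (Sum.elim q (Q.i ∘ fun x => D (Sum.inr (Sum.inl x))))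
            (Sum.elim q (Q.i ∘ fun x => D (Sum.inr (Sum.inr (Sum.inl x))))) := by
          intro hcon
          apply s3
          have h1 : ST Q.B Q.B (Sum.elim q (Q.i ∘ v1))
              (Sum.elim q (Q.i ∘ fun x => D (Sum.inr (Sum.inl x)))) := by
            refine st_re ha (Sum.map id (fun x => Sum.inr (Sum.inl x))) ?_ ?_ <;>
              rintro (x | x) <;> rfl
          have h2 : ST Q.B Q.B (Sum.elim q (Q.i ∘ v1'))
              (Sum.elim q (Q.i ∘ fun x => D (Sum.inr (Sum.inr (Sum.inl x))))) := by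
            refine st_re ha (Sum.map id (fun x => Sum.inr (Sum.inr (Sum.inl x)))) ?_ ?_ <;>
              rintro (x | x) <;> rfl
          exact st_trans h1 (st_trans hcon (st_symm h2))
        refine Fin.cases ?_ (fun j => ?_) j
        · intro _ hcon
          simp only [Fin.cons_zero] at hcon
          apply s3
          have h1 : ST C C (Sum.elim w1 v1)
              (Sum.elim (fun x => D (Sum.inr (Sum.inr (Sum.inr x))))
                (fun x => D (Sum.inr (Sum.inl x)))) := by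
            refine st_re hD (Sum.elim (fun x => Sum.inr (Sum.inr (Sum.inr x)))
              (fun x => Sum.inr (Sum.inl x))) ?_ ?_ <;> rintro (x | x) <;> rfl
          have h2 : ST C C (Sum.elim w1 v1')
              (Sum.elim (fun x => D (Sum.inr (Sum.inr (Sum.inr x))))
                (fun x => D (Sum.inr (Sum.inr (Sum.inl x))))) := by
            refine st_re hD (Sum.elim (fun x => Sum.inr (Sum.inr (Sum.inr x)))
              (fun x => Sum.inr (Sum.inr (Sum.inl x)))) ?_ ?_ <;> rintro (x | x) <;> rfl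
          have h3 : ST C C (Sum.elim w1 v1) (Sum.elim w1 v1') :=
            st_trans h1 (st_trans hcon (st_symm h2))
          have h4 : ST C Q.B (Sum.elim w1 v1) (Sum.elim q (Q.i ∘ v1)) := by
            refine st_re s4 (Sum.map id (fun x => Sum.inr (Sum.inl x))) ?_ ?_ <;>
              rintro (x | x) <;> rfl
          have h5 : ST C Q.B (Sum.elim w1 v1') (Sum.elim q (Q.i ∘ v1')) := by
            refine st_re s4 (Sum.map id (fun x => Sum.inr (Sum.inr x))) ?_ ?_ <;>
              rintro (x | x) <;> rfl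
          exact st_trans (st_symm h4) (st_trans h3 h5)
        · intro _ hcon
          simp only [Fin.cons_zero, Fin.cons_succ] at hcon
          apply key
          have h1 : ST C Q.B (Sum.elim (w j) (fun x => D (Sum.inr (Sum.inl x))))
              (Sum.elim q (Q.i ∘ fun x => D (Sum.inr (Sum.inl x)))) := by
            refine st_re (he j) (Sum.map id (fun x => Sum.inr (Sum.inl x))) ?_ ?_ <;>
              rintro (x | x) <;> rfl
          have h2 : ST C Q.B (Sum.elim (w j) (fun x => D (Sum.inr (Sum.inr (Sum.inl x)))))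
              (Sum.elim q (Q.i ∘ fun x => D (Sum.inr (Sum.inr (Sum.inl x))))) := by
            refine st_re (he j) (Sum.map id (fun x => Sum.inr (Sum.inr (Sum.inl x)))) ?_ ?_ <;>
              rintro (x | x) <;> rfl
          exact st_trans (st_symm h1) (st_trans hcon h2)
      · refine Fin.cases ?_ (fun j => ?_) j
        · intro hj
          exact absurd hj (by simp)
        · intro hj
          simp only [Fin.cons_succ]
          exact hd j i (Fin.succ_le_succ_iff.1 hj)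
    · intro j
      refine Fin.cases ?_ (fun j => ?_) j
      · simp only [Fin.cons_zero]
        have h1 : ST C C (Sum.elim w1 c1)
            (Sum.elim (fun x => D (Sum.inr (Sum.inr (Sum.inr x)))) (fun x => D (Sum.inl x))) := by
          refine st_re hD (Sum.elim (fun x => Sum.inr (Sum.inr (Sum.inr x))) Sum.inl) ?_ ?_ <;>
            rintro (x | x) <;> rfl
        have h2 : ST C Q.B (Sum.elim w1 c1) (Sum.elim q (Q.i ∘ c1)) := by
          refine st_re s4 (Sum.map id Sum.inl) ?_ ?_ <;> rintro (x | x) <;> rfl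
        have h3 : ST Q.B Q.B (Sum.elim q (Q.i ∘ c1)) (Sum.elim q (Q.i ∘ fun x => D (Sum.inl x))) := by
          refine st_re ha (Sum.map id Sum.inl) ?_ ?_ <;> rintro (x | x) <;> rfl
        exact st_trans (st_symm h1) (st_trans h2 h3)
      · simp only [Fin.cons_succ]
        refine st_re (he j) (Sum.map id Sum.inl) ?_ ?_ <;> rintro (x | x) <;> rfl

/-- The inductive step of the chain argument, for an arbitrary finite tuple `q` in an extension
`Q` of an existentially closed `C` which has the one step property. -/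
theorem no_step (hS : Stable M0) {K K' : Type} {C : RS σ K} (Q : Ext M0 C K') {m : ℕ}
    (q : Fin m → K')
    (hstep : ∀ (n : ℕ) (c : Fin n → K), ∃ (c' : Fin n → K) (v v' : Fin σ.r → K)
      (w : Fin m → K),
      ST Q.B Q.B (Sum.elim q (Q.i ∘ c)) (Sum.elim q (Q.i ∘ c')) ∧
      ST C C (Sum.elim c' v) (Sum.elim c' v') ∧
      ¬ ST Q.B Q.B (Sum.elim q (Q.i ∘ v)) (Sum.elim q (Q.i ∘ v')) ∧
      ST C Q.B (Sum.elim w (Sum.elim c' (Sum.elim v v')))
        (Sum.elim q (Q.i ∘ Sum.elim c' (Sum.elim v v')))) : False := by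
  have hst : Step Q q := by
    intro ι _ c
    obtain ⟨n, ⟨e⟩⟩ := Finite.exists_equiv_fin ι
    obtain ⟨c', v, v', w, s1, s2, s3, s4⟩ := hstep n (c ∘ e.symm)
    refine ⟨c' ∘ e, v, v', w, ?_, ?_, s3, ?_⟩
    · refine st_re s1 (Sum.map id e) ?_ ?_
      · rintro (x | x)
        · rfl
        · simp
      · rintro (x | x) <;> rfl
    · refine st_re s2 (Sum.map e id) ?_ ?_ <;> rintro (x | x) <;> rfl
    · refine st_re s4 (Sum.map id (Sum.map e id)) ?_ ?_ <;> rintro (x | x | x) <;> rfl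
  obtain ⟨L, hL⟩ := tl_finite hS (Fin m) (Fin σ.r)
  obtain ⟨c', v, v', w, -, -, hc, hd, -⟩ := chain Q q hst L Empty Empty.elim
  exact hL K C (inC_of_emb Q.emb Q.inC) w v v' hc hd

/-- reduction to the finite subfamily -/
private theorem fty_reduce (X : Ext M0 A N') {G : Type} {g : G → N'} {m : ℕ} {b : Fin m → G}
    (hb : ∀ d : Fin σ.r → G, ∃ d' : Fin σ.r → Fin m, STo X X (g ∘ d) (g ∘ b ∘ d'))
    {m1 m2 : Fin σ.r → N}
    (h : ST X.B X.B (Sum.elim (g ∘ b) (X.i ∘ m1)) (Sum.elim (g ∘ b) (X.i ∘ m2))) :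
    ST X.B X.B (Sum.elim g (X.i ∘ m1)) (Sum.elim g (X.i ∘ m2)) := by
  classical
  refine st_small' X.inC X.inC fun x => ?_
  rcases isEmpty_or_nonempty G with hG | ⟨⟨d0⟩⟩
  · refine st_re (st_sum_right h) (fun j => (x j).elim (fun e => (hG.false e).elim) id) ?_ ?_ <;>
      intro j <;> simp only [Function.comp_apply] <;> rcases x j with y | y
    · exact (hG.false y).elim
    · rfl
    · exact (hG.false y).elim
    · rfl
  · obtain ⟨d', hd'⟩ := hb (fun j => (x j).elim id (fun _ => d0))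
    have h1 := hd' σ.r m1
    have h2 := hd' σ.r m2
    have h3 : ST X.B X.B (Sum.elim (g ∘ b ∘ d') (X.i ∘ m1)) (Sum.elim (g ∘ b ∘ d') (X.i ∘ m2)) := by
      refine st_re h (Sum.map d' id) ?_ ?_ <;> rintro (y | y) <;> rfl
    have h4 := st_trans h1 (st_trans h3 (st_symm h2))
    refine st_re h4 (fun j => (x j).elim (fun _ => Sum.inl j) Sum.inr) ?_ ?_ <;>
      intro j <;> simp only [Function.comp_apply] <;> rcases hx : x j with y | y <;>
      simp [hx]

theorem finA_of_minPat (hS : Stable M0) (hA : EC M0 A) (X : Ext M0 A N') {G : Type} {g : G → N'}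
    (hmin : MinPat X g) (hT : FTy X g) {p : ℕ} {f : Fin p → N} (hf : NSb X f g) :
    FinA X g f := by
  rintro K _ C hC κ hκ ⟨F, hL, hne⟩
  obtain ⟨m, b, hb⟩ := hT
  choose K' Y h hsch using fun t => scheme_ext X hf hC.1 (hL t)
  let u : Ultrafilter ℕ := Filter.hyperfilter ℕ
  -- the ultraproduct
  have hemb : Emb C (UP.rs u fun t => (Y t).B) (fun k => UP.mk u (fun t => (Y t).i k)) :=
    up_emb (fun t => (Y t).i) fun n v => Filter.Eventually.of_forall fun t => emb_st (Y t).emb v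
  let Q : Ext M0 C (UP u K') := ⟨UP.rs u fun t => (Y t).B, up_inC fun t => (Y t).inC,
    fun k => UP.mk u (fun t => (Y t).i k), hemb⟩
  let gQ : G → UP u K' := fun d => UP.mk u (fun t => h t d)
  -- types in `Q`
  have hQ : ∀ (ι ι' : Type) [Finite ι] [Finite ι'] (d : ι → G) (c : ι' → K),
      ∀ᶠ t in (u : Filter ℕ), ST (Y t).B Q.B (Sum.elim (h t ∘ d) ((Y t).i ∘ c))
        (Sum.elim (gQ ∘ d) (Q.i ∘ c)) := by
    intro ι ι' _ _ d c
    have h0 : Sum.elim (gQ ∘ d) (Q.i ∘ c) = fun j => UP.mk u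
        (Sum.elim (fun x t => h t (d x)) (fun y t => (Y t).i (c y)) j : ∀ t, K' t) := by
      funext j
      rcases j with j | j <;> rfl
    have h1 : ST Q.B Q.B (Sum.elim (gQ ∘ d) (Q.i ∘ c)) (Sum.elim (gQ ∘ d) (Q.i ∘ c)) :=
      st_refl _ _
    nth_rewrite 1 [h0] at h1
    have h2 := (up_st_iff _ _ _).1 h1
    filter_upwards [h2] with t ht
    refine st_re ht id ?_ (fun _ => rfl)
    rintro (j | j) <;> rfl
  -- patterns
  have hpat1 : Pat Q gQ ⊆ Pat X g := by
    rintro ⟨n1, n2, d, τ⟩ ⟨c, hc⟩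
    obtain ⟨t, ht⟩ := (hQ _ _ d c).exists
    refine scheme_pat (hsch t) (hL t) ⟨c, ?_⟩
    exact (typ_eq_iff.2 ht).trans hc
  have hpat2 : Pat X g ⊆ Pat Q gQ := hmin K C hC _ Q gQ hpat1
  -- different schemes give different types
  have hdiff : ∀ t t', t ≠ t' → ∃ y : Fin σ.r → K,
      ¬ ST (Y t).B (Y t').B (Sum.elim (h t ∘ b) ((Y t).i ∘ y))
        (Sum.elim (h t' ∘ b) ((Y t').i ∘ y)) := by
    intro t t' htt
    have h1 := hne t t' htt
    unfold SchEq at h1
    push Not at h1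
    obtain ⟨y, m1, m2, hm1, hm2, h2⟩ := h1
    refine ⟨y, fun h3 => h2 (fty_reduce X hb ?_)⟩
    have e1 : ST (Y t).B X.B (Sum.elim (h t ∘ b) ((Y t).i ∘ y))
        (Sum.elim (g ∘ b) (X.i ∘ m1)) := by
      refine st_re (hsch t (Fin σ.r) y m1 hm1) (Sum.map b Sum.inr) ?_ ?_ <;>
        rintro (x | x) <;> rfl
    have e2 : ST (Y t').B X.B (Sum.elim (h t' ∘ b) ((Y t').i ∘ y))
        (Sum.elim (g ∘ b) (X.i ∘ m2)) := by
      refine st_re (hsch t' (Fin σ.r) y m2 hm2) (Sum.map b Sum.inr) ?_ ?_ <;>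
        rintro (x | x) <;> rfl
    exact st_trans (st_symm e1) (st_trans h3 e2)
  have hgood : ∀ᶠ t in (u : Filter ℕ), ∃ y : Fin σ.r → K,
      ¬ ST (Y t).B Q.B (Sum.elim (h t ∘ b) ((Y t).i ∘ y)) (Sum.elim (gQ ∘ b) (Q.i ∘ y)) := by
    have hfin : {t : ℕ | ¬ ∃ y : Fin σ.r → K,
        ¬ ST (Y t).B Q.B (Sum.elim (h t ∘ b) ((Y t).i ∘ y))
          (Sum.elim (gQ ∘ b) (Q.i ∘ y))}.Finite := by
      refine Set.Subsingleton.finite ?_
      intro t ht t' ht'
      by_contra htt
      obtain ⟨y, hy⟩ := hdiff t t' htt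
      simp only [Set.mem_ofPred_eq, not_exists, not_not] at ht ht'
      exact hy (st_trans (ht y) (st_symm (ht' y)))
    have h1 := Filter.hyperfilter_le_cofinite (α := ℕ) hfin.compl_mem_cofinite
    filter_upwards [h1] with t ht
    simpa using ht
  -- a base for `gQ ∘ b`
  obtain ⟨p1, e, he⟩ := nsb_exists hS hC Q (gQ ∘ b)
  refine no_step hS Q (gQ ∘ b) fun n c => ?_
  obtain ⟨q1, R, hR⟩ := exists_reps_over C (Sum.elim c e ∘ finSumFinEquiv.symm) σ.r
  have hev := hQ (Fin m) ((Fin n ⊕ Fin p1) ⊕ Fin q1) b (Sum.elim (Sum.elim c e) R)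
  obtain ⟨t, htev, v, hv⟩ := (hev.and hgood).exists
  obtain ⟨d, hd⟩ := hR v
  set v' : Fin σ.r → K := R ∘ d with hv'
  -- `v` and `v'` have the same type over `c, e`
  have hd1 : ST C C (Sum.elim (Sum.elim c e) v) (Sum.elim (Sum.elim c e) v') := by
    refine st_re hd (Sum.map finSumFinEquiv id) ?_ ?_ <;> rintro ((x | x) | x) <;> simp
  have hcv : ST C C (Sum.elim c v) (Sum.elim c v') := by
    refine st_re hd1 (Sum.map Sum.inl id) ?_ ?_ <;> rintro (x | x) <;> rfl
  have hev' : ST C C (Sum.elim e v) (Sum.elim e v') := by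
    refine st_re hd1 (Sum.map Sum.inr id) ?_ ?_ <;> rintro (x | x) <;> rfl
  have hq : ST Q.B Q.B (Sum.elim (gQ ∘ b) (Q.i ∘ v)) (Sum.elim (gQ ∘ b) (Q.i ∘ v')) := by
    refine st_re (he σ.r v v' hev') (Sum.map id Sum.inr) ?_ ?_ <;> rintro (x | x) <;> rfl
  have ht1 : ST (Y t).B Q.B (Sum.elim (h t ∘ b) ((Y t).i ∘ v')) (Sum.elim (gQ ∘ b) (Q.i ∘ v')) := by
    refine st_re htev (Sum.map id (fun x => Sum.inr (d x))) ?_ ?_ <;> rintro (x | x) <;> rfl
  have ht2 : ST (Y t).B Q.B (Sum.elim (h t ∘ b) ((Y t).i ∘ c)) (Sum.elim (gQ ∘ b) (Q.i ∘ c)) := by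
    refine st_re htev (Sum.map id (fun x => Sum.inl (Sum.inl x))) ?_ ?_ <;>
      rintro (x | x) <;> rfl
  have hnv : ¬ ST (Y t).B (Y t).B (Sum.elim (h t ∘ b) ((Y t).i ∘ v))
      (Sum.elim (h t ∘ b) ((Y t).i ∘ v')) := fun hcon =>
    hv (st_trans hcon (st_trans ht1 (st_symm hq)))
  obtain ⟨w, hw⟩ := ec_approx hC (Y t) (h t ∘ b) (Sum.elim c (Sum.elim v v'))
  -- the pattern is realized in `Q`
  obtain ⟨n', ⟨ε⟩⟩ := Finite.exists_equiv_fin ((Fin n ⊕ (Fin σ.r ⊕ Fin σ.r)) ⊕ Fin m)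
  have hπ : (⟨m, n', b, typ (Y t).B (Sum.elim (h t ∘ b)
      ((Y t).i ∘ (Sum.elim (Sum.elim c (Sum.elim v v')) w ∘ ε.symm)))⟩ : PC σ G) ∈
      Pat (Y t) (h t) := ⟨_, rfl⟩
  obtain ⟨z, hz⟩ := hpat2 (scheme_pat (hsch t) (hL t) hπ)
  have hz' := typ_eq_iff.1 hz
  have hz1 : ST Q.B (Y t).B (Sum.elim (gQ ∘ b) (Q.i ∘ z ∘ ε))
      (Sum.elim (h t ∘ b) ((Y t).i ∘ Sum.elim (Sum.elim c (Sum.elim v v')) w)) := by
    refine st_re hz' (Sum.map id ε) ?_ ?_
    · rintro (x | x) <;> rfl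
    · rintro (x | x)
      · rfl
      · simp
  set D := z ∘ ε with hD
  refine ⟨fun x => D (Sum.inl (Sum.inl x)), fun x => D (Sum.inl (Sum.inr (Sum.inl x))),
    fun x => D (Sum.inl (Sum.inr (Sum.inr x))), fun x => D (Sum.inr x), ?_, ?_, ?_, ?_⟩
  · have h1 : ST Q.B (Y t).B (Sum.elim (gQ ∘ b) (Q.i ∘ fun x => D (Sum.inl (Sum.inl x))))
        (Sum.elim (h t ∘ b) ((Y t).i ∘ c)) := by
      refine st_re hz1 (Sum.map id (fun x => Sum.inl (Sum.inl x))) ?_ ?_ <;>
        rintro (x | x) <;> rfl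
    exact st_trans (st_symm ht2) (st_symm h1)
  · have h1 : ST Q.B (Y t).B (Q.i ∘ Sum.elim (fun x => D (Sum.inl (Sum.inl x)))
        (fun x => D (Sum.inl (Sum.inr (Sum.inl x))))) ((Y t).i ∘ Sum.elim c v) := by
      refine st_re hz1 (fun x => Sum.inr (Sum.inl (Sum.map id Sum.inl x))) ?_ ?_ <;>
        rintro (x | x) <;> rfl
    have h2 : ST Q.B (Y t).B (Q.i ∘ Sum.elim (fun x => D (Sum.inl (Sum.inl x)))
        (fun x => D (Sum.inl (Sum.inr (Sum.inr x))))) ((Y t).i ∘ Sum.elim c v') := by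
      refine st_re hz1 (fun x => Sum.inr (Sum.inl (Sum.map id Sum.inr x))) ?_ ?_ <;>
        rintro (x | x) <;> rfl
    exact st_base (Q := Q) (st_trans h1 (st_trans (st_up hcv) (st_symm h2)))
  · intro hcon
    apply hnv
    have h1 : ST Q.B (Y t).B (Sum.elim (gQ ∘ b)
        (Q.i ∘ fun x => D (Sum.inl (Sum.inr (Sum.inl x)))))
        (Sum.elim (h t ∘ b) ((Y t).i ∘ v)) := by
      refine st_re hz1 (Sum.map id (fun x => Sum.inl (Sum.inr (Sum.inl x)))) ?_ ?_ <;>
        rintro (x | x) <;> rfl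
    have h2 : ST Q.B (Y t).B (Sum.elim (gQ ∘ b)
        (Q.i ∘ fun x => D (Sum.inl (Sum.inr (Sum.inr x)))))
        (Sum.elim (h t ∘ b) ((Y t).i ∘ v')) := by
      refine st_re hz1 (Sum.map id (fun x => Sum.inl (Sum.inr (Sum.inr x)))) ?_ ?_ <;>
        rintro (x | x) <;> rfl
    exact st_trans (st_symm h1) (st_trans hcon h2)
  · have h1 : ST Q.B (Y t).B (Q.i ∘ Sum.elim (fun x => D (Sum.inr x)) (fun x => D (Sum.inl x)))
        ((Y t).i ∘ Sum.elim w (Sum.elim c (Sum.elim v v'))) := by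
      refine st_re hz1 (fun x => Sum.inr (Sum.swap x)) ?_ ?_ <;> rintro (x | x) <;> rfl
    have h2 : ST Q.B (Y t).B (Sum.elim (gQ ∘ b) (Q.i ∘ fun x => D (Sum.inl x)))
        (Sum.elim (h t ∘ b) ((Y t).i ∘ Sum.elim c (Sum.elim v v'))) := by
      refine st_re hz1 (Sum.map id Sum.inl) ?_ ?_ <;> rintro (x | x) <;> rfl
    have h3 : ST (Y t).B (Y t).B ((Y t).i ∘ Sum.elim w (Sum.elim c (Sum.elim v v')))
        (Sum.elim (h t ∘ b) ((Y t).i ∘ Sum.elim c (Sum.elim v v'))) := by
      refine st_re (st_symm hw) id ?_ ?_ <;> rintro (x | x) <;> rfl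
    have h4 := st_trans (emb_st Q.emb _) (st_trans h1 (st_trans h3 (st_symm h2)))
    refine st_re h4 id ?_ ?_ <;> rintro (x | x | x | x) <;> rfl

end Pool.Agent.Helper89.EA
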