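import Pool.Agent.Helper89.EA.S.T8a

/-!
# Project EA, piece S-T8b: the pattern `z`

Suppose there is no such `q, z`.  For every finite `F : Finset K` (enumerated as `z`, or use
`Finite` index types and convert) there are `Y F : Ext M0 C (K' F)`, `f' F : Fin p → K' F`,
`z' F : F → K' F` with `ST (f' F, z' F) (κ ∘ f, F)` for which the conclusion fails.  Let `u` be
a cone ultrafilter on `Finset K`, and `Q` the ultraproduct of the `K' F`, an extension of `C` in
two ways: `i1 k` is the class of `(Y F).i k`, and `i2 k` is the class of `F ↦ z' F k` for `k ∈ F`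
(arbitrary otherwise; `K' F` is nonempty if `K` is; `up_emb`).  For `F` containing
`κ (f a)` we have `f' F a = z' F (κ (f a))`, so `i2 ∘ κ ∘ f` is the class `f*` of `f' F`.

`LegR` holds for almost all `F`: otherwise there are `y F : Fin σ.r → K' F` for almost all `F` such
that no `m` has `ST (f' F, y F) (f, m)`; their class `y*` has, as `C` is existentially closed and
embedded by `i2`, over `f* = i2 ∘ κ ∘ f` the type of a tuple `k` of `K` over `κ ∘ f`, and that is the
type of a tuple `m` of `N` over `f` (`leg_self`); so `ST (f' F, y F) (f, m)` for almost all `F`.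

So for almost all `F` and all `j` the schemes at `f' F` and `(Y F).i ∘ fs j` are different: there are
`y j F`, `m j F`, `m' j F` with `ST (f' F, y) (f, m)`, `ST ((Y F).i ∘ fs j, y) (f, m')` and
`¬ ST (g, m) (g, m')`.  Let `y* j` be the class of `y j F`.  As before there are `m, m'` in `N` with
`ST (f*, y* j) (f, m)` and `ST (i1 ∘ fs j, y* j) (f, m')` (`leg_up` for `i1`, `fs j`).  For almost
all `F` then `ST (f, m) (f, m j F)` and `ST (f, m') (f, m' j F)`, so by `NSb`
`¬ ST (g, m) (g, m')`.  Hence in `Q` the schemes at `f*` and `i1 ∘ fs j` are different for all `j`.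
Take a countable substructure of `Q` containing `i1 K`, `i2 K` and all `y* j`
(`exists_countable_sub` with `t : K ⊕ (Fin c × Fin σ.r) → Q`), and embed it in a countable
existentially closed `C2` (`exists_ec`).  `Leg A f C2 f*`, because `C` is existentially closed and
embedded in `C2` via `i2` (`leg_up` for the tuple `κ ∘ f` of `K`, and `leg_self`).  The schemes at
`f*` and at `fs j` are different in `C2` for all `j`: contradiction to the maximality `hmax`.
-/

namespace Pool.Agent.Helper89.EA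

variable {σ : Sig} {M N N' : Type} {M0 : RS σ M} {A : RS σ N}

/-- an ultraproduct tuple with a leg: the members have almost always the same type -/
theorem up_sum_iff {I : Type} {u : Ultrafilter I} {K' : I → Type} {B : ∀ i, RS σ (K' i)}
    {ι κ' : Type} [Finite ι] [Finite κ'] (a : ι → ∀ i, K' i) (b : κ' → ∀ i, K' i)
    {L : Type} {A : RS σ L} (w : ι ⊕ κ' → L) :
    ST (UP.rs u B) A (Sum.elim (fun j => UP.mk u (a j)) (fun j => UP.mk u (b j))) w ↔
      ∀ᶠ i in (u : Filter I), ST (B i) A (Sum.elim (fun j => a j i) (fun j => b j i)) w := by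
  have h := up_st_iff (u := u) (A := B) (Sum.elim a b) A w
  have e1 : (fun j => UP.mk u (Sum.elim a b j)) =
      Sum.elim (fun j => UP.mk u (a j)) (fun j => UP.mk u (b j)) := by
    funext j
    rcases j with j | j <;> rfl
  have e2 : ∀ i, (fun j => Sum.elim a b j i) = Sum.elim (fun j => a j i) (fun j => b j i) := by
    intro i
    funext j
    rcases j with j | j <;> rfl
  rw [e1] at h
  simpa only [e2] using h

theorem amb_pattern (hA : EC M0 A) [Countable N] (X : Ext M0 A N') {D : Type} {g : D → N'}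
    {p : ℕ} {f : Fin p → N} (hf : NSb X f g) {K : Type} [Countable K] {C : RS σ K}
    (hC : EC M0 C) {κ : N → K} (hκ : Emb A C κ) {c : ℕ} (fs : Fin c → Fin p → K)
    (hleg : ∀ j, Leg A f C (fs j))
    (hmax : ∀ (K2 : Type) [Countable K2] (C2 : RS σ K2) (μ : K → K2), EC M0 C2 → Emb C C2 μ →
        ∀ f' : Fin p → K2, Leg A f C2 f' → ∃ j, SchEq X g f C2 f' (μ ∘ fs j)) :
    ∃ (q : ℕ) (z : Fin q → K), ∀ (K' : Type) (Y : Ext M0 C K') (f' : Fin p → K')
      (z' : Fin q → K'), ST Y.B C (Sum.elim f' z') (Sum.elim (κ ∘ f) z) →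
        LegR A f Y.B f' ∧ ∃ j, SchEq X g f Y.B f' (Y.i ∘ fs j) := by
  classical
  have hlegC : Leg A f C (κ ∘ f) := leg_self hA f (⟨C, hC.1, κ, hκ⟩ : Ext M0 A K)
  by_contra hcon
  have hF : ∀ F : Finset K, ∃ (K' : Type) (Y : Ext M0 C K') (f' : Fin p → K') (z' : F → K'),
      ST Y.B C (Sum.elim f' z') (Sum.elim (κ ∘ f) (fun k : F => (k : K))) ∧
        (LegR A f Y.B f' → ∀ j, ¬ SchEq X g f Y.B f' (Y.i ∘ fs j)) := by
    intro F
    obtain ⟨q, ⟨e⟩⟩ := Finite.exists_equiv_fin F
    by_contra h1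
    refine hcon ⟨q, fun a => ((e.symm a : F) : K), ?_⟩
    intro K' Y f' z' hST
    by_contra h2
    refine h1 ⟨K', Y, f', z' ∘ e, ?_, ?_⟩
    · have h3 := st_comp hST (Sum.map id e)
      have e1 : Sum.elim f' z' ∘ Sum.map id e = Sum.elim f' (z' ∘ e) := by
        funext j
        rcases j with j | j <;> rfl
      have e2 : Sum.elim (κ ∘ f) (fun a => ((e.symm a : F) : K)) ∘ Sum.map id e =
          Sum.elim (κ ∘ f) (fun k : F => (k : K)) := by
        funext j
        rcases j with j | j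
        · rfl
        · simp
      rw [e1, e2] at h3
      exact h3
    · intro hL j hj
      exact h2 ⟨hL, j, hj⟩
  choose K' Y f' z' hST hno using hF
  have hne : ∀ F, Nonempty (K' F) := by
    intro F
    by_contra h1
    rw [not_nonempty_iff] at h1
    have hr : 0 < σ.r := by have := σ.hr; omega
    obtain ⟨j, -⟩ := hmax K C id hC (emb_id C) (κ ∘ f) hlegC
    refine hno F ?_ j ?_
    · intro y
      exact (h1.false (y ⟨0, hr⟩)).elim
    · intro y
      exact (h1.false (y ⟨0, hr⟩)).elim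
  obtain ⟨u, hu⟩ := exists_cone_ultrafilter K
  have hBC : InC M0 (UP.rs u (fun F => (Y F).B)) := up_inC fun F => (Y F).inC
  -- the first embedding
  have hi1 : Emb C (UP.rs u (fun F => (Y F).B)) (fun k => UP.mk u (fun F => (Y F).i k)) := by
    refine up_emb (fun F => (Y F).i) ?_
    intro n v
    exact Filter.Eventually.of_forall fun F => emb_st (Y F).emb v
  -- the second embedding
  let h2 : ∀ F, K → K' F := fun F k => if h : k ∈ F then z' F ⟨k, h⟩ else (Y F).i k
  have hi2 : Emb C (UP.rs u (fun F => (Y F).B)) (fun k => UP.mk u (fun F => h2 F k)) := by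
    refine up_emb h2 ?_
    intro n v
    filter_upwards [cone_eventually hu v] with F hFv
    have h3 := st_comp (st_sum_right (hST F)) (fun i => (⟨v i, hFv i⟩ : F))
    have e1 : h2 F ∘ v = z' F ∘ (fun i => (⟨v i, hFv i⟩ : F)) := by
      funext i
      simp only [h2, Function.comp]
      rw [dif_pos (hFv i)]
    rw [e1]
    exact st_symm h3
  have hfs : (fun k => UP.mk u (fun F => h2 F k)) ∘ κ ∘ f =
      fun a => UP.mk u (fun F => f' F a) := by
    funext a
    simp only [Function.comp]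
    rw [up_mk_eq]
    filter_upwards [cone_eventually hu (fun _ : Fin 1 => κ (f a))] with F hFa
    have hFa0 := hFa 0
    simp only [h2]
    rw [dif_pos hFa0]
    have h3 := ((hST F).1 (Sum.inr ⟨κ (f a), hFa0⟩) (Sum.inl a)).2 rfl
    exact h3
  -- legs in the ultraproduct
  have hLst : Leg A f (UP.rs u (fun F => (Y F).B)) (fun a => UP.mk u (fun F => f' F a)) := by
    rw [← hfs]
    exact leg_up hC (⟨_, hBC, _, hi2⟩ : Ext M0 C _) hlegC
  have hL1 : ∀ j, Leg A f (UP.rs u (fun F => (Y F).B))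
      (fun a => UP.mk u (fun F => (Y F).i (fs j a))) := by
    intro j
    exact leg_up hC (⟨_, hBC, _, hi1⟩ : Ext M0 C _) (hleg j)
  -- `LegR` for almost all `F`
  have hR : ∀ᶠ F in (u : Filter (Finset K)), LegR A f (Y F).B (f' F) := by
    by_contra h3
    rw [← Ultrafilter.eventually_not] at h3
    have h4 : ∀ F, ∃ y : Fin σ.r → K' F, ¬ LegR A f (Y F).B (f' F) →
        ∀ m : Fin σ.r → N, ¬ ST (Y F).B A (Sum.elim (f' F) y) (Sum.elim f m) := by
      intro F
      by_cases h5 : LegR A f (Y F).B (f' F)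
      · obtain ⟨d⟩ := hne F
        exact ⟨fun _ => d, fun h6 => (h6 h5).elim⟩
      · have h5' := h5
        unfold LegR at h5'
        push Not at h5'
        obtain ⟨y, hy⟩ := h5'
        exact ⟨y, fun _ => hy⟩
    choose y hy using h4
    obtain ⟨m, hm⟩ := hLst σ.r (fun i => UP.mk u (fun F => y F i))
    rw [up_sum_iff (fun a F => f' F a) (fun i F => y F i)] at hm
    obtain ⟨F, hF1, hF2⟩ := (h3.and hm).exists
    exact hy F hF1 m hF2
  -- the witnesses for the differences
  have hW : ∀ (j : Fin c) (F : Finset K), ∃ y : Fin σ.r → K' F, LegR A f (Y F).B (f' F) →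
      ∃ m m' : Fin σ.r → N, ST (Y F).B A (Sum.elim (f' F) y) (Sum.elim f m) ∧
        ST (Y F).B A (Sum.elim ((Y F).i ∘ fs j) y) (Sum.elim f m') ∧
        ¬ ST X.B X.B (Sum.elim g (X.i ∘ m)) (Sum.elim g (X.i ∘ m')) := by
    intro j F
    by_cases h5 : LegR A f (Y F).B (f' F)
    · have h6 := hno F h5 j
      unfold SchEq at h6
      push Not at h6
      obtain ⟨y, m, m', h7, h8, h9⟩ := h6
      exact ⟨y, fun _ => ⟨m, m', h7, h8, h9⟩⟩
    · obtain ⟨d⟩ := hne F
      exact ⟨fun _ => d, fun h6 => (h5 h6).elim⟩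
  choose y hy using hW
  -- restriction of `NSb`
  have hNS : ∀ m m' : Fin σ.r → N, ST A A (Sum.elim f m) (Sum.elim f m') →
      ST X.B X.B (Sum.elim g (X.i ∘ m)) (Sum.elim g (X.i ∘ m')) := by
    intro m m' h
    have h3 := st_comp (hf σ.r m m' h) (Sum.map id Sum.inr)
    have e1 : ∀ m : Fin σ.r → N, Sum.elim g (X.i ∘ Sum.elim f m) ∘ Sum.map id Sum.inr =
        Sum.elim g (X.i ∘ m) := by
      intro m
      funext j
      rcases j with j | j <;> rfl
    rw [e1, e1] at h3
    exact h3
  -- the schemes in the ultraproduct are different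
  have hdiff : ∀ j : Fin c, ∃ m m' : Fin σ.r → N,
      ST (UP.rs u (fun F => (Y F).B)) A (Sum.elim (fun a => UP.mk u (fun F => f' F a))
        (fun i => UP.mk u (fun F => y j F i))) (Sum.elim f m) ∧
      ST (UP.rs u (fun F => (Y F).B)) A (Sum.elim (fun a => UP.mk u (fun F => (Y F).i (fs j a)))
        (fun i => UP.mk u (fun F => y j F i))) (Sum.elim f m') ∧
      ¬ ST X.B X.B (Sum.elim g (X.i ∘ m)) (Sum.elim g (X.i ∘ m')) := by
    intro j
    obtain ⟨m, hm⟩ := hLst σ.r (fun i => UP.mk u (fun F => y j F i))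
    obtain ⟨m', hm'⟩ := hL1 j σ.r (fun i => UP.mk u (fun F => y j F i))
    refine ⟨m, m', hm, hm', ?_⟩
    intro hmm
    rw [up_sum_iff (fun a F => f' F a) (fun i F => y j F i)] at hm
    rw [up_sum_iff (fun a F => (Y F).i (fs j a)) (fun i F => y j F i)] at hm'
    obtain ⟨F, hF1, hF2, hF3⟩ := (hR.and (hm.and hm')).exists
    obtain ⟨m1, m1', h7, h8, h9⟩ := hy j F hF1
    apply h9
    have k1 : ST A A (Sum.elim f m1) (Sum.elim f m) := st_trans (st_symm h7) hF2
    have k2 : ST A A (Sum.elim f m') (Sum.elim f m1') := st_trans (st_symm hF3) h8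
    exact st_trans (hNS _ _ k1) (st_trans hmm (hNS _ _ k2))
  -- a countable substructure
  obtain ⟨N1, hN1, A1, jm, f1, t1, hA1, hjm, hf1, ej1, ej2⟩ := exists_countable_sub hBC hi1
    (Sum.elim (fun k => UP.mk u (fun F => h2 F k))
      (fun x : Fin c × Fin σ.r => UP.mk u (fun F => y x.1 F x.2)))
  obtain ⟨K2, hK2, C2, e, hC2, he⟩ := exists_ec hA1
  have hμ : Emb C C2 (e ∘ f1) := emb_comp hf1 he
  have ht1 : Emb C A1 (t1 ∘ Sum.inl) := by
    have h3 := emb_st hjm (t1 ∘ Sum.inl)
    have h4 : jm ∘ t1 ∘ Sum.inl = fun k => UP.mk u (fun F => h2 F k) := by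
      rw [← Function.comp_assoc, ej2]
      rfl
    rw [h4] at h3
    exact st_trans hi2 (st_symm h3)
  have hν : Emb C C2 (e ∘ t1 ∘ Sum.inl) := emb_comp ht1 he
  have hL2 : Leg A f C2 ((e ∘ t1 ∘ Sum.inl) ∘ κ ∘ f) :=
    leg_up hC (⟨C2, hC2.1, _, hν⟩ : Ext M0 C K2) hlegC
  obtain ⟨j, hj⟩ := hmax K2 C2 (e ∘ f1) hC2 hμ _ hL2
  obtain ⟨m, m', d1, d2, d3⟩ := hdiff j
  apply d3
  refine hj (fun i => e (t1 (Sum.inr (j, i)))) m m' ?_ ?_
  · refine st_trans ?_ d1
    have h3 := emb_st hjm (Sum.elim ((t1 ∘ Sum.inl) ∘ κ ∘ f) (fun i => t1 (Sum.inr (j, i))))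
    have h4 := emb_st he (Sum.elim ((t1 ∘ Sum.inl) ∘ κ ∘ f) (fun i => t1 (Sum.inr (j, i))))
    have e3 : jm ∘ Sum.elim ((t1 ∘ Sum.inl) ∘ κ ∘ f) (fun i => t1 (Sum.inr (j, i))) =
        Sum.elim (fun a => UP.mk u (fun F => f' F a)) (fun i => UP.mk u (fun F => y j F i)) := by
      funext x
      rcases x with x | x
      · have h5 := congrFun ej2 (Sum.inl (κ (f x)))
        have h6 := congrFun hfs x
        exact h5.trans h6
      · exact congrFun ej2 (Sum.inr (j, x))
    have e4 : e ∘ Sum.elim ((t1 ∘ Sum.inl) ∘ κ ∘ f) (fun i => t1 (Sum.inr (j, i))) =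
        Sum.elim ((e ∘ t1 ∘ Sum.inl) ∘ κ ∘ f) (fun i => e (t1 (Sum.inr (j, i)))) := by
      funext x
      rcases x with x | x <;> rfl
    rw [e3] at h3
    rw [e4] at h4
    exact st_trans (st_symm h4) h3
  · refine st_trans ?_ d2
    have h3 := emb_st hjm (Sum.elim (f1 ∘ fs j) (fun i => t1 (Sum.inr (j, i))))
    have h4 := emb_st he (Sum.elim (f1 ∘ fs j) (fun i => t1 (Sum.inr (j, i))))
    have e3 : jm ∘ Sum.elim (f1 ∘ fs j) (fun i => t1 (Sum.inr (j, i))) =
        Sum.elim (fun a => UP.mk u (fun F => (Y F).i (fs j a)))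
          (fun i => UP.mk u (fun F => y j F i)) := by
      funext x
      rcases x with x | x
      · exact congrFun ej1 (fs j x)
      · exact congrFun ej2 (Sum.inr (j, x))
    have e4 : e ∘ Sum.elim (f1 ∘ fs j) (fun i => t1 (Sum.inr (j, i))) =
        Sum.elim ((e ∘ f1) ∘ fs j) (fun i => e (t1 (Sum.inr (j, i)))) := by
      funext x
      rcases x with x | x <;> rfl
    rw [e3] at h3
    rw [e4] at h4
    exact st_trans (st_symm h4) h3

end Pool.Agent.Helper89.EA
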